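import Pool.Agent.PET.Stmts

/-!
# Squad PET, module ABZ: first absolute moment
-/

set_option autoImplicit false

namespace PET

open MeasureTheory Set
open scoped ENNReal Pointwise

namespace ABZ_

theorem int_half : ∫ x in Ioi (0 : ℝ), x * Real.exp (-(1 / 2) * x ^ 2) = 1 := by
  have h := integral_rpow_mul_exp_neg_mul_rpow (p := 2) (q := 1) (b := 1 / 2) (by norm_num)
    (by norm_num) (by norm_num)
  have h1 : ∫ x in Ioi (0 : ℝ), x * Real.exp (-(1 / 2) * x ^ 2) =
      ∫ x in Ioi (0 : ℝ), x ^ (1 : ℝ) * Real.exp (-(1 / 2) * x ^ (2 : ℝ)) := by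
    refine setIntegral_congr_fun measurableSet_Ioi fun x _ => ?_
    rw [Real.rpow_one, Real.rpow_two]
  rw [h1, h]
  norm_num

theorem int_abs : ∫ x, |x| ∂(ProbabilityTheory.gaussianReal 0 1) = √(2 / Real.pi) := by
  rw [ProbabilityTheory.integral_gaussianReal_eq_integral_smul one_ne_zero]
  have h1 : (fun x : ℝ => ProbabilityTheory.gaussianPDFReal 0 1 x • |x|) =
      fun x : ℝ => (√(2 * Real.pi))⁻¹ * (fun y => y * Real.exp (-(1 / 2) * y ^ 2)) |x| := by
    funext x
    unfold ProbabilityTheory.gaussianPDFReal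
    simp only [smul_eq_mul, sub_zero, NNReal.coe_one, mul_one, sq_abs]
    have : -x ^ 2 / 2 = -(1 / 2) * x ^ 2 := by ring
    rw [this]
    ring
  rw [h1, integral_const_mul,
    integral_comp_abs (f := fun y : ℝ => y * Real.exp (-(1 / 2) * y ^ 2)), int_half]
  have hpi := Real.pi_pos
  rw [mul_one]
  have h2 : √(2 / Real.pi) = 2 * (√(2 * Real.pi))⁻¹ := by
    have h3 : 2 / Real.pi = (2 * (√(2 * Real.pi))⁻¹) ^ 2 := by
      rw [mul_pow, inv_pow, Real.sq_sqrt (by positivity)]
      field_simp
    rw [h3, Real.sqrt_sq (by positivity)]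
  rw [h2]
  ring

theorem integrable_id' : Integrable (fun x : ℝ => x) (ProbabilityTheory.gaussianReal 0 1) :=
  (ProbabilityTheory.memLp_id_gaussianReal 1).integrable le_rfl

theorem int_id : ∫ x, x ∂(ProbabilityTheory.gaussianReal 0 1) = 0 :=
  ProbabilityTheory.integral_id_gaussianReal

theorem sign_mul (x : ℝ) : Real.sign x * x = |x| := by
  rcases lt_trichotomy x 0 with h | h | h
  · rw [Real.sign_of_neg h, abs_of_neg h]
    ring
  · subst h
    simp
  · rw [Real.sign_of_pos h, abs_of_pos h]
    ring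

end ABZ_

open ABZ_ in
theorem abz_proof : Stmt_ABZ := by
  intro c s
  unfold g1
  have hsm : Measurable Real.sign := by
    have : Real.sign = fun x : ℝ => if x < 0 then -1 else if 0 < x then 1 else 0 := rfl
    rw [this]
    refine Measurable.ite measurableSet_Iio measurable_const ?_
    exact Measurable.ite measurableSet_Ioi measurable_const measurable_const
  have hsI : Integrable Real.sign (ProbabilityTheory.gaussianReal 0 1) := by
    refine Integrable.of_bound (C := 1) hsm.aestronglyMeasurable (ae_of_all _ fun x => ?_)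
    rcases Real.sign_apply_eq x with h | h | h <;> rw [h] <;> norm_num
  have e1 : (fun z : ℝ × ℝ => Real.sign z.1 * (c * z.1 + s * z.2)) =
      fun z : ℝ × ℝ => c * (|z.1| * 1) + s * (Real.sign z.1 * z.2) := by
    funext z
    rw [← sign_mul]
    ring
  have i1 : Integrable (fun z : ℝ × ℝ => |z.1| * (1 : ℝ))
      ((ProbabilityTheory.gaussianReal 0 1).prod (ProbabilityTheory.gaussianReal 0 1)) :=
    Integrable.mul_prod (f := fun x : ℝ => |x|) (g := fun _ : ℝ => (1 : ℝ)) integrable_id'.abs
      (integrable_const _)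
  have i2 : Integrable (fun z : ℝ × ℝ => Real.sign z.1 * z.2)
      ((ProbabilityTheory.gaussianReal 0 1).prod (ProbabilityTheory.gaussianReal 0 1)) :=
    Integrable.mul_prod (f := Real.sign) (g := fun x : ℝ => x) hsI integrable_id'
  rw [e1, integral_add (i1.const_mul c) (i2.const_mul s), integral_const_mul, integral_const_mul,
    integral_prod_mul (fun x : ℝ => |x|) (fun _ : ℝ => (1 : ℝ)),
    integral_prod_mul Real.sign (fun x : ℝ => x), int_abs, int_id]
  simp
  ring

end PET
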