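import Pool.Agent.PET.Stmts

set_option autoImplicit false

/-! MP_0bf616_gt, module ADS: adding one slab -/

namespace PET

open MeasureTheory Set Filter Topology
open scoped ENNReal Pointwise
open SBA (EE Body vl kap)

theorem ads_proof (h1 : Stmt_MWB) (h2 : Stmt_HSB) : Stmt_ADS := by
  intro n m t w w₀ x hn ht hw hw₀ hx
  have hn0 : (0 : ℝ) < n := by exact_mod_cast hn
  have hus : US (Fin.cons w₀ w : Fin (m + 1) → EE n) := by
    intro j
    refine Fin.cases ?_ (fun i => ?_) j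
    · exact hw₀
    · exact hw i
  refine ⟨hus, fun v => ?_⟩
  obtain ⟨hB', -, -, hB'4⟩ := h1 n (m + 1) t _ hn ht hus
  obtain ⟨hB, -, -, -⟩ := h1 n m t w hn ht hw
  have hsub : ∀ y, y ∈ MW t (Fin.cons w₀ w : Fin (m + 1) → EE n) → y ∈ MW t w := by
    intro y hy
    refine ⟨hy.1, fun j => ?_⟩
    exact hy.2 j.succ
  obtain ⟨x', hx', hx'2⟩ := (h2 n _ hB').1 v
  have hmax := (h2 n _ hB).2.1 v x' (hsub x' hx')
  have hnn := (h2 n _ hB).2.2.2.2.1 v
  refine ⟨by rw [← hx'2]; exact hmax, fun hbad => ?_⟩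
  have e1 : |inner ℝ x' w₀| ≤ t / √n := hB'4 x' hx' 0
  have hsn : 0 < √(n : ℝ) := Real.sqrt_pos.2 hn0
  have e2 : t / √n ≤ ‖x v - x'‖ := by
    have a1 : |inner ℝ (x v - x') w₀| ≤ ‖x v - x'‖ := by
      have := abs_real_inner_le_norm (x v - x') w₀
      rwa [hw₀, mul_one] at this
    have a2 : |(inner ℝ (x v) w₀ : ℝ)| - |(inner ℝ x' w₀ : ℝ)| ≤ |inner ℝ (x v - x') w₀| := by
      rw [inner_sub_left]
      exact abs_sub_abs_le_abs_sub _ _
    have a3 : 2 * t / √n = t / √n + t / √n := by ring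
    linarith
  have e3 : t ^ 2 / n ≤ ‖x v - x'‖ ^ 2 := by
    have a1 : (t / √n) ^ 2 ≤ ‖x v - x'‖ ^ 2 := pow_le_pow_left₀ (by positivity) e2 2
    have a2 : (t / √n) ^ 2 = t ^ 2 / n := by rw [div_pow, Real.sq_sqrt hn0.le]
    rwa [a2] at a1
  have e4 := hx.uc v x' (hsub x' hx')
  rw [← hx'2]
  refine e4.trans (mul_le_mul_of_nonneg_right ?_ hnn)
  have e5 : t ^ 2 / (4 * n) = t ^ 2 / n / 4 := by field_simp
  rw [e5]
  linarith

end PET
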