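import Pool.Agent.PET.Stmts

/-!
# ADT: `SL(n)` invariance of admissible measures
-/

set_option autoImplicit false

namespace PET

open MeasureTheory Set Filter
open SBA (EE Body vl kap)

namespace ADT_

variable {n : ℕ}

lemma det_adjoint (A : EE n →L[ℝ] EE n) : (ContinuousLinearMap.adjoint A).det = A.det := by
  unfold ContinuousLinearMap.det
  rw [← ContinuousLinearMap.adjoint_toLinearMap,
    ← LinearMap.det_toMatrix (EuclideanSpace.basisFun (Fin n) ℝ).toBasis,
    LinearMap.toMatrix_adjoint, Matrix.det_conjTranspose,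
    ← LinearMap.det_toMatrix (EuclideanSpace.basisFun (Fin n) ℝ).toBasis]
  simp

lemma int_map (μ : Measure (EE n)) (A : EE n →L[ℝ] EE n) (u : EE n) :
    ∫ v, |inner ℝ u v| ∂(μ.map A) = ∫ v, |inner ℝ (ContinuousLinearMap.adjoint A u) v| ∂μ := by
  rw [integral_map A.continuous.aemeasurable (by fun_prop)]
  simp_rw [ContinuousLinearMap.adjoint_inner_left]

lemma zn_map (μ : Measure (EE n)) (A : EE n →L[ℝ] EE n) (hA : A.det = 1) :
    Zn (μ.map A) = A '' Zn μ := by
  have hA0 : A.det ≠ 0 := by rw [hA]; exact one_ne_zero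
  have hA0' : (ContinuousLinearMap.adjoint A).det ≠ 0 := by rw [det_adjoint]; exact hA0
  ext x
  constructor
  · intro hx
    refine ⟨(A.toContinuousLinearEquivOfDetNeZero hA0).symm x, ?_, ?_⟩
    · intro w
      obtain ⟨u, rfl⟩ : ∃ u, ContinuousLinearMap.adjoint A u = w := by
        refine ⟨((ContinuousLinearMap.adjoint A).toContinuousLinearEquivOfDetNeZero hA0').symm w,
          ?_⟩
        have h := ((ContinuousLinearMap.adjoint A).toContinuousLinearEquivOfDetNeZero
          hA0').apply_symm_apply w
        rwa [ContinuousLinearMap.toContinuousLinearEquivOfDetNeZero_apply] at h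
      rw [ContinuousLinearMap.adjoint_inner_right, ← int_map μ A u]
      have h := (A.toContinuousLinearEquivOfDetNeZero hA0).apply_symm_apply x
      rw [ContinuousLinearMap.toContinuousLinearEquivOfDetNeZero_apply] at h
      rw [h]
      exact hx u
    · have h := (A.toContinuousLinearEquivOfDetNeZero hA0).apply_symm_apply x
      rwa [ContinuousLinearMap.toContinuousLinearEquivOfDetNeZero_apply] at h
  · rintro ⟨y, hy, rfl⟩ u
    rw [int_map μ A u, ← ContinuousLinearMap.adjoint_inner_right]
    exact hy _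

end ADT_

theorem adt_proof (h1 : Stmt_HSB) (h2 : Stmt_HSL) : Stmt_ADT := by
  intro n μ _ A hn hμ hA
  have hn1 : 1 ≤ n := le_trans (by norm_num) hn
  have hA0 : A.det ≠ 0 := by rw [hA]; exact one_ne_zero
  have hA0' : (ContinuousLinearMap.adjoint A).det ≠ 0 := by rw [ADT_.det_adjoint]; exact hA0
  obtain ⟨k1, _, _, _, _, k6⟩ := h2 n hn1
  refine ⟨⟨?_, ?_⟩, ?_⟩
  · obtain ⟨a, b, ha, hab⟩ := hμ.bd
    obtain ⟨a', ha', hA'⟩ := k6 A hA
    refine ⟨a' * a, ‖A‖ * b, mul_pos ha' ha, ?_⟩
    rw [ae_map_iff A.continuous.aemeasurable]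
    · filter_upwards [hab] with v hv
      exact ⟨(mul_le_mul_of_nonneg_left hv.1 ha'.le).trans (hA' v),
        (A.le_opNorm v).trans (mul_le_mul_of_nonneg_left hv.2 (norm_nonneg _))⟩
    · exact (measurableSet_le measurable_const measurable_norm).inter
        (measurableSet_le measurable_norm measurable_const)
  · intro M hM
    have hcont : Continuous (hs M) := (h1 n M hM).2.2.2.2.2.1
    rw [integral_map A.continuous.aemeasurable hcont.aestronglyMeasurable]
    obtain ⟨m1, m2, m3⟩ := k1 M (ContinuousLinearMap.adjoint A) hM hA0'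
    have h := hμ.mink (ContinuousLinearMap.adjoint A '' M) m1
    rw [m2, ADT_.det_adjoint, hA, abs_one, one_mul] at h
    refine h.trans (le_of_eq ?_)
    refine integral_congr_ae (Filter.Eventually.of_forall fun v => ?_)
    simp only [m3, ContinuousLinearMap.adjoint_adjoint]
  · rw [ADT_.zn_map μ A hA]
    unfold vl
    rw [Measure.addHaar_image_continuousLinearMap]
    have : LinearMap.det (A : EE n →ₗ[ℝ] EE n) = 1 := hA
    rw [this]
    simp

end PET
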