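import Pool.Agent.PET.Stmts

/-!
# Squad PET, module AEV: the good event (Markov's inequality)
-/

namespace PET

open MeasureTheory
open SBA (EE Body vl kap)

theorem aev_proof (h1 : Stmt_PPZ) (h2 : Stmt_EVA) : Stmt_AEV := by
  intro n μ _ x β ε θ lam δ hn hβ hlam hδ hGP hle
  obtain ⟨a, b, -, hab⟩ := hGP.bd
  have hb : ∀ᵐ v ∂μ, ‖v‖ ≤ b := hab.mono fun v hv => hv.2
  obtain ⟨hm, -, -⟩ := h1 n μ β b x hβ hGP.meas hGP.nrm hb
  obtain ⟨hint, -⟩ := h2 n μ x β ε θ lam hn hβ hlam hGP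
  have hmeasf : Measurable fun y : EE n => ‖pp μ β x y - l0 β lam • y‖ :=
    (hm.sub (measurable_id.const_smul (l0 β lam))).norm
  have hset : MeasurableSet {y | ‖pp μ β x y - l0 β lam • y‖ ≤ 2 * l0 β lam * δ * √n} :=
    measurableSet_le hmeasf measurable_const
  refine ⟨hset, ?_⟩
  have hprob : IsProbabilityMeasure (gS n) := by
    unfold gS; infer_instance
  have hl0 : 0 < l0 β lam := by
    unfold l0; positivity
  have hn0 : (0 : ℝ) < n := by exact_mod_cast hn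
  set e0 : ℝ := (2 * l0 β lam * δ * √n) ^ 2 with he0
  have he0' : e0 = 4 * (l0 β lam ^ 2 * n * δ ^ 2) := by
    rw [he0]
    have : (2 * l0 β lam * δ * √n) ^ 2 = 4 * (l0 β lam ^ 2 * (√n) ^ 2 * δ ^ 2) := by ring
    rw [this, Real.sq_sqrt hn0.le]
  have he0p : 0 < e0 := by rw [he0']; positivity
  have hmk := mul_meas_ge_le_integral_of_nonneg (μ := gS n)
    (f := fun y => ‖pp μ β x y - l0 β lam • y‖ ^ 2)
    (Filter.Eventually.of_forall fun y => by positivity) hint e0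
  have hbad : (gS n).real {y | e0 ≤ ‖pp μ β x y - l0 β lam • y‖ ^ 2} ≤ 1 / 4 := by
    have h3 : e0 * (gS n).real {y | e0 ≤ ‖pp μ β x y - l0 β lam • y‖ ^ 2} ≤ e0 * (1 / 4) := by
      calc _ ≤ _ := hmk
        _ ≤ _ := hle
        _ = e0 * (1 / 4) := by rw [he0']; ring
    exact le_of_mul_le_mul_left h3 he0p
  have hcomp : {y | ‖pp μ β x y - l0 β lam • y‖ ≤ 2 * l0 β lam * δ * √n}ᶜ ⊆
      {y | e0 ≤ ‖pp μ β x y - l0 β lam • y‖ ^ 2} := by
    intro y hy
    simp only [Set.mem_compl_iff, Set.mem_setOf_eq, not_le] at hy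
    simp only [Set.mem_setOf_eq]
    rw [he0]
    exact pow_le_pow_left₀ (by positivity) hy.le 2
  have h4 : (gS n).real {y | ‖pp μ β x y - l0 β lam • y‖ ≤ 2 * l0 β lam * δ * √n}ᶜ ≤ 1 / 4 :=
    (measureReal_mono hcomp).trans hbad
  have h5 := probReal_compl_eq_one_sub (μ := gS n) hset
  have h6 : 3 / 4 ≤ (gS n).real {y | ‖pp μ β x y - l0 β lam • y‖ ≤ 2 * l0 β lam * δ * √n} := by
    linarith
  rw [ENNReal.ofReal_le_iff_le_toReal (measure_ne_top _ _)]
  exact h6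

end PET
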