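import Pool.Agent.PET.Stmts

/-!
# Squad PET, module ASN: elementary bound for arcsin
-/

namespace PET

namespace ASN_

lemma arcsin_le {s : ℝ} (hs : 0 ≤ s) (hs1 : s ≤ 1) :
    0 ≤ Real.arcsin s ∧ Real.arcsin s ≤ Real.pi / 2 * s := by
  have h0 : 0 ≤ Real.arcsin s := Real.arcsin_nonneg.2 hs
  refine ⟨h0, ?_⟩
  have h1 := Real.mul_le_sin h0 (Real.arcsin_le_pi_div_two s)
  rw [Real.sin_arcsin (by linarith) hs1] at h1
  have hpi := Real.pi_pos
  calc Real.arcsin s = Real.pi / 2 * (2 / Real.pi * Real.arcsin s) := by field_simp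
    _ ≤ Real.pi / 2 * s := mul_le_mul_of_nonneg_left h1 (by positivity)

lemma abs_arcsin_le {s : ℝ} (hs : |s| ≤ 1) : |Real.arcsin s| ≤ Real.pi / 2 * |s| := by
  rcases le_total 0 s with h | h
  · rw [abs_of_nonneg h] at hs ⊢
    obtain ⟨h0, h1⟩ := arcsin_le h hs
    rw [abs_of_nonneg h0]
    exact h1
  · rw [abs_of_nonpos h] at hs ⊢
    obtain ⟨h0, h1⟩ := arcsin_le (s := -s) (by linarith) hs
    rw [← abs_neg, ← Real.arcsin_neg, abs_of_nonneg h0]
    exact h1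

end ASN_

open ASN_ in
theorem asn_proof : Stmt_ASN := by
  intro s hs
  have h1 := Real.abs_sub_sin_le (Real.arcsin s)
  obtain ⟨hs1, hs2⟩ := abs_le.1 hs
  rw [Real.sin_arcsin hs1 hs2] at h1
  refine h1.trans ?_
  have h2 := abs_arcsin_le hs
  have hpi : Real.pi / 2 ≤ 1.6 := by
    have := Real.pi_lt_d2
    linarith
  have h3 : |Real.arcsin s| ≤ 1.6 * |s| :=
    h2.trans (mul_le_mul_of_nonneg_right hpi (abs_nonneg s))
  have h4 : |Real.arcsin s| ^ 3 ≤ (1.6 * |s|) ^ 3 := pow_le_pow_left₀ (abs_nonneg _) h3 3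
  have h5 : (1.6 * |s|) ^ 3 = 4.096 * |s| ^ 3 := by ring
  rw [h5] at h4
  have h6 : 0 ≤ |s| ^ 3 := by positivity
  linarith

end PET
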