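import Pool.Agent.PET.Stmts

/-!
# Squad PET, module BAD: the three bad events
-/

set_option maxHeartbeats 4000000
set_option linter.unusedVariables false

namespace PET

open MeasureTheory Set Filter Topology
open scoped ENNReal Pointwise
open SBA (EE Body vl kap)

noncomputable section

theorem bad_proof (h1 : Stmt_VHS) : Stmt_BAD := by
  intro n μ _ x z β ε θ lam hn hβ hlam hε hθ hG hz hz1
  classical
  obtain ⟨a, b, ha, hab⟩ := hG.bd
  have hS := (h1 n μ x β ε θ lam hn hβ hlam hG).1
  have hi : Integrable (fun v : EE n => ‖v‖) μ := by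
    apply Integrable.of_bound continuous_norm.aestronglyMeasurable b
    filter_upwards [hab] with v hv
    rw [norm_norm]
    exact hv.2
  have hθn : 0 ≤ θ * (n * lam) := by positivity
  have key : ∀ u : EE n, (‖u‖ = 1 ∨ u = 0) →
      ∫ v, (if ε ≤ |(inner ℝ (x v) u : ℝ)| then (1 : ℝ) else 0) * ‖v‖ ∂μ ≤ θ * (n * lam) := by
    intro u hu
    rcases hu with hu | hu
    · have hm : MeasurableSet {v | ε ≤ |(inner ℝ (x v) u : ℝ)|} := by
        apply measurableSet_le measurable_const
        exact (hG.meas.inner measurable_const).abs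
      have e1 : (fun v : EE n => (if ε ≤ |(inner ℝ (x v) u : ℝ)| then (1 : ℝ) else 0) * ‖v‖)
          = {v | ε ≤ |(inner ℝ (x v) u : ℝ)|}.indicator (fun v => ‖v‖) := by
        funext v
        rw [Set.indicator_apply]
        simp only [Set.mem_setOf_eq]
        split_ifs <;> simp
      rw [e1, integral_indicator hm]
      exact hG.dif u hu
    · have e1 : (fun v : EE n => (if ε ≤ |(inner ℝ (x v) u : ℝ)| then (1 : ℝ) else 0) * ‖v‖)
          = fun _ => 0 := by
        funext v
        rw [hu, inner_zero_right, abs_zero, if_neg (by linarith), zero_mul]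
      rw [e1, integral_zero]
      exact hθn
  -- second form
  have hfin : ∀ (F : EE n → ℝ), (∀ v, F v ≤ θ * (n * lam)) → (∀ v, 0 ≤ F v) →
      ∫ v, F v * ‖v‖ ∂μ ≤ θ * (n * lam) * (n * lam / β) := by
    intro F hF hF0
    calc ∫ v, F v * ‖v‖ ∂μ ≤ ∫ v, θ * (n * lam) * ‖v‖ ∂μ := by
          apply integral_mono_of_nonneg
          · exact Eventually.of_forall fun v => mul_nonneg (hF0 v) (norm_nonneg _)
          · exact hi.const_mul _
          · exact Eventually.of_forall fun v => mul_le_mul_of_nonneg_right (hF v) (norm_nonneg _)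
      _ = θ * (n * lam) * ∫ v, ‖v‖ ∂μ := integral_const_mul _ _
      _ ≤ θ * (n * lam) * (n * lam / β) := mul_le_mul_of_nonneg_left hS hθn
  have h0 : ∀ u : EE n, 0 ≤ ∫ v, (if ε ≤ |(inner ℝ (x v) u : ℝ)| then (1 : ℝ) else 0) * ‖v‖ ∂μ := by
    intro u
    apply integral_nonneg
    intro v
    exact mul_nonneg (by split_ifs <;> norm_num) (norm_nonneg _)
  constructor
  · have hsw : ∫ v, ∫ v', (if ε ≤ |(inner ℝ (x v) (z v') : ℝ)| then (1 : ℝ) else 0) *
          (‖v‖ * ‖v'‖) ∂μ ∂μ
        = ∫ v', ∫ v, (if ε ≤ |(inner ℝ (x v) (z v') : ℝ)| then (1 : ℝ) else 0) *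
          (‖v‖ * ‖v'‖) ∂μ ∂μ := by
      apply integral_integral_swap
      have hdom : Integrable (fun p : EE n × EE n => ‖p.1‖ * ‖p.2‖) (μ.prod μ) := hi.mul_prod hi
      refine Integrable.mono' hdom ?_ ?_
      · apply Measurable.aestronglyMeasurable
        apply Measurable.mul
        · apply Measurable.ite
          · apply measurableSet_le measurable_const
            exact ((hG.meas.comp measurable_fst).inner (hz.comp measurable_snd)).abs
          · exact measurable_const
          · exact measurable_const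
        · exact measurable_fst.norm.mul measurable_snd.norm
      · refine Eventually.of_forall fun p => ?_
        simp only [Function.uncurry]
        rw [Real.norm_eq_abs, abs_of_nonneg (mul_nonneg (by split_ifs <;> norm_num) (by positivity))]
        have h5 : (if ε ≤ |(inner ℝ (x p.1) (z p.2) : ℝ)| then (1 : ℝ) else 0) ≤ 1 := by
          split_ifs <;> norm_num
        calc (if ε ≤ |(inner ℝ (x p.1) (z p.2) : ℝ)| then (1 : ℝ) else 0) * (‖p.1‖ * ‖p.2‖)
            ≤ 1 * (‖p.1‖ * ‖p.2‖) := mul_le_mul_of_nonneg_right h5 (by positivity)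
          _ = _ := one_mul _
    rw [hsw]
    have e2 : ∀ v' : EE n, ∫ v, (if ε ≤ |(inner ℝ (x v) (z v') : ℝ)| then (1 : ℝ) else 0) *
          (‖v‖ * ‖v'‖) ∂μ
        = (∫ v, (if ε ≤ |(inner ℝ (x v) (z v') : ℝ)| then (1 : ℝ) else 0) * ‖v‖ ∂μ) * ‖v'‖ := by
      intro v'
      rw [← integral_mul_const]
      congr 1
      funext v
      ring
    simp only [e2]
    exact hfin _ (fun v' => key (z v') (hz1 v')) (fun v' => h0 _)
  · have e2 : ∀ v : EE n, ∫ v', (if ε ≤ |(inner ℝ (x v') (z v) : ℝ)| then (1 : ℝ) else 0) *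
          (‖v‖ * ‖v'‖) ∂μ
        = (∫ v', (if ε ≤ |(inner ℝ (x v') (z v) : ℝ)| then (1 : ℝ) else 0) * ‖v'‖ ∂μ) * ‖v‖ := by
      intro v
      rw [← integral_mul_const]
      congr 1
      funext v'
      ring
    simp only [e2]
    exact hfin _ (fun v => key (z v) (hz1 v)) (fun v => h0 _)

end

end PET
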