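import Pool.Agent.PET.Stmts

/-!
# BBM: the vectors `bb` have norm at most one
-/

set_option autoImplicit false

namespace PET

open MeasureTheory Set Filter
open SBA (EE Body vl kap)

theorem bbm_proof : Stmt_BBM := by
  intro n β x hβ hx hx1
  refine ⟨?_, fun v => ?_⟩
  · unfold bb
    fun_prop
  · unfold bb
    rw [norm_smul, norm_inv, Real.norm_of_nonneg (by positivity : (0 : ℝ) ≤ 1 + β),
      inv_mul_le_iff₀ (by positivity : (0 : ℝ) < 1 + β), mul_one]
    refine (norm_add_le _ _).trans (add_le_add (hx1 v) ?_)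
    rw [norm_smul, norm_div, norm_norm, Real.norm_of_nonneg hβ.le]
    by_cases hv : v = 0
    · simp [hv, hβ.le]
    · have hv0 : 0 < ‖v‖ := norm_pos_iff.2 hv
      rw [div_mul_cancel₀ _ hv0.ne']

end PET
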