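import Pool.Agent.PET.Stmts

/-!
# CAP: volume of a cap
-/

set_option autoImplicit false

namespace PET

open MeasureTheory Set Filter
open SBA (EE Body vl kap)

namespace CAP_

variable {n : ℕ}

lemma half_sub (w : EE n) (hw : ‖w‖ = 1) (a : ℝ) (ha0 : 0 ≤ a) :
    Metric.closedBall (0 : EE n) 1 ∩ {x | a < inner ℝ x w} ⊆
      Metric.closedBall (a • w) (√(1 - a ^ 2)) := by
  rintro x ⟨hx, hxa⟩
  rw [mem_closedBall_zero_iff] at hx
  simp only [mem_setOf_eq] at hxa
  rw [Metric.mem_closedBall, dist_eq_norm]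
  refine Real.le_sqrt_of_sq_le ?_
  have h1 : ‖x - a • w‖ ^ 2 = ‖x‖ ^ 2 - 2 * (a * inner ℝ x w) + a ^ 2 := by
    rw [norm_sub_sq_real, inner_smul_right, norm_smul, hw, Real.norm_of_nonneg ha0, mul_one]
  rw [h1]
  have h2 : ‖x‖ ^ 2 ≤ 1 := by
    have := norm_nonneg x
    nlinarith
  nlinarith

lemma vol_half (w : EE n) (hw : ‖w‖ = 1) (a : ℝ) (ha0 : 0 ≤ a) :
    volume (Metric.closedBall (0 : EE n) 1 ∩ {x | a < inner ℝ x w}) ≤
      ENNReal.ofReal (√(1 - a ^ 2) ^ n) * volume (Metric.closedBall (0 : EE n) 1) := by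
  refine (measure_mono (half_sub w hw a ha0)).trans (le_of_eq ?_)
  rw [Measure.addHaar_closedBall' _ _ (Real.sqrt_nonneg _)]
  simp

end CAP_

theorem cap_proof : Stmt_CAP := by
  intro n w a hn hw ha0
  have hfin : volume (Metric.closedBall (0 : EE n) 1) < ⊤ := measure_closedBall_lt_top
  have hkap : 0 ≤ kap n := ENNReal.toReal_nonneg
  have hsub : Metric.closedBall (0 : EE n) 1 ∩ {x | a < |inner ℝ x w|} ⊆
      (Metric.closedBall (0 : EE n) 1 ∩ {x | a < inner ℝ x w}) ∪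
      (Metric.closedBall (0 : EE n) 1 ∩ {x | a < inner ℝ x (-w)}) := by
    rintro x ⟨hx, hxa⟩
    simp only [mem_setOf_eq] at hxa
    rcases lt_abs.1 hxa with h | h
    · exact Or.inl ⟨hx, h⟩
    · refine Or.inr ⟨hx, ?_⟩
      simp only [mem_setOf_eq, inner_neg_right]
      exact h
  have hvol : volume (Metric.closedBall (0 : EE n) 1 ∩ {x | a < |inner ℝ x w|}) ≤
      2 * (ENNReal.ofReal (√(1 - a ^ 2) ^ n) * volume (Metric.closedBall (0 : EE n) 1)) := by
    refine (measure_mono hsub).trans ((measure_union_le _ _).trans ?_)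
    rw [two_mul]
    exact add_le_add (CAP_.vol_half w hw a ha0)
      (CAP_.vol_half (-w) (by rw [norm_neg, hw]) a ha0)
  have hreal : vl (Metric.closedBall 0 1 ∩ {x : EE n | a < |inner ℝ x w|}) ≤
      2 * (√(1 - a ^ 2) ^ n * kap n) := by
    unfold vl kap vl
    have hp : 0 ≤ √(1 - a ^ 2) ^ n := pow_nonneg (Real.sqrt_nonneg _) n
    have htop : 2 * (ENNReal.ofReal (√(1 - a ^ 2) ^ n) *
        volume (Metric.closedBall (0 : EE n) 1)) ≠ ⊤ :=
      ENNReal.mul_ne_top (by norm_num) (ENNReal.mul_ne_top ENNReal.ofReal_ne_top hfin.ne)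
    have h := ENNReal.toReal_mono htop hvol
    rwa [ENNReal.toReal_mul, ENNReal.toReal_mul, ENNReal.toReal_ofReal hp,
      ENNReal.toReal_ofNat] at h
  refine hreal.trans ?_
  have hexp : √(1 - a ^ 2) ^ n ≤ Real.exp (-(n * a ^ 2 / 2)) := by
    have h1 : √(1 - a ^ 2) ≤ Real.exp (-(a ^ 2 / 2)) := by
      rw [Real.sqrt_le_left (Real.exp_pos _).le, ← Real.exp_nat_mul]
      have h2 := Real.add_one_le_exp (-(a ^ 2))
      have h3 : ((2 : ℕ) : ℝ) * -(a ^ 2 / 2) = -(a ^ 2) := by push_cast; ring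
      rw [h3]
      linarith
    calc √(1 - a ^ 2) ^ n ≤ Real.exp (-(a ^ 2 / 2)) ^ n :=
          pow_le_pow_left₀ (Real.sqrt_nonneg _) h1 n
      _ = Real.exp (-(n * a ^ 2 / 2)) := by
          rw [← Real.exp_nat_mul]
          congr 1
          ring
  have := mul_le_mul_of_nonneg_right hexp hkap
  linarith

end PET
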