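import Pool.Agent.PET.Stmts

/-!
# PET module COV: covering (uses SHF)
-/

set_option autoImplicit false

namespace PET

open MeasureTheory Set Filter Topology
open scoped ENNReal Pointwise
open SBA (EE Body vl kap)

namespace COV_

/-- Tonelli -/
theorem ton (n : ℕ) (W : Set (EE n)) (hW : MeasurableSet W) (σ : ℝ) :
    ∫⁻ x : EE n, gS n {y | x + σ • y ∈ W} = volume W := by
  have : IsProbabilityMeasure (gS n) := by unfold gS; infer_instance
  set P : Set (EE n × EE n) := {z | z.1 + σ • z.2 ∈ W} with hP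
  have hPm : MeasurableSet P := by
    have : Continuous fun z : EE n × EE n => z.1 + σ • z.2 := by fun_prop
    exact this.measurable hW
  have h1 : ((volume : Measure (EE n)).prod (gS n)) P = ∫⁻ x : EE n, gS n {y | x + σ • y ∈ W} := by
    rw [Measure.prod_apply hPm]
    rfl
  have h2 : ((volume : Measure (EE n)).prod (gS n)) P = volume W := by
    rw [Measure.prod_apply_symm hPm]
    have : ∀ y : EE n, volume ((fun x : EE n => (x, y)) ⁻¹' P) = volume W := by
      intro y
      have e : (fun x : EE n => (x, y)) ⁻¹' P = (fun x : EE n => x + σ • y) ⁻¹' W := rfl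
      rw [e, measure_preimage_add_right]
    simp_rw [this]
    rw [lintegral_const, measure_univ, mul_one]
  rw [← h1, h2]

end COV_

theorem cov_proof (h1 : Stmt_SHF) : Stmt_COV := by
  intro n Z s σ ρ hn hZ hs hσ hρ hg
  have hZc := hZ.compact
  have hW : IsCompact ((1 + s) • Z) := hZc.smul (1 + s)
  have hsZ : IsCompact (s • Z) := hZc.smul s
  set K : Set (EE n) := Z + Metric.closedBall (0 : EE n) ρ with hK
  have hKc : IsCompact K := hZc.add (isCompact_closedBall _ _)
  set C : Set (EE n) := {y | σ • y ∈ s • Z} with hC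
  have hCm : MeasurableSet C := by
    have : Continuous fun y : EE n => σ • y := by fun_prop
    exact this.measurable hsZ.isClosed.measurableSet
  have hCs : ∀ x ∈ C, -x ∈ C := by
    intro x hx
    rw [hC, Set.mem_ofPred_eq] at hx ⊢
    obtain ⟨z, hz, hzx⟩ := Set.mem_smul_set.mp hx
    refine Set.mem_smul_set.mpr ⟨-z, hZ.symm z hz, ?_⟩
    rw [smul_neg, hzx, smul_neg]
  have key : ∀ x ∈ K, ENNReal.ofReal (3 / 4 * Real.exp (-(ρ ^ 2 / (2 * σ ^ 2)))) ≤
      gS n {y | x + σ • y ∈ (1 + s) • Z} := by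
    intro x hx
    obtain ⟨z, hz, b, hb, hzb⟩ := Set.mem_add.mp hx
    have hbn : ‖b‖ ≤ ρ := by simpa using hb
    have h2 := h1 n C (σ⁻¹ • b) hn hCm hCs
    have hsub : {y | σ⁻¹ • b + y ∈ C} ⊆ {y | x + σ • y ∈ (1 + s) • Z} := by
      intro y hy
      rw [Set.mem_ofPred_eq] at hy ⊢
      have hy2 : σ • (σ⁻¹ • b + y) ∈ s • Z := hy
      rw [smul_add, smul_smul, mul_inv_cancel₀ hσ.ne', one_smul] at hy2
      rw [hZ.convex.add_smul zero_le_one hs.le, one_smul]
      rw [← hzb, add_assoc]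
      exact Set.add_mem_add hz hy2
    have h3 : ENNReal.ofReal (3 / 4 * Real.exp (-(ρ ^ 2 / (2 * σ ^ 2)))) ≤
        ENNReal.ofReal (Real.exp (-(‖σ⁻¹ • b‖ ^ 2 / 2))) * gS n C := by
      have h4 : 3 / 4 * Real.exp (-(ρ ^ 2 / (2 * σ ^ 2))) ≤
          Real.exp (-(‖σ⁻¹ • b‖ ^ 2 / 2)) * (3 / 4) := by
        have h6 : ‖σ⁻¹ • b‖ ^ 2 / 2 ≤ ρ ^ 2 / (2 * σ ^ 2) := by
          rw [norm_smul, norm_inv, Real.norm_eq_abs, abs_of_pos hσ, mul_pow]
          have e : ρ ^ 2 / (2 * σ ^ 2) = σ⁻¹ ^ 2 * ρ ^ 2 / 2 := by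
            field_simp
          rw [e]
          gcongr
        have h7 := Real.exp_le_exp.mpr (neg_le_neg h6)
        linarith
      refine (ENNReal.ofReal_le_ofReal h4).trans ?_
      rw [ENNReal.ofReal_mul (Real.exp_pos _).le]
      gcongr
    exact h3.trans (h2.trans (measure_mono hsub))
  have hint : ENNReal.ofReal (3 / 4 * Real.exp (-(ρ ^ 2 / (2 * σ ^ 2)))) * volume K ≤
      volume ((1 + s) • Z) := by
    rw [← COV_.ton n ((1 + s) • Z) hW.isClosed.measurableSet σ]
    calc ENNReal.ofReal (3 / 4 * Real.exp (-(ρ ^ 2 / (2 * σ ^ 2)))) * volume K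
        = ∫⁻ x in K, ENNReal.ofReal (3 / 4 * Real.exp (-(ρ ^ 2 / (2 * σ ^ 2)))) := by
          rw [setLIntegral_const]
      _ ≤ ∫⁻ x in K, gS n {y | x + σ • y ∈ (1 + s) • Z} :=
          setLIntegral_mono' hKc.isClosed.measurableSet key
      _ ≤ ∫⁻ x, gS n {y | x + σ • y ∈ (1 + s) • Z} := setLIntegral_le_lintegral _ _
  have hvol : volume ((1 + s) • Z) = ENNReal.ofReal ((1 + s) ^ n) * volume Z := by
    rw [Measure.addHaar_smul, finrank_euclideanSpace_fin, abs_of_pos (by positivity)]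
  have hfin : volume Z ≠ ⊤ := hZc.measure_ne_top
  rw [hvol] at hint
  have h5 := ENNReal.toReal_mono (ENNReal.mul_ne_top ENNReal.ofReal_ne_top hfin) hint
  rw [ENNReal.toReal_mul, ENNReal.toReal_mul, ENNReal.toReal_ofReal (by positivity),
    ENNReal.toReal_ofReal (by positivity)] at h5
  exact h5

end PET
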