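import Pool.Agent.PET.Stmts

/-!
# Squad PET, module CSA: the case where all linear images have large mean norm
-/

set_option maxHeartbeats 4000000
set_option linter.unusedVariables false

namespace PET

open MeasureTheory Set Filter Topology
open scoped ENNReal Pointwise
open SBA (EE Body vl kap)

noncomputable section

namespace CSA_

theorem mw_empty {n : ℕ} (w : Fin 0 → EE n) : MW 1 w = Metric.closedBall (0 : EE n) 1 := by
  ext x
  unfold MW
  simp

theorem dir {n : ℕ} (x v : EE n) (hx : ‖x‖ ≤ 1) (hv : v ≠ 0) (h : inner ℝ x v = ‖v‖) :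
    x = (1 / ‖v‖) • v := by
  have hv0 : 0 < ‖v‖ := norm_pos_iff.mpr hv
  have h1 : ‖x - (1 / ‖v‖) • v‖ ^ 2 = ‖x‖ ^ 2 - 1 := by
    rw [norm_sub_sq_real, inner_smul_right, h, norm_smul, Real.norm_eq_abs, abs_of_pos (by positivity)]
    field_simp
    ring
  have h2 : ‖x - (1 / ‖v‖) • v‖ ^ 2 ≤ 0 := by
    rw [h1]
    nlinarith [norm_nonneg x]
  have h3 : ‖x - (1 / ‖v‖) • v‖ = 0 := by
    have := sq_nonneg ‖x - (1 / ‖v‖) • v‖
    exact pow_eq_zero_iff (two_ne_zero) |>.mp (le_antisymm h2 this)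
  exact sub_eq_zero.mp (norm_eq_zero.mp h3)

end CSA_

open CSA_ in
theorem csa_proof (h1 : Stmt_PSM) (h2 : Stmt_TRM) (h3 : Stmt_ADT) (h4 : Stmt_MXV) (h5 : Stmt_STA)
    (h6 : Stmt_ZNB) (h7 : Stmt_DTS) (h8 : Stmt_MWB) (h9 : Stmt_HSL) : Stmt_CSA := by
  intro n μ _ S hn hμ hS hA
  have hn1 : 1 ≤ n := by omega
  obtain ⟨w, A, hw, hdet, hmin⟩ := h1 n 0 μ 1 1 hn one_pos one_pos hμ
  obtain ⟨hν, hvol⟩ := h3 n μ A hn hμ hdet
  obtain ⟨a0, b0, ha0, hab⟩ := hμ.bd
  have hμb : ∀ᵐ v ∂μ, ‖v‖ ≤ b0 := hab.mono fun v hv => hv.2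
  obtain ⟨a1, b1, ha1, hab1⟩ := hν.bd
  have hνb : ∀ᵐ v ∂(μ.map A), ‖v‖ ≤ b1 := hab1.mono fun v hv => hv.2
  have hνne : ∀ᵐ v ∂(μ.map A), v ≠ 0 := hab1.mono fun v hv h0 => by
    rw [h0, norm_zero] at hv
    linarith [hv.1]
  obtain ⟨x, hx⟩ := h4 n 0 1 w hn1 one_pos hw
  have hMW := mw_empty w
  have hhs : ∀ v : EE n, hs (MW 1 w) v = ‖v‖ := by
    rw [hMW]
    exact (h9 n hn1).2.2.1
  -- the pair is a minimiser for the image measure
  have hIs : IsMin (μ.map A) 1 1 w := by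
    intro w' A' hw' hA'
    rw [(h2 n 0 μ 1 1 b0 w A hn1 one_pos hw hμb).2.2, (h2 n 0 μ 1 1 b0 w' A hn1 one_pos hw' hμb).2.2]
    have e1 : (ContinuousLinearMap.id ℝ (EE n)).comp A = A := ContinuousLinearMap.id_comp A
    rw [e1]
    apply hmin w' (A'.comp A) hw'
    rw [(h7 n hn1).2.2, hA', hdet, one_mul]
  have hiN : Integrable (fun v => ‖v‖) (μ.map A) := by
    have := (h2 n 0 (μ.map A) 1 1 b1 w (ContinuousLinearMap.id ℝ (EE n)) hn1 one_pos hw hνb).2.1
    exact this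
  have hPsi : Psi (μ.map A) 1 1 w (ContinuousLinearMap.id ℝ (EE n)) = 2 * ∫ v, ‖v‖ ∂(μ.map A) := by
    unfold Psi
    rw [← integral_const_mul]
    apply integral_congr_ae
    refine Eventually.of_forall fun v => ?_
    show hs (MW 1 w) v + 1 * ‖v‖ = 2 * ‖v‖
    rw [hhs]
    ring
  have hS' : S ≤ ∫ v, ‖v‖ ∂(μ.map A) := by
    rw [integral_map A.continuous.measurable.aemeasurable
      continuous_norm.aestronglyMeasurable]
    exact hA A hdet
  have hSTA := h5 n 0 (μ.map A) 1 1 w x hn one_pos one_pos hν hw hx hIs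
  have hn0 : (0 : ℝ) < n := by exact_mod_cast (by omega : 0 < n)
  -- second moments
  have hsec : ∀ u : EE n, ∫ v, (inner ℝ v u : ℝ) ^ 2 / ‖v‖ ∂(μ.map A)
      = (∫ v, ‖v‖ ∂(μ.map A)) / n * ‖u‖ ^ 2 := by
    intro u
    have e1 := hSTA u u
    rw [hPsi] at e1
    have e2 : ∫ v, inner ℝ (x v + (1 / ‖v‖) • v) u * inner ℝ v u ∂(μ.map A)
        = ∫ v, 2 * ((inner ℝ v u : ℝ) ^ 2 / ‖v‖) ∂(μ.map A) := by
      apply integral_congr_ae
      filter_upwards [hνne] with v hv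
      have e3 : x v = (1 / ‖v‖) • v := by
        apply dir (x v) v _ hv
        · rw [hx.max, hhs]
        · have := hx.mem v
          rw [hMW, Metric.mem_closedBall, dist_zero_right] at this
          exact this
      rw [e3, inner_add_left, inner_smul_left]
      simp only [conj_trivial]
      ring
    rw [e2, integral_const_mul, real_inner_self_eq_norm_sq] at e1
    have e4 : (2 * ∫ v, ‖v‖ ∂(μ.map A)) / (n : ℝ) * ‖u‖ ^ 2
        = 2 * ((∫ v, ‖v‖ ∂(μ.map A)) / n * ‖u‖ ^ 2) := by ring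
    rw [e4] at e1
    linarith
  have hSnn : 0 ≤ ∫ v, ‖v‖ ∂(μ.map A) := le_trans hS hS'
  -- lower bound for the support function of the zonoid
  have hlow : ∀ u : EE n, S / (2 * n) * ‖u‖ ≤ 1 / 2 * ∫ v, |inner ℝ u v| ∂(μ.map A) := by
    intro u
    by_cases hu : u = 0
    · rw [hu]
      simp
    have hu0 : 0 < ‖u‖ := norm_pos_iff.mpr hu
    have i1 : Integrable (fun v : EE n => |(inner ℝ u v : ℝ)|) (μ.map A) := by
      refine Integrable.mono' (hiN.const_mul ‖u‖) ?_ ?_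
      · exact (continuous_const.inner continuous_id).abs.aestronglyMeasurable
      · refine Eventually.of_forall fun v => ?_
        rw [Real.norm_eq_abs, abs_abs]
        exact abs_real_inner_le_norm u v
    have m2 : Measurable (fun v : EE n => (inner ℝ v u : ℝ) ^ 2 / ‖v‖) := by
      have c1 : Continuous (fun v : EE n => (inner ℝ v u : ℝ)) := continuous_id.inner continuous_const
      exact (c1.measurable.pow_const 2).div continuous_norm.measurable
    have key : ∀ v : EE n, (inner ℝ v u : ℝ) ^ 2 / ‖v‖ ≤ ‖u‖ * |(inner ℝ u v : ℝ)| := by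
      intro v
      by_cases hv : v = 0
      · rw [hv]
        simp
      have hv0 : 0 < ‖v‖ := norm_pos_iff.mpr hv
      rw [div_le_iff₀ hv0, real_inner_comm u v, ← sq_abs]
      have h10 := abs_real_inner_le_norm u v
      have h11 : 0 ≤ |(inner ℝ u v : ℝ)| := abs_nonneg _
      nlinarith
    have i2 : Integrable (fun v : EE n => (inner ℝ v u : ℝ) ^ 2 / ‖v‖) (μ.map A) := by
      refine Integrable.mono' (i1.const_mul ‖u‖) m2.aestronglyMeasurable ?_
      refine Eventually.of_forall fun v => ?_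
      rw [Real.norm_eq_abs, abs_of_nonneg (by positivity)]
      exact key v
    have h12 : ∫ v, (inner ℝ v u : ℝ) ^ 2 / ‖v‖ ∂(μ.map A)
        ≤ ∫ v, ‖u‖ * |(inner ℝ u v : ℝ)| ∂(μ.map A) :=
      integral_mono i2 (i1.const_mul ‖u‖) key
    rw [integral_const_mul, hsec] at h12
    have h13 : (∫ v, ‖v‖ ∂(μ.map A)) / n * ‖u‖ ≤ ∫ v, |(inner ℝ u v : ℝ)| ∂(μ.map A) := by
      have : ‖u‖ * ((∫ v, ‖v‖ ∂(μ.map A)) / n * ‖u‖) ≤ ‖u‖ * ∫ v, |(inner ℝ u v : ℝ)| ∂(μ.map A) := by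
        calc ‖u‖ * ((∫ v, ‖v‖ ∂(μ.map A)) / n * ‖u‖)
            = (∫ v, ‖v‖ ∂(μ.map A)) / n * ‖u‖ ^ 2 := by ring
          _ ≤ _ := h12
      exact le_of_mul_le_mul_left this hu0
    have h14 : S / n * ‖u‖ ≤ (∫ v, ‖v‖ ∂(μ.map A)) / n * ‖u‖ := by
      apply mul_le_mul_of_nonneg_right _ hu0.le
      exact div_le_div_of_nonneg_right hS' hn0.le
    have h15 : S / (2 * n) * ‖u‖ = 1 / 2 * (S / n * ‖u‖) := by
      field_simp
    rw [h15]
    linarith
  have hball : Metric.closedBall (0 : EE n) (S / (2 * n)) ⊆ Zn (μ.map A) := by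
    intro y hy u
    rw [Metric.mem_closedBall, dist_zero_right] at hy
    calc (inner ℝ y u : ℝ) ≤ ‖y‖ * ‖u‖ := real_inner_le_norm y u
      _ ≤ S / (2 * n) * ‖u‖ := mul_le_mul_of_nonneg_right hy (norm_nonneg _)
      _ ≤ _ := hlow u
  have hcomp := (h6 n (μ.map A) b1 hνb).2.1
  rw [← hvol]
  have h16 : vl (Metric.closedBall (0 : EE n) (S / (2 * n))) = (S / (2 * n)) ^ n * kap n := by
    unfold vl kap vl
    rw [Measure.addHaar_closedBall' _ _ (by positivity), ENNReal.toReal_mul,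
      ENNReal.toReal_ofReal (by positivity), finrank_euclideanSpace_fin]
  rw [← h16]
  unfold vl
  exact ENNReal.toReal_mono hcomp.measure_lt_top.ne (measure_mono hball)

end

end PET
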