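import Pool.Agent.PET.Stmts

/-!
# PET/DIA: second moments
-/

namespace PET

open MeasureTheory Set Filter Topology
open scoped ENNReal Pointwise
open SBA (EE Body vl kap)

namespace DIA_

lemma deriv_nonneg (φ : ℝ → ℝ) (φ' : ℝ) (h : HasDerivAt φ φ' 0)
    (hφ : ∀ t, 0 < t → φ 0 ≤ φ t) : 0 ≤ φ' := by
  have h1 := h.tendsto_slope_zero_right
  refine ge_of_tendsto h1 ?_
  filter_upwards [self_mem_nhdsWithin] with t ht2
  have ht3 : 0 < t := ht2
  have h3 := hφ t ht3
  rw [zero_add, smul_eq_mul]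
  exact mul_nonneg (inv_nonneg.mpr ht3.le) (sub_nonneg.mpr h3)

lemma integrable_J {n : ℕ} (μ : Measure (EE n)) [IsFiniteMeasure μ]
    (hN : Integrable (fun v : EE n => ‖v‖) μ) (e : EE n) (he : ‖e‖ = 1) :
    Integrable (fun v : EE n => (inner ℝ v e) ^ 2 / ‖v‖) μ := by
  refine hN.mono' ?_ ?_
  · refine Measurable.aestronglyMeasurable ?_
    have h1 : Measurable fun v : EE n => (inner ℝ v e : ℝ) :=
      (continuous_id.inner continuous_const).measurable
    exact (h1.pow_const 2).div measurable_norm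
  · refine ae_of_all _ fun v => ?_
    rw [Real.norm_eq_abs, abs_div, abs_norm, abs_pow]
    have h1 : |(inner ℝ v e : ℝ)| ≤ ‖v‖ := by
      have := abs_real_inner_le_norm v e
      rwa [he, mul_one] at this
    rcases eq_or_ne ‖v‖ 0 with h0 | h0
    · rw [h0, div_zero]
    · have h2 : 0 < ‖v‖ := lt_of_le_of_ne (norm_nonneg v) h0.symm
      rw [div_le_iff₀ h2]
      have h3 := pow_le_pow_left₀ (abs_nonneg _) h1 2
      nlinarith

end DIA_

open DIA_ in
theorem dia_proof (h1 : Stmt_DIO) (h2 : Stmt_DTS) (h3 : Stmt_TRM) : Stmt_DIA := by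
  intro n m μ _ t β w hn ht hβ hA hw hmin
  obtain ⟨a, b, ha, hab⟩ := hA.bd
  have hn1 : 1 ≤ n := by omega
  have hn0 : (0 : ℝ) < n := by exact_mod_cast hn1
  have hb : ∀ᵐ v ∂μ, ‖v‖ ≤ b := hab.mono fun v hv => hv.2
  have hv0 : ∀ᵐ v ∂μ, v ≠ 0 := hab.mono fun v hv h0 => by
    have h4 := hv.1
    rw [h0, norm_zero] at h4
    linarith
  have hid := h3 n m μ t β b w (ContinuousLinearMap.id ℝ (EE n)) hn1 ht hw hb
  have hI1 : Integrable (fun v => hs (MW t w) v) μ := hid.1
  have hI2 : Integrable (fun v : EE n => ‖v‖) μ := hid.2.1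
  have hPsi : Psi μ t β w (ContinuousLinearMap.id ℝ (EE n)) =
      ∫ v, (hs (MW t w) v + β * ‖v‖) ∂μ := rfl
  have main : ∀ e : EE n, ‖e‖ = 1 → ∫ v, (inner ℝ v e) ^ 2 / ‖v‖ ∂μ ≤
      Psi μ t β w (ContinuousLinearMap.id ℝ (EE n)) / n / β := by
    intro e he
    have hJ := integrable_J μ hI2 e he
    obtain ⟨P, hP⟩ : ∃ P, P = Psi μ t β w (ContinuousLinearMap.id ℝ (EE n)) := ⟨_, rfl⟩
    obtain ⟨J, hJd⟩ : ∃ J, J = ∫ v, (inner ℝ v e) ^ 2 / ‖v‖ ∂μ := ⟨_, rfl⟩
    rw [← hP, ← hJd]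
    have key : ∀ s, 0 < s → P ≤ Real.exp (s / n) * (P - β * ((1 - Real.exp (-(2 * s))) / 2) * J) := by
      intro s hs0
      obtain ⟨w', hw', hle1, hle2⟩ := h1 n m t s w e hn1 ht hs0.le hw he
      have hdet : (As s e).det = 1 := (h2 n hn1).2.1 s e he
      have h4 := hmin w' (As s e) hw' hdet
      rw [← hP] at h4
      refine h4.trans ?_
      have hAs := h3 n m μ t β b w' (As s e) hn1 ht hw' hb
      have h5 : Psi μ t β w' (As s e) ≤ ∫ v, Real.exp (s / n) * ((hs (MW t w) v + β * ‖v‖) -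
          β * ((1 - Real.exp (-(2 * s))) / 2) * ((inner ℝ v e) ^ 2 / ‖v‖)) ∂μ := by
        unfold Psi
        refine integral_mono_ae (hAs.1.add (hAs.2.1.const_mul β))
          (((hI1.add (hI2.const_mul β)).sub (hJ.const_mul _)).const_mul _) ?_
        filter_upwards [hv0] with v hv
        have h6 := hle1 v
        have h7 := mul_le_mul_of_nonneg_left (hle2 v hv) hβ.le
        show hs (MW t w') (As s e v) + β * ‖As s e v‖ ≤ Real.exp (s / n) *
          ((hs (MW t w) v + β * ‖v‖) -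
            β * ((1 - Real.exp (-(2 * s))) / 2) * ((inner ℝ v e) ^ 2 / ‖v‖))
        have h8 : β * (Real.exp (s / n) * (‖v‖ - (1 - Real.exp (-(2 * s))) / 2 *
            ((inner ℝ v e) ^ 2 / ‖v‖))) = Real.exp (s / n) * (β * ‖v‖ -
            β * ((1 - Real.exp (-(2 * s))) / 2) * ((inner ℝ v e) ^ 2 / ‖v‖)) := by ring
        rw [h8] at h7
        linarith
      refine h5.trans (le_of_eq ?_)
      have hK1 : Integrable (fun v => hs (MW t w) v + β * ‖v‖) μ := hI1.add (hI2.const_mul β)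
      have hK2 : Integrable (fun v : EE n => β * ((1 - Real.exp (-(2 * s))) / 2) *
          ((inner ℝ v e) ^ 2 / ‖v‖)) μ := hJ.const_mul _
      rw [integral_const_mul, integral_sub hK1 hK2, integral_const_mul, ← hJd, ← hPsi, ← hP]
    have hder : HasDerivAt (fun s : ℝ => Real.exp (s / n) *
        (P - β * ((1 - Real.exp (-(2 * s))) / 2) * J)) (P / n - β * J) 0 := by
      have e1 : HasDerivAt (fun s : ℝ => Real.exp (s / n)) (1 / n) 0 := by
        have h6 : HasDerivAt (fun s : ℝ => s / n) (1 / n) 0 := (hasDerivAt_id (0 : ℝ)).div_const _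
        have h7 := h6.exp
        rwa [zero_div, Real.exp_zero, one_mul] at h7
      have e2 : HasDerivAt (fun s : ℝ => P - β * ((1 - Real.exp (-(2 * s))) / 2) * J)
          (-(β * J)) 0 := by
        have h6 : HasDerivAt (fun s : ℝ => -(2 * s)) (-2) 0 := by
          have h15 := (hasDerivAt_id (0 : ℝ)).const_mul (-2 : ℝ)
          rw [mul_one] at h15
          have h16 : (fun s : ℝ => -(2 * s)) = fun s : ℝ => (-2) * id s := by
            ext s; show -(2 * s) = -2 * s; ring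
          rw [h16]
          exact h15
        have h7 := h6.exp
        have h8 := (((h7.const_sub 1).div_const 2).const_mul β).mul_const J
        have h9 := h8.const_sub P
        have h10 : -(β * (-(Real.exp (-(2 * 0)) * -2) / 2) * J) = -(β * J) := by
          rw [mul_zero, neg_zero, Real.exp_zero]; ring
        rw [h10] at h9
        exact h9
      have e3 := e1.mul e2
      have h11 : 1 / (n : ℝ) * (P - β * ((1 - Real.exp (-(2 * 0))) / 2) * J) +
          Real.exp (0 / n) * (-(β * J)) = P / n - β * J := by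
        rw [mul_zero, neg_zero, Real.exp_zero, zero_div, Real.exp_zero]; ring
      rw [h11] at e3
      exact e3
    have h12 := deriv_nonneg _ _ hder (by
      intro s hs0
      have h13 := key s hs0
      show Real.exp (0 / n) * (P - β * ((1 - Real.exp (-(2 * 0))) / 2) * J) ≤ _
      rw [mul_zero, neg_zero, Real.exp_zero, zero_div, Real.exp_zero]
      have h14 : 1 * (P - β * ((1 - 1) / 2) * J) = P := by ring
      rw [h14]
      exact h13)
    rw [le_div_iff₀ hβ]
    linarith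
  intro e
  rcases eq_or_ne e 0 with h0 | h0
  · rw [h0]
    simp
  · have hne : 0 < ‖e‖ := norm_pos_iff.mpr h0
    have h4 : ‖(‖e‖⁻¹ • e : EE n)‖ = 1 := by
      rw [norm_smul, norm_inv, norm_norm, inv_mul_cancel₀ hne.ne']
    have h5 := main (‖e‖⁻¹ • e) h4
    have h6 : ∫ v, (inner ℝ v (‖e‖⁻¹ • e)) ^ 2 / ‖v‖ ∂μ =
        (‖e‖⁻¹) ^ 2 * ∫ v, (inner ℝ v e) ^ 2 / ‖v‖ ∂μ := by
      rw [← integral_const_mul]
      refine integral_congr_ae (ae_of_all _ fun v => ?_)
      show (inner ℝ v (‖e‖⁻¹ • e)) ^ 2 / ‖v‖ = (‖e‖⁻¹) ^ 2 * ((inner ℝ v e) ^ 2 / ‖v‖)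
      rw [inner_smul_right, mul_pow, mul_div_assoc]
    rw [h6] at h5
    have h7 : ∫ v, (inner ℝ v e) ^ 2 / ‖v‖ ∂μ =
        (‖e‖⁻¹) ^ 2 * (∫ v, (inner ℝ v e) ^ 2 / ‖v‖ ∂μ) * ‖e‖ ^ 2 := by
      field_simp
    rw [h7]
    exact mul_le_mul_of_nonneg_right h5 (by positivity)

end PET
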