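import Pool.Agent.PET.Stmts

/-!
# Squad PET, module DIO: comparison of `MW t w` and the image under `As`
-/

set_option maxHeartbeats 4000000
set_option linter.unusedVariables false

namespace PET

open MeasureTheory Set Filter Topology
open scoped ENNReal Pointwise
open SBA (EE Body vl kap)

noncomputable section

namespace DIO_

/-- the map `id - q e ⊗ e` -/
def DD {n : ℕ} (q : ℝ) (e v : EE n) : EE n := v - (q * inner ℝ e v) • e

theorem As_eq {n : ℕ} (s : ℝ) (e v : EE n) :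
    As s e v = Real.exp (s / n) • DD (1 - Real.exp (-s)) e v := by
  unfold As DD
  simp only [ContinuousLinearMap.smul_apply, ContinuousLinearMap.sub_apply,
    ContinuousLinearMap.id_apply, ContinuousLinearMap.smulRight_apply, innerSL_apply_apply, smul_smul]

theorem DD_adj {n : ℕ} (q : ℝ) (e x v : EE n) :
    (inner ℝ x (DD q e v) : ℝ) = inner ℝ (DD q e x) v := by
  unfold DD
  rw [inner_sub_right, inner_sub_left, inner_smul_right, inner_smul_left]
  simp only [conj_trivial]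
  rw [real_inner_comm x e]
  ring

theorem DD_sq {n : ℕ} (q : ℝ) (e v : EE n) (he : ‖e‖ = 1) :
    ‖DD q e v‖ ^ 2 = ‖v‖ ^ 2 - (1 - (1 - q) ^ 2) * (inner ℝ e v) ^ 2 := by
  unfold DD
  rw [norm_sub_sq_real, inner_smul_right, norm_smul, Real.norm_eq_abs, he, mul_one, sq_abs,
    real_inner_comm v e]
  rw [real_inner_comm e v]
  ring

end DIO_

open DIO_ in
theorem dio_proof (h1 : Stmt_MWB) (h2 : Stmt_HSB) : Stmt_DIO := by
  intro n m t s w e hn ht hs0 hw he
  have hq : Real.exp (-s) ≤ 1 := Real.exp_le_one_iff.mpr (by linarith)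
  have hq0 : 0 < Real.exp (-s) := Real.exp_pos _
  set q : ℝ := 1 - Real.exp (-s) with hqd
  have hq1 : 0 ≤ q := by rw [hqd]; linarith
  have hq2 : q < 1 := by rw [hqd]; linarith
  have h1q : 1 - q = Real.exp (-s) := by rw [hqd]; ring
  have hqq : 1 - (1 - q) ^ 2 = 1 - Real.exp (-(2 * s)) := by
    rw [h1q, ← Real.exp_nat_mul]
    congr 2
    push_cast
    ring
  have hqq0 : 0 ≤ 1 - (1 - q) ^ 2 := by nlinarith
  have hqq1 : 1 - (1 - q) ^ 2 ≤ 1 := by nlinarith [sq_nonneg (1 - q)]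
  have hle : ∀ v : EE n, ‖DD q e v‖ ≤ ‖v‖ := by
    intro v
    have h3 := DD_sq q e v he
    have h4 : 0 ≤ (1 - (1 - q) ^ 2) * (inner ℝ e v) ^ 2 := mul_nonneg hqq0 (sq_nonneg _)
    exact le_of_sq_le_sq (by linarith) (norm_nonneg _)
  have hinj : ∀ v : EE n, DD q e v = 0 → v = 0 := by
    intro v hv
    have h5 : (inner ℝ e (DD q e v) : ℝ) = (1 - q) * inner ℝ e v := by
      unfold DD
      rw [inner_sub_right, inner_smul_right, real_inner_self_eq_norm_sq, he]
      ring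
    rw [hv, inner_zero_right] at h5
    have h6 : (inner ℝ e v : ℝ) = 0 := by
      rcases mul_eq_zero.mp h5.symm with h | h
      · linarith
      · exact h
    unfold DD at hv
    rw [h6, mul_zero, zero_smul, sub_zero] at hv
    exact hv
  have hpos : ∀ j, 0 < ‖DD q e (w j)‖ := by
    intro j
    rw [norm_pos_iff]
    intro h
    have := hinj _ h
    have h7 := hw j
    rw [this, norm_zero] at h7
    norm_num at h7
  refine ⟨fun j => ‖DD q e (w j)‖⁻¹ • DD q e (w j), ?_, ?_, ?_⟩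
  · intro j
    rw [norm_smul, norm_inv, norm_norm, inv_mul_cancel₀ (hpos j).ne']
  · intro v
    have hUS : US (fun j => ‖DD q e (w j)‖⁻¹ • DD q e (w j)) := by
      intro j
      rw [norm_smul, norm_inv, norm_norm, inv_mul_cancel₀ (hpos j).ne']
    have hB' := (h1 n m t (fun j => ‖DD q e (w j)‖⁻¹ • DD q e (w j)) hn ht hUS).1
    have hB := (h1 n m t w hn ht hw).1
    obtain ⟨x, hx, hxv⟩ := (h2 n _ hB').1 (As s e v)
    rw [← hxv, As_eq, inner_smul_right, DD_adj]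
    apply mul_le_mul_of_nonneg_left _ (Real.exp_pos _).le
    apply (h2 n _ hB).2.1
    refine ⟨le_trans (hle x) hx.1, ?_⟩
    intro j
    have h8 := hx.2 j
    have h9 : (inner ℝ (DD q e x) (w j) : ℝ)
        = ‖DD q e (w j)‖ * inner ℝ x (‖DD q e (w j)‖⁻¹ • DD q e (w j)) := by
      rw [inner_smul_right, ← mul_assoc, mul_inv_cancel₀ (hpos j).ne', one_mul, DD_adj]
    have h10 : ‖DD q e (w j)‖ ≤ 1 := le_trans (hle _) (hw j).le
    have h11 : (inner ℝ (DD q e x) (w j) : ℝ) ^ 2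
        ≤ (inner ℝ x (‖DD q e (w j)‖⁻¹ • DD q e (w j)) : ℝ) ^ 2 := by
      rw [h9, mul_pow]
      have h12 : ‖DD q e (w j)‖ ^ 2 ≤ 1 := by
        have := (hpos j).le
        nlinarith
      have h13 := sq_nonneg (inner ℝ x (‖DD q e (w j)‖⁻¹ • DD q e (w j)) : ℝ)
      nlinarith
    have h14 : ‖DD q e x‖ ^ 2 ≤ ‖x‖ ^ 2 := pow_le_pow_left₀ (norm_nonneg _) (hle x) 2
    have h15 : (0 : ℝ) ≤ n / t ^ 2 := by positivity
    have h16 := mul_le_mul_of_nonneg_left h11 h15
    linarith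
  · intro v hv
    have hv0 : 0 < ‖v‖ := norm_pos_iff.mpr hv
    rw [As_eq, norm_smul, Real.norm_eq_abs, abs_of_pos (Real.exp_pos _), ← hqq]
    apply mul_le_mul_of_nonneg_left _ (Real.exp_pos _).le
    set c : ℝ := (1 - (1 - q) ^ 2) with hc
    have h17 : (inner ℝ v e : ℝ) ^ 2 ≤ ‖v‖ ^ 2 := by
      have h18 := abs_real_inner_le_norm v e
      rw [he, mul_one] at h18
      rw [← sq_abs]
      exact pow_le_pow_left₀ (abs_nonneg _) h18 2
    have hI : (inner ℝ v e : ℝ) ^ 2 / ‖v‖ ≤ ‖v‖ := by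
      rw [div_le_iff₀ hv0]
      nlinarith
    have hI0 : 0 ≤ (inner ℝ v e : ℝ) ^ 2 / ‖v‖ := by positivity
    have h19 : 0 ≤ ‖v‖ - c / 2 * ((inner ℝ v e : ℝ) ^ 2 / ‖v‖) := by
      have : c / 2 * ((inner ℝ v e : ℝ) ^ 2 / ‖v‖) ≤ 1 * ‖v‖ :=
        mul_le_mul (by linarith) hI hI0 (by norm_num)
      linarith
    apply le_of_sq_le_sq _ h19
    rw [DD_sq q e v he, ← hc]
    have h20 : (‖v‖ - c / 2 * ((inner ℝ v e : ℝ) ^ 2 / ‖v‖)) ^ 2
        = ‖v‖ ^ 2 - c * (inner ℝ v e : ℝ) ^ 2 + (c / 2 * ((inner ℝ v e : ℝ) ^ 2 / ‖v‖)) ^ 2 := by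
      field_simp
      ring
    rw [h20]
    have h21 : (inner ℝ e v : ℝ) = inner ℝ v e := real_inner_comm v e
    rw [h21]
    have := sq_nonneg (c / 2 * ((inner ℝ v e : ℝ) ^ 2 / ‖v‖))
    linarith

end

end PET
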