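import Pool.Agent.PET.Stmts

/-!
# Squad PET, module DTS: determinants of transvections and of `As`
-/

namespace PET

open SBA (EE Body vl kap)

namespace DTS_

lemma det_tv {n : ℕ} (e u : EE n) :
    (ContinuousLinearMap.id ℝ (EE n) + (innerSL ℝ e).smulRight u).det = 1 + inner ℝ e u := by
  have h : ((ContinuousLinearMap.id ℝ (EE n) + (innerSL ℝ e).smulRight u : EE n →L[ℝ] EE n) :
      EE n →ₗ[ℝ] EE n) =
      LinearMap.transvection ((innerSL ℝ e : EE n →L[ℝ] ℝ) : EE n →ₗ[ℝ] ℝ) u := by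
    ext x
    simp [LinearMap.transvection]
  have h2 : (ContinuousLinearMap.id ℝ (EE n) + (innerSL ℝ e).smulRight u).det =
      LinearMap.det (LinearMap.transvection ((innerSL ℝ e : EE n →L[ℝ] ℝ) : EE n →ₗ[ℝ] ℝ) u) := by
    rw [← h]
  rw [h2, LinearMap.transvection.det]
  simp

lemma det_sm {n : ℕ} (c : ℝ) (A : EE n →L[ℝ] EE n) : (c • A).det = c ^ n * A.det := by
  have h : (c • A).det = LinearMap.det (c • (A : EE n →ₗ[ℝ] EE n)) := rfl
  rw [h, LinearMap.det_smul]
  simp [ContinuousLinearMap.det]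

end DTS_

open DTS_ in
theorem dts_proof : Stmt_DTS := by
  intro n hn
  refine ⟨fun e u => det_tv e u, ?_, ?_⟩
  · intro s e he
    unfold As
    rw [det_sm]
    have h1 : (ContinuousLinearMap.id ℝ (EE n) - (1 - Real.exp (-s)) • (innerSL ℝ e).smulRight e) =
        (ContinuousLinearMap.id ℝ (EE n) +
          (innerSL ℝ e).smulRight (-((1 - Real.exp (-s)) • e))) := by
      ext x
      simp
      ring
    rw [h1, det_tv, inner_neg_right, inner_smul_right, real_inner_self_eq_norm_sq, he,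
      ← Real.exp_nat_mul]
    have h2 : (n : ℝ) * (s / n) = s := by
      have : (n : ℝ) ≠ 0 := by positivity
      field_simp
    rw [h2]
    have h3 : 1 + -((1 - Real.exp (-s)) * 1 ^ 2) = Real.exp (-s) := by ring
    rw [h3, ← Real.exp_add]
    simp
  · intro A B
    have h : (A.comp B).det = LinearMap.det ((A : EE n →ₗ[ℝ] EE n) ∘ₗ (B : EE n →ₗ[ℝ] EE n)) := rfl
    rw [h, LinearMap.det_comp]

end PET
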