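import Pool.Agent.SBA.Defs

/-!
# Squad PET (MP_0bf616_gt): basic definitions

Asymptotic form of Petty's conjectured projection inequality:
`vol (ΠK) ≥ exp (-C n^{15/16}) κ_{n-1}^n κ_n^{2-n} vol (K)^{n-1}` for all convex bodies.
-/

namespace PET

open MeasureTheory Set
open scoped ENNReal Pointwise
open SBA (EE Body vl kap)

noncomputable section

/-- convex compact sets with the origin in the interior (not necessarily symmetric) -/
structure CB {V : Type} [NormedAddCommGroup V] [InnerProductSpace ℝ V] (K : Set V) : Prop where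
  convex : Convex ℝ K
  compact : IsCompact K
  zero : (0 : V) ∈ interior K

/-- support function -/
def hs {n : ℕ} (M : Set (EE n)) (v : EE n) : ℝ := sSup ((fun x => inner ℝ x v) '' M)

/-- orthogonal projection of `K` to the hyperplane `u^⊥`, as a subset of this hyperplane -/
def prj {n : ℕ} (K : Set (EE n)) (u : EE n) : Set ((ℝ ∙ u)ᗮ : Submodule ℝ (EE n)) :=
  ((ℝ ∙ u)ᗮ).orthogonalProjectionOnto '' K

/-- the projection body `ΠK` -/
def PiB {n : ℕ} (K : Set (EE n)) : Set (EE n) :=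
  {x | ∀ u : EE n, ‖u‖ = 1 → inner ℝ x u ≤ (volume (prj K u)).toReal}

/-- the zonoid with support function `u ↦ (1/2) ∫ |⟪u, v⟫| dμ(v)` -/
def Zn {n : ℕ} (μ : Measure (EE n)) : Set (EE n) :=
  {x | ∀ u : EE n, inner ℝ x u ≤ 1 / 2 * ∫ v, |inner ℝ u v| ∂μ}

/-- measures satisfying Minkowski's inequality, normalised -/
structure Adm {n : ℕ} (μ : Measure (EE n)) : Prop where
  bd : ∃ a b : ℝ, 0 < a ∧ ∀ᵐ v ∂μ, a ≤ ‖v‖ ∧ ‖v‖ ≤ b
  mink : ∀ M : Set (EE n), Body M → n * vl M ^ (1 / (n : ℝ)) ≤ ∫ v, hs M v ∂μ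

/-- normalised image of the cone measure of `K` under the gradient of the gauge -/
def muK {n : ℕ} (K : Set (EE n)) : Measure (EE n) :=
  (ENNReal.ofReal (n * vl K ^ (-(((n : ℝ) - 1) / n))) • (volume : Measure (EE n)).restrict K).map
    (fun x => gradient (gauge K) x)

/-- a family of unit vectors -/
def US {n m : ℕ} (w : Fin m → EE n) : Prop := ∀ j, ‖w j‖ = 1

/-- the unit ball, truncated near the slabs given by the vectors `w j` -/
def MW {n m : ℕ} (t : ℝ) (w : Fin m → EE n) : Set (EE n) :=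
  {x | ‖x‖ ≤ 1 ∧ ∀ j, ‖x‖ ^ 2 + n / t ^ 2 * (inner ℝ x (w j)) ^ 2 ≤ 1}

/-- `x` is the support map of the (uniformly convex) body `M` -/
structure SM {n : ℕ} (M : Set (EE n)) (x : EE n → EE n) : Prop where
  meas : Measurable x
  mem : ∀ v, x v ∈ M
  max : ∀ v, inner ℝ (x v) v = hs M v
  uc : ∀ v, ∀ x' ∈ M, inner ℝ x' v ≤ (1 - ‖x v - x'‖ ^ 2 / 4) * hs M v
  up : ∀ v η : EE n, v ≠ 0 → hs M (v + η) ≤ hs M v + inner ℝ (x v) η + 4 * ‖η‖ ^ 2 / hs M v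

/-- the functional which is minimised over `w` and `A ∈ SL(n)` -/
def Psi {n m : ℕ} (μ : Measure (EE n)) (t β : ℝ) (w : Fin m → EE n) (A : EE n →L[ℝ] EE n) : ℝ :=
  ∫ v, (hs (MW t w) (A v) + β * ‖A v‖) ∂μ

/-- the pair `(w, id)` is a minimiser of the functional -/
def IsMin {n m : ℕ} (μ : Measure (EE n)) (t β : ℝ) (w : Fin m → EE n) : Prop :=
  ∀ (w' : Fin m → EE n) (A : EE n →L[ℝ] EE n), US w' → A.det = 1 →
    Psi μ t β w (ContinuousLinearMap.id ℝ (EE n)) ≤ Psi μ t β w' A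

/-- the volume preserving symmetric map `exp (s/n) exp (-s e ⊗ e)` -/
def As {n : ℕ} (s : ℝ) (e : EE n) : EE n →L[ℝ] EE n :=
  Real.exp (s / n) •
    (ContinuousLinearMap.id ℝ (EE n) - (1 - Real.exp (-s)) • (innerSL ℝ e).smulRight e)

/-- good position -/
structure GP {n : ℕ} (μ : Measure (EE n)) (x : EE n → EE n) (β ε θ lam : ℝ) : Prop where
  bd : ∃ a b : ℝ, 0 < a ∧ ∀ᵐ v ∂μ, a ≤ ‖v‖ ∧ ‖v‖ ≤ b
  meas : Measurable x
  nrm : ∀ v, ‖x v‖ ≤ 1
  iso : ∀ u e : EE n,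
    ∫ v, inner ℝ (x v + (β / ‖v‖) • v) u * inner ℝ v e ∂μ = lam * inner ℝ u e
  vbd : ∀ e : EE n, ∫ v, (inner ℝ v e) ^ 2 / ‖v‖ ∂μ ≤ lam / β * ‖e‖ ^ 2
  dif : ∀ w : EE n, ‖w‖ = 1 → ∫ v in {v | ε ≤ |inner ℝ (x v) w|}, ‖v‖ ∂μ ≤ θ * (n * lam)

/-- standard Gaussian measure on `EE n` -/
def gS (n : ℕ) : Measure (EE n) := ProbabilityTheory.stdGaussian (EE n)

/-- standard Gaussian measure on the line -/
def g1 : Measure ℝ := ProbabilityTheory.gaussianReal 0 1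

/-- the vector `b(v)` of norm at most one -/
def bb {n : ℕ} (β : ℝ) (x : EE n → EE n) (v : EE n) : EE n := (1 + β)⁻¹ • (x v + (β / ‖v‖) • v)

/-- smoothed sign of `⟪b, y⟫` -/
def ph {n : ℕ} (b y : EE n) : ℝ := ∫ ξ, Real.sign (inner ℝ b y + √(1 - ‖b‖ ^ 2) * ξ) ∂g1

/-- the point `p(y)` of the zonoid -/
def pp {n : ℕ} (μ : Measure (EE n)) (β : ℝ) (x : EE n → EE n) (y : EE n) : EE n :=
  (1 / 2 : ℝ) • ∫ v, ph (bb β x v) y • v ∂μ

/-- the remainder integral -/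
def RR {n : ℕ} (μ : Measure (EE n)) (β : ℝ) (x : EE n → EE n) : ℝ :=
  ∫ v, ∫ v', |inner ℝ (bb β x v) (bb β x v')| ^ 3 * |inner ℝ v v'| ∂μ ∂μ

/-- `λ₀` -/
def l0 (β lam : ℝ) : ℝ := lam / ((1 + β) * √(2 * Real.pi))

end

end PET
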