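import Pool.Agent.PET.Stmts


namespace PET

open SBA (EE Body vl kap)
open MeasureTheory

namespace EPP_

noncomputable section

lemma instG (n : ℕ) : IsProbabilityMeasure (gS n) := by
  unfold gS
  infer_instance

lemma intF {n : ℕ} {μ : Measure (EE n)} [IsFiniteMeasure μ] {b : ℝ} {f : EE n → ℝ}
    (hf : Measurable f) (h1 : ∀ v, |f v| ≤ 1) (hb : ∀ᵐ v ∂μ, ‖v‖ ≤ b) :
    Integrable (fun v => f v • v) μ := by
  apply Integrable.of_bound (C := b)
  · exact (hf.smul measurable_id).aestronglyMeasurable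
  · filter_upwards [hb] with v hv
    rw [norm_smul, Real.norm_eq_abs]
    calc |f v| * ‖v‖ ≤ 1 * ‖v‖ := mul_le_mul_of_nonneg_right (h1 v) (norm_nonneg v)
      _ ≤ b := by rw [one_mul]; exact hv

lemma sq {n : ℕ} {μ : Measure (EE n)} [IsFiniteMeasure μ] {b : ℝ} {f : EE n → ℝ}
    (hf : Measurable f) (h1 : ∀ v, |f v| ≤ 1) (hb : ∀ᵐ v ∂μ, ‖v‖ ≤ b) :
    ‖(1 / 2 : ℝ) • ∫ v, f v • v ∂μ‖ ^ 2 =
      1 / 4 * ∫ v, ∫ v', f v * f v' * inner ℝ v v' ∂μ ∂μ := by
  have hi := intF hf h1 hb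
  set I : EE n := ∫ v, f v • v ∂μ with hI
  have e1 : ∀ v : EE n, ∫ v', f v * f v' * inner ℝ v v' ∂μ = inner ℝ I (f v • v) := by
    intro v
    have e2 : inner ℝ (f v • v) I = ∫ v', inner ℝ (f v • v) (f v' • v') ∂μ := by
      rw [hI]
      exact (integral_inner hi (f v • v)).symm
    rw [real_inner_comm, e2]
    congr 1
    funext v'
    rw [real_inner_smul_left, real_inner_smul_right]
    ring
  have e3 : ∫ v, ∫ v', f v * f v' * inner ℝ v v' ∂μ ∂μ = inner ℝ I I := by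
    have e4 : ∫ v, inner ℝ I (f v • v) ∂μ = inner ℝ I I := integral_inner hi I
    rw [← e4]
    congr 1
    funext v
    exact e1 v
  rw [e3, norm_smul, real_inner_self_eq_norm_sq]
  norm_num
  ring

lemma bdG {n : ℕ} {f : EE n → EE n → ℝ} (f1 : ∀ y v, |f y v| ≤ 1) (y v v' : EE n) :
    |f y v * f y v' * inner ℝ v v'| ≤ ‖v‖ * ‖v'‖ := by
  rw [abs_mul, abs_mul]
  have a1 := f1 y v
  have a2 := f1 y v'
  have a3 := abs_real_inner_le_norm v v'
  have a4 : |f y v| * |f y v'| ≤ 1 := by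
    calc |f y v| * |f y v'| ≤ 1 * 1 := mul_le_mul a1 a2 (abs_nonneg _) zero_le_one
      _ = 1 := one_mul 1
  calc |f y v| * |f y v'| * |inner ℝ v v'| ≤ 1 * |inner ℝ v v'| :=
        mul_le_mul_of_nonneg_right a4 (abs_nonneg _)
    _ ≤ ‖v‖ * ‖v'‖ := by rw [one_mul]; exact a3

lemma mG {n : ℕ} {f : EE n → EE n → ℝ} (mf : Measurable (fun p : EE n × EE n => f p.1 p.2)) :
    Measurable (fun q : (EE n × EE n) × EE n =>
      f q.1.1 q.1.2 * f q.1.1 q.2 * inner ℝ q.1.2 q.2) := by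
  have a1 : Measurable (fun q : (EE n × EE n) × EE n => f q.1.1 q.1.2) := mf.comp measurable_fst
  have a2 : Measurable (fun q : (EE n × EE n) × EE n => f q.1.1 q.2) :=
    mf.comp ((measurable_fst.comp measurable_fst).prodMk measurable_snd)
  have a3 : Measurable (fun q : (EE n × EE n) × EE n => (inner ℝ q.1.2 q.2 : ℝ)) :=
    (measurable_snd.comp measurable_fst).inner measurable_snd
  exact (a1.mul a2).mul a3

lemma int2 {n : ℕ} {μ ν : Measure (EE n)} [IsFiniteMeasure μ] [IsFiniteMeasure ν] {C : ℝ}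
    (hC0 : 0 ≤ C) {f : EE n → EE n → ℝ}
    (mf : Measurable (fun p : EE n × EE n => f p.1 p.2)) (f1 : ∀ y v, |f y v| ≤ 1)
    (hbC : ∀ᵐ v ∂μ, ‖v‖ ≤ C) :
    Integrable (fun q : EE n × EE n =>
      ∫ v', f q.1 q.2 * f q.1 v' * inner ℝ q.2 v' ∂μ) (ν.prod μ) := by
  have mI : StronglyMeasurable (fun q : EE n × EE n =>
      ∫ v', f q.1 q.2 * f q.1 v' * inner ℝ q.2 v' ∂μ) :=
    (mG mf).stronglyMeasurable.integral_prod_right'
  have bdI : ∀ y v, |∫ v', f y v * f y v' * inner ℝ v v' ∂μ| ≤ ‖v‖ * C * μ.real Set.univ := by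
    intro y v
    have := norm_integral_le_of_norm_le_const (μ := μ) (f := fun v' => f y v * f y v' * inner ℝ v v')
      (C := ‖v‖ * C) (by
        filter_upwards [hbC] with v' hv'
        rw [Real.norm_eq_abs]
        exact (bdG f1 y v v').trans (mul_le_mul_of_nonneg_left hv' (norm_nonneg v)))
    rw [Real.norm_eq_abs] at this
    exact this
  apply Integrable.of_bound (C := C * C * μ.real Set.univ)
  · exact mI.aestronglyMeasurable
  · have hae : ∀ᵐ q ∂(ν.prod μ), ‖q.2‖ ≤ C :=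
      Measure.quasiMeasurePreserving_snd.ae hbC
    filter_upwards [hae] with q hq
    rw [Real.norm_eq_abs]
    refine (bdI q.1 q.2).trans ?_
    apply mul_le_mul_of_nonneg_right _ measureReal_nonneg
    exact mul_le_mul_of_nonneg_right hq hC0

lemma int3 {n : ℕ} {μ ν : Measure (EE n)} [IsFiniteMeasure μ] [IsFiniteMeasure ν] {C : ℝ}
    {f : EE n → EE n → ℝ}
    (mf : Measurable (fun p : EE n × EE n => f p.1 p.2)) (f1 : ∀ y v, |f y v| ≤ 1)
    (hbC : ∀ᵐ v ∂μ, ‖v‖ ≤ C) (v : EE n) :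
    Integrable (fun q : EE n × EE n =>
      f q.1 v * f q.1 q.2 * inner ℝ v q.2) (ν.prod μ) := by
  apply Integrable.of_bound (C := ‖v‖ * C)
  · have : Measurable (fun q : EE n × EE n => f q.1 v * f q.1 q.2 * inner ℝ v q.2) :=
      (mG mf).comp ((measurable_fst.prodMk measurable_const).prodMk measurable_snd)
    exact this.aestronglyMeasurable
  · have hae : ∀ᵐ q ∂(ν.prod μ), ‖q.2‖ ≤ C :=
      Measure.quasiMeasurePreserving_snd.ae hbC
    filter_upwards [hae] with q hq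
    rw [Real.norm_eq_abs]
    exact (bdG f1 q.1 v q.2).trans (mul_le_mul_of_nonneg_left hq (norm_nonneg v))

lemma fub {n : ℕ} {μ ν : Measure (EE n)} [IsFiniteMeasure μ] [IsFiniteMeasure ν] {C : ℝ}
    (hC0 : 0 ≤ C) {f : EE n → EE n → ℝ}
    (mf : Measurable (fun p : EE n × EE n => f p.1 p.2)) (f1 : ∀ y v, |f y v| ≤ 1)
    (hbC : ∀ᵐ v ∂μ, ‖v‖ ≤ C) :
    ∫ y, ∫ v, ∫ v', f y v * f y v' * inner ℝ v v' ∂μ ∂μ ∂ν =
      ∫ v, ∫ v', (∫ y, f y v * f y v' ∂ν) * inner ℝ v v' ∂μ ∂μ := by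
  have s1 : ∫ y, ∫ v, ∫ v', f y v * f y v' * inner ℝ v v' ∂μ ∂μ ∂ν =
      ∫ v, ∫ y, ∫ v', f y v * f y v' * inner ℝ v v' ∂μ ∂ν ∂μ :=
    integral_integral_swap (f := fun y v => ∫ v', f y v * f y v' * inner ℝ v v' ∂μ)
      (int2 hC0 mf f1 hbC)
  rw [s1]
  congr 1
  funext v
  have s2 : ∫ y, ∫ v', f y v * f y v' * inner ℝ v v' ∂μ ∂ν =
      ∫ v', ∫ y, f y v * f y v' * inner ℝ v v' ∂ν ∂μ :=
    integral_integral_swap (f := fun y v' => f y v * f y v' * inner ℝ v v') (int3 mf f1 hbC v)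
  rw [s2]
  congr 1
  funext v'
  rw [integral_mul_const]

end

end EPP_

open EPP_ in
theorem epp_proof (h1 : Stmt_GS2) (h2 : Stmt_PHM) (h3 : Stmt_BBM) (_h4 : Stmt_PPZ) : Stmt_EPP := by
  intro n μ hμ β b x hn hβ hx hx1 hb
  obtain ⟨m1, -, m3⟩ := h2 n
  obtain ⟨b1, b2⟩ := h3 n β x hβ hx hx1
  have iG := instG n
  obtain ⟨f, hf⟩ : ∃ f : EE n → EE n → ℝ, ∀ y v, f y v = ph (bb β x v) y := ⟨_, fun _ _ => rfl⟩
  have mf : Measurable (fun p : EE n × EE n => f p.1 p.2) := by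
    have := m1.comp ((b1.comp (measurable_snd (α := EE n) (β := EE n))).prodMk measurable_fst)
    have e : (fun p : EE n × EE n => f p.1 p.2) =
        (fun p : EE n × EE n => ph p.1 p.2) ∘ fun a => ((bb β x ∘ Prod.snd) a, a.1) := by
      funext p
      exact hf p.1 p.2
    rw [e]
    exact this
  have f1 : ∀ y v, |f y v| ≤ 1 := fun y v => by rw [hf]; exact m3 _ _
  have mfy : ∀ y, Measurable (f y) := fun y => mf.comp (measurable_const.prodMk measurable_id)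
  have key : ∀ y, ‖pp μ β x y‖ ^ 2 = 1 / 4 * ∫ v, ∫ v', f y v * f y v' * inner ℝ v v' ∂μ ∂μ := by
    intro y
    have e : pp μ β x y = (1 / 2 : ℝ) • ∫ v, f y v • v ∂μ := by
      unfold pp
      congr 2
      funext v
      rw [hf]
    rw [e]
    exact sq (mfy y) (f1 y) hb
  obtain ⟨C, hC0, hbC⟩ : ∃ C : ℝ, 0 ≤ C ∧ ∀ᵐ v ∂μ, ‖v‖ ≤ C := by
    refine ⟨max b 0, le_max_right _ _, ?_⟩
    filter_upwards [hb] with v hv
    exact hv.trans (le_max_left _ _)
  have int4 : Integrable (fun y => ∫ v, ∫ v', f y v * f y v' * inner ℝ v v' ∂μ ∂μ) (gS n) :=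
    (int2 (ν := gS n) hC0 mf f1 hbC).integral_prod_left
  have e0 : (fun y => ‖pp μ β x y‖ ^ 2) =
      fun y => 1 / 4 * ∫ v, ∫ v', f y v * f y v' * inner ℝ v v' ∂μ ∂μ := funext key
  constructor
  · rw [e0]
    exact int4.const_mul _
  · rw [e0, integral_const_mul, fub hC0 mf f1 hbC]
    have s4 : ∫ v, ∫ v', (∫ y, f y v * f y v' ∂(gS n)) * inner ℝ v v' ∂μ ∂μ =
        2 / Real.pi * ∫ v, ∫ v',
          Real.arcsin (inner ℝ (bb β x v) (bb β x v')) * inner ℝ v v' ∂μ ∂μ := by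
      rw [← integral_const_mul]
      congr 1
      funext v
      rw [← integral_const_mul]
      congr 1
      funext v'
      have e5 : ∫ y, f y v * f y v' ∂(gS n) =
          2 / Real.pi * Real.arcsin (inner ℝ (bb β x v) (bb β x v')) := by
        rw [← h1 n (bb β x v) (bb β x v') (b2 v) (b2 v')]
        congr 1
        funext y
        rw [hf, hf]
      rw [e5]
      ring
    rw [s4, ← mul_assoc]
    congr 1
    have hpi : Real.pi ≠ 0 := Real.pi_ne_zero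
    field_simp
    norm_num

end PET
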