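import Pool.Agent.PET.Stmts

/-!
# EPY: first Fubini
-/

set_option autoImplicit false

namespace PET

open MeasureTheory Set ProbabilityTheory
open scoped ENNReal Pointwise
open SBA (EE Body vl kap)


theorem epy_proof (h1 : Stmt_GS1) (h2 : Stmt_PHM) (h3 : Stmt_BBM) (h4 : Stmt_PPZ)
    (h5 : Stmt_GNS) : Stmt_EPY := by
  intro n μ _ β b x hn hβ hx hx1 hb
  have : IsProbabilityMeasure (gS n) := by unfold gS; infer_instance
  obtain ⟨-, hi2, -, -⟩ := h5 n hn
  obtain ⟨hphm, -, hph1⟩ := h2 n
  obtain ⟨hbm, hb1⟩ := h3 n β x hβ hx hx1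
  obtain ⟨hppm, -, R, hR⟩ := h4 n μ β b x hβ hx hx1 hb
  -- the norm is integrable
  have hi1 : Integrable (fun y : EE n => ‖y‖) (gS n) := by
    refine Integrable.mono' (hi2.add (integrable_const (1 : ℝ)))
      (by fun_prop) (Filter.Eventually.of_forall fun y => ?_)
    simp only [Pi.add_apply, norm_norm]
    nlinarith [sq_nonneg (‖y‖ - 1)]
  have hint : Integrable (fun y => (inner ℝ (pp μ β x y) y : ℝ)) (gS n) := by
    refine Integrable.mono' (hi1.const_mul R) ?_ (Filter.Eventually.of_forall fun y => ?_)
    · exact (hppm.inner measurable_id).aestronglyMeasurable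
    · exact (norm_inner_le_norm _ _).trans (mul_le_mul_of_nonneg_right (hR y) (norm_nonneg _))
  refine ⟨hint, ?_⟩
  have hFm : Measurable (fun p : EE n × EE n => ph (bb β x p.1) p.2) :=
    hphm.comp ((hbm.comp measurable_fst).prodMk measurable_snd)
  -- the integrand is integrable over the product
  have hFi : Integrable (Function.uncurry fun (y v : EE n) => ph (bb β x v) y * inner ℝ v y)
      ((gS n).prod μ) := by
    have hdom : Integrable (fun p : EE n × EE n => ‖p.1‖ * b) ((gS n).prod μ) :=
      hi1.mul_prod (integrable_const b)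
    refine Integrable.mono' hdom ?_ ?_
    · refine Measurable.aestronglyMeasurable ?_
      exact (hFm.comp measurable_swap).mul (measurable_snd.inner measurable_fst)
    · have hb' : ∀ᵐ p ∂((gS n).prod μ), ‖p.2‖ ≤ b :=
        Measure.quasiMeasurePreserving_snd.ae hb
      filter_upwards [hb'] with p hp
      simp only [Function.uncurry]
      rw [Real.norm_eq_abs, abs_mul]
      have e1 := hph1 (bb β x p.2) p.1
      have e2 : |inner ℝ p.2 p.1| ≤ ‖p.2‖ * ‖p.1‖ := abs_real_inner_le_norm _ _
      have e3 : ‖p.2‖ * ‖p.1‖ ≤ ‖p.1‖ * b := by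
        rw [mul_comm]; exact mul_le_mul_of_nonneg_left hp (norm_nonneg _)
      calc |ph (bb β x p.2) p.1| * |inner ℝ p.2 p.1| ≤ 1 * |inner ℝ p.2 p.1| :=
            mul_le_mul_of_nonneg_right e1 (abs_nonneg _)
        _ ≤ _ := by rw [one_mul]; exact e2.trans e3
  have e1 : ∀ y : EE n, inner ℝ (pp μ β x y) y =
      1 / 2 * ∫ v, ph (bb β x v) y * inner ℝ v y ∂μ := by
    intro y
    have hiv : Integrable (fun v => ph (bb β x v) y • v) μ := by
      refine Integrable.of_bound (C := b) ?_ ?_
      · refine Measurable.aestronglyMeasurable ?_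
        exact (hFm.comp (measurable_id.prodMk measurable_const)).smul measurable_id
      · filter_upwards [hb] with v hv
        rw [norm_smul, Real.norm_eq_abs]
        calc |ph (bb β x v) y| * ‖v‖ ≤ 1 * ‖v‖ :=
              mul_le_mul_of_nonneg_right (hph1 _ _) (norm_nonneg _)
          _ ≤ b := by rw [one_mul]; exact hv
    unfold pp
    rw [real_inner_smul_left, real_inner_comm, ← integral_inner hiv]
    congr 1
    refine integral_congr_ae (Filter.Eventually.of_forall fun v => ?_)
    simp only
    rw [inner_smul_right, real_inner_comm]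
  simp_rw [e1]
  rw [integral_const_mul, integral_integral_swap hFi]
  have e2 : ∀ v : EE n, ∫ y, ph (bb β x v) y * inner ℝ v y ∂(gS n) =
      √(2 / Real.pi) * inner ℝ (bb β x v) v := fun v => h1 n (bb β x v) v (hb1 v)
  simp_rw [e2]
  rw [integral_const_mul]
  ring

end PET
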