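import Pool.Agent.PET.Stmts

/-!
Squad PET, module EVA: variance of `pp - l0 y`.
-/

set_option autoImplicit false

namespace PET

open MeasureTheory Set ProbabilityTheory
open scoped ENNReal Pointwise
open SBA (EE Body vl kap)

namespace EVA_

/-- integrability of kernels bounded by `C ‖v‖ ‖v'‖` -/
lemma kernel {n : ℕ} (μ : Measure (EE n)) [IsFiniteMeasure μ] (b C : ℝ)
    (hb : ∀ᵐ v ∂μ, ‖v‖ ≤ b) (hC : 0 ≤ C) (F : EE n × EE n → ℝ) (hF : Measurable F)
    (hbd : ∀ v v', |F (v, v')| ≤ C * (‖v‖ * ‖v'‖)) :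
    (∀ v, Integrable (fun v' => F (v, v')) μ) ∧ Integrable (fun v => ∫ v', F (v, v') ∂μ) μ := by
  have hi : ∀ v, Integrable (fun v' => F (v, v')) μ := by
    intro v
    refine Integrable.of_bound (C := C * (‖v‖ * b))
      (hF.comp measurable_prodMk_left).aestronglyMeasurable ?_
    filter_upwards [hb] with v' hv'
    rw [Real.norm_eq_abs]
    refine (hbd v v').trans ?_
    have : ‖v‖ * ‖v'‖ ≤ ‖v‖ * b := mul_le_mul_of_nonneg_left hv' (norm_nonneg v)
    exact mul_le_mul_of_nonneg_left this hC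
  refine ⟨hi, ?_⟩
  refine Integrable.of_bound (C := C * (b * b) * μ.real univ) ?_ ?_
  · exact (hF.stronglyMeasurable.integral_prod_right').aestronglyMeasurable
  · filter_upwards [hb] with v hv
    apply norm_integral_le_of_norm_le_const
    filter_upwards [hb] with v' hv'
    rw [Real.norm_eq_abs]
    refine (hbd v v').trans ?_
    have hb0 : 0 ≤ b := (norm_nonneg v).trans hv
    have : ‖v‖ * ‖v'‖ ≤ b * b := mul_le_mul hv hv' (norm_nonneg _) hb0
    exact mul_le_mul_of_nonneg_left this hC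

end EVA_

open EVA_ in
theorem eva_proof (h1 : Stmt_EPY) (h2 : Stmt_EPP) (h3 : Stmt_ASN) (h4 : Stmt_GNS) (h5 : Stmt_GPB)
    (h6 : Stmt_PPZ) (h7 : Stmt_BBM) : Stmt_EVA := by
  intro n μ _ x β ε θ lam hn hβ hlam hG
  obtain ⟨a, b, ha, hab⟩ := hG.bd
  have hb : ∀ᵐ v ∂μ, ‖v‖ ≤ b := hab.mono fun v hv => hv.2
  obtain ⟨iPY, ePY⟩ := h1 n μ β b x hn hβ hG.meas hG.nrm hb
  obtain ⟨iPP, ePP⟩ := h2 n μ β b x hn hβ hG.meas hG.nrm hb
  obtain ⟨-, iYY, eYY, -⟩ := h4 n hn
  obtain ⟨-, -, eBV, eBB⟩ := h5 n μ x β ε θ lam hn hβ hlam hG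
  obtain ⟨mB, nB⟩ := h7 n β x hβ hG.meas hG.nrm
  set l := l0 β lam with hl
  set lam' := lam / (1 + β) with hlam'
  have hlπ : l * √(2 * Real.pi) = lam' := by
    rw [hl, hlam']
    unfold l0
    have : √(2 * Real.pi) ≠ 0 := by positivity
    field_simp
  have hpt : ∀ y : EE n, ‖pp μ β x y - l • y‖ ^ 2 =
      ‖pp μ β x y‖ ^ 2 - 2 * l * inner ℝ (pp μ β x y) y + l ^ 2 * ‖y‖ ^ 2 := by
    intro y
    rw [norm_sub_sq_real, inner_smul_right, norm_smul, mul_pow, Real.norm_eq_abs, sq_abs]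
    ring
  have i1 : Integrable (fun y => 2 * l * inner ℝ (pp μ β x y) y) (gS n) := iPY.const_mul _
  have i2 : Integrable (fun y : EE n => l ^ 2 * ‖y‖ ^ 2) (gS n) := iYY.const_mul _
  have i3 : Integrable (fun y => ‖pp μ β x y‖ ^ 2 - 2 * l * inner ℝ (pp μ β x y) y) (gS n) :=
    iPP.sub i1
  constructor
  · simp_rw [hpt]
    exact i3.add i2
  · simp_rw [hpt]
    rw [integral_add i3 i2, integral_sub iPP i1, integral_const_mul, integral_const_mul,
      ePY, ePP, eYY, eBV]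
    -- the double integrals
    set F1 : EE n × EE n → ℝ := fun p =>
      Real.arcsin (inner ℝ (bb β x p.1) (bb β x p.2)) * inner ℝ p.1 p.2 with hF1
    set F2 : EE n × EE n → ℝ := fun p =>
      inner ℝ (bb β x p.1) (bb β x p.2) * inner ℝ p.1 p.2 with hF2
    set F3 : EE n × EE n → ℝ := fun p =>
      |inner ℝ (bb β x p.1) (bb β x p.2)| ^ 3 * |inner ℝ p.1 p.2| with hF3
    have mI : Measurable (fun p : EE n × EE n => (inner ℝ (bb β x p.1) (bb β x p.2) : ℝ)) :=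
      (mB.comp measurable_fst).inner (mB.comp measurable_snd)
    have mJ : Measurable (fun p : EE n × EE n => (inner ℝ p.1 p.2 : ℝ)) :=
      measurable_fst.inner measurable_snd
    have m1 : Measurable F1 := (Real.continuous_arcsin.measurable.comp mI).mul mJ
    have m2 : Measurable F2 := mI.mul mJ
    have m3 : Measurable F3 := ((mI.abs).pow_const 3).mul mJ.abs
    have hI1 : ∀ v v' : EE n, |inner ℝ (bb β x v) (bb β x v')| ≤ 1 := by
      intro v v'
      refine (abs_real_inner_le_norm _ _).trans ?_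
      exact mul_le_one₀ (nB v) (norm_nonneg _) (nB v')
    have hJ1 : ∀ v v' : EE n, |inner ℝ v v'| ≤ ‖v‖ * ‖v'‖ := fun v v' => abs_real_inner_le_norm _ _
    have b1 : ∀ v v', |F1 (v, v')| ≤ Real.pi / 2 * (‖v‖ * ‖v'‖) := by
      intro v v'
      simp only [hF1]
      rw [abs_mul]
      refine mul_le_mul ?_ (hJ1 v v') (abs_nonneg _) (by positivity)
      rw [abs_le]
      exact ⟨Real.neg_pi_div_two_le_arcsin _, Real.arcsin_le_pi_div_two _⟩
    have b2 : ∀ v v', |F2 (v, v')| ≤ 1 * (‖v‖ * ‖v'‖) := by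
      intro v v'
      simp only [hF2]
      rw [abs_mul]
      exact mul_le_mul (hI1 v v') (hJ1 v v') (abs_nonneg _) zero_le_one
    have b3 : ∀ v v', |F3 (v, v')| ≤ 1 * (‖v‖ * ‖v'‖) := by
      intro v v'
      simp only [hF3]
      rw [abs_mul, abs_abs, abs_of_nonneg (by positivity :
        (0:ℝ) ≤ |inner ℝ (bb β x v) (bb β x v')| ^ 3)]
      exact mul_le_mul (pow_le_one₀ (abs_nonneg _) (hI1 v v')) (hJ1 v v') (abs_nonneg _) zero_le_one
    obtain ⟨j1, k1⟩ := kernel μ b _ hb (by positivity) F1 m1 b1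
    obtain ⟨j2, k2⟩ := kernel μ b _ hb zero_le_one F2 m2 b2
    obtain ⟨j3, k3⟩ := kernel μ b _ hb zero_le_one F3 m3 b3
    have key : (∫ v, ∫ v', F1 (v, v') ∂μ ∂μ) - ∫ v, ∫ v', F2 (v, v') ∂μ ∂μ ≤
        ∫ v, ∫ v', F3 (v, v') ∂μ ∂μ := by
      rw [← integral_sub k1 k2]
      apply integral_mono (k1.sub k2) k3
      intro v
      show (∫ v', F1 (v, v') ∂μ) - ∫ v', F2 (v, v') ∂μ ≤ ∫ v', F3 (v, v') ∂μ
      rw [← integral_sub (j1 v) (j2 v)]
      apply integral_mono ((j1 v).sub (j2 v)) (j3 v)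
      intro v'
      show F1 (v, v') - F2 (v, v') ≤ F3 (v, v')
      simp only [hF1, hF2, hF3]
      rw [← sub_mul]
      refine (le_abs_self _).trans ?_
      rw [abs_mul]
      exact mul_le_mul_of_nonneg_right (h3 _ (hI1 v v')) (abs_nonneg _)
    have e2 : ∫ v, ∫ v', F2 (v, v') ∂μ ∂μ = n * lam' ^ 2 := eBB
    have eR : ∫ v, ∫ v', F3 (v, v') ∂μ ∂μ = RR μ β x := rfl
    rw [e2, eR] at key
    have hE1 : ∫ v, ∫ v', Real.arcsin (inner ℝ (bb β x v) (bb β x v')) * inner ℝ v v' ∂μ ∂μ =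
      ∫ v, ∫ v', F1 (v, v') ∂μ ∂μ := rfl
    rw [hE1]
    set A := ∫ v, ∫ v', F1 (v, v') ∂μ ∂μ with hA
    have hs : √(2 / Real.pi) = 2 / √(2 * Real.pi) := by
      rw [Real.sqrt_eq_iff_mul_self_eq (by positivity) (by positivity)]
      rw [div_mul_div_comm, Real.mul_self_sqrt (by positivity)]
      field_simp
    have hsq : √(2 * Real.pi) ^ 2 = 2 * Real.pi := Real.sq_sqrt (by positivity)
    have hs0 : √(2 * Real.pi) ≠ 0 := by positivity
    have e3 : 2 * l * (1 / 2 * √(2 / Real.pi) * (n * lam')) = 2 * (n * l ^ 2) := by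
      rw [hs, ← hlπ]
      field_simp
    have e4 : (n : ℝ) * l ^ 2 = 1 / (2 * Real.pi) * (n * lam' ^ 2) := by
      rw [← hlπ, mul_pow, hsq]
      have := Real.pi_pos.ne'
      field_simp
    rw [e3]
    have e5 : 1 / (2 * Real.pi) * A - 2 * (n * l ^ 2) + l ^ 2 * n =
        1 / (2 * Real.pi) * (A - n * lam' ^ 2) := by
      rw [mul_sub, ← e4]
      ring
    rw [e5]
    exact mul_le_mul_of_nonneg_left key (by positivity)

end PET
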