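import Pool.Agent.PET.Stmts

set_option autoImplicit false

namespace PET

open MeasureTheory Set
open scoped ENNReal Pointwise
open SBA (EE Body vl kap)

theorem fnl_proof (h1 : Stmt_MMM) (h2 : Stmt_KAD) (h3 : Stmt_KPI) (h4 : Stmt_TRN)
    (h5 : Stmt_PNB) : Stmt_FNL := by
  obtain ⟨C, hC, h⟩ := h1
  refine ⟨C + 1 / 2, by positivity, fun n K hn hK1 hK2 hK3 => ?_⟩
  obtain ⟨K', hK', hv, hP⟩ := h4 n K hK1 hK2 hK3
  obtain ⟨hf, hA⟩ := h2 n K' hn hK'
  have h6 := h n (muK K') hn hA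
  have h7 := h3 n K' hn hK'
  rw [hv, hP] at h7
  obtain ⟨hk, h8⟩ := h5 n hn
  have hvn : (0 : ℝ) ≤ vl K ^ (n - 1) := pow_nonneg ENNReal.toReal_nonneg _
  set q : ℝ := (n : ℝ) ^ (15 / 16 : ℝ) with hq
  have hq1 : 1 ≤ q := Real.one_le_rpow (by exact_mod_cast (by omega : 1 ≤ n)) (by norm_num)
  set P := kap (n - 1) ^ n / kap n ^ (n - 2) with hPdef
  have hexp : Real.exp (-((C + 1 / 2) * q)) * √(Real.exp 1) ≤ Real.exp (-(C * q)) := by
    have : √(Real.exp 1) = Real.exp (1 / 2) := by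
      rw [Real.sqrt_eq_iff_mul_self_eq (Real.exp_pos _).le (Real.exp_pos _).le, ← Real.exp_add]
      norm_num
    rw [this, ← Real.exp_add]
    apply Real.exp_le_exp.mpr
    nlinarith
  have hE0 : 0 ≤ Real.exp (n / 2) * kap n := by positivity
  calc Real.exp (-((C + 1 / 2) * q)) * (P * vl K ^ (n - 1))
      ≤ Real.exp (-((C + 1 / 2) * q)) *
          ((√(Real.exp 1) * (Real.exp (n / 2) * kap n)) * vl K ^ (n - 1)) := by
        gcongr
    _ = (Real.exp (-((C + 1 / 2) * q)) * √(Real.exp 1)) *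
          ((Real.exp (n / 2) * kap n) * vl K ^ (n - 1)) := by ring
    _ ≤ Real.exp (-(C * q)) * ((Real.exp (n / 2) * kap n) * vl K ^ (n - 1)) := by
        gcongr
    _ = vl K ^ (n - 1) * (Real.exp (-(C * q)) * (Real.exp (n / 2) * kap n)) := by ring
    _ ≤ vl K ^ (n - 1) * vl (Zn (muK K')) := by
        gcongr
    _ ≤ vl (PiB K) := h7

end PET
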