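import Pool.Agent.PET.Stmts

/-!
# GDS: density of the standard Gaussian measure
-/

set_option autoImplicit false

namespace PET

open MeasureTheory Set ProbabilityTheory
open scoped ENNReal Pointwise
open SBA (EE Body vl kap)

namespace GDS_

/-- the real density -/
noncomputable def dens (n : ℕ) (y : EE n) : ℝ :=
  (√(2 * Real.pi) ^ n)⁻¹ * Real.exp (-(‖y‖ ^ 2 / 2))

lemma dens_nonneg (n : ℕ) (y : EE n) : 0 ≤ dens n y := by
  unfold dens
  positivity

lemma dens_meas (n : ℕ) : Measurable (dens n) := by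
  unfold dens
  fun_prop

lemma integrable_dens (n : ℕ) : Integrable (dens n) := by
  have h : Integrable (fun y : EE n => Real.exp (-(1 / 2 : ℝ) * ‖y‖ ^ 2)) := by
    have := GaussianFourier.integrable_cexp_neg_mul_sq_norm_add (V := EE n)
      (b := ((1 / 2 : ℝ) : ℂ)) (by norm_num) 0 0
    have h2 := this.norm
    refine h2.congr (Filter.Eventually.of_forall fun y => ?_)
    simp only [zero_mul, add_zero, Complex.norm_exp]
    norm_cast
  have h2 := h.const_mul ((√(2 * Real.pi) ^ n)⁻¹)
  refine h2.congr (Filter.Eventually.of_forall fun y => ?_)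
  simp only [dens]
  congr 2
  ring

lemma const_mul_const (n : ℕ) :
    ((((√(2 * Real.pi) ^ n)⁻¹ : ℝ)) : ℂ) *
      ((Real.pi : ℂ) / ((1 / 2 : ℝ) : ℂ)) ^ ((Fintype.card (Fin n) : ℂ) / 2) = 1 := by
  have hpi := Real.pi_pos
  have h1 : ((Real.pi : ℂ) / ((1 / 2 : ℝ) : ℂ)) = ((2 * Real.pi : ℝ) : ℂ) := by
    push_cast
    field_simp
  have h2 : ((Fintype.card (Fin n) : ℂ) / 2) = (((n : ℝ) / 2 : ℝ) : ℂ) := by
    rw [Fintype.card_fin]
    push_cast
    ring
  rw [h1, h2, ← Complex.ofReal_cpow (by positivity), ← Complex.ofReal_mul]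
  have h3 : √(2 * Real.pi) ^ n = (2 * Real.pi) ^ ((n : ℝ) / 2) := by
    rw [Real.sqrt_eq_rpow, ← Real.rpow_natCast, ← Real.rpow_mul (by positivity)]
    congr 1
    ring
  rw [h3, inv_mul_cancel₀ (by positivity)]
  norm_num

end GDS_

open GDS_ in
theorem gds_proof (_h1 : SBA.Stmt_GDN) : Stmt_GDS := by
  intro n _
  change gS n = (volume : Measure (EE n)).withDensity (fun y => ENNReal.ofReal (dens n y))
  have hint := integrable_dens n
  have hfin : IsFiniteMeasure ((volume : Measure (EE n)).withDensity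
      (fun y => ENNReal.ofReal (dens n y))) := by
    refine isFiniteMeasure_withDensity ?_
    exact (hint.lintegral_lt_top).ne
  have hfin2 : IsFiniteMeasure (gS n) := by
    unfold gS
    infer_instance
  apply Measure.ext_of_charFun
  ext t
  unfold gS
  rw [charFun_stdGaussian, charFun_apply]
  rw [integral_withDensity_eq_integral_toReal_smul (by
    exact (dens_meas n).ennreal_ofReal) (by
    exact Filter.Eventually.of_forall fun y => ENNReal.ofReal_lt_top)]
  have h1 : ∀ y : EE n, (ENNReal.ofReal (dens n y)).toReal • Complex.exp (inner ℝ y t * Complex.I) =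
      ((((√(2 * Real.pi) ^ n)⁻¹ : ℝ)) : ℂ) *
      Complex.exp (-((1 / 2 : ℝ) : ℂ) * (‖y‖ : ℂ) ^ 2 + Complex.I * (inner ℝ t y : ℝ)) := by
    intro y
    rw [ENNReal.toReal_ofReal (dens_nonneg n y), real_inner_comm, Complex.exp_add]
    simp only [dens, Complex.real_smul, Complex.ofReal_mul, Complex.ofReal_exp]
    rw [mul_assoc]
    congr 1
    congr 1
    · congr 1
      push_cast
      ring
    · congr 1
      ring
  simp_rw [h1]
  rw [integral_const_mul]
  rw [GaussianFourier.integral_cexp_neg_mul_sq_norm_add_of_euclideanSpace (by norm_num)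
    Complex.I t]
  rw [← mul_assoc, const_mul_const n, one_mul]
  congr 1
  rw [Complex.I_sq]
  push_cast
  field_simp
  ring

end PET
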