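import Pool.Agent.PET.Stmts

/-!
# PET, module GLC: volume of a cone (layer cake for the gauge)
-/

namespace PET

open MeasureTheory Set Filter Topology
open scoped ENNReal Pointwise
open SBA (EE Body vl kap)

noncomputable section

namespace GLC_

variable {V : Type} [NormedAddCommGroup V] [InnerProductSpace ℝ V]

lemma le_iff {C : Set V} (hC : CB C) {s : ℝ} (hs : 0 < s) (x : V) :
    gauge C x ≤ s ↔ x ∈ s • C := by
  have h0 : C ∈ 𝓝 (0 : V) := mem_interior_iff_mem_nhds.1 hC.zero
  have h1 : gauge C (s⁻¹ • x) ≤ 1 ↔ s⁻¹ • x ∈ C := by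
    rw [gauge_le_one_iff_mem_closure hC.convex h0, hC.compact.isClosed.closure_eq]
  rw [gauge_smul_of_nonneg (inv_nonneg.2 hs.le), smul_eq_mul] at h1
  rw [mem_smul_set_iff_inv_smul_mem₀ hs.ne', ← h1, inv_mul_le_iff₀ hs, mul_one]

lemma le_one {C : Set V} (hC : CB C) {x : V} (hx : x ∈ C) : gauge C x ≤ 1 := by
  rw [le_iff hC one_pos, one_smul]
  exact hx

lemma int_pow (k : ℕ) :
    ∫⁻ t in Ioo (0 : ℝ) 1, ENNReal.ofReal ((1 - t) ^ k) = ENNReal.ofReal (1 / (k + 1)) := by
  have hint : IntegrableOn (fun t : ℝ => (1 - t) ^ k) (Ioo 0 1) := by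
    have h : Continuous fun t : ℝ => (1 - t) ^ k := by fun_prop
    exact (h.integrableOn_Icc (a := 0) (b := 1)).mono_set Ioo_subset_Icc_self
  have hnn : 0 ≤ᵐ[volume.restrict (Ioo (0 : ℝ) 1)] fun t : ℝ => (1 - t) ^ k := by
    filter_upwards [ae_restrict_mem measurableSet_Ioo] with t ht
    have : 0 ≤ 1 - t := by linarith [ht.2]
    exact pow_nonneg this k
  rw [← ofReal_integral_eq_lintegral_ofReal hint hnn]
  congr 1
  rw [← integral_Ioc_eq_integral_Ioo, ← intervalIntegral.integral_of_le zero_le_one]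
  rw [intervalIntegral.integral_comp_sub_left (fun t : ℝ => t ^ k) 1]
  simp [integral_pow]

variable [FiniteDimensional ℝ V] [MeasurableSpace V] [BorelSpace V]

lemma meas {C : Set V} (hC : CB C) {t : ℝ} (h0 : 0 < t) (h1 : t < 1) :
    (volume.restrict C) {a | t ≤ 1 - gauge C a} =
      ENNReal.ofReal ((1 - t) ^ Module.finrank ℝ V) * volume C := by
  have hs : 0 < 1 - t := by linarith
  have hset : {a | t ≤ 1 - gauge C a} = (1 - t) • C := by
    ext a
    rw [← le_iff hC hs]
    simp only [mem_setOf_eq]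
    constructor <;> intro h <;> linarith
  have hsub : (1 - t) • C ⊆ C := by
    intro a ha
    rw [← le_iff hC hs] at ha
    have h2 : gauge C a ≤ 1 := by linarith
    rwa [le_iff hC one_pos, one_smul] at h2
  have hcl : MeasurableSet ((1 - t) • C) :=
    (hC.compact.smul (1 - t)).isClosed.measurableSet
  rw [hset, Measure.restrict_apply hcl, inter_eq_left.2 hsub, Measure.addHaar_smul,
    abs_of_nonneg (pow_nonneg hs.le _)]

end GLC_

open GLC_ in
/-- volume of a cone -/
theorem glc_proof : Stmt_GLC := by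
  intro V _ _ _ _ _ C hC
  have h0 : C ∈ 𝓝 (0 : V) := mem_interior_iff_mem_nhds.1 hC.zero
  set k := Module.finrank ℝ V with hk
  have hcont : Continuous (gauge C) := continuous_gauge hC.convex h0
  have hmeasC : MeasurableSet C := hC.compact.isClosed.measurableSet
  have hnn : 0 ≤ᵐ[volume.restrict C] fun x => 1 - gauge C x := by
    filter_upwards [ae_restrict_mem hmeasC] with x hx
    have := le_one hC hx
    show (0 : ℝ) ≤ 1 - gauge C x
    linarith
  have hmb : AEMeasurable (fun x => 1 - gauge C x) (volume.restrict C) :=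
    (continuous_const.sub hcont).aemeasurable
  rw [lintegral_eq_lintegral_meas_le _ hnn hmb]
  have hsplit : ∫⁻ t in Ioi (0 : ℝ), (volume.restrict C) {a | t ≤ 1 - gauge C a} =
      ∫⁻ t in Ioo (0 : ℝ) 1, (volume.restrict C) {a | t ≤ 1 - gauge C a} := by
    rw [← Ioc_union_Ioi_eq_Ioi (zero_le_one (α := ℝ)),
      lintegral_union measurableSet_Ioi (Ioc_disjoint_Ioi le_rfl)]
    have hz : ∫⁻ t in Ioi (1 : ℝ), (volume.restrict C) {a | t ≤ 1 - gauge C a} = 0 := by
      rw [setLIntegral_congr_fun (g := fun _ => 0) measurableSet_Ioi]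
      · simp
      · intro t ht
        have : {a | t ≤ 1 - gauge C a} = ∅ := by
          ext a
          simp only [mem_setOf_eq, mem_empty_iff_false, iff_false, not_le]
          have h1 : (1 : ℝ) < t := ht
          have h2 := gauge_nonneg (s := C) a
          linarith
        simp [this]
    rw [hz, add_zero]
    exact setLIntegral_congr Ioo_ae_eq_Ioc.symm
  rw [hsplit, setLIntegral_congr_fun (g := fun t => ENNReal.ofReal ((1 - t) ^ k) * volume C)
    measurableSet_Ioo (fun t ht => meas hC ht.1 ht.2)]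
  rw [lintegral_mul_const _ (by fun_prop), int_pow, ← mul_assoc,
    ← ENNReal.ofReal_mul (by positivity)]
  rw [mul_one_div_cancel (by positivity), ENNReal.ofReal_one, one_mul]

end

end PET
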