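import Pool.Agent.PET.Stmts

/-!
# PET, module GNS: norms of Gaussian vectors
-/

namespace PET

open MeasureTheory Set Filter Topology
open scoped ENNReal Pointwise
open SBA (EE Body vl kap)

noncomputable section

theorem gns_proof (h1 : SBA.Stmt_GNM) : Stmt_GNS := by
  intro n hn
  obtain ⟨i4, e2, e4⟩ := h1 n hn
  have hn0 : (0 : ℝ) < n := by exact_mod_cast hn
  have hs : √(n : ℝ) ^ 2 = n := Real.sq_sqrt hn0.le
  have hs0 : 0 < √(n : ℝ) := Real.sqrt_pos.2 hn0
  have hm : AEMeasurable (fun y : EE n => (√(n : ℝ))⁻¹ • y)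
      (ProbabilityTheory.stdGaussian (EE n)) := by fun_prop
  have hnorm : ∀ y : EE n, ‖(√(n : ℝ))⁻¹ • y‖ = (√(n : ℝ))⁻¹ * ‖y‖ := by
    intro y
    rw [norm_smul, Real.norm_eq_abs, abs_of_pos (inv_pos.2 hs0)]
  have hi4 : Integrable (fun y : EE n => ‖y‖ ^ 4) (gS n) := by
    unfold SBA.gam at i4
    rw [integrable_map_measure (by fun_prop) hm] at i4
    have h := i4.const_mul (√(n : ℝ) ^ 4)
    have e : (fun y : EE n => √(n : ℝ) ^ 4 * ((fun y : EE n => ‖y‖ ^ 4) ∘
        fun y : EE n => (√(n : ℝ))⁻¹ • y) y) = fun y : EE n => ‖y‖ ^ 4 := by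
      funext y
      simp only [Function.comp_apply, hnorm]
      field_simp
    rw [e] at h
    exact h
  have hprob : IsProbabilityMeasure (gS n) := by
    unfold gS
    infer_instance
  have hi2 : Integrable (fun y : EE n => ‖y‖ ^ 2) (gS n) := by
    refine Integrable.mono' ((integrable_const (1 : ℝ)).add hi4) (by fun_prop) ?_
    filter_upwards with y
    simp only [Pi.add_apply]
    rw [Real.norm_eq_abs, abs_of_nonneg (by positivity)]
    nlinarith [sq_nonneg (‖y‖ ^ 2 - 1), sq_nonneg ‖y‖]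
  refine ⟨hi4, hi2, ?_, ?_⟩
  · unfold SBA.gam at e2
    rw [integral_map hm (by fun_prop)] at e2
    simp only [hnorm, mul_pow] at e2
    rw [integral_const_mul, inv_pow, hs] at e2
    have : ∫ y : EE n, ‖y‖ ^ 2 ∂(gS n) = ∫ y : EE n, ‖y‖ ^ 2 ∂(ProbabilityTheory.stdGaussian (EE n)) :=
      rfl
    rw [this]
    field_simp at e2
    exact e2
  · unfold SBA.gam at e4
    rw [integral_map hm (by fun_prop)] at e4
    simp only [hnorm, mul_pow, inv_pow, hs] at e4
    have e : (fun y : EE n => ((n : ℝ)⁻¹ * ‖y‖ ^ 2 - 1) ^ 2) =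
        fun y : EE n => ((n : ℝ) ^ 2)⁻¹ * (‖y‖ ^ 2 - n) ^ 2 := by
      funext y
      field_simp
    rw [e, integral_const_mul] at e4
    have : ∫ y : EE n, (‖y‖ ^ 2 - n) ^ 2 ∂(gS n) =
        ∫ y : EE n, (‖y‖ ^ 2 - n) ^ 2 ∂(ProbabilityTheory.stdGaussian (EE n)) :=
      rfl
    rw [this]
    field_simp at e4
    linarith

end

end PET
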