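import Pool.Agent.PET.Stmts

/-!
# GPB: consequences of good position
-/

set_option autoImplicit false

namespace PET

open MeasureTheory Set Filter
open SBA (EE Body vl kap)

theorem gpb_proof (h1 : Stmt_BBM) : Stmt_GPB := by
  intro n μ _ x β ε θ lam hn hβ hlam hGP
  obtain ⟨a, b, ha, hab⟩ := hGP.bd
  obtain ⟨hbm, hb1⟩ := h1 n β x hβ hGP.meas hGP.nrm
  have hβ1 : (1 + β) ≠ 0 := by positivity
  have hint : ∀ u e : EE n,
      Integrable (fun v => (inner ℝ (bb β x v) u * inner ℝ v e : ℝ)) μ := by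
    intro u e
    refine Integrable.of_bound ?_ (‖u‖ * (b * ‖e‖)) ?_
    · refine Measurable.aestronglyMeasurable ?_
      fun_prop
    · filter_upwards [hab] with v hv
      rw [norm_mul]
      refine mul_le_mul ?_ ?_ (norm_nonneg _) (norm_nonneg _)
      · calc ‖(inner ℝ (bb β x v) u : ℝ)‖ ≤ ‖bb β x v‖ * ‖u‖ := norm_inner_le_norm _ _
          _ ≤ 1 * ‖u‖ := mul_le_mul_of_nonneg_right (hb1 v) (norm_nonneg _)
          _ = ‖u‖ := one_mul _
      · calc ‖(inner ℝ v e : ℝ)‖ ≤ ‖v‖ * ‖e‖ := norm_inner_le_norm _ _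
          _ ≤ b * ‖e‖ := mul_le_mul_of_nonneg_right hv.2 (norm_nonneg _)
  have hiso : ∀ u e : EE n,
      ∫ v, inner ℝ (bb β x v) u * inner ℝ v e ∂μ = lam / (1 + β) * inner ℝ u e := by
    intro u e
    have e1 : ∀ v : EE n, (inner ℝ (bb β x v) u * inner ℝ v e : ℝ) =
        (1 + β)⁻¹ * (inner ℝ (x v + (β / ‖v‖) • v) u * inner ℝ v e) := by
      intro v
      unfold bb
      rw [real_inner_smul_left]
      ring
    simp_rw [e1]
    rw [integral_const_mul, hGP.iso u e]
    field_simp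
  have htr : ∫ v, inner ℝ (bb β x v) v ∂μ = n * (lam / (1 + β)) := by
    have e2 : ∀ v : EE n, (inner ℝ (bb β x v) v : ℝ) =
        ∑ i, inner ℝ (bb β x v) (EuclideanSpace.basisFun (Fin n) ℝ i) *
          inner ℝ v (EuclideanSpace.basisFun (Fin n) ℝ i) := by
      intro v
      rw [← (EuclideanSpace.basisFun (Fin n) ℝ).sum_inner_mul_inner (bb β x v) v]
      refine Finset.sum_congr rfl fun i _ => ?_
      rw [real_inner_comm v]
    simp_rw [e2]
    rw [integral_finsetSum _ fun i _ => hint _ _]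
    simp_rw [hiso]
    have e3 : ∀ i : Fin n, (inner ℝ (EuclideanSpace.basisFun (Fin n) ℝ i)
        (EuclideanSpace.basisFun (Fin n) ℝ i) : ℝ) = 1 := by
      intro i
      rw [real_inner_self_eq_norm_sq]
      simp
    simp_rw [e3]
    rw [Finset.sum_const, Finset.card_univ, Fintype.card_fin, nsmul_eq_mul]
    ring
  refine ⟨hint, hiso, htr, ?_⟩
  have e4 : ∀ v : EE n, ∫ v', inner ℝ (bb β x v) (bb β x v') * inner ℝ v v' ∂μ =
      lam / (1 + β) * inner ℝ (bb β x v) v := by
    intro v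
    rw [← hiso (bb β x v) v]
    refine integral_congr_ae (Filter.Eventually.of_forall fun v' => ?_)
    simp only
    rw [real_inner_comm (bb β x v), real_inner_comm v]
  simp_rw [e4]
  rw [integral_const_mul, htr]
  ring

end PET
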