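import Pool.Agent.PET.Stmts

/-!
# Squad PET, module GPZ: volume of the zonoid in good position
-/

namespace PET

open MeasureTheory Set
open scoped ENNReal
open SBA (EE Body vl kap)

theorem gpz_proof (h1 : Stmt_VFN) (h2 : Stmt_AEV) (h3 : Stmt_RDE) (h4 : Stmt_ZIN)
    (h5 : Stmt_PPZ) : Stmt_GPZ := by
  intro n μ _ x β ε θ lam δ s hn hβ hβ1 hlam hε hθ hδ hs hG hp
  have hv := h3 n μ x β ε θ lam δ hn hβ hβ1 hlam hε hθ hG hp
  obtain ⟨hAm, hA⟩ := h2 n μ x β ε θ lam δ hn hβ hlam hδ hG hv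
  obtain ⟨hB, hball⟩ := h4 n μ x β ε θ lam hn hβ hlam hG
  obtain ⟨a, b, ha, hab⟩ := hG.bd
  have hb : ∀ᵐ v ∂μ, ‖v‖ ≤ b := by
    filter_upwards [hab] with v hv using hv.2
  obtain ⟨-, hZ, -⟩ := h5 n μ β b x hβ hG.meas hG.nrm hb
  have hpi : 0 < √(2 * Real.pi) := Real.sqrt_pos.2 (by positivity)
  have hl0 : 0 < l0 β lam := by
    unfold l0
    positivity
  have h6 := h1 n (Zn μ) {y | ‖pp μ β x y - l0 β lam • y‖ ≤ 2 * l0 β lam * δ * √n}
    (pp μ β x) (l0 β lam) δ s hn hB hl0 hδ hs hball hZ hAm (fun y hy => hy) hA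
  have h7 : l0 β lam * √(2 * Real.pi) = lam / (1 + β) := by
    unfold l0
    field_simp
  rw [h7] at h6
  exact h6

end PET
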