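import Pool.Agent.PET.Stmts

/-!
# PET.GRK: the gauge function of a convex body and its gradient
-/

set_option autoImplicit false

namespace PET

open MeasureTheory Set Filter Topology
open SBA (EE Body vl kap)

noncomputable section

namespace GRK_

variable {d : ℕ}

lemma inner_grad (f : EE d → ℝ) (x y : EE d) :
    inner ℝ (gradient f x) y = fderiv ℝ f x y := by
  unfold gradient
  exact InnerProductSpace.toDual_symm_apply

lemma hasFDerivAt_smul {g : EE d → ℝ} (hg : ∀ s : ℝ, 0 < s → ∀ z, g (s • z) = s * g z)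
    {x : EE d} {L : EE d →L[ℝ] ℝ} (h : HasFDerivAt g L x) {s : ℝ} (hs : 0 < s) :
    HasFDerivAt g L (s • x) := by
  have hne : s ≠ 0 := hs.ne'
  have h1 : HasFDerivAt (fun z : EE d => s⁻¹ • z) (s⁻¹ • ContinuousLinearMap.id ℝ (EE d)) (s • x) :=
    (hasFDerivAt_id _).const_smul s⁻¹
  have h2 : HasFDerivAt g L (s⁻¹ • (s • x)) := by
    rw [smul_smul, inv_mul_cancel₀ hne, one_smul]; exact h
  have h3 := (h2.comp (s • x) h1).const_mul s
  have h4 : (fun z : EE d => s * (g ∘ fun z : EE d => s⁻¹ • z) z) = g := by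
    funext z
    show s * g (s⁻¹ • z) = g z
    rw [hg s⁻¹ (inv_pos.2 hs) z, ← mul_assoc, mul_inv_cancel₀ hne, one_mul]
  have h5 : s • (L.comp (s⁻¹ • ContinuousLinearMap.id ℝ (EE d))) = L := by
    ext z
    simp only [ContinuousLinearMap.smul_apply, ContinuousLinearMap.comp_apply,
      ContinuousLinearMap.id_apply, map_smul, smul_eq_mul]
    rw [← mul_assoc, mul_inv_cancel₀ hne, one_mul]
  rw [h4] at h3
  rw [h5] at h3
  exact h3

end GRK_

open GRK_

theorem grk_proof : Stmt_GRK := by
  intro d C hC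
  have h0 : (0 : EE d) ∈ interior C := hC.zero
  have hn : C ∈ 𝓝 (0 : EE d) := mem_interior_iff_mem_nhds.1 h0
  have habs : Absorbent ℝ C := absorbent_nhds_zero hn
  obtain ⟨r, hr, hrC⟩ := Metric.nhds_basis_closedBall.mem_iff.1 hn
  obtain ⟨R, hR, hRC⟩ := hC.compact.isBounded.subset_closedBall_lt 0 0
  have hlip : LipschitzWith (⟨r, hr.le⟩ : NNReal)⁻¹ (gauge C) :=
    hC.convex.lipschitzWith_gauge (r := ⟨r, hr.le⟩) hr
      (Metric.ball_subset_closedBall.trans hrC)
  have hhom : ∀ s : ℝ, 0 < s → ∀ z : EE d, gauge C (s • z) = s * gauge C z := by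
    intro s hs z
    rw [gauge_smul_of_nonneg hs.le, smul_eq_mul]
  have hsm : ∀ (s : ℝ) (x : EE d), 0 < s → DifferentiableAt ℝ (gauge C) x →
      DifferentiableAt ℝ (gauge C) (s • x) := fun s x hs hx =>
    (hasFDerivAt_smul hhom hx.hasFDerivAt hs).differentiableAt
  have hself : ∀ x, DifferentiableAt ℝ (gauge C) x →
      inner ℝ (gradient (gauge C) x) x = gauge C x := by
    intro x hx
    rw [inner_grad]
    have h1 := (hx.hasFDerivAt.hasLineDerivAt x).tendsto_slope_zero_right
    refine tendsto_nhds_unique h1 (tendsto_const_nhds.congr' ?_)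
    filter_upwards [self_mem_nhdsWithin] with t ht
    have ht' : (0 : ℝ) < t := ht
    have h2 : gauge C (x + t • x) = (1 + t) * gauge C x := by
      rw [← hhom (1 + t) (by positivity) x, add_smul, one_smul]
    simp only [zero_add, zero_smul, add_zero, smul_eq_mul]
    rw [h2]
    field_simp
    ring
  refine ⟨hlip.ae_differentiableAt, ?_, ?_, hself, ?_, ?_, r, R, hr, hR, hrC, hRC, ?_, ?_, ?_⟩
  · unfold gradient
    exact (InnerProductSpace.toDual ℝ (EE d)).symm.continuous.measurable.comp
      (measurable_fderiv ℝ (gauge C))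
  · intro x hx y
    rw [inner_grad]
    have h1 := (hx.hasFDerivAt.hasLineDerivAt y).tendsto_slope_zero_right
    refine le_of_tendsto h1 ?_
    filter_upwards [self_mem_nhdsWithin] with t ht
    have ht' : (0 : ℝ) < t := ht
    have h2 : gauge C (x + t • y) ≤ gauge C x + t * gauge C y := by
      refine (gauge_add_le hC.convex habs _ _).trans ?_
      rw [hhom t ht' y]
    simp only [zero_add, zero_smul, add_zero, smul_eq_mul]
    rw [inv_mul_le_iff₀ ht']
    linarith
  · intro s x hs
    have hfd : fderiv ℝ (gauge C) (s • x) = fderiv ℝ (gauge C) x := by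
      by_cases hx : DifferentiableAt ℝ (gauge C) x
      · exact (hasFDerivAt_smul hhom hx.hasFDerivAt hs).fderiv
      · have hx' : ¬ DifferentiableAt ℝ (gauge C) (s • x) := by
          intro h
          apply hx
          have h3 := hsm s⁻¹ (s • x) (inv_pos.2 hs) h
          rwa [smul_smul, inv_mul_cancel₀ hs.ne', one_smul] at h3
        rw [fderiv_zero_of_not_differentiableAt hx, fderiv_zero_of_not_differentiableAt hx']
    unfold gradient
    rw [hfd]
  · intro x
    rw [gauge_le_one_iff_mem_closure hC.convex hn, hC.compact.isClosed.closure_eq]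
  · intro x
    unfold gradient
    rw [LinearIsometryEquiv.norm_map]
    exact norm_fderiv_le_of_lipschitz ℝ hlip (x₀ := x)
  · intro x y
    have h1 := hlip.dist_le_mul x y
    rw [Real.dist_eq, dist_eq_norm] at h1
    exact h1
  · intro x hx hdx
    have hpos : 0 < ‖x‖ := norm_pos_iff.2 hx
    have h1 : ‖x‖ / R ≤ gauge C x := le_gauge_of_subset_closedBall habs hR.le hRC
    have h2 : inner ℝ (gradient (gauge C) x) x ≤ ‖gradient (gauge C) x‖ * ‖x‖ :=
      real_inner_le_norm _ _
    rw [hself x hdx] at h2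
    have h3 : ‖x‖ / R ≤ ‖gradient (gauge C) x‖ * ‖x‖ := h1.trans h2
    have h4 : R⁻¹ * ‖x‖ ≤ ‖gradient (gauge C) x‖ * ‖x‖ := by
      rw [inv_mul_eq_div]; exact h3
    exact le_of_mul_le_mul_right h4 hpos

end

end PET
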