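import Pool.Agent.PET.Stmts

/-!
# GS1: smoothed sign against a coordinate
-/

set_option autoImplicit false

namespace PET

open MeasureTheory Set Filter
open SBA (EE Body vl kap)

namespace GS1_

instance g1_prob : IsProbabilityMeasure g1 := by
  unfold g1; infer_instance

instance gS_prob (n : ℕ) : IsProbabilityMeasure (gS n) := by
  unfold gS; infer_instance

lemma int_inner (n : ℕ) (z : EE n) : Integrable (fun y : EE n => (inner ℝ z y : ℝ)) (gS n) := by
  have h : Integrable id (gS n) := by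
    unfold gS
    exact ProbabilityTheory.IsGaussian.integrable_id
  have h2 := (innerSL ℝ z).integrable_comp h
  simpa using h2

lemma sign_le (r : ℝ) : |Real.sign r| ≤ 1 := by
  rcases Real.sign_apply_eq r with h | h | h <;> rw [h] <;> simp

end GS1_

open GS1_ in
theorem gs1_proof (h1 : Stmt_JLW) (h2 : Stmt_ABZ) (h3 : Stmt_PHM) : Stmt_GS1 := by
  intro n b z hb
  obtain ⟨_, hsm, _⟩ := h3 n
  set σ : ℝ := √(1 - ‖b‖ ^ 2) with hσ
  set s : ℝ := √(‖z‖ ^ 2 - (inner ℝ b z) ^ 2) with hs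
  have hb2 : ‖b‖ ^ 2 ≤ 1 := by
    have := norm_nonneg b
    nlinarith
  have hσ2 : ‖b‖ ^ 2 + σ ^ 2 = 1 := by
    rw [hσ, Real.sq_sqrt (by linarith)]; ring
  have hbz : (inner ℝ b z) ^ 2 ≤ ‖z‖ ^ 2 := by
    have h := abs_real_inner_le_norm b z
    have h' : |(inner ℝ b z : ℝ)| ≤ ‖z‖ :=
      h.trans (by nlinarith [norm_nonneg z, norm_nonneg b])
    calc (inner ℝ b z) ^ 2 = |(inner ℝ b z : ℝ)| ^ 2 := (sq_abs _).symm
      _ ≤ ‖z‖ ^ 2 := pow_le_pow_left₀ (abs_nonneg _) h' 2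
  have hs2 : (inner ℝ b z) ^ 2 + s ^ 2 = ‖z‖ ^ 2 + (0 : ℝ) ^ 2 := by
    rw [hs, Real.sq_sqrt (by linarith)]; ring
  have hJ := h1 n b z σ 0 s hσ2 hs2
  have hF : Measurable (fun w : ℝ × ℝ => Real.sign w.1 * w.2) :=
    (hsm.comp measurable_fst).mul measurable_snd
  have hm1 : Measurable (fun p : EE n × (ℝ × ℝ) =>
      ((inner ℝ b p.1 + σ * p.2.1, inner ℝ z p.1 + 0 * p.2.2) : ℝ × ℝ)) := by fun_prop
  have hm2 : Measurable (fun w : ℝ × ℝ => ((w.1, inner ℝ b z * w.1 + s * w.2) : ℝ × ℝ)) := by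
    fun_prop
  have hkey : ∫ p, Real.sign (inner ℝ b p.1 + σ * p.2.1) * (inner ℝ z p.1 + 0 * p.2.2)
      ∂((gS n).prod (g1.prod g1)) =
      ∫ w, Real.sign w.1 * (inner ℝ b z * w.1 + s * w.2) ∂(g1.prod g1) := by
    have e1 := integral_map (μ := (gS n).prod (g1.prod g1)) hm1.aemeasurable
      (f := fun w : ℝ × ℝ => Real.sign w.1 * w.2) hF.aestronglyMeasurable
    have e2 := integral_map (μ := g1.prod g1) hm2.aemeasurable
      (f := fun w : ℝ × ℝ => Real.sign w.1 * w.2) hF.aestronglyMeasurable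
    rw [← e1, ← e2, hJ]
  rw [h2] at hkey
  rw [← hkey]
  have hmeas : Measurable (fun p : EE n × (ℝ × ℝ) =>
      Real.sign (inner ℝ b p.1 + σ * p.2.1) * (inner ℝ z p.1 + 0 * p.2.2)) := by
    refine (hsm.comp ?_).mul ?_ <;> fun_prop
  have hint : Integrable (fun p : EE n × (ℝ × ℝ) =>
      Real.sign (inner ℝ b p.1 + σ * p.2.1) * (inner ℝ z p.1 + 0 * p.2.2))
      ((gS n).prod (g1.prod g1)) := by
    refine Integrable.mono' (g := fun p : EE n × (ℝ × ℝ) => |(inner ℝ z p.1 : ℝ)|) ?_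
      hmeas.aestronglyMeasurable ?_
    · exact (int_inner n z).abs.comp_fst (g1.prod g1)
    · refine Filter.Eventually.of_forall fun p => ?_
      rw [zero_mul, add_zero, norm_mul, Real.norm_eq_abs, Real.norm_eq_abs]
      exact mul_le_of_le_one_left (abs_nonneg _) (sign_le _)
  rw [integral_prod _ hint]
  refine integral_congr_ae (Filter.Eventually.of_forall fun y => ?_)
  simp only [zero_mul, add_zero]
  rw [integral_mul_const]
  congr 1
  have h := integral_fun_fst (μ := g1) (ν := g1)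
    (fun ξ : ℝ => Real.sign (inner ℝ b y + σ * ξ))
  rw [h]
  simp [ph, hσ]

end PET
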