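import Pool.Agent.PET.Stmts

set_option autoImplicit false

namespace PET

open MeasureTheory Set
open scoped ENNReal Pointwise
open SBA (EE Body vl kap)

namespace GS2_

lemma pS (n : ℕ) : IsProbabilityMeasure (gS n) := by
  unfold gS
  infer_instance

lemma p1 : IsProbabilityMeasure g1 := by
  unfold g1
  infer_instance

lemma sign_abs_le (x : ℝ) : |Real.sign x| ≤ 1 := by
  rcases Real.sign_apply_eq x with h | h | h <;> rw [h] <;> norm_num

end GS2_

open GS2_ in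
theorem gs2_proof (h1 : Stmt_JLW) (h2 : Stmt_SHP) (h3 : Stmt_PHM) : Stmt_GS2 := by
  intro n b b' hb hb'
  haveI := pS n
  haveI := p1
  have hsg : Measurable Real.sign := (h3 n).2.1
  set σ : ℝ := √(1 - ‖b‖ ^ 2) with hσ
  set σ' : ℝ := √(1 - ‖b'‖ ^ 2) with hσ'
  set c : ℝ := inner ℝ b b' with hc
  have hb2 : ‖b‖ ^ 2 ≤ 1 := pow_le_one₀ (norm_nonneg _) hb
  have hb2' : ‖b'‖ ^ 2 ≤ 1 := pow_le_one₀ (norm_nonneg _) hb'
  have hσ2 : σ ^ 2 = 1 - ‖b‖ ^ 2 := Real.sq_sqrt (by linarith)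
  have hσ2' : σ' ^ 2 = 1 - ‖b'‖ ^ 2 := Real.sq_sqrt (by linarith)
  have hcle : |c| ≤ 1 := by
    refine (abs_real_inner_le_norm b b').trans ?_
    exact mul_le_one₀ hb (norm_nonneg _) hb'
  have hc2 : c ^ 2 ≤ 1 := by
    rw [← sq_abs]
    exact pow_le_one₀ (abs_nonneg _) hcle
  have hs2 : (√(1 - c ^ 2)) ^ 2 = 1 - c ^ 2 := Real.sq_sqrt (by linarith)
  have hJ := h1 n b b' σ σ' (√(1 - c ^ 2)) (by linarith) (by rw [hs2, hσ2']; ring)
  rw [← h2 c hcle]
  -- left side as a triple integral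
  have hmf : Measurable (fun p : EE n × ℝ × ℝ =>
      ((inner ℝ b p.1 + σ * p.2.1, inner ℝ b' p.1 + σ' * p.2.2) : ℝ × ℝ)) := by
    fun_prop
  have hmg : Measurable (fun z : ℝ × ℝ => (z.1, c * z.1 + √(1 - c ^ 2) * z.2)) := by
    fun_prop
  have hmF : Measurable (fun w : ℝ × ℝ => Real.sign w.1 * Real.sign w.2) :=
    (hsg.comp measurable_fst).mul (hsg.comp measurable_snd)
  have hint : Integrable (fun p : EE n × ℝ × ℝ => Real.sign (inner ℝ b p.1 + σ * p.2.1) *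
      Real.sign (inner ℝ b' p.1 + σ' * p.2.2)) ((gS n).prod (g1.prod g1)) := by
    refine Integrable.of_bound (C := 1) (hmF.comp hmf).aestronglyMeasurable ?_
    refine Filter.Eventually.of_forall fun p => ?_
    rw [Real.norm_eq_abs, abs_mul]
    exact mul_le_one₀ (sign_abs_le _) (abs_nonneg _) (sign_abs_le _)
  have e1 : ∫ y, ph b y * ph b' y ∂(gS n) =
      ∫ p, Real.sign (inner ℝ b p.1 + σ * p.2.1) * Real.sign (inner ℝ b' p.1 + σ' * p.2.2)
        ∂((gS n).prod (g1.prod g1)) := by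
    rw [integral_prod _ hint]
    refine integral_congr_ae (Filter.Eventually.of_forall fun y => ?_)
    show ph b y * ph b' y = _
    unfold ph
    exact (integral_prod_mul (μ := g1) (ν := g1) (fun ξ => Real.sign (inner ℝ b y + σ * ξ))
      (fun ξ => Real.sign (inner ℝ b' y + σ' * ξ))).symm
  have e2 : ∫ w, Real.sign w.1 * Real.sign w.2 ∂(((gS n).prod (g1.prod g1)).map
      (fun p => ((inner ℝ b p.1 + σ * p.2.1, inner ℝ b' p.1 + σ' * p.2.2) : ℝ × ℝ))) =
      ∫ p, Real.sign (inner ℝ b p.1 + σ * p.2.1) * Real.sign (inner ℝ b' p.1 + σ' * p.2.2)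
        ∂((gS n).prod (g1.prod g1)) :=
    integral_map hmf.aemeasurable hmF.aestronglyMeasurable
  have e3 : ∫ w, Real.sign w.1 * Real.sign w.2 ∂((g1.prod g1).map
      (fun z => (z.1, c * z.1 + √(1 - c ^ 2) * z.2))) =
      ∫ z, Real.sign z.1 * Real.sign (c * z.1 + √(1 - c ^ 2) * z.2) ∂(g1.prod g1) :=
    integral_map hmg.aemeasurable hmF.aestronglyMeasurable
  rw [e1, ← e2, hJ, e3]

end PET
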