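import Pool.Agent.PET.Stmts

/-!
# Squad PET, module GVB: volume of sets of large Gaussian measure
-/

namespace PET

open MeasureTheory Set
open scoped ENNReal
open SBA (EE Body vl kap)

theorem gvb_proof (h1 : Stmt_GDS) (h2 : Stmt_GNS) : Stmt_GVB := by
  intro n A hn hA hm
  have hn0 : (0 : ℝ) < n := by exact_mod_cast (by omega : 0 < n)
  have hprob : IsProbabilityMeasure (gS n) := by
    unfold gS
    infer_instance
  obtain ⟨-, -, -, hvar⟩ := h2 n hn
  obtain ⟨c, hc⟩ : ∃ c : ℝ, c = n - 4 * √n := ⟨_, rfl⟩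
  rw [← hc]
  have hint : Integrable (fun y : EE n => (‖y‖ ^ 2 - n) ^ 2) (gS n) := by
    by_contra h
    rw [integral_undef h] at hvar
    linarith
  have hmk := mul_meas_ge_le_integral_of_nonneg (μ := gS n)
    (Filter.Eventually.of_forall fun y : EE n => sq_nonneg (‖y‖ ^ 2 - n)) hint (16 * n)
  rw [hvar] at hmk
  have hreal : (gS n).real {y : EE n | 16 * (n : ℝ) ≤ (‖y‖ ^ 2 - n) ^ 2} ≤ 1 / 8 := by
    have h3 : (n : ℝ) * (16 * (gS n).real {y : EE n | 16 * (n : ℝ) ≤ (‖y‖ ^ 2 - n) ^ 2}) ≤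
      n * 2 := by linarith
    have h4 := le_of_mul_le_mul_left h3 hn0
    linarith
  have hS : gS n {y : EE n | ‖y‖ ^ 2 < c} ≤ ENNReal.ofReal (1 / 8) := by
    have hsub : {y : EE n | ‖y‖ ^ 2 < c} ⊆ {y : EE n | 16 * (n : ℝ) ≤ (‖y‖ ^ 2 - n) ^ 2} := by
      intro y hy
      have hy' : ‖y‖ ^ 2 < c := hy
      show 16 * (n : ℝ) ≤ (‖y‖ ^ 2 - n) ^ 2
      have h5 : 4 * √n ≤ n - ‖y‖ ^ 2 := by linarith
      have h6 : (4 * √(n : ℝ)) ^ 2 ≤ (n - ‖y‖ ^ 2) ^ 2 :=
        pow_le_pow_left₀ (by positivity) h5 2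
      rw [mul_pow, Real.sq_sqrt hn0.le] at h6
      have h7 : (‖y‖ ^ 2 - n) ^ 2 = (n - ‖y‖ ^ 2) ^ 2 := by ring
      rw [h7]
      linarith
    refine (measure_mono hsub).trans ?_
    rw [← ENNReal.ofReal_toReal (measure_ne_top (gS n) _)]
    exact ENNReal.ofReal_le_ofReal hreal
  have hA' : ENNReal.ofReal (5 / 8) ≤ gS n (A \ {y : EE n | ‖y‖ ^ 2 < c}) := by
    have h3 : gS n A ≤ gS n {y : EE n | ‖y‖ ^ 2 < c} + gS n (A \ {y : EE n | ‖y‖ ^ 2 < c}) := by
      refine le_trans (measure_mono ?_) (measure_union_le _ _)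
      intro y hy
      by_cases h : y ∈ {y : EE n | ‖y‖ ^ 2 < c}
      · exact Or.inl h
      · exact Or.inr ⟨hy, h⟩
    have h4 : ENNReal.ofReal (1 / 8) + ENNReal.ofReal (5 / 8) ≤
        ENNReal.ofReal (1 / 8) + gS n (A \ {y : EE n | ‖y‖ ^ 2 < c}) := by
      rw [← ENNReal.ofReal_add (by norm_num) (by norm_num)]
      have h5 : (1 / 8 + 5 / 8 : ℝ) = 3 / 4 := by norm_num
      rw [h5]
      exact hm.trans (h3.trans (add_le_add_left hS _))
    exact (ENNReal.add_le_add_iff_left ENNReal.ofReal_ne_top).1 h4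
  have hSm : MeasurableSet {y : EE n | ‖y‖ ^ 2 < c} :=
    measurableSet_lt (measurable_norm.pow_const 2) measurable_const
  have hdens : gS n (A \ {y : EE n | ‖y‖ ^ 2 < c}) ≤
      ENNReal.ofReal ((√(2 * Real.pi) ^ n)⁻¹ * Real.exp (-(c / 2))) * volume A := by
    rw [h1 n hn, withDensity_apply _ (hA.diff hSm)]
    calc ∫⁻ y in A \ {y : EE n | ‖y‖ ^ 2 < c},
          ENNReal.ofReal ((√(2 * Real.pi) ^ n)⁻¹ * Real.exp (-(‖y‖ ^ 2 / 2))) ≤
          ∫⁻ _y in A \ {y : EE n | ‖y‖ ^ 2 < c},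
          ENNReal.ofReal ((√(2 * Real.pi) ^ n)⁻¹ * Real.exp (-(c / 2))) := by
          apply setLIntegral_mono' (hA.diff hSm)
          intro y hy
          apply ENNReal.ofReal_le_ofReal
          apply mul_le_mul_of_nonneg_left _ (by positivity)
          apply Real.exp_le_exp.2
          have h6 : ¬ ‖y‖ ^ 2 < c := hy.2
          linarith
      _ = ENNReal.ofReal ((√(2 * Real.pi) ^ n)⁻¹ * Real.exp (-(c / 2))) *
          volume (A \ {y : EE n | ‖y‖ ^ 2 < c}) := by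
          rw [setLIntegral_const]
      _ ≤ _ := by
          gcongr
          exact sdiff_subset
  have hfin := hA'.trans hdens
  have hpi : 0 < √(2 * Real.pi) ^ n := by
    apply pow_pos
    apply Real.sqrt_pos.2
    positivity
  have h8 : ENNReal.ofReal (√(2 * Real.pi) ^ n * Real.exp (c / 2)) * ENNReal.ofReal (5 / 8) ≤
      ENNReal.ofReal (√(2 * Real.pi) ^ n * Real.exp (c / 2)) *
      (ENNReal.ofReal ((√(2 * Real.pi) ^ n)⁻¹ * Real.exp (-(c / 2))) * volume A) :=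
    mul_le_mul_right hfin _
  rw [← mul_assoc, ← ENNReal.ofReal_mul (by positivity), ← ENNReal.ofReal_mul (by positivity)]
    at h8
  have h9 : √(2 * Real.pi) ^ n * Real.exp (c / 2) *
      ((√(2 * Real.pi) ^ n)⁻¹ * Real.exp (-(c / 2))) = 1 := by
    have h10 : Real.exp (c / 2) * Real.exp (-(c / 2)) = 1 := by
      rw [← Real.exp_add]
      simp
    calc _ = (√(2 * Real.pi) ^ n * (√(2 * Real.pi) ^ n)⁻¹) *
          (Real.exp (c / 2) * Real.exp (-(c / 2))) := by ring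
      _ = 1 := by rw [mul_inv_cancel₀ hpi.ne', h10, one_mul]
  rw [h9, ENNReal.ofReal_one, one_mul] at h8
  refine le_trans (le_of_eq ?_) h8
  congr 1
  ring

end PET
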