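import Pool.Agent.PET.Stmts

/-!
# HSB: basic properties of support functions of symmetric bodies
-/

set_option autoImplicit false

namespace PET

open MeasureTheory Set
open SBA (EE Body vl kap)

namespace HSB_

variable {n : ℕ} {M : Set (EE n)}

lemma zero_mem_interior (hC : Body M) : (0 : EE n) ∈ interior M := by
  obtain ⟨x, hx⟩ := hC.nonempty_interior
  have hx' : -x ∈ M := hC.symm x (interior_subset hx)
  have h := hC.convex.openSegment_interior_self_subset_interior hx hx'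
  apply h
  refine ⟨1 / 2, 1 / 2, by norm_num, by norm_num, by norm_num, ?_⟩
  rw [smul_neg, add_neg_cancel]

lemma zero_mem (hC : Body M) : (0 : EE n) ∈ M := interior_subset (zero_mem_interior hC)

lemma isGreatest (hC : Body M) (v : EE n) :
    ∃ x ∈ M, IsGreatest ((fun x => inner ℝ x v) '' M) (inner ℝ x v) := by
  obtain ⟨x, hx, hmax⟩ := hC.compact.exists_isMaxOn ⟨0, zero_mem hC⟩
    (f := fun x : EE n => (inner ℝ x v : ℝ)) (by fun_prop)
  refine ⟨x, hx, ⟨x, hx, rfl⟩, ?_⟩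
  rintro _ ⟨y, hy, rfl⟩
  exact hmax hy

lemma att (hC : Body M) (v : EE n) : ∃ x ∈ M, inner ℝ x v = hs M v := by
  obtain ⟨x, hx, h⟩ := isGreatest hC v
  exact ⟨x, hx, h.csSup_eq.symm⟩

lemma le_hs (hC : Body M) (v : EE n) (x : EE n) (hx : x ∈ M) : inner ℝ x v ≤ hs M v := by
  obtain ⟨y, hy, h⟩ := isGreatest hC v
  exact le_csSup ⟨_, h.2⟩ ⟨x, hx, rfl⟩

lemma hs_nonneg (hC : Body M) (v : EE n) : 0 ≤ hs M v := by
  have := le_hs hC v 0 (zero_mem hC)
  simpa using this

lemma hs_smul (hC : Body M) (s : ℝ) (v : EE n) (hs0 : 0 ≤ s) : hs M (s • v) = s * hs M v := by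
  apply le_antisymm
  · obtain ⟨x, hx, h⟩ := att hC (s • v)
    rw [← h, inner_smul_right]
    exact mul_le_mul_of_nonneg_left (le_hs hC v x hx) hs0
  · obtain ⟨x, hx, h⟩ := att hC v
    rw [← h, ← inner_smul_right]
    exact le_hs hC _ x hx

lemma hs_add (hC : Body M) (v v' : EE n) : hs M (v + v') ≤ hs M v + hs M v' := by
  obtain ⟨x, hx, h⟩ := att hC (v + v')
  rw [← h, inner_add_right]
  exact add_le_add (le_hs hC v x hx) (le_hs hC v' x hx)

lemma hs_le (hC : Body M) (R : ℝ) (v : EE n) (hR : M ⊆ Metric.closedBall 0 R) :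
    hs M v ≤ R * ‖v‖ := by
  obtain ⟨x, hx, h⟩ := att hC v
  rw [← h]
  have h1 : ‖x‖ ≤ R := by simpa using hR hx
  exact (real_inner_le_norm x v).trans (mul_le_mul_of_nonneg_right h1 (norm_nonneg v))

lemma hs_ge (hC : Body M) (r : ℝ) (v : EE n) (hr0 : 0 ≤ r) (hr : Metric.closedBall 0 r ⊆ M) :
    r * ‖v‖ ≤ hs M v := by
  by_cases hv : v = 0
  · subst hv
    simpa using hs_nonneg hC (0 : EE n)
  have hvn : ‖v‖ ≠ 0 := norm_ne_zero_iff.mpr hv
  have hmem : (r / ‖v‖) • v ∈ M := by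
    apply hr
    rw [mem_closedBall_zero_iff, norm_smul, Real.norm_eq_abs, abs_of_nonneg (by positivity),
      div_mul_cancel₀ r hvn]
  have := le_hs hC v _ hmem
  rw [real_inner_smul_left, real_inner_self_eq_norm_sq] at this
  calc r * ‖v‖ = r / ‖v‖ * ‖v‖ ^ 2 := by field_simp
    _ ≤ _ := this

lemma radii (hC : Body M) : ∃ r R : ℝ, 0 < r ∧ 0 < R ∧ Metric.closedBall 0 r ⊆ M ∧
    M ⊆ Metric.closedBall 0 R := by
  obtain ⟨r, hr, hrM⟩ := Metric.nhds_basis_closedBall.mem_iff.mp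
    (mem_interior_iff_mem_nhds.mp (zero_mem_interior hC))
  obtain ⟨R, hR⟩ := hC.compact.isBounded.subset_closedBall (0 : EE n)
  exact ⟨r, max R 1, hr, by positivity, hrM,
    hR.trans (Metric.closedBall_subset_closedBall (le_max_left _ _))⟩

end HSB_

open HSB_ in
theorem hsb_proof : Stmt_HSB := by
  intro n M hM
  obtain ⟨r, R, hr, hR, hrM, hMR⟩ := radii hM
  refine ⟨att hM, le_hs hM, hs_smul hM, hs_add hM, hs_nonneg hM, ?_, fun r v => hs_ge hM r v,
    fun R v => hs_le hM R v, r, R, hr, hR, hrM, hMR⟩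
  have hL : LipschitzWith (Real.toNNReal R) (hs M) := by
    apply LipschitzWith.of_le_add_mul
    intro v v'
    have h1 : hs M v ≤ hs M v' + hs M (v - v') := by
      have := hs_add hM v' (v - v')
      rwa [add_sub_cancel] at this
    have h2 := hs_le hM R (v - v') hMR
    rw [Real.coe_toNNReal R hR.le, dist_eq_norm]
    linarith
  exact hL.continuous

end PET
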