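import Pool.Agent.PET.Stmts

/-!
# PET module HSL: linear images of symmetric bodies, the unit ball
-/

namespace PET

open MeasureTheory Set
open SBA (EE Body vl kap)

namespace HSL_

lemma hs_image {n : ℕ} (M : Set (EE n)) (A : EE n →L[ℝ] EE n) (v : EE n) :
    hs (A '' M) v = hs M (ContinuousLinearMap.adjoint A v) := by
  unfold hs
  congr 1
  rw [image_image]
  refine image_congr fun x _ => ?_
  exact (ContinuousLinearMap.adjoint_inner_right A x v).symm

lemma body_image {n : ℕ} (M : Set (EE n)) (A : EE n →L[ℝ] EE n) (hM : Body M)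
    (hA : A.det ≠ 0) : Body (A '' M) := by
  refine ⟨hM.convex.linear_image A.toLinearMap, hM.compact.image A.continuous, ?_, ?_⟩
  · rintro _ ⟨x, hx, rfl⟩
    exact ⟨-x, hM.symm x hx, map_neg A x⟩
  · set B := A.toContinuousLinearEquivOfDetNeZero hA with hB
    have hAB : ∀ x, B x = A x := fun x => by
      rw [hB, ContinuousLinearMap.toContinuousLinearEquivOfDetNeZero_apply]
    have himg : A '' M = B '' M := image_congr fun x _ => (hAB x).symm
    rw [himg]
    have h2 : B '' interior M ⊆ interior (B '' M) :=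
      B.toHomeomorph.isOpenMap.image_interior_subset M
    exact (hM.nonempty_interior.image B).mono h2

lemma vl_image {n : ℕ} (M : Set (EE n)) (A : EE n →L[ℝ] EE n) :
    vl (A '' M) = |A.det| * vl M := by
  unfold vl
  rw [Measure.addHaar_image_continuousLinearMap, ENNReal.toReal_mul,
    ENNReal.toReal_ofReal (abs_nonneg _)]

lemma body_ball {n : ℕ} : Body (Metric.closedBall (0 : EE n) 1) := by
  refine ⟨convex_closedBall 0 1, isCompact_closedBall 0 1, ?_, ?_⟩
  · intro x hx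
    simpa using hx
  · refine ⟨0, ?_⟩
    exact mem_interior.2 ⟨Metric.ball 0 1, Metric.ball_subset_closedBall, Metric.isOpen_ball,
      Metric.mem_ball_self one_pos⟩

lemma vl_pos {n : ℕ} {M : Set (EE n)} (hM : Body M) : 0 < vl M := by
  unfold vl
  refine ENNReal.toReal_pos ?_ hM.compact.measure_lt_top.ne
  exact (Measure.measure_pos_of_nonempty_interior volume hM.nonempty_interior).ne'

lemma hs_ball {n : ℕ} (v : EE n) : hs (Metric.closedBall (0 : EE n) 1) v = ‖v‖ := by
  unfold hs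
  apply le_antisymm
  · refine csSup_le ⟨0, 0, by simp, by simp⟩ ?_
    rintro _ ⟨x, hx, rfl⟩
    have hx1 : ‖x‖ ≤ 1 := by simpa using hx
    calc inner ℝ x v ≤ ‖x‖ * ‖v‖ := real_inner_le_norm x v
      _ ≤ 1 * ‖v‖ := by gcongr
      _ = ‖v‖ := one_mul _
  · have hb : BddAbove ((fun x : EE n => inner ℝ x v) '' Metric.closedBall (0 : EE n) 1) := by
      refine ⟨‖v‖, ?_⟩
      rintro _ ⟨x, hx, rfl⟩
      have hx1 : ‖x‖ ≤ 1 := by simpa using hx
      calc inner ℝ x v ≤ ‖x‖ * ‖v‖ := real_inner_le_norm x v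
        _ ≤ 1 * ‖v‖ := by gcongr
        _ = ‖v‖ := one_mul _
    refine le_csSup_of_le hb ⟨‖v‖⁻¹ • v, ?_, rfl⟩ ?_
    · rw [mem_closedBall_zero_iff, norm_smul, norm_inv, norm_norm]
      exact inv_mul_le_one
    · show ‖v‖ ≤ inner ℝ (‖v‖⁻¹ • v) v
      rw [real_inner_smul_left, real_inner_self_eq_norm_sq]
      rcases eq_or_ne ‖v‖ 0 with h | h
      · simp [h]
      · rw [pow_two, ← mul_assoc, inv_mul_cancel₀ h, one_mul]

lemma lower {n : ℕ} (A : EE n →L[ℝ] EE n) (hA : A.det = 1) :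
    ∃ a : ℝ, 0 < a ∧ ∀ v, a * ‖v‖ ≤ ‖A v‖ := by
  have hA' : A.det ≠ 0 := by rw [hA]; exact one_ne_zero
  set B := A.toContinuousLinearEquivOfDetNeZero hA' with hB
  have hAB : ∀ x, B x = A x := fun x => by
    rw [hB, ContinuousLinearMap.toContinuousLinearEquivOfDetNeZero_apply]
  set c : ℝ := ‖(B.symm : EE n →L[ℝ] EE n)‖ + 1 with hc
  have hc0 : 0 < c := by positivity
  refine ⟨c⁻¹, inv_pos.2 hc0, fun v => ?_⟩
  rw [inv_mul_le_iff₀ hc0]
  have h1 : v = (B.symm : EE n →L[ℝ] EE n) (A v) := by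
    rw [← hAB v]
    exact (B.symm_apply_apply v).symm
  calc ‖v‖ = ‖(B.symm : EE n →L[ℝ] EE n) (A v)‖ := by rw [← h1]
    _ ≤ ‖(B.symm : EE n →L[ℝ] EE n)‖ * ‖A v‖ := ContinuousLinearMap.le_opNorm _ _
    _ ≤ c * ‖A v‖ := by
        apply mul_le_mul_of_nonneg_right _ (norm_nonneg _)
        rw [hc]; linarith

end HSL_

open HSL_ in
theorem hsl_proof (_h1 : Stmt_HSB) : Stmt_HSL := by
  intro n _
  refine ⟨fun M A hM hA => ⟨body_image M A hM hA, vl_image M A, hs_image M A⟩, body_ball,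
    hs_ball, ?_, fun M hM => vl_pos hM, fun A hA => lower A hA⟩
  exact vl_pos body_ball

end PET
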