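import Pool.Agent.PET.Stmts

/-!
# Squad PET, module ISK: Minkowski's first inequality
-/

namespace PET

open MeasureTheory Set
open scoped ENNReal Pointwise Topology
open SBA (EE Body vl kap)

namespace ISK_

lemma bern (a c : ℝ) (ha : 0 ≤ a) (hc : 0 ≤ c) :
    ∀ n : ℕ, a ^ (n + 1) + ((n : ℝ) + 1) * a ^ n * c ≤ (a + c) ^ (n + 1) := by
  intro n
  induction n with
  | zero => simp
  | succ n ih =>
    have h1 : (a ^ (n + 1) + ((n : ℝ) + 1) * a ^ n * c) * (a + c) ≤ (a + c) ^ (n + 1) * (a + c) :=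
      mul_le_mul_of_nonneg_right ih (by linarith)
    have h2 : 0 ≤ ((n : ℝ) + 1) * a ^ n * c * c := by positivity
    have h3 : (a + c) ^ (n + 1 + 1) = (a + c) ^ (n + 1) * (a + c) := pow_succ _ _
    rw [h3]
    refine le_trans ?_ h1
    push_cast
    have h4 : a ^ (n + 1 + 1) = a ^ (n + 1) * a := pow_succ _ _
    have h5 : a ^ (n + 1) = a ^ n * a := pow_succ _ _
    rw [h4, h5]
    nlinarith [h2]

lemma upper (U : ℝ) (hU : 0 ≤ U) :
    ∀ n : ℕ, ∃ K : ℝ, 0 ≤ K ∧ ∀ u : ℝ, 0 ≤ u → u ≤ U →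
      (1 + u) ^ n ≤ 1 + (n : ℝ) * u + K * u ^ 2 := by
  intro n
  induction n with
  | zero =>
    refine ⟨0, le_refl _, ?_⟩
    intro u hu hu2
    simp
  | succ n ih =>
    obtain ⟨K, hK, h⟩ := ih
    refine ⟨n + K + K * U, by positivity, ?_⟩
    intro u hu hu2
    have h1 := h u hu hu2
    have h2 : (1 + u) ^ (n + 1) ≤ (1 + (n : ℝ) * u + K * u ^ 2) * (1 + u) := by
      rw [pow_succ]
      exact mul_le_mul_of_nonneg_right h1 (by linarith)
    have h3 : K * u ^ 2 * u ≤ K * u ^ 2 * U :=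
      mul_le_mul_of_nonneg_left hu2 (by positivity)
    push_cast
    nlinarith [h2, h3]

end ISK_

open ISK_ in
theorem isk_proof (h1 : SBA.Stmt_BMF) (h2 : Stmt_MIK) (h3 : Stmt_GRK) (h4 : Stmt_HSB) :
    Stmt_ISK := by
  intro d C W hd hC hW
  obtain ⟨-, -, -, -, hs0, hsc, -, hsR, -, R, -, hR, -, hWR⟩ := h4 d W hW
  have hsR' := fun v => hsR R v hWR
  obtain ⟨-, hgm, -, -, -, -, r, -, hr, -, -, -, hgr, -, -⟩ := h3 d C hC
  have hd0 : (0 : ℝ) < d := by
    have : 0 < d := by omega
    exact_mod_cast this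
  let lam : EE d → ℝ := fun x => hs W (gradient (gauge C) x)
  have hlm : Measurable lam := hsc.measurable.comp hgm
  have hl0 : ∀ x, 0 ≤ lam x := fun x => hs0 _
  have hlU : ∀ x, lam x ≤ R * r⁻¹ := fun x =>
    le_trans (hsR' _) (mul_le_mul_of_nonneg_left (hgr x) hR.le)
  have hU : 0 ≤ R * r⁻¹ := by positivity
  have hVfin : volume C ≠ ⊤ := hC.compact.measure_lt_top.ne
  have hWfin : volume W ≠ ⊤ := hW.compact.measure_lt_top.ne
  have hV0 : 0 ≤ vl C := ENNReal.toReal_nonneg
  have hW0 : 0 ≤ vl W := ENNReal.toReal_nonneg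
  have hVof : volume C = ENNReal.ofReal (vl C) := (ENNReal.ofReal_toReal hVfin).symm
  have hWof : volume W = ENNReal.ofReal (vl W) := (ENNReal.ofReal_toReal hWfin).symm
  haveI : IsFiniteMeasure (volume.restrict C) := ⟨by
    rw [Measure.restrict_apply_univ]
    exact hC.compact.measure_lt_top⟩
  -- integrability of bounded measurable functions on C
  have hint : ∀ f : EE d → ℝ, Measurable f → ∀ B : ℝ, (∀ x, |f x| ≤ B) →
      Integrable f (volume.restrict C) := by
    intro f hf B hB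
    refine Integrable.of_bound hf.aestronglyMeasurable B ?_
    filter_upwards with x
    rw [Real.norm_eq_abs]
    exact hB x
  have hlint : Integrable lam (volume.restrict C) := by
    refine hint lam hlm (R * r⁻¹) ?_
    intro x
    rw [abs_of_nonneg (hl0 x)]
    exact hlU x
  refine ⟨hlint, ?_⟩
  obtain ⟨K, hK, hKu⟩ := upper (R * r⁻¹) hU d
  set I : ℝ := ∫ x in C, hs W (gradient (gauge C) x) with hI
  have hI' : ∫ x in C, lam x = I := rfl
  set a : ℝ := vl C ^ (1 / (d : ℝ)) with ha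
  set b : ℝ := vl W ^ (1 / (d : ℝ)) with hb
  have ha0 : 0 ≤ a := Real.rpow_nonneg hV0 _
  have hb0 : 0 ≤ b := Real.rpow_nonneg hW0 _
  have had : a ^ d = vl C := by
    rw [ha, ← Real.rpow_natCast, ← Real.rpow_mul hV0, one_div, inv_mul_cancel₀ hd0.ne',
      Real.rpow_one]
  have had1 : a ^ (d - 1) = vl C ^ (((d : ℝ) - 1) / d) := by
    rw [ha, ← Real.rpow_natCast, ← Real.rpow_mul hV0]
    congr 1
    rw [Nat.cast_sub (by omega : 1 ≤ d), Nat.cast_one]
    ring
  rw [← had1]
  -- main inequality for t in (0,1]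
  have hmain : ∀ t : ℝ, 0 < t → t ≤ 1 →
      (d : ℝ) * a ^ (d - 1) * b ≤ d * I + (K * (R * r⁻¹) ^ 2 * vl C) * t := by
    intro t ht ht1
    let f : EE d → ℝ := fun x => (1 + t * lam x) ^ d
    have hf0 : ∀ x, 0 ≤ f x := fun x =>
      pow_nonneg (add_nonneg zero_le_one (mul_nonneg ht.le (hl0 x))) d
    have hfm : Measurable f := ((hlm.const_mul t).const_add 1).pow_const d
    have htl : ∀ x, t * lam x ≤ R * r⁻¹ := by
      intro x
      have h7 : t * lam x ≤ 1 * lam x := mul_le_mul_of_nonneg_right ht1 (hl0 x)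
      rw [one_mul] at h7
      exact h7.trans (hlU x)
    have hfint : Integrable f (volume.restrict C) := by
      refine hint f hfm ((1 + R * r⁻¹) ^ d) ?_
      intro x
      rw [abs_of_nonneg (hf0 x)]
      apply pow_le_pow_left₀ (add_nonneg zero_le_one (mul_nonneg ht.le (hl0 x)))
      linarith [htl x]
    have hJ0 : 0 ≤ ∫ x in C, f x := integral_nonneg hf0
    have hcompt : IsCompact (t • W) := hW.compact.smul t
    have hCne : C.Nonempty := ⟨0, interior_subset hC.zero⟩
    have hWne : W.Nonempty := hW.nonempty_interior.mono interior_subset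
    have hbm := h1 d (by omega) C (t • W) hC.compact hcompt hCne hWne.smul_set
    have hmin := h2 d C W t (by omega) hC hW ht
    have hlin : ∫⁻ x in C, ENNReal.ofReal ((1 + t * hs W (gradient (gauge C) x)) ^ d) =
        ENNReal.ofReal (∫ x in C, f x) := by
      rw [ofReal_integral_eq_lintegral_ofReal hfint]
      filter_upwards with x using hf0 x
    rw [hlin] at hmin
    have hvolt : volume (t • W) = ENNReal.ofReal (t ^ d * vl W) := by
      rw [Measure.addHaar_smul, finrank_euclideanSpace_fin, abs_of_pos (pow_pos ht d), hWof,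
        ENNReal.ofReal_mul (pow_nonneg ht.le d)]
    have hinv : (0 : ℝ) ≤ 1 / (d : ℝ) := by positivity
    have hbm2 : ENNReal.ofReal (a + t * b) ≤ ENNReal.ofReal ((∫ x in C, f x) ^ (1 / (d : ℝ))) := by
      have h8 : (volume (C + t • W)) ^ (1 / (d : ℝ)) ≤
          (ENNReal.ofReal (∫ x in C, f x)) ^ (1 / (d : ℝ)) := ENNReal.rpow_le_rpow hmin hinv
      have h9 := hbm.trans h8
      rw [hVof, hvolt, ENNReal.ofReal_rpow_of_nonneg hV0 hinv,
        ENNReal.ofReal_rpow_of_nonneg (by positivity) hinv,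
        ENNReal.ofReal_rpow_of_nonneg hJ0 hinv,
        ← ENNReal.ofReal_add (Real.rpow_nonneg hV0 _) (by positivity)] at h9
      have h10 : (t ^ d * vl W) ^ (1 / (d : ℝ)) = t * b := by
        rw [Real.mul_rpow (pow_nonneg ht.le d) hW0, hb]
        congr 1
        rw [← Real.rpow_natCast, ← Real.rpow_mul ht.le, mul_one_div_cancel hd0.ne', Real.rpow_one]
      rw [h10] at h9
      exact h9
    have hJr0 : 0 ≤ (∫ x in C, f x) ^ (1 / (d : ℝ)) := Real.rpow_nonneg hJ0 _
    have hbm3 : a + t * b ≤ (∫ x in C, f x) ^ (1 / (d : ℝ)) :=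
      (ENNReal.ofReal_le_ofReal_iff hJr0).mp hbm2
    have htb : 0 ≤ t * b := mul_nonneg ht.le hb0
    have hbm4 : (a + t * b) ^ d ≤ ∫ x in C, f x := by
      have h11 := pow_le_pow_left₀ (add_nonneg ha0 htb) hbm3 d
      have h12 : ((∫ x in C, f x) ^ (1 / (d : ℝ))) ^ d = ∫ x in C, f x := by
        rw [← Real.rpow_natCast, ← Real.rpow_mul hJ0, one_div, inv_mul_cancel₀ hd0.ne',
          Real.rpow_one]
      rw [h12] at h11
      exact h11
    have hlow : vl C + (d : ℝ) * a ^ (d - 1) * (t * b) ≤ (a + t * b) ^ d := by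
      obtain ⟨n, rfl⟩ : ∃ n, d = n + 1 := ⟨d - 1, by omega⟩
      have h13 := bern a (t * b) ha0 htb n
      rw [← had]
      push_cast at h13 ⊢
      simpa using h13
    have hup : ∫ x in C, f x ≤ vl C + (d : ℝ) * t * I + K * (t * (R * r⁻¹)) ^ 2 * vl C := by
      have hgint : Integrable (fun x => 1 + (d : ℝ) * t * lam x + K * (t * (R * r⁻¹)) ^ 2)
          (volume.restrict C) :=
        ((integrable_const _).add (hlint.const_mul _)).add (integrable_const _)
      have h14 : ∫ x in C, f x ≤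
          ∫ x in C, (1 + (d : ℝ) * t * lam x + K * (t * (R * r⁻¹)) ^ 2) := by
        apply integral_mono hfint hgint
        intro x
        have h15 := hKu (t * lam x) (mul_nonneg ht.le (hl0 x)) (htl x)
        have h16 : (t * lam x) ^ 2 ≤ (t * (R * r⁻¹)) ^ 2 := by
          apply pow_le_pow_left₀ (mul_nonneg ht.le (hl0 x))
          exact mul_le_mul_of_nonneg_left (hlU x) ht.le
        have h17 := mul_le_mul_of_nonneg_left h16 hK
        show (1 + t * lam x) ^ d ≤ 1 + (d : ℝ) * t * lam x + K * (t * (R * r⁻¹)) ^ 2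
        calc (1 + t * lam x) ^ d ≤ 1 + (d : ℝ) * (t * lam x) + K * (t * lam x) ^ 2 := h15
          _ ≤ 1 + (d : ℝ) * (t * lam x) + K * (t * (R * r⁻¹)) ^ 2 := by linarith
          _ = _ := by ring
      refine h14.trans (le_of_eq ?_)
      have hc : ∀ c : ℝ, ∫ _x in C, c ∂(volume : Measure (EE d)) = c * vl C := by
        intro c
        rw [setIntegral_const, smul_eq_mul, mul_comm]
        rfl
      have e1 : ∫ x in C, (1 + (d : ℝ) * t * lam x + K * (t * (R * r⁻¹)) ^ 2) =
          (∫ x in C, (1 + (d : ℝ) * t * lam x)) + ∫ _x in C, K * (t * (R * r⁻¹)) ^ 2 :=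
        integral_add ((integrable_const _).add (hlint.const_mul _)) (integrable_const _)
      have e2 : ∫ x in C, (1 + (d : ℝ) * t * lam x) =
          (∫ _x in C, (1 : ℝ)) + ∫ x in C, (d : ℝ) * t * lam x :=
        integral_add (integrable_const _) (hlint.const_mul _)
      rw [e1, e2, hc, hc, one_mul, integral_const_mul, hI']
    have hfin : (d : ℝ) * a ^ (d - 1) * (t * b) ≤
        (d : ℝ) * t * I + K * (t * (R * r⁻¹)) ^ 2 * vl C := by
      linarith [hlow, hbm4, hup]
    have hfin2 : t * ((d : ℝ) * a ^ (d - 1) * b) ≤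
        t * (d * I + (K * (R * r⁻¹) ^ 2 * vl C) * t) := by
      have e3 : t * ((d : ℝ) * a ^ (d - 1) * b) = (d : ℝ) * a ^ (d - 1) * (t * b) := by ring
      have e4 : t * (d * I + (K * (R * r⁻¹) ^ 2 * vl C) * t) =
          (d : ℝ) * t * I + K * (t * (R * r⁻¹)) ^ 2 * vl C := by ring
      rw [e3, e4]
      exact hfin
    exact le_of_mul_le_mul_left hfin2 ht
  have hend : (d : ℝ) * a ^ (d - 1) * b ≤ d * I := by
    apply le_of_forall_pos_le_add
    intro ε hε
    have hK' : 0 ≤ K * (R * r⁻¹) ^ 2 * vl C := by positivity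
    set K' : ℝ := K * (R * r⁻¹) ^ 2 * vl C with hK'def
    have hpos : 0 < K' + 1 := by linarith
    have ht0 : 0 < min 1 (ε / (K' + 1)) := lt_min zero_lt_one (div_pos hε hpos)
    have h20 := hmain (min 1 (ε / (K' + 1))) ht0 (min_le_left _ _)
    have h21 : K' * min 1 (ε / (K' + 1)) ≤ ε := by
      calc K' * min 1 (ε / (K' + 1)) ≤ K' * (ε / (K' + 1)) :=
            mul_le_mul_of_nonneg_left (min_le_right _ _) hK'
        _ ≤ (K' + 1) * (ε / (K' + 1)) :=
            mul_le_mul_of_nonneg_right (by linarith) (div_pos hε hpos).le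
        _ = ε := by field_simp
    linarith
  have hend2 : (d : ℝ) * (a ^ (d - 1) * b) ≤ d * I := by
    rw [← mul_assoc]
    exact hend
  exact le_of_mul_le_mul_left hend2 hd0

end PET
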