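import Pool.Agent.PET.Stmts

open MeasureTheory Set Filter
open scoped ENNReal

namespace PET

open SBA (EE Body vl kap)

namespace KAD_

lemma vl_pos {n : ℕ} {K : Set (EE n)} (hK : CB K) : 0 < vl K := by
  unfold SBA.vl
  refine ENNReal.toReal_pos ?_ hK.compact.measure_lt_top.ne
  have : (interior K).Nonempty := ⟨0, hK.zero⟩
  exact ((isOpen_interior.measure_pos volume this).trans_le (measure_mono interior_subset)).ne'

end KAD_

theorem kad_proof (h1 : Stmt_GRK) (h2 : Stmt_ISK) (h3 : Stmt_HSB) : Stmt_KAD := by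
  intro n K hn hK
  obtain ⟨hdiff, hmeas, -, -, -, -, r, R, hr, hR, -, -, hup, -, hlow⟩ := h1 n K hK
  have : IsFiniteMeasure ((volume : Measure (EE n)).restrict K) :=
    ⟨by simpa using hK.compact.measure_lt_top⟩
  have hfin0 : IsFiniteMeasure (ENNReal.ofReal (n * vl K ^ (-(((n : ℝ) - 1) / n))) •
      (volume : Measure (EE n)).restrict K) :=
    Measure.smul_finite _ ENNReal.ofReal_ne_top
  have hfin : IsFiniteMeasure (muK K) := by
    unfold muK
    exact Measure.isFiniteMeasure_map _ _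
  have hn0 : (n : ℝ) ≠ 0 := by positivity
  have hVp : 0 < vl K := KAD_.vl_pos hK
  refine ⟨hfin, ⟨R⁻¹, r⁻¹, by positivity, ?_⟩, ?_⟩
  · have hms : MeasurableSet {v : EE n | R⁻¹ ≤ ‖v‖ ∧ ‖v‖ ≤ r⁻¹} :=
      (measurableSet_le measurable_const measurable_norm).inter
        (measurableSet_le measurable_norm measurable_const)
    unfold muK
    rw [ae_map_iff hmeas.aemeasurable hms]
    refine Measure.ae_smul_measure (ae_restrict_of_ae ?_) _
    have : Nontrivial (EE n) := by
      have : Nonempty (Fin n) := ⟨⟨0, by omega⟩⟩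
      infer_instance
    have hne : ∀ᵐ x : EE n, x ≠ 0 := by
      simp [ae_iff]
    filter_upwards [hdiff, hne] with x hx hx0
    exact ⟨hlow x hx0 hx, hup x⟩
  · intro M hM
    have hcont : Continuous (hs M) := (h3 n M hM).2.2.2.2.2.1
    unfold muK
    rw [integral_map hmeas.aemeasurable hcont.aestronglyMeasurable, integral_smul_measure]
    have hk := (h2 n K M hn hK hM).2
    have hc0 : 0 ≤ (n : ℝ) * vl K ^ (-(((n : ℝ) - 1) / n)) := by positivity
    rw [ENNReal.toReal_ofReal hc0, smul_eq_mul]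
    calc (n : ℝ) * vl M ^ (1 / (n : ℝ))
        = (n : ℝ) * vl K ^ (-(((n : ℝ) - 1) / n)) *
            (vl K ^ (((n : ℝ) - 1) / n) * vl M ^ (1 / (n : ℝ))) := by
          have : vl K ^ (-(((n : ℝ) - 1) / n)) * vl K ^ (((n : ℝ) - 1) / n) = 1 := by
            rw [← Real.rpow_add hVp]
            simp
          linear_combination (-(n : ℝ) * vl M ^ (1 / (n : ℝ))) * this
      _ ≤ _ := mul_le_mul_of_nonneg_left hk hc0

end PET
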