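import Pool.Agent.PET.Stmts

open MeasureTheory Set Filter
open scoped ENNReal Pointwise

namespace PET

open SBA (EE Body vl kap)

namespace KPI_

lemma vl_pos {n : ℕ} {K : Set (EE n)} (hK : CB K) : 0 < vl K := by
  unfold SBA.vl
  refine ENNReal.toReal_pos ?_ hK.compact.measure_lt_top.ne
  have : (interior K).Nonempty := ⟨0, hK.zero⟩
  exact ((isOpen_interior.measure_pos volume this).trans_le (measure_mono interior_subset)).ne'

lemma int_eq {n : ℕ} {K : Set (EE n)} (hmeas : Measurable fun x => gradient (gauge K) x)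
    (u : EE n) :
    ∫ v, |inner ℝ u v| ∂(muK K) = n * vl K ^ (-(((n : ℝ) - 1) / n)) *
      (∫⁻ x in K, ‖(inner ℝ u (gradient (gauge K) x) : ℝ)‖ₑ).toReal := by
  have hc0 : 0 ≤ (n : ℝ) * vl K ^ (-(((n : ℝ) - 1) / n)) := by
    have : 0 ≤ vl K := ENNReal.toReal_nonneg
    positivity
  have hin : Measurable fun v : EE n => inner ℝ u v := by fun_prop
  unfold muK
  rw [integral_map hmeas.aemeasurable hin.abs.aestronglyMeasurable, integral_smul_measure,
    ENNReal.toReal_ofReal hc0, smul_eq_mul]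
  congr 1
  have h := integral_norm_eq_lintegral_enorm
    (μ := (volume : Measure (EE n)).restrict K)
    (f := fun x => (inner ℝ u (gradient (gauge K) x) : ℝ)) (hin.comp hmeas).aestronglyMeasurable
  rw [← h]
  rfl

end KPI_

theorem kpi_proof (h1 : Stmt_PRF) (h2 : Stmt_GRK) (h3 : Stmt_PBB) : Stmt_KPI := by
  intro n K hn hK
  have hmeas := (h2 n K hK).2.1
  have hVp : 0 < vl K := KPI_.vl_pos hK
  have hn0 : (n : ℝ) ≠ 0 := by positivity
  set c : ℝ := vl K ^ (((n : ℝ) - 1) / n) with hc
  have hcpos : 0 < c := Real.rpow_pos_of_pos hVp _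
  have hsub : c • Zn (muK K) ⊆ PiB K := by
    rintro _ ⟨x, hx, rfl⟩
    intro u hu
    have hx' := hx u
    have hfin : volume (prj K u) ≠ ∞ := by
      refine (IsCompact.measure_lt_top ?_).ne
      exact hK.compact.image (ContinuousLinearMap.continuous _)
    have hp := h1 n K u hn hK hu
    have hp' := ENNReal.toReal_mono hfin hp
    rw [ENNReal.toReal_mul, ENNReal.toReal_ofReal (by positivity)] at hp'
    have e := KPI_.int_eq hmeas u
    show inner ℝ (c • x) u ≤ _
    rw [real_inner_smul_left]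
    calc c * inner ℝ x u ≤ c * (1 / 2 * ∫ v, |inner ℝ u v| ∂(muK K)) :=
          mul_le_mul_of_nonneg_left hx' hcpos.le
      _ = (n : ℝ) / 2 * (∫⁻ x in K, ‖(inner ℝ u (gradient (gauge K) x) : ℝ)‖ₑ).toReal := by
          rw [e]
          have hcc : c * vl K ^ (-(((n : ℝ) - 1) / n)) = 1 := by
            rw [hc, ← Real.rpow_add hVp]
            simp
          linear_combination (n : ℝ) / 2 *
            (∫⁻ x in K, ‖(inner ℝ u (gradient (gauge K) x) : ℝ)‖ₑ).toReal * hcc
      _ ≤ _ := hp'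
  have hfin2 : volume (PiB K) ≠ ∞ := (h3 n K hn hK.compact).measure_lt_top.ne
  have hm : volume (c • Zn (muK K)) ≤ volume (PiB K) := measure_mono hsub
  rw [Measure.addHaar_smul] at hm
  have hm' := ENNReal.toReal_mono hfin2 hm
  rw [ENNReal.toReal_mul, finrank_euclideanSpace_fin, ENNReal.toReal_ofReal (abs_nonneg _),
    abs_of_pos (pow_pos hcpos n)] at hm'
  have hcn : c ^ n = vl K ^ (n - 1) := by
    rw [hc, ← Real.rpow_natCast, ← Real.rpow_mul hVp.le, div_mul_cancel₀ _ hn0,
      ← Real.rpow_natCast, Nat.cast_sub (by omega)]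
    simp
  rw [hcn] at hm'
  exact hm'

end PET
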