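import Pool.Agent.PET.Stmts

set_option autoImplicit false

namespace PET

open MeasureTheory Set Filter Topology
open scoped ENNReal Pointwise
open SBA (EE Body vl kap)

namespace LIN_

/-- monotone part -/
lemma mono_bound (f : ℝ → ℝ) (a b : ℝ) (hab : a ≤ b) (hf : MonotoneOn f (Icc a b)) :
    ∫⁻ s in Icc a b, ‖deriv f s‖ₑ ≤ ENNReal.ofReal (f b - f a) := by
  obtain ⟨G, hGf, hG, hG'⟩ := hf.exists_tendsto_deriv_liminf_lintegral_enorm_le hab
  exact (lintegral_enorm_le_liminf_of_tendsto hGf (fun n => (hG n).aemeasurable.enorm)).trans hG'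

/-- antitone part -/
lemma anti_bound (f : ℝ → ℝ) (a b : ℝ) (hab : a ≤ b) (hf : AntitoneOn f (Icc a b)) :
    ∫⁻ s in Icc a b, ‖deriv f s‖ₑ ≤ ENNReal.ofReal (f a - f b) := by
  have h := mono_bound (fun s => - f s) a b hab (fun x hx y hy hxy => neg_le_neg (hf hx hy hxy))
  have e : ∀ s, ‖deriv (fun s => - f s) s‖ₑ = ‖deriv f s‖ₑ := by
    intro s
    rw [deriv.fun_neg, enorm_neg]
  simp only [e] at h
  have e2 : - f b - (- f a) = f a - f b := by ring
  rw [e2] at h
  exact h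

lemma anti_left (f : ℝ → ℝ) (hc : ConvexOn ℝ univ f) (c : ℝ) (a : ℝ)
    (hmin : ∀ x ∈ Icc a c, f c ≤ f x) : AntitoneOn f (Icc a c) := by
  intro x hx y hy hxy
  have hseg : y ∈ segment ℝ x c := by
    rw [segment_eq_Icc (hxy.trans hy.2)]
    exact ⟨hxy, hy.2⟩
  have := hc.le_on_segment (mem_univ x) (mem_univ c) hseg
  rwa [max_eq_left (hmin x hx)] at this

lemma mono_right (f : ℝ → ℝ) (hc : ConvexOn ℝ univ f) (c : ℝ) (b : ℝ)
    (hmin : ∀ x ∈ Icc c b, f c ≤ f x) : MonotoneOn f (Icc c b) := by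
  intro x hx y hy hxy
  have hseg : x ∈ segment ℝ c y := by
    rw [segment_eq_Icc (hx.1.trans hxy)]
    exact ⟨hx.1, hxy⟩
  have := hc.le_on_segment (mem_univ c) (mem_univ y) hseg
  rwa [max_eq_right (hmin y hy)] at this

end LIN_

theorem lin_proof : Stmt_LIN := by
  intro f m hc hm hm1 hb
  have hcont : Continuous f := by
    have h := hc.continuousOn isOpen_univ
    rwa [continuousOn_univ] at h
  set S : Set ℝ := {s | f s ≤ 1} with hS
  have hclosed : IsClosed S := isClosed_le hcont continuous_const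
  have hcomp : IsCompact S := Metric.isCompact_of_isClosed_isBounded hclosed hb
  rcases S.eq_empty_or_nonempty with he | hne
  · rw [he]; simp
  have hconv : Convex ℝ S := by
    have := hc.convex_le 1
    simpa [hS] using this
  have hoc : OrdConnected S := hconv.ordConnected
  obtain ⟨a, haS, ha⟩ := hcomp.exists_isLeast hne
  obtain ⟨b, hbS, hb'⟩ := hcomp.exists_isGreatest hne
  have hSI : S = Icc a b := by
    apply Subset.antisymm
    · intro x hx
      exact ⟨ha hx, hb' hx⟩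
    · exact hoc.out haS hbS
  have hab : a ≤ b := ha hbS
  obtain ⟨c, hcS, hcm⟩ := isCompact_Icc.exists_isMinOn (nonempty_Icc.mpr hab) hcont.continuousOn
  have hmin : ∀ x ∈ Icc a b, f c ≤ f x := fun x hx => hcm hx
  have hA := LIN_.anti_bound f a c hcS.1 (LIN_.anti_left f hc c a
    (fun x hx => hmin x ⟨hx.1, hx.2.trans hcS.2⟩))
  have hB := LIN_.mono_bound f c b hcS.2 (LIN_.mono_right f hc c b
    (fun x hx => hmin x ⟨hcS.1.trans hx.1, hx.2⟩))
  have hfa : f a ≤ 1 := haS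
  have hfb : f b ≤ 1 := hbS
  have hfc : m ≤ f c := hm c
  have hca : f c ≤ f a := hmin a ⟨le_rfl, hab⟩
  have hcb : f c ≤ f b := hmin b ⟨hab, le_rfl⟩
  rw [hSI, ← Icc_union_Icc_eq_Icc hcS.1 hcS.2]
  calc ∫⁻ s in Icc a c ∪ Icc c b, ‖deriv f s‖ₑ
      ≤ (∫⁻ s in Icc a c, ‖deriv f s‖ₑ) + ∫⁻ s in Icc c b, ‖deriv f s‖ₑ :=
        lintegral_union_le _ _ _
    _ ≤ ENNReal.ofReal (f a - f c) + ENNReal.ofReal (f b - f c) := add_le_add hA hB
    _ = ENNReal.ofReal ((f a - f c) + (f b - f c)) :=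
        (ENNReal.ofReal_add (by linarith) (by linarith)).symm
    _ ≤ ENNReal.ofReal (2 * (1 - m)) := ENNReal.ofReal_le_ofReal (by linarith)

end PET
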