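import Pool.Agent.PET.Stmts

set_option autoImplicit false

namespace PET

open MeasureTheory Set
open scoped ENNReal Pointwise
open SBA (EE Body vl kap)

namespace LOW_

/-- the dilation in direction `u` -/
noncomputable def TT {n : ℕ} (u : EE n) (R : ℝ) : EE n →L[ℝ] EE n :=
  ContinuousLinearMap.id ℝ (EE n) + (innerSL ℝ u).smulRight ((R - 1) • u)

theorem TT_apply {n : ℕ} (u : EE n) (R : ℝ) (v : EE n) :
    TT u R v = v + (inner ℝ u v * (R - 1)) • u := by
  simp [TT, smul_smul]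

theorem TT_adj {n : ℕ} (u : EE n) (R : ℝ) :
    ContinuousLinearMap.adjoint (TT u R) = TT u R := by
  symm
  rw [ContinuousLinearMap.eq_adjoint_iff]
  intro x y
  rw [TT_apply, TT_apply, inner_add_left, inner_add_right, inner_smul_left, inner_smul_right]
  simp only [conj_trivial]
  rw [real_inner_comm u x]
  ring

theorem TT_norm {n : ℕ} (u : EE n) (R : ℝ) (hu : ‖u‖ = 1) (hR : 1 ≤ R) (v : EE n) :
    ‖TT u R v‖ ≤ ‖v‖ + R * |inner ℝ u v| := by
  rw [TT_apply]
  calc ‖v + (inner ℝ u v * (R - 1)) • u‖ ≤ ‖v‖ + ‖(inner ℝ u v * (R - 1)) • u‖ := norm_add_le _ _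
    _ = ‖v‖ + |inner ℝ u v| * (R - 1) := by
        rw [norm_smul, hu, mul_one, Real.norm_eq_abs, abs_mul, abs_of_nonneg (by linarith : 0 ≤ R - 1)]
    _ ≤ ‖v‖ + R * |inner ℝ u v| := by
        nlinarith [abs_nonneg (inner ℝ u v)]

theorem intg {n : ℕ} (μ : Measure (EE n)) [IsFiniteMeasure μ] (f : EE n → ℝ) (hf : Continuous f)
    (C b : ℝ) (hC : ∀ v, |f v| ≤ C * ‖v‖) (hC0 : 0 ≤ C) (hb : ∀ᵐ v ∂μ, ‖v‖ ≤ b) :
    Integrable f μ := by
  refine Integrable.of_bound hf.aestronglyMeasurable (C * b) ?_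
  filter_upwards [hb] with v hv
  rw [Real.norm_eq_abs]
  exact (hC v).trans (mul_le_mul_of_nonneg_left hv hC0)

end LOW_

open LOW_ in
theorem low_proof (_h1 : Stmt_HSB) (h2 : Stmt_HSL) (h3 : Stmt_DTS) : Stmt_LOW := by
  intro n μ _ hn hA
  have hn1 : 1 ≤ n := by omega
  obtain ⟨hlin, hB, hsB, hkap, _, _⟩ := h2 n hn1
  obtain ⟨hdet, _, _⟩ := h3 n hn1
  obtain ⟨a, b, _, hab⟩ := hA.bd
  have hb : ∀ᵐ v ∂μ, ‖v‖ ≤ b := hab.mono fun v hv => hv.2
  set S : ℝ := ∫ v, ‖v‖ ∂μ with hS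
  have hS0 : 0 ≤ S := integral_nonneg fun v => norm_nonneg v
  have hnpos : (0 : ℝ) < n := by exact_mod_cast hn1
  set R : ℝ := max 1 (((S + 1) / n) ^ n / kap n) with hR
  have hR1 : 1 ≤ R := le_max_left _ _
  have hR0 : 0 < R := by linarith
  have hRk : ((S + 1) / n) ^ n ≤ R * kap n := by
    have : ((S + 1) / n) ^ n / kap n ≤ R := le_max_right _ _
    exact (div_le_iff₀ hkap).1 this
  have hint1 : Integrable (fun v : EE n => ‖v‖) μ :=
    intg μ _ continuous_norm 1 b (fun v => by simp) zero_le_one hb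
  -- unit vectors
  have key : ∀ u : EE n, ‖u‖ = 1 → 1 / R ≤ ∫ v, |inner ℝ u v| ∂μ := by
    intro u hu
    have hint2 : Integrable (fun v : EE n => |inner ℝ u v|) μ := by
      refine intg μ _ (by fun_prop) 1 b (fun v => ?_) zero_le_one hb
      rw [abs_abs]
      have := abs_real_inner_le_norm u v
      rw [hu] at this
      exact this
    have hd : (TT u R).det = R := by
      unfold TT
      rw [hdet u ((R - 1) • u), inner_smul_right, real_inner_self_eq_norm_sq, hu]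
      ring
    obtain ⟨hBody, hvol, hhs⟩ := hlin (Metric.closedBall (0 : EE n) 1) (TT u R) hB
      (by rw [hd]; exact hR0.ne')
    have hm := hA.mink _ hBody
    rw [hvol, hd, abs_of_pos hR0] at hm
    have hint3 : Integrable (fun v : EE n => ‖TT u R v‖) μ := by
      refine intg μ _ (by fun_prop) ‖TT u R‖ b (fun v => ?_) (norm_nonneg _) hb
      rw [abs_of_nonneg (norm_nonneg _)]
      exact (TT u R).le_opNorm v
    have hle : ∫ v, hs (TT u R '' Metric.closedBall (0 : EE n) 1) v ∂μ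
        ≤ S + R * ∫ v, |inner ℝ u v| ∂μ := by
      have e1 : ∫ v, hs (TT u R '' Metric.closedBall (0 : EE n) 1) v ∂μ
          = ∫ v, ‖TT u R v‖ ∂μ := by
        apply integral_congr_ae
        filter_upwards with v
        rw [hhs v, TT_adj, hsB]
      rw [e1, hS, ← integral_const_mul, ← integral_add hint1 (hint2.const_mul R)]
      exact integral_mono hint3 (hint1.add (hint2.const_mul R))
        (fun v => TT_norm u R hu hR1 v)
    have hlow : S + 1 ≤ n * (R * vl (Metric.closedBall (0 : EE n) 1)) ^ (1 / (n : ℝ)) := by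
      have h0 : (0 : ℝ) ≤ (S + 1) / n := div_nonneg (by linarith) hnpos.le
      have e2 : (S + 1) / n = (((S + 1) / n) ^ n) ^ (1 / (n : ℝ)) := by
        rw [one_div, Real.pow_rpow_inv_natCast h0 (by omega)]
      have e3 : (S + 1) / n ≤ (R * vl (Metric.closedBall (0 : EE n) 1)) ^ (1 / (n : ℝ)) := by
        rw [e2]
        exact Real.rpow_le_rpow (pow_nonneg h0 n) hRk (one_div_nonneg.2 hnpos.le)
      calc S + 1 = n * ((S + 1) / n) := by field_simp
        _ ≤ _ := mul_le_mul_of_nonneg_left e3 hnpos.le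
    have : 1 ≤ R * ∫ v, |inner ℝ u v| ∂μ := by linarith
    rw [div_le_iff₀ hR0, mul_comm]
    exact this
  refine ⟨1 / R, one_div_pos.2 hR0, fun u => ?_⟩
  by_cases hu : u = 0
  · subst hu
    simp
  · have hun : 0 < ‖u‖ := norm_pos_iff.2 hu
    have h := key ((‖u‖)⁻¹ • u) (by rw [norm_smul, norm_inv, norm_norm, inv_mul_cancel₀ hun.ne'])
    have e : ∀ v : EE n, |inner ℝ ((‖u‖)⁻¹ • u) v| = (‖u‖)⁻¹ * |inner ℝ u v| := by
      intro v
      rw [real_inner_smul_left, abs_mul, abs_of_pos (inv_pos.2 hun)]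
    simp only [e] at h
    rw [integral_const_mul] at h
    calc 1 / R * ‖u‖ ≤ ((‖u‖)⁻¹ * ∫ v, |inner ℝ u v| ∂μ) * ‖u‖ :=
          mul_le_mul_of_nonneg_right h hun.le
      _ = ∫ v, |inner ℝ u v| ∂μ := by field_simp

end PET
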