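import Pool.Agent.PET.Stmts

/-!
# MIK: volume of `K + t M`
-/

set_option autoImplicit false

namespace PET

open MeasureTheory Set Filter Topology
open scoped ENNReal Pointwise
open SBA (EE Body vl kap)

theorem mik_proof (h1 : Stmt_GRK) (h2 : Stmt_POK) (h3 : Stmt_HSB) : Stmt_MIK := by
  intro n K M t hn hK hM ht
  obtain ⟨hdiff, hmeas, hle, heq, hhom, hmem, -⟩ := h1 n K hK
  obtain ⟨-, hM2, -, -, hM5, hM6, -⟩ := h3 n M hM
  have hpol := h2 n K (fun x => 1 + t * hs M (gradient (gauge K) x)) hn hK
    ((hM6.measurable.comp hmeas).const_mul t |>.const_add 1)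
    (fun x => by
      have := mul_nonneg ht.le (hM5 (gradient (gauge K) x))
      linarith)
    (fun s x hs => by simp only [hhom s x hs])
  rw [← hpol]
  apply measure_mono_ae
  filter_upwards [hdiff] with z hz hzmem
  obtain ⟨c, hc, w, hw, rfl⟩ := hzmem
  obtain ⟨l, hl, rfl⟩ := hw
  have e1 := heq _ hz
  simp only at e1
  set g := gradient (gauge K) (c + t • l) with hg
  have e2 : inner ℝ g (c + t • l) = inner ℝ g c + t * inner ℝ g l := by
    rw [inner_add_right, inner_smul_right]
  have e3 : inner ℝ g c ≤ 1 := (hle _ hz c).trans ((hmem c).1 hc)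
  have e4 : inner ℝ g l ≤ hs M g := by
    rw [real_inner_comm]
    exact hM2 g l hl
  have e5 := mul_le_mul_of_nonneg_left e4 ht.le
  show gauge K (c + t • l) ≤ 1 + t * hs M (gradient (gauge K) (c + t • l))
  rw [← hg]
  linarith

end PET
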