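import Pool.Agent.PET.Stmts

set_option autoImplicit false

namespace PET

open MeasureTheory Set
open scoped ENNReal Pointwise
open SBA (EE Body vl kap)

namespace MML_

lemma exp_half_le : Real.exp (1 / 2) ≤ 2 := by
  have h1 : Real.exp (1 / 2) ^ 2 = Real.exp 1 := by
    rw [← Real.exp_nat_mul]
    norm_num
  have h2 := Real.exp_one_lt_d9
  nlinarith [Real.exp_pos (1 / 2 : ℝ)]

lemma exp_nat_half (n : ℕ) : Real.exp ((n : ℝ) / 2) = Real.exp (1 / 2) ^ n := by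
  rw [← Real.exp_nat_mul]
  congr 1
  ring

lemma sqrt_e_pow (n : ℕ) : √(Real.exp 1) ^ n = Real.exp ((n : ℝ) / 2) := by
  rw [exp_nat_half]
  congr 1
  rw [show (1 : ℝ) / 2 = 1 * (1 / 2) by ring, Real.exp_mul, Real.sqrt_eq_rpow]

lemma caseB (n : ℕ) (k C E V : ℝ) (hk : 0 < k) (hE : 0 ≤ E) (hC : 0 ≤ C)
    (hV : (4 * (n : ℝ) / (2 * n)) ^ n * k ≤ V) (hn : 1 ≤ n) :
    Real.exp (-(C * E)) * (Real.exp ((n : ℝ) / 2) * k) ≤ V := by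
  have hn' : (0 : ℝ) < n := by exact_mod_cast hn
  have h1 : (4 * (n : ℝ) / (2 * n)) = 2 := by
    field_simp
    norm_num
  rw [h1] at hV
  have h2 : Real.exp (-(C * E)) ≤ 1 := by
    rw [Real.exp_le_one_iff]
    have := mul_nonneg hC hE
    linarith
  have h3 : Real.exp ((n : ℝ) / 2) ≤ 2 ^ n := by
    rw [exp_nat_half]
    exact pow_le_pow_left₀ (Real.exp_pos _).le exp_half_le n
  have h4 : 0 ≤ Real.exp ((n : ℝ) / 2) * k := by positivity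
  calc Real.exp (-(C * E)) * (Real.exp ((n : ℝ) / 2) * k)
      ≤ 1 * (Real.exp ((n : ℝ) / 2) * k) := mul_le_mul_of_nonneg_right h2 h4
    _ = Real.exp ((n : ℝ) / 2) * k := one_mul _
    _ ≤ 2 ^ n * k := mul_le_mul_of_nonneg_right h3 hk.le
    _ ≤ V := hV

lemma rpow_inv_nat_le {n : ℕ} (hn : 1 ≤ n) {a l b : ℝ} (ha : 0 ≤ a) (hb : 0 < b)
    (h : b * a ^ (1 / (n : ℝ)) ≤ l) : a ≤ (l / b) ^ n := by
  have hn' : (n : ℝ) ≠ 0 := by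
    have : (0 : ℝ) < n := by exact_mod_cast hn
    exact this.ne'
  have h1 : a ^ (1 / (n : ℝ)) ≤ l / b := by
    rw [le_div_iff₀ hb]
    linarith
  calc a = (a ^ (1 / (n : ℝ))) ^ n := by
        rw [← Real.rpow_natCast, ← Real.rpow_mul ha, one_div, inv_mul_cancel₀ hn', Real.rpow_one]
    _ ≤ (l / b) ^ n := pow_le_pow_left₀ (Real.rpow_nonneg ha _) h1 n

lemma final (n : ℕ) (k q u R L P V X : ℝ) (hk : 0 < k) (hq : 0 ≤ q) (hu : 0 ≤ u)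
    (hR : 0 ≤ R) (hL : 1 / 2 * (q ^ n * k) ≤ L ^ n)
    (hP : P ≤ 15 / 64 * q ^ n * u * R)
    (hV : 15 / 32 * (L * X) ^ n * u * R ≤ V) (hX : 0 ≤ X) :
    P * (X ^ n * k) ≤ V := by
  have hXn : 0 ≤ X ^ n := pow_nonneg hX n
  calc P * (X ^ n * k) ≤ (15 / 64 * q ^ n * u * R) * (X ^ n * k) :=
        mul_le_mul_of_nonneg_right hP (by positivity)
    _ = 15 / 32 * ((1 / 2 * (q ^ n * k)) * X ^ n) * u * R := by ring
    _ ≤ 15 / 32 * (L ^ n * X ^ n) * u * R := by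
        have h1 : (1 / 2 * (q ^ n * k)) * X ^ n ≤ L ^ n * X ^ n :=
          mul_le_mul_of_nonneg_right hL hXn
        have h2 : 15 / 32 * ((1 / 2 * (q ^ n * k)) * X ^ n) ≤ 15 / 32 * (L ^ n * X ^ n) := by
          linarith
        exact mul_le_mul_of_nonneg_right (mul_le_mul_of_nonneg_right h2 hu) hR
    _ = 15 / 32 * (L * X) ^ n * u * R := by rw [mul_pow]
    _ ≤ V := hV

end MML_

open MML_ in
theorem mml_proof (h1 : Stmt_NUA) (h2 : Stmt_NUB) (h3 : Stmt_POS) (h4 : Stmt_CSA)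
    (h5 : Stmt_GPZ) (h6 : Stmt_MWV) (h7 : Stmt_ADT) (h8 : SBA.Stmt_KAP) (h9 : Stmt_HSL) :
    Stmt_MML := by
  obtain ⟨n₁, hn₁2, hA⟩ := h1
  obtain ⟨n₂, C, hC, hB⟩ := h2
  refine ⟨max n₁ n₂, C, hC, ?_⟩
  intro n μ _ hn hn2 hadm
  have hn1' : n₁ ≤ n := le_trans (le_max_left _ _) hn
  have hn2' : n₂ ≤ n := le_trans (le_max_right _ _) hn
  have hn1 : 1 ≤ n := by omega
  have hrpos : (0 : ℝ) < (n : ℝ) := by exact_mod_cast hn1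
  have hkap : 0 < kap n := (h9 n hn1).2.2.2.1
  obtain ⟨r, hr⟩ : ∃ r : ℝ, r = (n : ℝ) := ⟨_, rfl⟩
  obtain ⟨t, ht⟩ : ∃ t : ℝ, t = r ^ (1 / 30 : ℝ) := ⟨_, rfl⟩
  obtain ⟨β, hβ⟩ : ∃ β : ℝ, β = r ^ (-(3 / 20) : ℝ) := ⟨_, rfl⟩
  obtain ⟨c, hc⟩ : ∃ c : ℝ, c = (r ^ 5)⁻¹ := ⟨_, rfl⟩
  obtain ⟨τ, hτ⟩ : ∃ τ : ℝ, τ = √(2 * Real.log (4 * r ^ 6)) := ⟨_, rfl⟩
  obtain ⟨δ, hδ⟩ : ∃ δ : ℝ, δ = 60 * r ^ (-(3 / 10) : ℝ) := ⟨_, rfl⟩
  obtain ⟨s, hs⟩ : ∃ s : ℝ, s = r ^ (-(1 / 15) : ℝ) := ⟨_, rfl⟩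
  obtain ⟨p1, p2, p3, p4, p5, p6, p7, p8, p9, p10, p11, p12, p13⟩ :=
    hA n r t β c τ δ hn1' hr ht hβ hc hτ hδ
  have hfin := hB n r t τ δ s hn2' hr ht hτ hδ hs
  have hs0 : 0 < s := by
    rw [hs, hr]
    exact Real.rpow_pos_of_pos hrpos _
  by_cases hcase : ∃ A₀ : EE n →L[ℝ] EE n, A₀.det = 1 ∧ ∫ v, ‖A₀ v‖ ∂μ ≤ 4 * n
  · obtain ⟨A₀, hA₀, hA₀'⟩ := hcase
    have hkap1 := (h8 n hn1).1
    subst hr
    have hpos := h3 n (n ^ 6) μ t β c A₀ hn2 hadm p1 p2 p3 p4 p5 p6 (by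
      refine lt_of_lt_of_le p7 ?_
      have hb : 0 ≤ β * (n : ℝ) := by positivity
      exact mul_le_mul_of_nonneg_left hkap1 hb) hA₀ hA₀'
    obtain ⟨A, m, w, x, lam, hdet, hmN, hUS, hlam, hlam2, hGP⟩ := hpos
    have hsq : (0 : ℝ) < √(n : ℝ) := Real.sqrt_pos.mpr hrpos
    have hgpz := h5 n (μ.map A) x β (2 * t / √n) (6 * c * (n * √n) / t ^ 3) lam δ s hn1 p3 p4 hlam
      (by positivity) (by positivity) p12 hs0 hGP p13
    have hmwv := h6 n m t τ w hn1 p8 p9 hUS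
    have hvl : 0 ≤ vl (MW t w) := by
      unfold SBA.vl
      exact ENNReal.toReal_nonneg
    have hQ : 0 ≤ √(1 - τ ^ 2 / t ^ 2) := Real.sqrt_nonneg _
    have hhalf : 1 / 2 * (√(1 - τ ^ 2 / t ^ 2) ^ n * kap n) ≤ vl (MW t w) := by
      refine le_trans ?_ hmwv
      apply mul_le_mul_of_nonneg_right _ (by positivity)
      have hm : (m : ℝ) ≤ (n : ℝ) ^ 6 := by exact_mod_cast hmN
      have he : 0 < Real.exp (-(τ ^ 2 / 2)) := Real.exp_pos _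
      have hm2 : 2 * (m : ℝ) * Real.exp (-(τ ^ 2 / 2)) ≤ 2 * (n : ℝ) ^ 6 * Real.exp (-(τ ^ 2 / 2)) := by
        apply mul_le_mul_of_nonneg_right _ he.le
        linarith
      linarith
    have hb0 : (0 : ℝ) < 1 + β := by linarith
    have hLn : vl (MW t w) ≤ (lam / (1 + β)) ^ n := rpow_inv_nat_le hn1 hvl hb0 hlam2
    have hadt := (h7 n μ A hn2 hadm hdet).2
    rw [hadt] at hgpz
    have hu : 0 ≤ ((1 + s) ^ n)⁻¹ := by positivity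
    have hres := final n (kap n) (√(1 - τ ^ 2 / t ^ 2)) (((1 + s) ^ n)⁻¹) _ (lam / (1 + β)) _
      (vl (Zn μ)) (√(Real.exp 1)) hkap hQ hu (Real.exp_pos _).le (le_trans hhalf hLn) hfin hgpz
      (Real.sqrt_nonneg _)
    rw [sqrt_e_pow] at hres
    exact hres
  · have hS : ∀ A : EE n →L[ℝ] EE n, A.det = 1 → 4 * (n : ℝ) ≤ ∫ v, ‖A v‖ ∂μ := by
      intro A hA1
      by_contra hlt
      push Not at hlt
      exact hcase ⟨A, hA1, hlt.le⟩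
    have h := h4 n μ (4 * n) hn2 hadm (by positivity) hS
    exact caseB n (kap n) C ((n : ℝ) ^ (15 / 16 : ℝ)) (vl (Zn μ)) hkap
      (Real.rpow_nonneg hrpos.le _) hC.le h hn1

end PET
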