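import Pool.Agent.PET.Stmts

set_option autoImplicit false

namespace PET

open MeasureTheory Set
open scoped ENNReal Pointwise
open SBA (EE Body vl kap)

namespace MMM_

/-- a finite list of positive numbers has a positive exponential lower bound -/
lemma low (f : ℕ → ℝ) (N : ℕ) (hf : ∀ n, 1 ≤ n → 0 < f n) :
    ∃ C : ℝ, 0 < C ∧ ∀ n, 1 ≤ n → n < N → Real.exp (-C) ≤ f n := by
  induction N with
  | zero => exact ⟨1, one_pos, fun n _ h => absurd h (Nat.not_lt_zero n)⟩
  | succ N ih =>
    obtain ⟨C, hC, h⟩ := ih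
    rcases Nat.eq_zero_or_pos N with h0 | h0
    · subst h0
      exact ⟨1, one_pos, fun n h1 h2 => by omega⟩
    · have hN := hf N h0
      refine ⟨max C (|Real.log (f N)|), lt_max_of_lt_left hC, fun n h1 h2 => ?_⟩
      rcases Nat.lt_succ_iff_lt_or_eq.mp h2 with h3 | h3
      · exact le_trans (Real.exp_le_exp.mpr (by linarith [le_max_left C (|Real.log (f N)|)]))
          (h n h1 h3)
      · subst h3
        rw [← Real.log_le_log_iff (Real.exp_pos _) hN, Real.log_exp]
        have := neg_abs_le (Real.log (f n))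
        have := le_max_right C (|Real.log (f n)|)
        linarith

end MMM_

theorem mmm_proof (h1 : Stmt_MML) (h2 : Stmt_CSA) (h3 : Stmt_HSL) (h4 : Stmt_ADT) : Stmt_MMM := by
  obtain ⟨n₀, C, hC, hL⟩ := h1
  obtain ⟨D, hD, hlow⟩ := MMM_.low (fun n => kap n / 2 ^ n * Real.exp (-((n : ℝ) / 2))) n₀
    (fun n hn => by
      have := (h3 n hn).2.2.2.1
      positivity)
  refine ⟨max C D, lt_max_of_lt_left hC, fun n μ _ hn hμ => ?_⟩
  have hk : 0 < kap n := (h3 n (by omega)).2.2.2.1
  have hq1 : 1 ≤ (n : ℝ) ^ (15 / 16 : ℝ) :=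
    Real.one_le_rpow (by exact_mod_cast (by omega : 1 ≤ n)) (by norm_num)
  by_cases hn0 : n₀ ≤ n
  · refine le_trans ?_ (hL n μ hn0 hn hμ)
    gcongr
    exact le_max_left _ _
  · push Not at hn0
    have hnR : (0 : ℝ) < n := by exact_mod_cast (by omega : 0 < n)
    have hc := h2 n μ (n * kap n ^ (1 / (n : ℝ))) hn hμ (by positivity) (fun A hA => by
      have hB := (h4 n μ A hn hμ hA).1
      have h5 := hB.mink _ (h3 n (by omega)).2.1
      have h6 : ∫ v, hs (Metric.closedBall (0 : EE n) 1) v ∂(μ.map A) = ∫ v, ‖A v‖ ∂μ := by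
        have h7 : (fun v : EE n => hs (Metric.closedBall (0 : EE n) 1) v) = fun v => ‖v‖ :=
          funext (h3 n (by omega)).2.2.1
        rw [h7, integral_map A.continuous.measurable.aemeasurable]
        exact continuous_norm.aestronglyMeasurable
      rw [h6] at h5
      exact h5)
    have h8 : (n * kap n ^ (1 / (n : ℝ)) / (2 * n)) ^ n * kap n = kap n / 2 ^ n * kap n := by
      have : n * kap n ^ (1 / (n : ℝ)) / (2 * n) = kap n ^ (1 / (n : ℝ)) / 2 := by
        field_simp
      rw [this, div_pow, ← Real.rpow_natCast, ← Real.rpow_mul hk.le]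
      congr 2
      rw [one_div, inv_mul_cancel₀ hnR.ne', Real.rpow_one]
    rw [h8] at hc
    refine le_trans ?_ hc
    have h9 := hlow n (by omega) hn0
    have h10 : Real.exp (-(max C D * (n : ℝ) ^ (15 / 16 : ℝ))) ≤ Real.exp (-D) := by
      apply Real.exp_le_exp.mpr
      have := le_max_right C D
      nlinarith
    calc Real.exp (-(max C D * (n : ℝ) ^ (15 / 16 : ℝ))) * (Real.exp (n / 2) * kap n)
        ≤ (kap n / 2 ^ n * Real.exp (-((n : ℝ) / 2))) * (Real.exp (n / 2) * kap n) := by
          gcongr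
          exact h10.trans h9
      _ = kap n / 2 ^ n * kap n * (Real.exp (-((n : ℝ) / 2)) * Real.exp (n / 2)) := by ring
      _ = kap n / 2 ^ n * kap n := by
          rw [← Real.exp_add]
          simp

end PET
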