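import Pool.Agent.PET.Stmts

set_option autoImplicit false

namespace PET

open MeasureTheory Set
open scoped ENNReal Pointwise
open SBA (EE Body vl kap)

namespace MWB_

lemma jens {a b p q : ℝ} (ha : 0 ≤ a) (hb : 0 ≤ b) (hab : a + b = 1) :
    (a * p + b * q) ^ 2 ≤ a * p ^ 2 + b * q ^ 2 := by
  obtain rfl : b = 1 - a := by linarith
  nlinarith [mul_nonneg (mul_nonneg ha hb) (sq_nonneg (p - q))]

lemma norm_jens {n : ℕ} {a b : ℝ} (x y : EE n) (ha : 0 ≤ a) (hb : 0 ≤ b) (hab : a + b = 1) :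
    ‖a • x + b • y‖ ^ 2 ≤ a * ‖x‖ ^ 2 + b * ‖y‖ ^ 2 := by
  have h1 : ‖a • x + b • y‖ ≤ a * ‖x‖ + b * ‖y‖ := by
    refine (norm_add_le _ _).trans ?_
    rw [norm_smul, norm_smul, Real.norm_of_nonneg ha, Real.norm_of_nonneg hb]
  exact (pow_le_pow_left₀ (norm_nonneg _) h1 2).trans (jens ha hb hab)

variable {n m : ℕ} {t : ℝ} {w : Fin m → EE n}

lemma sub_ball : MW t w ⊆ Metric.closedBall 0 1 := by
  intro x hx
  rw [mem_closedBall_zero_iff]
  exact hx.1

lemma conv : Convex ℝ (MW t w) := by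
  intro x hx y hy a b ha hb hab
  refine ⟨?_, fun j => ?_⟩
  · refine (norm_add_le _ _).trans ?_
    rw [norm_smul, norm_smul, Real.norm_of_nonneg ha, Real.norm_of_nonneg hb]
    nlinarith [hx.1, hy.1]
  · have h1 := norm_jens x y ha hb hab
    have h2 : inner ℝ (a • x + b • y) (w j) = a * inner ℝ x (w j) + b * inner ℝ y (w j) := by
      rw [inner_add_left, real_inner_smul_left, real_inner_smul_left]
    have h3 := jens (p := inner ℝ x (w j)) (q := inner ℝ y (w j)) ha hb hab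
    have h4 : (0 : ℝ) ≤ n / t ^ 2 := by positivity
    have h5 := mul_le_mul_of_nonneg_left h3 h4
    rw [h2]
    have h6 := mul_le_mul_of_nonneg_left (hx.2 j) ha
    have h7 := mul_le_mul_of_nonneg_left (hy.2 j) hb
    nlinarith

lemma closed : IsClosed (MW t w) := by
  have h : MW t w = {x | ‖x‖ ≤ 1} ∩
      ⋂ j, {x : EE n | ‖x‖ ^ 2 + n / t ^ 2 * (inner ℝ x (w j)) ^ 2 ≤ 1} := by
    ext x
    simp only [MW, Set.mem_inter_iff, Set.mem_iInter]
    rfl
  rw [h]
  refine (isClosed_le (by fun_prop) continuous_const).inter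
    (isClosed_iInter fun j => isClosed_le (by fun_prop) continuous_const)

end MWB_

open MWB_ in
theorem mwb_proof : Stmt_MWB := by
  intro n m t w hn ht hw
  have hn0 : (0 : ℝ) < n := by exact_mod_cast hn
  have hball : Metric.closedBall 0 (t / √(n + t ^ 2)) ⊆ MW t w := by
    intro x hx
    rw [mem_closedBall_zero_iff] at hx
    have hs : (0 : ℝ) < n + t ^ 2 := by positivity
    have hx2 : ‖x‖ ^ 2 ≤ t ^ 2 / (n + t ^ 2) := by
      have h1 := pow_le_pow_left₀ (norm_nonneg x) hx 2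
      rwa [div_pow, Real.sq_sqrt hs.le] at h1
    have hx3 : ‖x‖ ^ 2 * (1 + n / t ^ 2) ≤ 1 := by
      have h1 : (0 : ℝ) ≤ 1 + n / t ^ 2 := by positivity
      refine (mul_le_mul_of_nonneg_right hx2 h1).trans (le_of_eq ?_)
      field_simp
      ring
    have h4 : (0 : ℝ) ≤ n / t ^ 2 := by positivity
    refine ⟨?_, fun j => ?_⟩
    · have h5 : ‖x‖ ^ 2 ≤ 1 := by nlinarith [sq_nonneg ‖x‖, mul_nonneg (sq_nonneg ‖x‖) h4]
      have := abs_le_of_sq_le_sq (a := ‖x‖) (b := 1) (by simpa using h5) (by norm_num)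
      exact (le_abs_self _).trans this
    · have h6 : (inner ℝ x (w j)) ^ 2 ≤ ‖x‖ ^ 2 := by
        have h7 := abs_real_inner_le_norm x (w j)
        rw [hw j, mul_one] at h7
        have h8 := pow_le_pow_left₀ (abs_nonneg _) h7 2
        rwa [sq_abs] at h8
      have h9 := mul_le_mul_of_nonneg_left h6 h4
      linarith
  have hr : 0 < t / √((n : ℝ) + t ^ 2) := by positivity
  refine ⟨⟨conv, ?_, ?_, ?_⟩, hball, sub_ball, ?_⟩
  · exact Metric.isCompact_of_isClosed_isBounded closed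
      (Metric.isBounded_closedBall.subset sub_ball)
  · intro x hx
    refine ⟨by rw [norm_neg]; exact hx.1, fun j => ?_⟩
    rw [norm_neg, inner_neg_left, neg_sq]
    exact hx.2 j
  · refine ⟨0, ?_⟩
    rw [mem_interior_iff_mem_nhds]
    exact Filter.mem_of_superset (Metric.closedBall_mem_nhds 0 hr) hball
  · intro x hx j
    have h1 := hx.2 j
    have h2 : (n : ℝ) / t ^ 2 * (inner ℝ x (w j)) ^ 2 ≤ 1 := by
      have := sq_nonneg ‖x‖
      linarith
    have h3 : (inner ℝ x (w j)) ^ 2 ≤ (t / √n) ^ 2 := by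
      rw [div_pow, Real.sq_sqrt hn0.le, le_div_iff₀ hn0]
      have ht2 : (0 : ℝ) < t ^ 2 := by positivity
      have h4 : (n : ℝ) / t ^ 2 * (inner ℝ x (w j)) ^ 2 * t ^ 2 ≤ 1 * t ^ 2 :=
        mul_le_mul_of_nonneg_right h2 ht2.le
      have h5 : (n : ℝ) / t ^ 2 * (inner ℝ x (w j)) ^ 2 * t ^ 2 =
        (inner ℝ x (w j)) ^ 2 * n := by field_simp
      linarith
    exact abs_le_of_sq_le_sq' h3 (by positivity) |> abs_le.2

end PET
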