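import Pool.Agent.PET.Stmts

/-!
# MWC: continuity of the truncated ball in the slabs
-/

set_option autoImplicit false

namespace PET

open MeasureTheory Set Filter
open SBA (EE Body vl kap)

theorem mwc_proof (h1 : Stmt_MWB) (h2 : Stmt_HSB) : Stmt_MWC := by
  intro n m t δ w w' v hn ht hδ hw hw' hd
  have hn0 : (0 : ℝ) < n := by exact_mod_cast hn
  have hB := (h1 n m t w hn ht hw).1
  have hB' := (h1 n m t w' hn ht hw').1
  set q : ℝ := √(1 + 2 * n * δ / t ^ 2) with hq
  have harg : 1 ≤ 1 + 2 * n * δ / t ^ 2 := by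
    have : 0 ≤ 2 * n * δ / t ^ 2 := by positivity
    linarith
  have hq1 : 1 ≤ q := by rw [hq]; exact Real.one_le_sqrt.2 harg
  have hq0 : 0 < q := lt_of_lt_of_le one_pos hq1
  have hq2 : q ^ 2 = 1 + 2 * n * δ / t ^ 2 := by
    rw [hq, Real.sq_sqrt (by linarith)]
  obtain ⟨x, hx, hxv⟩ := (h2 n _ hB).1 v
  rw [← hxv]
  obtain ⟨hx1, hxw⟩ := hx
  have hmem : q⁻¹ • x ∈ MW t w' := by
    refine ⟨?_, fun j => ?_⟩
    · rw [norm_smul, norm_inv, Real.norm_of_nonneg hq0.le]
      calc q⁻¹ * ‖x‖ ≤ 1 * 1 :=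
            mul_le_mul (inv_le_one_of_one_le₀ hq1) hx1 (norm_nonneg _) zero_le_one
        _ = 1 := one_mul 1
    · have e1 : ‖q⁻¹ • x‖ ^ 2 + n / t ^ 2 * (inner ℝ (q⁻¹ • x) (w' j)) ^ 2 =
          (‖x‖ ^ 2 + n / t ^ 2 * (inner ℝ x (w' j)) ^ 2) / q ^ 2 := by
        rw [norm_smul, norm_inv, Real.norm_of_nonneg hq0.le, real_inner_smul_left]
        field_simp
      rw [e1, div_le_one (by positivity), hq2]
      have e2 : (inner ℝ x (w' j)) ^ 2 = (inner ℝ x (w j)) ^ 2 +
          (inner ℝ x (w' j - w j)) * (inner ℝ x (w' j + w j)) := by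
        rw [inner_sub_right, inner_add_right]; ring
      have e3 : (inner ℝ x (w' j - w j)) * (inner ℝ x (w' j + w j)) ≤ 2 * δ := by
        have a1 : |(inner ℝ x (w' j - w j) : ℝ)| ≤ δ := by
          calc |(inner ℝ x (w' j - w j) : ℝ)| ≤ ‖x‖ * ‖w' j - w j‖ := abs_real_inner_le_norm _ _
            _ ≤ 1 * δ := by
                refine mul_le_mul hx1 ?_ (norm_nonneg _) zero_le_one
                rw [norm_sub_rev]; exact hd j
            _ = δ := one_mul _
        have a2 : |(inner ℝ x (w' j + w j) : ℝ)| ≤ 2 := by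
          calc |(inner ℝ x (w' j + w j) : ℝ)| ≤ ‖x‖ * ‖w' j + w j‖ := abs_real_inner_le_norm _ _
            _ ≤ 1 * 2 := by
                refine mul_le_mul hx1 ?_ (norm_nonneg _) zero_le_one
                refine (norm_add_le _ _).trans ?_
                rw [hw j, hw' j]; norm_num
            _ = 2 := one_mul _
        calc (inner ℝ x (w' j - w j)) * (inner ℝ x (w' j + w j))
            ≤ |(inner ℝ x (w' j - w j) : ℝ) * (inner ℝ x (w' j + w j) : ℝ)| := le_abs_self _
          _ = |(inner ℝ x (w' j - w j) : ℝ)| * |(inner ℝ x (w' j + w j) : ℝ)| := abs_mul _ _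
          _ ≤ δ * 2 := mul_le_mul a1 a2 (abs_nonneg _) hδ
          _ = 2 * δ := by ring
      have e4 := hxw j
      have hc : 0 < (n : ℝ) / t ^ 2 := by positivity
      have e5 : n / t ^ 2 * ((inner ℝ x (w' j - w j)) * (inner ℝ x (w' j + w j))) ≤
          n / t ^ 2 * (2 * δ) := mul_le_mul_of_nonneg_left e3 hc.le
      have e6 : n / t ^ 2 * (2 * δ) = 2 * n * δ / t ^ 2 := by ring
      rw [e2, mul_add]
      linarith
  have h3 := (h2 n _ hB').2.1 v _ hmem
  rw [real_inner_smul_left] at h3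
  have h4 := mul_le_mul_of_nonneg_left h3 hq0.le
  rwa [← mul_assoc, mul_inv_cancel₀ hq0.ne', one_mul] at h4

end PET
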