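import Pool.Agent.PET.Stmts

set_option autoImplicit false

namespace PET

open MeasureTheory Set Filter Topology
open scoped ENNReal Pointwise
open SBA (EE Body vl kap)

noncomputable section

theorem MWV_.mem {n m : ℕ} (hn : 1 ≤ n) {t τ : ℝ} (hτ : 0 < τ) (hτt : τ < t) (w : Fin m → EE n)
    (x : EE n) (hx : ‖x‖ ≤ 1) (hc : ∀ j, |inner ℝ x (w j)| ≤ τ / √n) :
    √(1 - τ ^ 2 / t ^ 2) • x ∈ MW t w := by
  have ht : 0 < t := hτ.trans hτt
  have hn0 : (0 : ℝ) < n := by exact_mod_cast hn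
  have hr : τ ^ 2 / t ^ 2 < 1 := by
    rw [div_lt_one (by positivity)]
    nlinarith
  set q : ℝ := √(1 - τ ^ 2 / t ^ 2) with hq
  have hq0 : 0 ≤ q := Real.sqrt_nonneg _
  have hq2 : q ^ 2 = 1 - τ ^ 2 / t ^ 2 := Real.sq_sqrt (by linarith)
  have hr0 : 0 ≤ τ ^ 2 / t ^ 2 := by positivity
  have hq1 : q ^ 2 ≤ 1 := by rw [hq2]; linarith
  have hx2 : ‖x‖ ^ 2 ≤ 1 := by
    have := norm_nonneg x
    nlinarith
  refine ⟨?_, fun j => ?_⟩
  · rw [norm_smul, Real.norm_of_nonneg hq0]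
    have : (q * ‖x‖) ^ 2 ≤ 1 := by
      rw [mul_pow]
      nlinarith [sq_nonneg q, sq_nonneg ‖x‖]
    have h0 : 0 ≤ q * ‖x‖ := by positivity
    nlinarith
  · rw [norm_smul, Real.norm_of_nonneg hq0, inner_smul_left, mul_pow, mul_pow]
    have hj : (inner ℝ x (w j)) ^ 2 ≤ τ ^ 2 / n := by
      have h1 : |inner ℝ x (w j)| ^ 2 ≤ (τ / √n) ^ 2 :=
        pow_le_pow_left₀ (abs_nonneg _) (hc j) 2
      rw [sq_abs, div_pow, Real.sq_sqrt hn0.le] at h1
      exact h1
    have h2 : n / t ^ 2 * (inner ℝ x (w j)) ^ 2 ≤ τ ^ 2 / t ^ 2 := by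
      calc n / t ^ 2 * (inner ℝ x (w j)) ^ 2 ≤ n / t ^ 2 * (τ ^ 2 / n) :=
            mul_le_mul_of_nonneg_left hj (by positivity)
        _ = τ ^ 2 / t ^ 2 := by field_simp
    have h3 : ((starRingEnd ℝ) q) ^ 2 = q ^ 2 := by simp
    rw [h3]
    have h4 : q ^ 2 * ‖x‖ ^ 2 + n / t ^ 2 * (q ^ 2 * (inner ℝ x (w j)) ^ 2) =
        q ^ 2 * (‖x‖ ^ 2 + n / t ^ 2 * (inner ℝ x (w j)) ^ 2) := by ring
    rw [h4]
    calc q ^ 2 * (‖x‖ ^ 2 + n / t ^ 2 * (inner ℝ x (w j)) ^ 2)
        ≤ q ^ 2 * (1 + τ ^ 2 / t ^ 2) :=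
          mul_le_mul_of_nonneg_left (by linarith) (sq_nonneg q)
      _ = 1 - (τ ^ 2 / t ^ 2) ^ 2 := by rw [hq2]; ring
      _ ≤ 1 := by nlinarith [sq_nonneg (τ ^ 2 / t ^ 2)]

theorem mwv_proof (h1 : Stmt_CAP) (h2 : Stmt_MWB) : Stmt_MWV := by
  intro n m t τ w hn hτ hτt hw
  have ht : 0 < t := hτ.trans hτt
  have hn0 : (0 : ℝ) < n := by exact_mod_cast hn
  obtain ⟨-, -, hsub, -⟩ := h2 n m t w hn ht hw
  set q : ℝ := √(1 - τ ^ 2 / t ^ 2) with hq
  have hq0 : 0 ≤ q := Real.sqrt_nonneg _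
  set B : Set (EE n) := Metric.closedBall 0 1 with hB
  have hBf : volume B ≠ ∞ := (isCompact_closedBall (0 : EE n) 1).measure_lt_top.ne
  let cp : Fin m → Set (EE n) := fun j => B ∩ {x | τ / √n < |inner ℝ x (w j)|}
  have hcap : ∀ j, (volume : Measure (EE n)).real (cp j) ≤
      2 * (kap n * Real.exp (-(τ ^ 2 / 2))) := by
    intro j
    have := h1 n (w j) (τ / √n) hn (hw j) (by positivity)
    rw [div_pow, Real.sq_sqrt hn0.le, mul_div_cancel₀ _ hn0.ne'] at this
    exact this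
  let G : Set (EE n) := B \ ⋃ j, cp j
  have hGB : G ⊆ B := Set.sdiff_subset
  have hUf : volume (⋃ j, cp j) ≠ ∞ := by
    refine ne_top_of_le_ne_top hBf (measure_mono ?_)
    exact iUnion_subset fun j => inter_subset_left
  have hGf : volume G ≠ ∞ := ne_top_of_le_ne_top hBf (measure_mono hGB)
  have hG1 : kap n ≤ (volume : Measure (EE n)).real G +
      (volume : Measure (EE n)).real (⋃ j, cp j) := by
    have hs : B ⊆ G ∪ ⋃ j, cp j := by
      intro x hx
      by_cases hxu : x ∈ ⋃ j, cp j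
      · exact Or.inr hxu
      · exact Or.inl ⟨hx, hxu⟩
    have h3 : (volume : Measure (EE n)).real B ≤
        (volume : Measure (EE n)).real (G ∪ ⋃ j, cp j) :=
      measureReal_mono hs (by
        refine ne_top_of_le_ne_top ?_ (measure_union_le _ _)
        exact ENNReal.add_ne_top.mpr ⟨hGf, hUf⟩)
    exact h3.trans (measureReal_union_le _ _)
  have hU : (volume : Measure (EE n)).real (⋃ j, cp j) ≤
      m * (2 * (kap n * Real.exp (-(τ ^ 2 / 2)))) := by
    calc (volume : Measure (EE n)).real (⋃ j, cp j)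
        ≤ ∑ j, (volume : Measure (EE n)).real (cp j) := measureReal_iUnion_fintype_le _
      _ ≤ ∑ j : Fin m, 2 * (kap n * Real.exp (-(τ ^ 2 / 2))) :=
          Finset.sum_le_sum fun j _ => hcap j
      _ = m * (2 * (kap n * Real.exp (-(τ ^ 2 / 2)))) := by
          rw [Finset.sum_const, Finset.card_univ, Fintype.card_fin, nsmul_eq_mul]
  have hG2 : (1 - 2 * m * Real.exp (-(τ ^ 2 / 2))) * kap n ≤
      (volume : Measure (EE n)).real G := by
    linarith [hG1, hU]
  have hGM : q • G ⊆ MW t w := by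
    rintro _ ⟨x, hx, rfl⟩
    refine MWV_.mem hn hτ hτt w x ?_ ?_
    · have := hx.1
      rw [hB, mem_closedBall_zero_iff] at this
      exact this
    · intro j
      by_contra hcon
      exact hx.2 (mem_iUnion.mpr ⟨j, hx.1, not_le.mp hcon⟩)
  have hMf : volume (MW t w) ≠ ∞ := ne_top_of_le_ne_top hBf (measure_mono hsub)
  have hv : (volume : Measure (EE n)).real (q • G) = q ^ n * (volume : Measure (EE n)).real G := by
    rw [measureReal_def, Measure.addHaar_smul, ENNReal.toReal_mul, finrank_euclideanSpace,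
      Fintype.card_fin, ENNReal.toReal_ofReal (abs_nonneg _), abs_of_nonneg (by positivity)]
    rfl
  have h5 : (volume : Measure (EE n)).real (q • G) ≤ (volume : Measure (EE n)).real (MW t w) :=
    measureReal_mono hGM hMf
  calc (1 - 2 * m * Real.exp (-(τ ^ 2 / 2))) * (q ^ n * kap n)
      = q ^ n * ((1 - 2 * m * Real.exp (-(τ ^ 2 / 2))) * kap n) := by ring
    _ ≤ q ^ n * (volume : Measure (EE n)).real G :=
        mul_le_mul_of_nonneg_left hG2 (by positivity)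
    _ = (volume : Measure (EE n)).real (q • G) := hv.symm
    _ ≤ (volume : Measure (EE n)).real (MW t w) := h5
    _ = vl (MW t w) := rfl

end

end PET
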