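import Pool.Agent.PET.Stmts

/-!
# MXV: the support map of the bodies `MW`
-/

set_option autoImplicit false

namespace PET

open MeasureTheory Set Filter Topology
open SBA (EE Body vl kap)

namespace MXV_

variable {n : ℕ} {M : Set (EE n)}

/-- the distance of two support points is controlled by the distance of the directions -/
lemma dist_bound {x y v v' : EE n} {h h' : ℝ} (hh : 0 < h) (hh' : 0 ≤ h')
    (hx : inner ℝ x v = h) (hy : inner ℝ y v' = h')
    (h1 : inner ℝ y v ≤ (1 - ‖x - y‖ ^ 2 / 4) * h)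
    (h2 : inner ℝ x v' ≤ (1 - ‖y - x‖ ^ 2 / 4) * h') :
    ‖x - y‖ ≤ 4 / h * ‖v - v'‖ := by
  have hd : ‖y - x‖ = ‖x - y‖ := norm_sub_rev _ _
  rw [hd] at h2
  have h3 : ‖x - y‖ ^ 2 / 4 * (h + h') ≤ inner ℝ (x - y) (v - v') := by
    have : inner ℝ (x - y) (v - v') = inner ℝ x v - inner ℝ x v' - inner ℝ y v + inner ℝ y v' := by
      rw [inner_sub_left, inner_sub_right, inner_sub_right]; ring
    rw [this, hx, hy]
    nlinarith
  have h4 : inner ℝ (x - y) (v - v') ≤ ‖x - y‖ * ‖v - v'‖ := real_inner_le_norm _ _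
  have h5 : ‖x - y‖ ^ 2 / 4 * h ≤ ‖x - y‖ * ‖v - v'‖ := by
    have : 0 ≤ ‖x - y‖ ^ 2 / 4 * h' := by positivity
    nlinarith
  rw [div_mul_eq_mul_div, le_div_iff₀ hh]
  rcases (norm_nonneg (x - y)).eq_or_lt with h0 | h0
  · rw [← h0]; simp
  · have : ‖x - y‖ * (‖x - y‖ * h) ≤ ‖x - y‖ * (4 * ‖v - v'‖) := by nlinarith
    exact le_of_mul_le_mul_left this h0

end MXV_

open MXV_ in
theorem mxv_proof (h1 : Stmt_UCV) (h2 : Stmt_MWB) (h3 : Stmt_HSB) : Stmt_MXV := by
  intro n m t w hn ht hw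
  obtain ⟨hB, hball, -, -⟩ := h2 n m t w hn ht hw
  obtain ⟨hatt, hle, -, -, hnn, hcont, hlow, -, -⟩ := h3 n (MW t w) hB
  have hu := h1 n m t w hn ht hw
  choose x hxM hxv using hatt
  have hnp : (0 : ℝ) < n := by exact_mod_cast hn
  have hr0 : 0 < t / √(n + t ^ 2) := by positivity
  have hpos : ∀ v : EE n, v ≠ 0 → 0 < hs (MW t w) v := by
    intro v hv
    have := hlow (t / √(n + t ^ 2)) v hr0.le hball
    have h0 : 0 < ‖v‖ := norm_pos_iff.mpr hv
    have : 0 < t / √(n + t ^ 2) * ‖v‖ := by positivity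
    linarith
  have huc : ∀ v, ∀ x' ∈ MW t w, inner ℝ x' v ≤ (1 - ‖x v - x'‖ ^ 2 / 4) * hs (MW t w) v := by
    intro v x' hx'
    have := hu (x v) (hxM v) x' hx' v
    rw [inner_smul_left, inner_add_left, hxv v] at this
    simp only [conj_trivial] at this
    linarith
  refine ⟨x, ?_, hxM, hxv, huc, ?_⟩
  · refine measurable_of_continuousOn_compl_singleton 0 ?_
    intro v hv
    have hv0 : v ≠ 0 := by simpa using hv
    refine ContinuousAt.continuousWithinAt ?_
    have hp := hpos v hv0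
    have hb : ∀ v' : EE n, dist (x v') (x v) ≤ 4 / hs (MW t w) v * dist v' v := by
      intro v'
      rw [dist_eq_norm, dist_eq_norm, norm_sub_rev, norm_sub_rev v']
      exact dist_bound hp (hnn v') (hxv v) (hxv v') (huc v _ (hxM _)) (huc v' _ (hxM _))
    refine tendsto_iff_dist_tendsto_zero.mpr (squeeze_zero (fun _ => dist_nonneg) hb ?_)
    have : Tendsto (fun v' : EE n => dist v' v) (𝓝 v) (𝓝 0) :=
      tendsto_iff_dist_tendsto_zero.mp tendsto_id
    simpa using this.const_mul (4 / hs (MW t w) v)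
  · intro v η hv
    have hp := hpos v hv
    have h5 := huc v (x (v + η)) (hxM _)
    have h6 : hs (MW t w) (v + η) = inner ℝ (x (v + η)) v + inner ℝ (x (v + η)) η := by
      rw [← hxv (v + η), inner_add_right]
    have h7 : inner ℝ (x (v + η)) η = inner ℝ (x v) η + inner ℝ (x (v + η) - x v) η := by
      rw [← inner_add_left]; congr 1; abel
    have h8 : inner ℝ (x (v + η) - x v) η ≤ ‖x (v + η) - x v‖ * ‖η‖ := real_inner_le_norm _ _
    rw [norm_sub_rev] at h5
    set d := ‖x (v + η) - x v‖ with hd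
    set h := hs (MW t w) v with hh
    have h9 : d * ‖η‖ - d ^ 2 / 4 * h ≤ 4 * ‖η‖ ^ 2 / h := by
      rw [le_div_iff₀ hp]
      nlinarith [sq_nonneg (d * h / 2 - ‖η‖), sq_nonneg ‖η‖]
    rw [h6, h7]
    nlinarith

end PET
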