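import Pool.Agent.PET.Stmts

/-!
# Squad PET, module NUA: the parameters are admissible for large `n`

With `a = r^(1/60)` everything is a polynomial inequality in `a ≥ 12`.
-/

namespace PET

namespace NUA_

lemma rpow_of {a : ℝ} (ha : 0 < a) (x : ℝ) (k : ℤ) (hx : 60 * x = k) :
    (a ^ 60) ^ x = a ^ k := by
  have h1 : (a ^ 60 : ℝ) = a ^ (60 : ℝ) := by
    have := Real.rpow_natCast a 60
    rw [← this]; norm_num
  rw [h1, ← Real.rpow_mul ha.le, hx, Real.rpow_intCast]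

lemma core (n : ℕ) (a : ℝ) (ha : 12 ≤ a) (hn : (n : ℝ) = a ^ 60) (t β c τ δ r : ℝ)
    (hr : r = a ^ 60) (ht : t = a ^ 2) (hβ : β = (a ^ 9)⁻¹) (hc : c = (r ^ 5)⁻¹)
    (hτ : τ = √(2 * Real.log (4 * r ^ 6))) (hδ : δ = 60 * (a ^ 18)⁻¹) :
    0 < t ∧ t ^ 2 ≤ r ∧ 0 < β ∧ β ≤ 1 ∧ 0 < c ∧ c < 1 ∧
    (1 - c) ^ (n ^ 6) * (8 * r) < β * r * (2 / √r) ∧ 0 < τ ∧ τ < t ∧ τ ^ 2 / t ^ 2 ≤ 1 / 2 ∧
    2 * r ^ 6 * Real.exp (-(τ ^ 2 / 2)) ≤ 1 / 2 ∧ 0 < δ ∧
    4 * (108 * (2 * t / √r) ^ 3 * √r / β ^ 2 + 4 * β ^ 4 + 3 * (6 * c * (r * √r) / t ^ 3) * r / β)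
      ≤ δ ^ 2 := by
  have ha0 : 0 < a := by linarith
  have ha1 : 1 ≤ a := by linarith
  have hsr : √r = a ^ 30 := by
    rw [hr, show a ^ 60 = (a ^ 30) ^ 2 by ring, Real.sqrt_sq (by positivity)]
  have hr0 : 0 < r := by rw [hr]; positivity
  have hr1 : 1 < r := by
    rw [hr]; exact one_lt_pow₀ (by linarith) (by norm_num)
  have hc' : c = (a ^ 300)⁻¹ := by rw [hc, hr]; congr 1; ring
  have hc0 : 0 < c := by rw [hc']; positivity
  have hc1 : c < 1 := by
    rw [hc]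
    exact inv_lt_one_of_one_lt₀ (one_lt_pow₀ hr1 (by norm_num))
  have hlog : 0 < Real.log (4 * r ^ 6) := by
    apply Real.log_pos
    have : 1 < r ^ 6 := one_lt_pow₀ hr1 (by norm_num)
    linarith
  have hτ2 : τ ^ 2 = 2 * Real.log (4 * r ^ 6) := by
    rw [hτ, Real.sq_sqrt (by positivity)]
  have hτ0 : 0 < τ := by rw [hτ]; exact Real.sqrt_pos.mpr (by positivity)
  have ht0 : 0 < t := by rw [ht]; positivity
  -- bound for tau
  have hτb : τ ^ 2 ≤ t ^ 2 / 2 := by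
    rw [hτ2, ht, hr]
    have h1 : 4 * (a ^ 60) ^ 6 ≤ a ^ 361 := by
      have : (a ^ 60) ^ 6 = a ^ 360 := by ring
      rw [this, show a ^ 361 = a * a ^ 360 by ring]
      exact mul_le_mul_of_nonneg_right (by linarith) (by positivity)
    have h2 : Real.log (4 * (a ^ 60) ^ 6) ≤ 361 * Real.log a := by
      calc Real.log (4 * (a ^ 60) ^ 6) ≤ Real.log (a ^ 361) :=
            Real.log_le_log (by positivity) h1
        _ = 361 * Real.log a := by rw [Real.log_pow]; norm_num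
    have h3 : Real.log a ≤ a := by
      have := Real.log_le_sub_one_of_pos ha0
      linarith
    have h4 : 1444 * a ≤ a ^ 4 := by
      have h5 : (12 : ℝ) ^ 3 ≤ a ^ 3 := pow_le_pow_left₀ (by norm_num) ha 3
      have : a ^ 4 = a ^ 3 * a := by ring
      rw [this]
      exact mul_le_mul_of_nonneg_right (by linarith) ha0.le
    have h6 : (a ^ 2) ^ 2 = a ^ 4 := by ring
    rw [h6]
    linarith
  have hτt : τ < t := by
    have : τ ^ 2 < t ^ 2 := by
      have : 0 < t ^ 2 := by positivity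
      linarith
    exact lt_of_pow_lt_pow_left₀ 2 ht0.le this
  refine ⟨ht0, ?_, ?_, ?_, hc0, hc1, ?_, hτ0, hτt, ?_, ?_, ?_, ?_⟩
  · rw [ht, hr, ← pow_mul]
    exact pow_le_pow_right₀ ha1 (by norm_num)
  · rw [hβ]; positivity
  · rw [hβ]; exact inv_le_one_of_one_le₀ (one_le_pow₀ ha1)
  · -- (1-c)^(n^6) ≤ exp(-r)
    have h1 : (1 - c) ^ (n ^ 6) ≤ Real.exp (-r) := by
      have h2 : 1 - c ≤ Real.exp (-c) := by
        have := Real.add_one_le_exp (-c)
        linarith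
      calc (1 - c) ^ (n ^ 6) ≤ (Real.exp (-c)) ^ (n ^ 6) :=
            pow_le_pow_left₀ (by linarith) h2 _
        _ = Real.exp (-r) := by
            rw [← Real.exp_nat_mul]
            congr 1
            push_cast
            rw [hn, ← hr, hc]
            field_simp
    have h3 : Real.exp (-r) * r ≤ 1 := by
      rw [Real.exp_neg]
      have h4 : r ≤ Real.exp r := by
        have := Real.add_one_le_exp r
        linarith
      have h5 : 0 < Real.exp r := Real.exp_pos r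
      rw [inv_mul_le_iff₀ h5]
      linarith
    have h6 : (1 - c) ^ (n ^ 6) * (8 * r) ≤ 8 := by
      calc (1 - c) ^ (n ^ 6) * (8 * r) ≤ Real.exp (-r) * (8 * r) :=
            mul_le_mul_of_nonneg_right h1 (by positivity)
        _ = 8 * (Real.exp (-r) * r) := by ring
        _ ≤ 8 * 1 := by linarith
        _ = 8 := by ring
    have h7 : β * r * (2 / √r) = 2 * a ^ 21 := by
      rw [hsr, hβ, hr]
      field_simp
    have h8 : (12 : ℝ) ^ 21 ≤ a ^ 21 := pow_le_pow_left₀ (by norm_num) ha 21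
    rw [h7]
    have h9 : (4 : ℝ) < 12 ^ 21 := by norm_num
    linarith
  · rw [div_le_iff₀ (by positivity)]
    linarith
  · rw [hτ2, show -(2 * Real.log (4 * r ^ 6) / 2) = -Real.log (4 * r ^ 6) by ring, Real.exp_neg,
      Real.exp_log (by positivity)]
    have : r ^ 6 ≠ 0 := by positivity
    apply le_of_eq
    field_simp
    norm_num
  · rw [hδ]; positivity
  · have e1 : 108 * (2 * t / √r) ^ 3 * √r / β ^ 2 = 864 * (a ^ 36)⁻¹ := by
      rw [hsr, hβ, ht]
      field_simp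
      ring
    have e2 : 4 * β ^ 4 = 4 * (a ^ 36)⁻¹ := by
      rw [hβ]
      field_simp
    have e3 : 3 * (6 * c * (r * √r) / t ^ 3) * r / β = 18 * (a ^ 147)⁻¹ := by
      rw [hsr, hβ, ht, hc', hr]
      field_simp
      ring
    have e4 : (a ^ 147)⁻¹ ≤ (a ^ 36)⁻¹ :=
      inv_anti₀ (by positivity) (pow_le_pow_right₀ ha1 (by norm_num))
    have e5 : δ ^ 2 = 3600 * (a ^ 36)⁻¹ := by
      rw [hδ]
      field_simp
      norm_num
    have e6 : 0 < (a ^ 36)⁻¹ := by positivity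
    rw [e1, e2, e3, e5]
    linarith

end NUA_

open NUA_ in
theorem nua_proof : Stmt_NUA := by
  refine ⟨12 ^ 60, ?_, ?_⟩
  · calc 2 ≤ 12 := by norm_num
      _ = 12 ^ 1 := by norm_num
      _ ≤ 12 ^ 60 := Nat.pow_le_pow_right (by norm_num) (by norm_num)
  · intro n r t β c τ δ hn hr ht hβ hc hτ hδ
    have hn' : ((12 : ℝ)) ^ 60 ≤ n := by
      have : ((12 ^ 60 : ℕ) : ℝ) ≤ n := by exact_mod_cast hn
      have h2 : ((12 ^ 60 : ℕ) : ℝ) = (12 : ℝ) ^ 60 := by norm_num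
      rw [h2] at this
      exact this
    have hr0 : 0 ≤ r := by rw [hr]; exact Nat.cast_nonneg n
    set a : ℝ := r ^ (1 / 60 : ℝ) with hadef
    have har : a ^ 60 = r := by
      rw [hadef, ← Real.rpow_natCast, ← Real.rpow_mul hr0]
      norm_num
    have ha0 : 0 ≤ a := Real.rpow_nonneg hr0 _
    have ha : 12 ≤ a := by
      have : (12 : ℝ) ^ 60 ≤ a ^ 60 := by rw [har, hr]; exact hn'
      exact le_of_pow_le_pow_left₀ (by norm_num) ha0 this
    have ha' : 0 < a := by linarith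
    have e1 : t = a ^ 2 := by
      rw [ht, ← har, rpow_of ha' _ 2 (by norm_num)]
      norm_cast
    have e2 : β = (a ^ 9)⁻¹ := by
      rw [hβ, ← har, rpow_of ha' _ (-9) (by norm_num)]
      rw [zpow_neg]
      norm_cast
    have e3 : δ = 60 * (a ^ 18)⁻¹ := by
      rw [hδ, ← har, rpow_of ha' _ (-18) (by norm_num)]
      rw [zpow_neg]
      norm_cast
    exact core n a ha (by rw [har, hr]) t β c τ δ r har.symm e1 e2 hc hτ e3

end PET
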