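import Pool.Agent.PET.Stmts

/-!
Module NUB: the final numerical estimate, lower bound.
-/

namespace PET

namespace NUB_

lemma pw (r : ℝ) (hr : 0 ≤ r) (k : ℕ) (a : ℝ) (ha : a = k / 240) :
    r ^ a = (r ^ (1 / 240 : ℝ)) ^ k := by
  rw [← Real.rpow_natCast (r ^ (1 / 240 : ℝ)) k, ← Real.rpow_mul hr, ha]
  have h : (k : ℝ) / 240 = 1 / 240 * (k : ℝ) := by ring
  rw [h]

lemma sq_lower (y : ℝ) (h0 : 0 ≤ y) (h1 : y ≤ 1 / 2) : Real.exp (-y) ≤ √(1 - y) := by
  apply Real.le_sqrt_of_sq_le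
  have h2 : Real.exp (-y) ^ 2 = (Real.exp (2 * y))⁻¹ := by
    rw [← Real.exp_neg, ← Real.exp_nat_mul]
    congr 1
    push_cast
    ring
  rw [h2]
  have h3 : 1 + 2 * y ≤ Real.exp (2 * y) := by
    have := Real.add_one_le_exp (2 * y)
    linarith
  have h4 : (Real.exp (2 * y))⁻¹ ≤ (1 + 2 * y)⁻¹ := inv_anti₀ (by linarith) h3
  have h5 : (1 + 2 * y)⁻¹ ≤ 1 - y := by
    rw [inv_le_iff_one_le_mul₀ (by linarith)]
    nlinarith
  exact h4.trans h5

lemma hD (v : ℝ) (hv : 1 ≤ v) :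
    2 * v ^ 240 * (60 * (v ^ 72)⁻¹) ^ 2 * (1 + 2 * (60 * (v ^ 72)⁻¹) * v ^ 120) ^ 2 /
      ((v ^ 16)⁻¹) ^ 2 ≤ 105415200 * v ^ 224 := by
  have hv0 : 0 < v := by linarith
  have h1 : 2 * v ^ 240 * (60 * (v ^ 72)⁻¹) ^ 2 * (1 + 2 * (60 * (v ^ 72)⁻¹) * v ^ 120) ^ 2 /
      ((v ^ 16)⁻¹) ^ 2 = 7200 * v ^ 128 * (1 + 120 * v ^ 48) ^ 2 := by
    have e1 : (60 * (v ^ 72)⁻¹) * v ^ 120 = 60 * v ^ 48 := by
      have : v ^ 120 = v ^ 72 * v ^ 48 := by rw [← pow_add]
      rw [this]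
      field_simp
    have e2 : 2 * v ^ 240 * (60 * (v ^ 72)⁻¹) ^ 2 / ((v ^ 16)⁻¹) ^ 2 = 7200 * v ^ 128 := by
      have : v ^ 240 = (v ^ 72) ^ 2 * v ^ 96 := by rw [← pow_mul, ← pow_add]
      rw [this]
      have h2 : v ^ 128 = v ^ 96 * (v ^ 16) ^ 2 := by rw [← pow_mul, ← pow_add]
      rw [h2]
      field_simp
      norm_num
    have e3 : 1 + 2 * (60 * (v ^ 72)⁻¹) * v ^ 120 = 1 + 120 * v ^ 48 := by
      rw [mul_assoc 2, e1]; ring
    rw [e3, mul_div_right_comm, e2]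
  rw [h1]
  have h3 : 1 ≤ v ^ 48 := one_le_pow₀ hv
  have h4 : (1 + 120 * v ^ 48) ^ 2 ≤ (121 * v ^ 48) ^ 2 := by
    apply pow_le_pow_left₀ (by positivity)
    linarith
  calc 7200 * v ^ 128 * (1 + 120 * v ^ 48) ^ 2 ≤ 7200 * v ^ 128 * (121 * v ^ 48) ^ 2 := by
        apply mul_le_mul_of_nonneg_left h4 (by positivity)
    _ = 105415200 * v ^ 224 := by ring

end NUB_

open NUB_ in
theorem nub_proof : Stmt_NUB := by
  refine ⟨2 ^ 240, 200000000, by norm_num, ?_⟩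
  intro n r t τ δ s hn hr ht hτ hδ hs
  have hr1 : (2 : ℝ) ^ 240 ≤ r := by
    rw [hr]
    exact_mod_cast hn
  have hr0 : 0 ≤ r := le_trans (by positivity) hr1
  have hrp : 0 < r := lt_of_lt_of_le (by positivity) hr1
  set v : ℝ := r ^ (1 / 240 : ℝ) with hv
  have hv2 : 2 ≤ v := by
    have h1 : ((2 : ℝ) ^ 240) ^ (1 / 240 : ℝ) = 2 := by
      rw [← Real.rpow_natCast, ← Real.rpow_mul (by norm_num)]
      norm_num
    rw [← h1]
    exact Real.rpow_le_rpow (by positivity) hr1 (by norm_num)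
  have hv0 : 0 < v := by linarith
  have hv1 : 1 ≤ v := by linarith
  have hrv : r = v ^ 240 := by
    have := pw r hr0 240 1 (by norm_num)
    rw [Real.rpow_one] at this
    exact this
  have htv : t = v ^ 8 := by
    rw [ht]; exact pw r hr0 8 _ (by norm_num)
  have hsv : s = (v ^ 16)⁻¹ := by
    rw [hs, Real.rpow_neg hr0, pw r hr0 16 _ (by norm_num)]
  have hδv : δ = 60 * (v ^ 72)⁻¹ := by
    rw [hδ, Real.rpow_neg hr0, pw r hr0 72 _ (by norm_num)]
  have hW : r ^ (15 / 16 : ℝ) = v ^ 225 := pw r hr0 225 _ (by norm_num)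
  have hsq : √r = v ^ 120 := by
    have : r = (v ^ 120) ^ 2 := by rw [hrv, ← pow_mul]
    rw [this]
    exact Real.sqrt_sq (by positivity)
  have hlog : Real.log (4 * r ^ 6) = Real.log 4 + 1440 * Real.log v := by
    rw [Real.log_mul (by norm_num) (by positivity), Real.log_pow, hrv, Real.log_pow]
    push_cast
    ring
  have hl4 : Real.log 4 ≤ 3 / 2 := by
    have h1 : Real.log 4 = 2 * Real.log 2 := by
      rw [show (4 : ℝ) = 2 ^ 2 by norm_num, Real.log_pow]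
      push_cast
      ring
    rw [h1]
    have := Real.log_two_lt_d9
    linarith
  have hl4' : 0 ≤ Real.log 4 := Real.log_nonneg (by norm_num)
  have hlv0 : 0 ≤ Real.log v := Real.log_nonneg hv1
  have hlv : Real.log v ≤ v := by
    have := Real.log_le_sub_one_of_pos hv0
    linarith
  have hlog0 : 0 ≤ Real.log (4 * r ^ 6) := by rw [hlog]; positivity
  have hτ2 : τ ^ 2 = 2 * Real.log (4 * r ^ 6) := by
    rw [hτ]
    exact Real.sq_sqrt (by positivity)
  set y : ℝ := τ ^ 2 / t ^ 2 with hy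
  have hy0 : 0 ≤ y := by positivity
  have hyv : y * v ^ 15 ≤ 2883 := by
    have h1 : τ ^ 2 ≤ 2883 * v := by
      rw [hτ2, hlog]
      nlinarith
    have h2 : t ^ 2 = v * v ^ 15 := by rw [htv, ← pow_mul, ← pow_succ']
    rw [hy, h2]
    rw [div_mul_eq_mul_div, div_le_iff₀ (by positivity)]
    have h3 : 0 < v ^ 15 := by positivity
    nlinarith
  have hy1 : y ≤ 1 / 2 := by
    have h1 : (2 : ℝ) ^ 15 ≤ v ^ 15 := pow_le_pow_left₀ (by norm_num) hv2 15
    have h2 : (2 : ℝ) ^ 15 = 32768 := by norm_num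
    rw [h2] at h1
    by_contra hcon
    push Not at hcon
    nlinarith
  have hn' : (n : ℝ) = v ^ 240 := by rw [← hr]; exact hrv
  -- the factors
  have hA : Real.exp (-2) ≤ 15 / 64 := by
    have h1 : (2.7182818283 : ℝ) < Real.exp 1 := Real.exp_one_gt_d9
    have h2 : Real.exp (-2) = (Real.exp 1 ^ 2)⁻¹ := by
      rw [← Real.exp_nat_mul, ← Real.exp_neg]
      congr 1
      push_cast
      ring
    rw [h2]
    rw [inv_le_iff_one_le_mul₀ (by positivity)]
    nlinarith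
  have hB : Real.exp (-(n * y)) ≤ √(1 - y) ^ n := by
    have h1 := sq_lower y hy0 hy1
    have h2 : Real.exp (-(n * y)) = Real.exp (-y) ^ n := by
      rw [← Real.exp_nat_mul]
      congr 1
      ring
    rw [h2]
    exact pow_le_pow_left₀ (Real.exp_pos _).le h1 n
  have hs0 : 0 ≤ s := by rw [hsv]; positivity
  have hC : Real.exp (-(n * s)) ≤ ((1 + s) ^ n)⁻¹ := by
    rw [Real.exp_neg]
    apply inv_anti₀ (by positivity)
    have h2 : Real.exp (n * s) = Real.exp s ^ n := by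
      rw [← Real.exp_nat_mul]
    rw [h2]
    apply pow_le_pow_left₀ (by positivity)
    have := Real.add_one_le_exp s
    linarith
  have hDD : 2 * r * δ ^ 2 * (1 + 2 * δ * √r) ^ 2 / s ^ 2 ≤ 105415200 * v ^ 224 := by
    rw [hsq, hδv, hsv, hrv]
    exact hD v hv1
  have hny : n * y ≤ 2883 * v ^ 225 := by
    rw [hn']
    have h1 : v ^ 240 * y = v ^ 225 * (y * v ^ 15) := by
      have : v ^ 240 = v ^ 225 * v ^ 15 := by rw [← pow_add]
      rw [this]; ring
    rw [h1]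
    have h2 : 0 ≤ v ^ 225 := by positivity
    nlinarith [mul_le_mul_of_nonneg_left hyv h2]
  have hns : n * s ≤ v ^ 225 := by
    rw [hn', hsv]
    have h1 : v ^ 240 = v ^ 224 * v ^ 16 := by rw [← pow_add]
    rw [h1, mul_assoc, mul_inv_cancel₀ (by positivity), mul_one]
    exact pow_le_pow_right₀ hv1 (by norm_num)
  have h224 : v ^ 224 ≤ v ^ 225 := pow_le_pow_right₀ hv1 (by norm_num)
  have h120 : v ^ 120 ≤ v ^ 225 := pow_le_pow_right₀ hv1 (by norm_num)
  have hone : 1 ≤ v ^ 225 := one_le_pow₀ hv1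
  have hE : Real.exp (-(200000000 * r ^ (15 / 16 : ℝ))) ≤
      Real.exp (-2) * Real.exp (-(n * y)) * Real.exp (-(n * s)) *
        Real.exp (-(2 * √r) - 2 * r * δ ^ 2 * (1 + 2 * δ * √r) ^ 2 / s ^ 2) := by
    rw [← Real.exp_add, ← Real.exp_add, ← Real.exp_add]
    apply Real.exp_le_exp.mpr
    rw [hW]
    have h1 : √r ≤ v ^ 225 := by rw [hsq]; exact h120
    linarith
  refine hE.trans ?_
  apply mul_le_mul_of_nonneg_right _ (Real.exp_pos _).le
  apply mul_le_mul _ hC (Real.exp_pos _).le (by positivity)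
  exact mul_le_mul hA hB (Real.exp_pos _).le (by norm_num)

end PET
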