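import Pool.Agent.PET.Stmts

/-!
# PET module PBB: the projection body is bounded
-/

namespace PET

open MeasureTheory Set
open SBA (EE Body vl kap)

theorem pbb_proof : Stmt_PBB := by
  intro n K _ _
  set f : Fin n → ℝ := fun i => (volume (prj K (EuclideanSpace.single i (1 : ℝ)))).toReal
    with hf
  set g : Fin n → ℝ := fun i => (volume (prj K (-(EuclideanSpace.single i (1 : ℝ))))).toReal
    with hg
  have hf0 : ∀ i, 0 ≤ f i := fun i => ENNReal.toReal_nonneg
  have hg0 : ∀ i, 0 ≤ g i := fun i => ENNReal.toReal_nonneg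
  have key : ∀ x ∈ PiB K, ‖x‖ ≤ √(∑ i, (f i + g i) ^ 2) := by
    intro x hx
    rw [EuclideanSpace.norm_eq]
    apply Real.sqrt_le_sqrt
    apply Finset.sum_le_sum
    intro i _
    have h1 : inner ℝ x (EuclideanSpace.single i (1 : ℝ)) ≤ f i := hx _ (by simp)
    have h2 : inner ℝ x (-(EuclideanSpace.single i (1 : ℝ))) ≤ g i := hx _ (by simp)
    have e1 : inner ℝ x (EuclideanSpace.single i (1 : ℝ)) = x i := by
      simp [EuclideanSpace.inner_single_right]
    rw [inner_neg_right, e1] at h2
    rw [e1] at h1
    rw [Real.norm_eq_abs, sq_abs]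
    apply sq_le_sq'
    · have := hf0 i
      linarith
    · have := hg0 i
      linarith
  exact (Metric.isBounded_closedBall (x := (0 : EE n)) (r := √(∑ i, (f i + g i) ^ 2))).subset
    fun x hx => by simpa using key x hx

end PET
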