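import Pool.Agent.PET.Stmts

/-!
PHM: measurability and bounds of `ph`.
-/

set_option autoImplicit false

namespace PET

open MeasureTheory Set
open scoped ENNReal Pointwise
open SBA (EE Body vl kap)

namespace PHM_

lemma sign_eq : Real.sign = fun r : ℝ => if r < 0 then (-1 : ℝ) else if 0 < r then 1 else 0 := by
  funext r
  rfl

lemma sign_meas : Measurable Real.sign := by
  rw [sign_eq]
  refine Measurable.ite (measurableSet_lt measurable_id measurable_const) measurable_const ?_
  exact Measurable.ite (measurableSet_lt measurable_const measurable_id) measurable_const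
    measurable_const

lemma sign_abs (r : ℝ) : |Real.sign r| ≤ 1 := by
  rcases Real.sign_apply_eq r with h | h | h <;> rw [h] <;> norm_num

lemma joint (n : ℕ) : Measurable (fun q : (EE n × EE n) × ℝ =>
    Real.sign (inner ℝ q.1.1 q.1.2 + √(1 - ‖q.1.1‖ ^ 2) * q.2)) := by
  refine sign_meas.comp ?_
  have hc : Continuous (fun q : (EE n × EE n) × ℝ =>
      inner ℝ q.1.1 q.1.2 + √(1 - ‖q.1.1‖ ^ 2) * q.2) := by
    have h1 : Continuous (fun q : (EE n × EE n) × ℝ => q.1.1) := continuous_fst.comp continuous_fst
    have h2 : Continuous (fun q : (EE n × EE n) × ℝ => q.1.2) := continuous_snd.comp continuous_fst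
    exact (h1.inner h2).add (((continuous_const.sub (h1.norm.pow 2)).sqrt).mul continuous_snd)
  exact hc.measurable

end PHM_

theorem phm_proof : Stmt_PHM := by
  intro n
  haveI : IsProbabilityMeasure g1 := by
    unfold g1
    infer_instance
  refine ⟨?_, PHM_.sign_meas, fun b y => ?_⟩
  · have h := (PHM_.joint n).stronglyMeasurable.integral_prod_right' (ν := g1)
    exact h.measurable
  · have h := norm_integral_le_of_norm_le_const (μ := g1)
      (f := fun ξ : ℝ => Real.sign (inner ℝ b y + √(1 - ‖b‖ ^ 2) * ξ)) (C := 1)
      (Filter.Eventually.of_forall fun ξ => by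
        rw [Real.norm_eq_abs]
        exact PHM_.sign_abs _)
    rw [Real.norm_eq_abs, probReal_univ, mul_one] at h
    exact h

end PET
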