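import Pool.Agent.PET.Stmts

/-!
# PIG: pigeonhole
-/

set_option autoImplicit false

namespace PET

theorem pig_proof : Stmt_PIG := by
  intro a c L N hc hc1 hL hN
  by_contra hcon
  push Not at hcon
  have h : ∀ m, m ≤ N → a m ≤ (1 - c) ^ m * a 0 := by
    intro m
    induction m with
    | zero => intro _; simp
    | succ m ih =>
      intro hm
      have h1 := ih (by omega)
      have h2 := hcon m (by omega)
      have h3 : (1 - c) * a m ≤ (1 - c) * ((1 - c) ^ m * a 0) :=
        mul_le_mul_of_nonneg_left h1 (by linarith)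
      calc a (m + 1) ≤ (1 - c) * a m := h2.le
        _ ≤ (1 - c) * ((1 - c) ^ m * a 0) := h3
        _ = (1 - c) ^ (m + 1) * a 0 := by ring
  exact absurd ((hL N).trans (h N le_rfl)) (not_le.2 hN)

end PET
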