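import Pool.Agent.PET.Stmts

set_option autoImplicit false

namespace PET

open MeasureTheory Set
open scoped ENNReal Pointwise
open SBA (EE Body vl kap)

namespace PNB_

theorem kap_eq (n : ℕ) [Nonempty (Fin n)] :
    kap n = √Real.pi ^ n / Real.Gamma ((n : ℝ) / 2 + 1) := by
  unfold kap vl
  rw [EuclideanSpace.volume_closedBall, ENNReal.ofReal_one, one_pow, one_mul,
    ENNReal.toReal_ofReal, Fintype.card_fin]
  have : 0 < Real.Gamma ((Fintype.card (Fin n) : ℝ) / 2 + 1) := Real.Gamma_pos_of_pos (by positivity)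
  positivity

theorem gam_ineq (z : ℝ) (hz : 0 < z) :
    Real.Gamma (z + 1 / 2) ^ 2 ≤ z * Real.Gamma z ^ 2 := by
  have h := Real.Gamma_mul_add_mul_le_rpow_Gamma_mul_rpow_Gamma (s := z) (t := z + 1)
    (a := 1 / 2) (b := 1 / 2) hz (by linarith) (by norm_num) (by norm_num) (by norm_num)
  have e1 : (1 / 2 : ℝ) * z + 1 / 2 * (z + 1) = z + 1 / 2 := by ring
  rw [e1, ← Real.sqrt_eq_rpow, ← Real.sqrt_eq_rpow] at h
  have g0 : 0 < Real.Gamma z := Real.Gamma_pos_of_pos hz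
  have g1 : 0 < Real.Gamma (z + 1) := Real.Gamma_pos_of_pos (by linarith)
  have g2 : 0 < Real.Gamma (z + 1 / 2) := Real.Gamma_pos_of_pos (by linarith)
  have h2 : Real.Gamma (z + 1 / 2) ^ 2 ≤ Real.Gamma z * Real.Gamma (z + 1) := by
    have := pow_le_pow_left₀ g2.le h 2
    rw [mul_pow, Real.sq_sqrt g0.le, Real.sq_sqrt g1.le] at this
    exact this
  have h3 : Real.Gamma (z + 1) = z * Real.Gamma z := Real.Gamma_add_one hz.ne'
  rw [h3] at h2
  linarith [h2]

theorem kap_pos (n : ℕ) (hn : 1 ≤ n) : 0 < kap n := by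
  obtain ⟨k, rfl⟩ : ∃ k, n = k + 1 := ⟨n - 1, by omega⟩
  rw [kap_eq]
  have : 0 < Real.Gamma (((k + 1 : ℕ) : ℝ) / 2 + 1) := Real.Gamma_pos_of_pos (by positivity)
  positivity

theorem ratio (n : ℕ) (hn : 2 ≤ n) : kap (n - 1) ≤ √(((n : ℝ) + 1) / (2 * Real.pi)) * kap n := by
  obtain ⟨k, rfl⟩ : ∃ k, n = k + 2 := ⟨n - 2, by omega⟩
  have e0 : k + 2 - 1 = k + 1 := by omega
  rw [e0, kap_eq (k + 2), kap_eq (k + 1)]
  obtain ⟨z, hz⟩ : ∃ z : ℝ, z = ((k : ℝ) + 3) / 2 := ⟨_, rfl⟩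
  have hzp : 0 < z := by rw [hz]; positivity
  have e1 : (((k + 2 : ℕ) : ℝ)) / 2 + 1 = z + 1 / 2 := by rw [hz]; push_cast; ring
  have e2 : (((k + 1 : ℕ) : ℝ)) / 2 + 1 = z := by rw [hz]; push_cast; ring
  rw [e1, e2]
  have g1 : 0 < Real.Gamma (z + 1 / 2) := Real.Gamma_pos_of_pos (by linarith)
  have g2 : 0 < Real.Gamma z := Real.Gamma_pos_of_pos hzp
  have hpi : 0 < √Real.pi := Real.sqrt_pos.2 Real.pi_pos
  have hdz : (((k + 2 : ℕ) : ℝ)) + 1 = 2 * z := by rw [hz]; push_cast; ring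
  rw [hdz]
  have h1 : Real.Gamma (z + 1 / 2) ≤ √z * Real.Gamma z := by
    refine abs_le_of_sq_le_sq' ?_ (by positivity) |>.2
    rw [mul_pow, Real.sq_sqrt hzp.le]
    exact gam_ineq z hzp
  have e3 : √(2 * z / (2 * Real.pi)) = √z / √Real.pi := by
    rw [mul_div_mul_left _ _ two_ne_zero, Real.sqrt_div hzp.le]
  rw [e3, div_mul_div_comm, div_le_div_iff₀ g2 (by positivity)]
  calc √Real.pi ^ (k + 1) * (√Real.pi * Real.Gamma (z + 1 / 2))
      ≤ √Real.pi ^ (k + 1) * (√Real.pi * (√z * Real.Gamma z)) := by gcongr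
    _ = √z * √Real.pi ^ (k + 2) * Real.Gamma z := by ring

end PNB_

open PNB_ in
theorem pnb_proof (h1 : SBA.Stmt_KAP) : Stmt_PNB := by
  intro n hn
  have hk := kap_pos n (by omega)
  refine ⟨hk, ?_⟩
  have hn0 : (0 : ℝ) < n := by exact_mod_cast (by omega : 0 < n)
  have h2 := (h1 n (by omega)).2
  have h3 : kap n ≤ √(2 * Real.pi * Real.exp 1 / n) ^ n := by
    have h4 : kap n = (kap n ^ (1 / (n : ℝ))) ^ n := by
      rw [← Real.rpow_natCast, ← Real.rpow_mul hk.le, one_div, inv_mul_cancel₀ hn0.ne',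
        Real.rpow_one]
    rw [h4]
    exact pow_le_pow_left₀ (by positivity) h2 n
  have h5 := ratio n hn
  have hk1 := kap_pos (n - 1) (by omega)
  rw [div_le_iff₀ (by positivity)]
  have h6 : kap (n - 1) ^ n ≤ (√(((n : ℝ) + 1) / (2 * Real.pi)) * kap n) ^ n :=
    pow_le_pow_left₀ hk1.le h5 n
  refine h6.trans ?_
  rw [mul_pow]
  have h7 : kap n ^ n = kap n ^ (n - 2) * kap n * kap n := by
    rw [mul_assoc, ← pow_two, ← pow_add]
    congr 1
    omega
  rw [h7]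
  have h8 : √(((n : ℝ) + 1) / (2 * Real.pi)) ^ n * √(2 * Real.pi * Real.exp 1 / n) ^ n ≤
      √(Real.exp 1) * Real.exp (n / 2) := by
    rw [← mul_pow, ← Real.sqrt_mul (by positivity)]
    have e1 : ((n : ℝ) + 1) / (2 * Real.pi) * (2 * Real.pi * Real.exp 1 / n) =
        Real.exp 1 * (1 + 1 / n) := by
      have := Real.pi_pos
      field_simp
    rw [e1]
    have h9 : (1 + 1 / (n : ℝ)) ≤ Real.exp (1 / n) := by
      have := Real.add_one_le_exp (1 / (n : ℝ))
      linarith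
    have h10 : √(Real.exp 1 * (1 + 1 / n)) ≤ Real.exp (1 / 2 + 1 / (2 * n)) := by
      rw [Real.sqrt_le_left (Real.exp_pos _).le, ← Real.exp_nat_mul]
      calc Real.exp 1 * (1 + 1 / n) ≤ Real.exp 1 * Real.exp (1 / n) := by gcongr
        _ = Real.exp (((2 : ℕ) : ℝ) * (1 / 2 + 1 / (2 * n))) := by
          rw [← Real.exp_add]
          congr 1
          push_cast
          field_simp
    calc √(Real.exp 1 * (1 + 1 / n)) ^ n ≤ Real.exp (1 / 2 + 1 / (2 * n)) ^ n :=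
          pow_le_pow_left₀ (Real.sqrt_nonneg _) h10 n
      _ = √(Real.exp 1) * Real.exp (n / 2) := by
          have : √(Real.exp 1) = Real.exp (1 / 2) := by
            rw [Real.sqrt_eq_iff_mul_self_eq (Real.exp_pos _).le (Real.exp_pos _).le,
              ← Real.exp_add]
            norm_num
          rw [this, ← Real.exp_nat_mul, ← Real.exp_add]
          congr 1
          field_simp
          ring
  calc √(((n : ℝ) + 1) / (2 * Real.pi)) ^ n * (kap n ^ (n - 2) * kap n * kap n)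
      ≤ √(((n : ℝ) + 1) / (2 * Real.pi)) ^ n *
          (kap n ^ (n - 2) * kap n * √(2 * Real.pi * Real.exp 1 / n) ^ n) := by
        gcongr
    _ = (√(((n : ℝ) + 1) / (2 * Real.pi)) ^ n * √(2 * Real.pi * Real.exp 1 / n) ^ n) *
          (kap n ^ (n - 2) * kap n) := by ring
    _ ≤ (√(Real.exp 1) * Real.exp (n / 2)) * (kap n ^ (n - 2) * kap n) := by
        gcongr
    _ = √(Real.exp 1) * (Real.exp (n / 2) * kap n) * kap n ^ (n - 2) := by ring

end PET
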