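import Pool.Agent.PET.Stmts

set_option autoImplicit false

/-!
# Squad PET, module POK
-/

namespace PET

open MeasureTheory Set
open scoped ENNReal Pointwise Topology
open SBA (EE Body vl kap)

namespace POK_

lemma powint (d : ℕ) (hd : 1 ≤ d) (u : ℝ) (hu : 0 ≤ u) :
    ∫⁻ s in Ioc (0 : ℝ) u, ENNReal.ofReal ((d : ℝ) * s ^ (d - 1)) = ENNReal.ofReal (u ^ d) := by
  have hcont : Continuous (fun s : ℝ => (d : ℝ) * s ^ (d - 1)) := by fun_prop
  rw [← ofReal_integral_eq_lintegral_ofReal]
  · congr 1
    rw [← intervalIntegral.integral_of_le hu]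
    have h := intervalIntegral.integral_eq_sub_of_hasDerivAt (a := (0 : ℝ)) (b := u)
      (f := fun s : ℝ => s ^ d) (f' := fun s : ℝ => (d : ℝ) * s ^ (d - 1))
      (fun x _ => hasDerivAt_pow d x) (hcont.intervalIntegrable _ _)
    rw [h, zero_pow (by omega), sub_zero]
  · exact (hcont.integrableOn_Icc).mono_set Ioc_subset_Icc_self
  · rw [Filter.EventuallyLE, ae_restrict_iff' measurableSet_Ioc]
    filter_upwards with s hs
    exact mul_nonneg (Nat.cast_nonneg _) (pow_nonneg hs.1.le _)

lemma zero_mem_int {d : ℕ} {C : Set (EE d)} (hC : CB C) : C ∈ 𝓝 (0 : EE d) :=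
  mem_interior_iff_mem_nhds.mp hC.zero

lemma scale_vol {d : ℕ} (A : Set (EE d)) (s : ℝ) (hs : 0 < s) :
    volume ((fun x : EE d => s⁻¹ • x) ⁻¹' A) = ENNReal.ofReal (s ^ d) * volume A := by
  rw [Measure.addHaar_preimage_smul _ (inv_ne_zero hs.ne')]
  congr 2
  rw [finrank_euclideanSpace_fin, inv_pow, inv_inv, abs_of_pos (pow_pos hs d)]

end POK_

open POK_ in
theorem pok_proof : Stmt_POK := by
  intro d C lam hd hC hlm hl0 hlh
  have hnhd := zero_mem_int hC
  have hgc : Continuous (gauge C) := continuous_gauge hC.convex hnhd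
  have hgm : Measurable (gauge C) := hgc.measurable
  have hgs : ∀ (s : ℝ) (x : EE d), 0 ≤ s → gauge C (s • x) = s * gauge C x := by
    intro s x hs
    rw [gauge_smul_of_nonneg hs, smul_eq_mul]
  have hg1 : ∀ x, gauge C x ≤ 1 ↔ x ∈ C := by
    intro x
    rw [gauge_le_one_iff_mem_closure hC.convex hnhd, hC.compact.isClosed.closure_eq]
  have hgpos : ∀ x : EE d, x ≠ 0 → 0 < gauge C x := by
    intro x hx
    rw [gauge_pos (absorbent_nhds_zero hnhd)
      ((NormedSpace.isVonNBounded_iff ℝ).mpr hC.compact.isBounded)]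
    exact hx
  have hd0 : (0 : ℝ) < d := by exact_mod_cast hd
  -- the kernels
  let S1 : Set (EE d × ℝ) := {p | gauge C p.1 ≤ 1 ∧ p.2 ≤ lam p.1}
  let S2 : Set (EE d × ℝ) := {p | gauge C p.1 ≤ p.2 ∧ p.2 ≤ lam p.1}
  let S3 : Set (EE d × ℝ) := {p | gauge C p.1 ≤ p.2 * lam p.1}
  have hS1 : MeasurableSet S1 :=
    (measurableSet_le (hgm.comp measurable_fst) measurable_const).inter
      (measurableSet_le measurable_snd (hlm.comp measurable_fst))
  have hS2 : MeasurableSet S2 :=
    (measurableSet_le (hgm.comp measurable_fst) measurable_snd).inter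
      (measurableSet_le measurable_snd (hlm.comp measurable_fst))
  have hS3 : MeasurableSet S3 :=
    measurableSet_le (hgm.comp measurable_fst) (measurable_snd.mul (hlm.comp measurable_fst))
  let w1 : ℝ → ℝ≥0∞ := fun s => ENNReal.ofReal ((d : ℝ) * s ^ (d - 1))
  let w2 : ℝ → ℝ≥0∞ := fun s => ENNReal.ofReal ((d : ℝ) * s⁻¹)
  have hw1 : Measurable w1 := by
    simp only [w1]
    fun_prop
  have hw2 : Measurable w2 := by
    simp only [w2]
    fun_prop
  let K1 : EE d → ℝ → ℝ≥0∞ := fun x s => S1.indicator (fun p => w1 p.2) (x, s)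
  let K2 : EE d → ℝ → ℝ≥0∞ := fun x s => S2.indicator (fun p => w2 p.2) (x, s)
  let K3 : EE d → ℝ → ℝ≥0∞ := fun x s => S3.indicator (fun p => w2 p.2) (x, s)
  have hK1 : Measurable (Function.uncurry K1) := (hw1.comp measurable_snd).indicator hS1
  have hK2 : Measurable (Function.uncurry K2) := (hw2.comp measurable_snd).indicator hS2
  have hK3 : Measurable (Function.uncurry K3) := (hw2.comp measurable_snd).indicator hS3
  -- sections in x
  have hsec1 : ∀ s, ∫⁻ x, K1 x s = w1 s * volume {x : EE d | gauge C x ≤ 1 ∧ s ≤ lam x} := by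
    intro s
    have hm : MeasurableSet {x : EE d | gauge C x ≤ 1 ∧ s ≤ lam x} :=
      (measurableSet_le hgm measurable_const).inter (measurableSet_le measurable_const hlm)
    have : (fun x => K1 x s) =
        {x : EE d | gauge C x ≤ 1 ∧ s ≤ lam x}.indicator (fun _ => w1 s) := by
      funext x
      simp only [K1, Set.indicator, S1, Set.mem_ofPred_eq]
    rw [this, lintegral_indicator hm, setLIntegral_const]
  have hsec2 : ∀ s, ∫⁻ x, K2 x s = w2 s * volume {x : EE d | gauge C x ≤ s ∧ s ≤ lam x} := by
    intro s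
    have hm : MeasurableSet {x : EE d | gauge C x ≤ s ∧ s ≤ lam x} :=
      (measurableSet_le hgm measurable_const).inter (measurableSet_le measurable_const hlm)
    have : (fun x => K2 x s) =
        {x : EE d | gauge C x ≤ s ∧ s ≤ lam x}.indicator (fun _ => w2 s) := by
      funext x
      simp only [K2, Set.indicator, S2, Set.mem_ofPred_eq]
    rw [this, lintegral_indicator hm, setLIntegral_const]
  have hsec3 : ∀ s, ∫⁻ x, K3 x s = w2 s * volume {x : EE d | gauge C x ≤ s * lam x} := by
    intro s
    have hm : MeasurableSet {x : EE d | gauge C x ≤ s * lam x} :=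
      measurableSet_le hgm (measurable_const.mul hlm)
    have : (fun x => K3 x s) =
        {x : EE d | gauge C x ≤ s * lam x}.indicator (fun _ => w2 s) := by
      funext x
      simp only [K3, Set.indicator, S3, Set.mem_ofPred_eq]
    rw [this, lintegral_indicator hm, setLIntegral_const]
  have hpow : ∀ s : ℝ, 0 < s → w1 s = w2 s * ENNReal.ofReal (s ^ d) := by
    intro s hs
    simp only [w1, w2]
    rw [← ENNReal.ofReal_mul (by positivity)]
    congr 1
    have : s ^ d = s ^ (d - 1) * s := by
      rw [← pow_succ]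
      congr 1
      omega
    rw [this]
    field_simp
  -- step A : right side
  have hA : ∫⁻ x in C, ENNReal.ofReal (lam x ^ d) = ∫⁻ x, ∫⁻ s in Ioi (0 : ℝ), K1 x s := by
    rw [← lintegral_indicator hC.compact.isClosed.measurableSet]
    apply lintegral_congr
    intro x
    by_cases hx : x ∈ C
    · rw [Set.indicator_of_mem hx, ← powint d hd (lam x) (hl0 x)]
      have h1 : (Ioi (0 : ℝ)).indicator (K1 x) = (Ioc (0 : ℝ) (lam x)).indicator w1 := by
        funext s
        simp only [K1, Set.indicator, S1, Set.mem_ofPred_eq, Set.mem_Ioi, Set.mem_Ioc]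
        have hx1 : gauge C x ≤ 1 := (hg1 x).mpr hx
        by_cases h2 : 0 < s
        · by_cases h3 : s ≤ lam x
          · simp [h2, h3, hx1]
          · simp [h2, h3]
        · simp [h2]
      rw [← lintegral_indicator measurableSet_Ioi, h1, lintegral_indicator measurableSet_Ioc]
    · rw [Set.indicator_of_notMem hx]
      have h1 : ∀ s, K1 x s = 0 := by
        intro s
        simp only [K1]
        apply Set.indicator_of_notMem
        rintro ⟨h, -⟩
        exact hx ((hg1 x).mp h)
      simp [h1]
  have hB : ∫⁻ x in C, ENNReal.ofReal (lam x ^ d) = ∫⁻ x, ∫⁻ s in Ioi (0 : ℝ), K2 x s := by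
    rw [hA, lintegral_lintegral_swap hK1.aemeasurable, lintegral_lintegral_swap hK2.aemeasurable]
    apply setLIntegral_congr_fun measurableSet_Ioi
    intro s hs
    have hs' : (0 : ℝ) < s := hs
    show ∫⁻ x, K1 x s = ∫⁻ x, K2 x s
    rw [hsec1, hsec2, hpow s hs', mul_assoc]
    congr 1
    rw [← scale_vol _ s hs']
    congr 1
    ext x
    simp only [Set.mem_preimage, Set.mem_ofPred_eq]
    rw [hgs _ _ (inv_nonneg.mpr hs'.le), hlh _ _ (inv_pos.mpr hs'), inv_mul_le_iff₀ hs', mul_one]
  -- step B : left side
  have hD : volume {x | gauge C x ≤ lam x} = ∫⁻ x, ∫⁻ s in Ioc (0 : ℝ) 1, K3 x s := by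
    rw [lintegral_lintegral_swap hK3.aemeasurable]
    have h1 : volume {x | gauge C x ≤ lam x} =
        ∫⁻ s in Ioc (0 : ℝ) 1, w1 s * volume {x | gauge C x ≤ lam x} := by
      rw [lintegral_mul_const _ hw1]
      have := powint d hd 1 zero_le_one
      simp only [w1]
      rw [this, one_pow, ENNReal.ofReal_one, one_mul]
    rw [h1]
    apply setLIntegral_congr_fun measurableSet_Ioc
    intro s hs
    have hs' : (0 : ℝ) < s := hs.1
    show w1 s * volume {x | gauge C x ≤ lam x} = ∫⁻ x, K3 x s
    rw [hsec3, hpow s hs', mul_assoc]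
    congr 1
    rw [← scale_vol _ s hs']
    congr 1
    ext x
    simp only [Set.mem_preimage, Set.mem_ofPred_eq]
    rw [hgs _ _ (inv_nonneg.mpr hs'.le), hlh _ _ (inv_pos.mpr hs'), inv_mul_le_iff₀ hs']
  rw [hB, hD]
  apply lintegral_congr_ae
  have hne : ∀ᵐ x : EE d, x ≠ 0 := by
    have : Nonempty (Fin d) := ⟨⟨0, hd⟩⟩
    rw [ae_iff]
    simp only [ne_eq, not_not, Set.ofPred_eq_eq_singleton]
    exact measure_singleton _
  filter_upwards [hne] with x hx
  have hg : 0 < gauge C x := hgpos x hx
  rcases (hl0 x).eq_or_lt with ha | ha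
  · -- lam x = 0
    have h1 : ∀ s, K3 x s = 0 := by
      intro s
      simp only [K3]
      apply Set.indicator_of_notMem
      intro h
      have h' : gauge C x ≤ s * lam x := h
      rw [← ha, mul_zero] at h'
      linarith
    have h2 : ∀ s ∈ Ioi (0 : ℝ), K2 x s = 0 := by
      intro s hs
      simp only [K2]
      apply Set.indicator_of_notMem
      rintro ⟨-, h⟩
      have h' : s ≤ lam x := h
      rw [← ha] at h'
      exact absurd hs (not_lt.mpr h')
    rw [setLIntegral_congr_fun measurableSet_Ioi h2]
    simp [h1]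
  · -- substitution s = t * lam x
    rw [← lintegral_indicator measurableSet_Ioi, ← lintegral_indicator measurableSet_Ioc]
    set F : ℝ → ℝ≥0∞ := (Ioi (0 : ℝ)).indicator (K2 x) with hF
    have hFm : Measurable F := by
      have : Measurable (K2 x) := hK2.comp measurable_prodMk_left
      exact this.indicator measurableSet_Ioi
    have hsub : ∫⁻ s, F s = ∫⁻ t, ENNReal.ofReal (lam x) * F (lam x * t) := by
      have h1 := Real.smul_map_volume_mul_left ha.ne'
      have hml : Measurable (fun t : ℝ => lam x * t) := measurable_const_mul _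
      calc ∫⁻ s, F s = ∫⁻ s, F s ∂(ENNReal.ofReal |lam x| •
            Measure.map (fun t : ℝ => lam x * t) volume) := by rw [h1]
        _ = ENNReal.ofReal |lam x| * ∫⁻ t, F (lam x * t) := by
            rw [lintegral_smul_measure, lintegral_map hFm hml, smul_eq_mul]
        _ = _ := by
            rw [abs_of_pos ha]
            exact (lintegral_const_mul (ENNReal.ofReal (lam x)) (hFm.comp hml)).symm
    rw [hsub]
    apply lintegral_congr
    intro t
    by_cases ht : 0 < t
    · have hp : 0 < lam x * t := mul_pos ha ht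
      rw [hF]
      rw [Set.indicator_of_mem (show lam x * t ∈ Ioi (0 : ℝ) from hp)]
      by_cases h1 : t ≤ 1
      · rw [Set.indicator_of_mem (show t ∈ Ioc (0 : ℝ) 1 from ⟨ht, h1⟩)]
        by_cases h2 : gauge C x ≤ t * lam x
        · have h3 : (x, lam x * t) ∈ S2 := by
            refine ⟨?_, ?_⟩
            · show gauge C x ≤ lam x * t
              rw [mul_comm]
              exact h2
            · show lam x * t ≤ lam x
              nlinarith
          have h4 : (x, t) ∈ S3 := h2
          simp only [K2, K3]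
          rw [Set.indicator_of_mem h3, Set.indicator_of_mem h4]
          simp only [w2]
          rw [← ENNReal.ofReal_mul ha.le]
          congr 1
          field_simp
        · have h3 : (x, lam x * t) ∉ S2 := by
            rintro ⟨h, -⟩
            have h' : gauge C x ≤ lam x * t := h
            rw [mul_comm] at h'
            exact h2 h'
          have h4 : (x, t) ∉ S3 := h2
          simp only [K2, K3]
          rw [Set.indicator_of_notMem h3, Set.indicator_of_notMem h4, mul_zero]
      · rw [Set.indicator_of_notMem (fun h : t ∈ Ioc (0 : ℝ) 1 => h1 h.2)]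
        have h3 : (x, lam x * t) ∉ S2 := by
          rintro ⟨-, h⟩
          have h' : lam x * t ≤ lam x := h
          apply h1
          by_contra h5
          push Not at h5
          nlinarith
        simp only [K2]
        rw [Set.indicator_of_notMem h3, mul_zero]
    · rw [Set.indicator_of_notMem (fun h : t ∈ Ioc (0 : ℝ) 1 => ht h.1)]
      have hp : ¬ 0 < lam x * t := by
        intro h
        exact ht (pos_of_mul_pos_right h ha.le)
      rw [hF, Set.indicator_of_notMem (fun h : lam x * t ∈ Ioi (0 : ℝ) => hp h), mul_zero]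

end PET
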