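import Pool.Agent.PET.Stmts

/-!
# Squad PET, module POS: the good position
-/

namespace PET

open MeasureTheory Set
open SBA (EE Body vl kap)

namespace POS_

lemma id_comp' {n : ℕ} (A : EE n →L[ℝ] EE n) :
    (ContinuousLinearMap.id ℝ (EE n)).comp A = A := by
  ext v; rfl

end POS_

theorem pos_proof (hPSM : Stmt_PSM) (hTRM : Stmt_TRM) (hADT : Stmt_ADT) (hMXV : Stmt_MXV)
    (hSTA : Stmt_STA) (hDIA : Stmt_DIA) (hSLA : Stmt_SLA) (hPSL : Stmt_PSL) (hPIG : Stmt_PIG)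
    (hDTS : Stmt_DTS) (hMWB : Stmt_MWB) (hHSL : Stmt_HSL) : Stmt_POS := by
  intro n N μ _ t β c A₀ hn hμ ht htn hβ hβ1 hc hc1 hN hA₀ hint
  have hn1 : 1 ≤ n := by omega
  have hn0 : (0 : ℝ) < n := by exact_mod_cast (by omega : 0 < n)
  obtain ⟨a', b, ha', hab⟩ := hμ.bd
  have hb : ∀ᵐ v ∂μ, ‖v‖ ≤ b := hab.mono fun v hv => hv.2
  choose w A hw hA hmin using fun m : ℕ => hPSM n m μ t β hn ht hβ hμ
  set a : ℕ → ℝ := fun m => Psi μ t β (w m) (A m) with ha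
  set L : ℝ := β * n * kap n ^ (1 / (n : ℝ)) with hL
  have hkap : 0 < kap n := (hHSL n hn1).2.2.2.1
  have hLpos : 0 < L := by
    have : 0 < kap n ^ (1 / (n : ℝ)) := Real.rpow_pos_of_pos hkap _
    positivity
  have hLa : ∀ m, L ≤ a m := fun m => (hPSL n m μ t β (w m) (A m) hn ht hβ hμ (hw m) (hA m)).2
  have ha0 : a 0 ≤ 8 * n := by
    have h1 : a 0 ≤ Psi μ t β (w 0) A₀ := hmin 0 (w 0) A₀ (hw 0) hA₀
    obtain ⟨x, hx⟩ := hMXV n 0 t (w 0) hn1 ht (hw 0)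
    have hsub := (hMWB n 0 t (w 0) hn1 ht (hw 0)).2.2.1
    obtain ⟨hi1, hi2, -⟩ := hTRM n 0 μ t β b (w 0) A₀ hn1 ht (hw 0) hb
    have h2 : Psi μ t β (w 0) A₀ ≤ ∫ v, (1 + β) * ‖A₀ v‖ ∂μ := by
      unfold Psi
      apply integral_mono (hi1.add (hi2.const_mul β)) (hi2.const_mul (1 + β))
      intro v
      have h3 : hs (MW t (w 0)) (A₀ v) ≤ ‖A₀ v‖ := by
        rw [← hx.max (A₀ v)]
        have h4 : ‖x (A₀ v)‖ ≤ 1 := by
          have := hsub (hx.mem (A₀ v))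
          simpa using this
        calc inner ℝ (x (A₀ v)) (A₀ v) ≤ ‖x (A₀ v)‖ * ‖A₀ v‖ := real_inner_le_norm _ _
          _ ≤ 1 * ‖A₀ v‖ := mul_le_mul_of_nonneg_right h4 (norm_nonneg _)
          _ = ‖A₀ v‖ := one_mul _
      simp only [Pi.add_apply]
      linarith
    rw [integral_const_mul] at h2
    have h5 : 0 ≤ ∫ v, ‖A₀ v‖ ∂μ := integral_nonneg fun v => norm_nonneg _
    nlinarith
  have hPIGc : (1 - c) ^ N * a 0 < L := by
    have h1 : 0 ≤ (1 - c) ^ N := pow_nonneg (by linarith) N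
    calc (1 - c) ^ N * a 0 ≤ (1 - c) ^ N * (8 * n) := mul_le_mul_of_nonneg_left ha0 h1
      _ < L := hN
  obtain ⟨m, hmN, hm⟩ := hPIG a c L N hc hc1 hLa hPIGc
  obtain ⟨hν, -⟩ := hADT n μ (A m) hn hμ (hA m)
  -- change of variables
  have hchg : ∀ (k : ℕ) (w' : Fin k → EE n) (B : EE n →L[ℝ] EE n), US w' →
      Psi (μ.map (A m)) t β w' B = Psi μ t β w' (B.comp (A m)) := fun k w' B hw' =>
    (hTRM n k μ t β b w' (A m) hn1 ht hw' hb).2.2 B
  have hid : ∀ (k : ℕ) (w' : Fin k → EE n), US w' →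
      Psi (μ.map (A m)) t β w' (ContinuousLinearMap.id ℝ (EE n)) = Psi μ t β w' (A m) := by
    intro k w' hw'
    rw [hchg k w' _ hw', POS_.id_comp']
  have hPid := hid m (w m) (hw m)
  have hIsMin : IsMin (μ.map (A m)) t β (w m) := by
    intro w' B hw' hB
    rw [hPid, hchg m w' B hw']
    refine hmin m w' (B.comp (A m)) hw' ?_
    rw [(hDTS n hn1).2.2, hB, hA m, one_mul]
  obtain ⟨x, hx⟩ := hMXV n m t (w m) hn1 ht (hw m)
  have hsub := (hMWB n m t (w m) hn1 ht (hw m)).2.2.1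
  set P : ℝ := Psi (μ.map (A m)) t β (w m) (ContinuousLinearMap.id ℝ (EE n)) with hP
  have hPa : P = a m := hPid
  have hnl : (n : ℝ) * (P / n) = P := by field_simp
  refine ⟨A m, m, w m, x, P / n, hA m, hmN.le, hw m, ?_, ?_, ?_⟩
  · rw [hPa]
    exact div_pos (lt_of_lt_of_le hLpos (hLa m)) hn0
  · rw [hPa, le_div_iff₀ hn0]
    have := (hPSL n m μ t β (w m) (A m) hn ht hβ hμ (hw m) (hA m)).1
    calc (1 + β) * vl (MW t (w m)) ^ (1 / (n : ℝ)) * n
        = (1 + β) * n * vl (MW t (w m)) ^ (1 / (n : ℝ)) := by ring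
      _ ≤ a m := this
  · refine ⟨hν.bd, hx.meas, ?_, ?_, ?_, ?_⟩
    · intro v
      have := hsub (hx.mem v)
      simpa using this
    · intro u e
      exact hSTA n m (μ.map (A m)) t β (w m) x hn ht hβ hν (hw m) hx hIsMin u e
    · intro e
      exact hDIA n m (μ.map (A m)) t β (w m) hn ht hβ hν (hw m) hIsMin e
    · intro w₀ hw₀
      rw [hnl]
      refine hSLA n m (μ.map (A m)) t β c (w m) x hn ht htn hβ hc hν (hw m) hx ?_ w₀ hw₀
      intro w' hw'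
      rw [hid (m + 1) w' hw', hid m (w m) (hw m)]
      exact hm.trans (hmin (m + 1) w' (A m) hw' (hA m))

end PET
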