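import Pool.Agent.PET.Stmts

open MeasureTheory Set Filter
open scoped ENNReal Pointwise

namespace PET

open SBA (EE Body vl kap)

theorem ppz_proof (h1 : Stmt_PHM) (h2 : Stmt_BBM) : Stmt_PPZ := by
  intro n μ _ β b x hβ hx hx1 hb
  obtain ⟨hph, -, hph1⟩ := h1 n
  obtain ⟨hbm, hb1⟩ := h2 n β x hβ hx hx1
  have hF : Measurable fun p : EE n × EE n => ph (bb β x p.2) p.1 • p.2 := by
    have hg : Measurable fun p : EE n × EE n => ph (bb β x p.2) p.1 :=
      hph.comp ((hbm.comp measurable_snd).prodMk measurable_fst)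
    exact hg.smul measurable_snd
  have hbd : ∀ y, ∀ᵐ v ∂μ, ‖ph (bb β x v) y • v‖ ≤ |b| := by
    intro y
    filter_upwards [hb] with v hv
    rw [norm_smul, Real.norm_eq_abs]
    calc |ph (bb β x v) y| * ‖v‖ ≤ 1 * |b| :=
          mul_le_mul (hph1 _ _) (hv.trans (le_abs_self b)) (norm_nonneg _) zero_le_one
      _ = |b| := one_mul _
  have hint : ∀ y, Integrable (fun v => ph (bb β x v) y • v) μ := by
    intro y
    refine Integrable.of_bound ?_ |b| (hbd y)
    exact (hF.comp (measurable_const.prodMk measurable_id)).aestronglyMeasurable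
  refine ⟨?_, ?_, ?_⟩
  · have hs := hF.stronglyMeasurable.integral_prod_right' (ν := μ)
    exact (hs.measurable.const_smul (1 / 2 : ℝ))
  · intro y u
    have e : inner ℝ (pp μ β x y) u = 1 / 2 * ∫ v, inner ℝ u (ph (bb β x v) y • v) ∂μ := by
      unfold pp
      rw [real_inner_smul_left, real_inner_comm, integral_inner (hint y)]
    rw [e]
    refine mul_le_mul_of_nonneg_left ?_ (by norm_num)
    refine integral_mono ((hint y).const_inner u) ?_ ?_
    · refine Integrable.of_bound ?_ (‖u‖ * |b|) ?_
      · have : Measurable fun v : EE n => (|inner ℝ u v| : ℝ) := by fun_prop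
        exact this.aestronglyMeasurable
      · filter_upwards [hb] with v hv
        rw [Real.norm_eq_abs, abs_abs]
        refine (abs_real_inner_le_norm u v).trans ?_
        exact mul_le_mul_of_nonneg_left (hv.trans (le_abs_self b)) (norm_nonneg u)
    · intro v
      show inner ℝ u (ph (bb β x v) y • v) ≤ |inner ℝ u v|
      rw [real_inner_smul_right]
      refine (le_abs_self _).trans ?_
      rw [abs_mul]
      exact mul_le_of_le_one_left (abs_nonneg _) (hph1 _ _)
  · refine ⟨‖(1 / 2 : ℝ)‖ * (|b| * μ.real univ), fun y => ?_⟩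
    unfold pp
    rw [norm_smul]
    refine mul_le_mul_of_nonneg_left ?_ (norm_nonneg _)
    exact norm_integral_le_of_norm_le_const (hbd y)

end PET
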