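import Pool.Agent.PET.Stmts

/-!
# PET/PRC: projections of `K`
-/

namespace PET

open MeasureTheory Set Filter Topology
open scoped ENNReal Pointwise
open SBA (EE Body vl kap)

namespace PRC_

lemma proj_add {n : ℕ} (u : EE n) (s : ℝ) (ξ : (ℝ ∙ u)ᗮ) :
    ((ℝ ∙ u)ᗮ).orthogonalProjectionOnto (s • u + (ξ : EE n)) = ξ := by
  rw [map_add, map_smul, Submodule.orthogonalProjectionOnto_mem_subspace_eq_self,
    Submodule.orthogonalProjectionOnto_orthogonalComplement_singleton_eq_zero, smul_zero,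
    zero_add]

lemma proj_self {n : ℕ} (u : EE n) (ξ : (ℝ ∙ u)ᗮ) :
    ((ℝ ∙ u)ᗮ).orthogonalProjectionOnto (ξ : EE n) = ξ :=
  Submodule.orthogonalProjectionOnto_mem_subspace_eq_self ξ

end PRC_

open PRC_ in
theorem prc_proof : Stmt_PRC := by
  intro n K u hK hu
  obtain ⟨hconv, hcomp, hzero⟩ := hK
  refine ⟨⟨?_, ?_, ?_⟩, ?_⟩
  · exact hconv.linear_image (((ℝ ∙ u)ᗮ).orthogonalProjectionOnto : EE n →ₗ[ℝ] (ℝ ∙ u)ᗮ)
  · exact hcomp.image (((ℝ ∙ u)ᗮ).orthogonalProjectionOnto).continuous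
  · rw [mem_interior_iff_mem_nhds, Metric.mem_nhds_iff] at hzero
    obtain ⟨r, hr, hball⟩ := hzero
    rw [mem_interior_iff_mem_nhds, Metric.mem_nhds_iff]
    refine ⟨r, hr, ?_⟩
    intro ξ hξ
    refine ⟨(ξ : EE n), hball ?_, proj_self u ξ⟩
    rw [mem_ball_zero_iff] at hξ ⊢
    exact hξ
  · intro s ξ
    have habs : Absorbent ℝ K := absorbent_nhds_zero (mem_interior_iff_mem_nhds.mp hzero)
    refine le_of_forall_gt fun a ha => ?_
    obtain ⟨b, hb, hba, y, hy, hyx⟩ := exists_lt_of_gauge_lt habs ha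
    have h1 : ξ ∈ b • prj K u := by
      refine ⟨((ℝ ∙ u)ᗮ).orthogonalProjectionOnto y, ⟨y, hy, rfl⟩, ?_⟩
      show b • ((ℝ ∙ u)ᗮ).orthogonalProjectionOnto y = ξ
      have hyx' : b • y = s • u + (ξ : EE n) := hyx
      rw [← map_smul, hyx', proj_add]
    exact (gauge_le_of_mem hb.le h1).trans_lt hba

end PET
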