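import Pool.Agent.PET.Stmts

set_option autoImplicit false

namespace PET

open MeasureTheory Set
open scoped ENNReal Pointwise
open SBA (EE Body vl kap)

namespace PRF_

theorem proj_add {n : ℕ} (u : EE n) (s : ℝ) (ξ : (ℝ ∙ u)ᗮ) :
    ((ℝ ∙ u)ᗮ).orthogonalProjectionOnto (s • u + (ξ : EE n)) = ξ := by
  rw [map_add, map_smul]
  have h1 : ((ℝ ∙ u)ᗮ).orthogonalProjectionOnto u = 0 := by
    exact Submodule.orthogonalProjectionOnto_orthogonalComplement_singleton_eq_zero u
  rw [h1, smul_zero, zero_add]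
  exact Submodule.orthogonalProjectionOnto_mem_subspace_eq_self ξ

theorem conv_gauge {n : ℕ} {K : Set (EE n)} (hK : CB K) : ConvexOn ℝ univ (gauge K) := by
  refine ⟨convex_univ, ?_⟩
  intro x _ y _ a b ha hb _
  have habs : Absorbent ℝ K := absorbent_nhds_zero (mem_interior_iff_mem_nhds.1 hK.zero)
  calc gauge K (a • x + b • y) ≤ gauge K (a • x) + gauge K (b • y) :=
        gauge_add_le hK.convex habs _ _
    _ = a • gauge K x + b • gauge K y := by
        rw [gauge_smul_of_nonneg ha, gauge_smul_of_nonneg hb]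

theorem line_conv {n : ℕ} {K : Set (EE n)} (hK : CB K) (u z : EE n) :
    ConvexOn ℝ univ (fun s : ℝ => gauge K (s • u + z)) := by
  refine ⟨convex_univ, ?_⟩
  intro s _ t _ a b ha hb hab
  have h := (conv_gauge hK).2 (mem_univ (s • u + z)) (mem_univ (t • u + z)) ha hb hab
  have e : (a • s + b • t) • u + z = a • (s • u + z) + b • (t • u + z) := by
    rw [smul_add, smul_add, add_smul]
    have : z = a • z + b • z := by rw [← add_smul, hab, one_smul]
    nth_rewrite 1 [this]
    simp only [smul_assoc]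
    abel
  simp only
  rw [e]
  exact h

theorem deriv_line {n : ℕ} {K : Set (EE n)} (u z : EE n) (s : ℝ)
    (h : DifferentiableAt ℝ (gauge K) (s • u + z)) :
    deriv (fun s : ℝ => gauge K (s • u + z)) s = inner ℝ u (gradient (gauge K) (s • u + z)) := by
  have h1 : HasGradientAt (gauge K) (gradient (gauge K) (s • u + z)) (s • u + z) :=
    h.hasGradientAt
  have h2 := h1.hasFDerivAt
  have h3 : HasDerivAt (fun s : ℝ => s • u + z) u s := by
    have := ((hasDerivAt_id s).smul_const u).add_const z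
    simpa using this
  have h4 := h2.comp_hasDerivAt s h3
  have h5 := h4.deriv
  have h6 : (gauge K ∘ fun s : ℝ => s • u + z) = fun s : ℝ => gauge K (s • u + z) := rfl
  rw [h6] at h5
  rw [h5, InnerProductSpace.toDual_apply_apply, real_inner_comm]

end PRF_

open PRF_

theorem prf_proof (h1 : SBA.Stmt_DEC) (h2 : Stmt_LIN) (h3 : Stmt_GLC) (h4 : Stmt_PRC)
    (h5 : Stmt_GRK) : Stmt_PRF := by
  intro n K u hn hK hu
  obtain ⟨gd, gm, -, -, -, gK, r, R, hr, hR, -, hKR, -, -, -⟩ := h5 n K hK
  obtain ⟨pC, pg⟩ := h4 n K u hK hu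
  have hKm : MeasurableSet K := hK.compact.measurableSet
  have hPm : MeasurableSet (prj K u) := pC.compact.measurableSet
  set F : EE n → ℝ≥0∞ := K.indicator (fun x => ‖(inner ℝ u (gradient (gauge K) x) : ℝ)‖ₑ) with hF
  have hFm : Measurable F := by
    apply Measurable.indicator _ hKm
    exact (Measurable.inner measurable_const gm).enorm
  have hI : ∫⁻ x in K, ‖(inner ℝ u (gradient (gauge K) x) : ℝ)‖ₑ = ∫⁻ x, F x := by
    rw [hF, lintegral_indicator hKm]
  have hJ : ∀ G : EE n → ℝ≥0∞, Measurable G →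
      ∫⁻ x, G x = ∫⁻ ξ : (ℝ ∙ u)ᗮ, ∫⁻ s : ℝ, G (s • u + (ξ : EE n)) := by
    intro G hG
    rw [h1 n u G hu hG]
    apply lintegral_lintegral_swap
    apply Measurable.aemeasurable
    apply hG.comp
    fun_prop
  -- the null set
  have hN : ∀ᵐ ξ : (ℝ ∙ u)ᗮ, ∀ᵐ s : ℝ, DifferentiableAt ℝ (gauge K) (s • u + (ξ : EE n)) := by
    have hNm : MeasurableSet {x : EE n | DifferentiableAt ℝ (gauge K) x} :=
      measurableSet_of_differentiableAt ℝ (gauge K)
    set G : EE n → ℝ≥0∞ := ({x : EE n | DifferentiableAt ℝ (gauge K) x}ᶜ).indicator 1 with hG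
    have hGm : Measurable G := measurable_one.indicator hNm.compl
    have e0 : ∫⁻ x, G x = 0 := by
      rw [hG, lintegral_indicator_one hNm.compl]
      exact gd
    rw [hJ G hGm] at e0
    have hm : Measurable (fun ξ : (ℝ ∙ u)ᗮ => ∫⁻ s : ℝ, G (s • u + (ξ : EE n))) := by
      have hm3 : Measurable (fun p : (ℝ ∙ u)ᗮ × ℝ => G (p.2 • u + (p.1 : EE n))) := by
        apply hGm.comp
        fun_prop
      exact hm3.lintegral_prod_right'
    rw [lintegral_eq_zero_iff hm] at e0
    filter_upwards [e0] with ξ hξ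
    have hm2 : Measurable (fun s : ℝ => G (s • u + (ξ : EE n))) := by
      apply hGm.comp
      fun_prop
    have hξ' : ∫⁻ s : ℝ, G (s • u + (ξ : EE n)) = 0 := hξ
    rw [lintegral_eq_zero_iff hm2] at hξ'
    filter_upwards [hξ'] with s hs
    by_contra hcon
    have : G (s • u + (ξ : EE n)) = 1 := by
      rw [hG, indicator_of_mem]
      · rfl
      · exact hcon
    rw [this] at hs
    exact one_ne_zero hs
  have key : ∀ᵐ ξ : (ℝ ∙ u)ᗮ, ∫⁻ s : ℝ, F (s • u + (ξ : EE n)) ≤
      (prj K u).indicator (fun ξ => 2 * ENNReal.ofReal (1 - gauge (prj K u) ξ)) ξ := by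
    filter_upwards [hN] with ξ hξ
    by_cases hm : ξ ∈ prj K u
    · rw [indicator_of_mem hm]
      have hm1 : gauge (prj K u) ξ ≤ 1 := gauge_le_one_of_mem hm
      have hset : ∀ s : ℝ, (s • u + (ξ : EE n)) ∈ K ↔
          s ∈ {s : ℝ | gauge K (s • u + (ξ : EE n)) ≤ 1} := fun s => gK _
      have hbd : Bornology.IsBounded {s : ℝ | gauge K (s • u + (ξ : EE n)) ≤ 1} := by
        apply (Metric.isBounded_closedBall (x := (0 : ℝ)) (r := R + ‖(ξ : EE n)‖)).subset
        intro s hs
        rw [← hset] at hs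
        have a := hKR hs
        rw [mem_closedBall_zero_iff] at a ⊢
        have b : ‖s‖ = ‖s • u‖ := by rw [norm_smul, hu, mul_one]
        rw [b]
        calc ‖s • u‖ = ‖(s • u + (ξ : EE n)) - (ξ : EE n)‖ := by rw [add_sub_cancel_right]
          _ ≤ ‖s • u + (ξ : EE n)‖ + ‖(ξ : EE n)‖ := norm_sub_le _ _
          _ ≤ _ := by linarith
      have L := h2 (fun s : ℝ => gauge K (s • u + (ξ : EE n))) (gauge (prj K u) ξ)
        (line_conv hK u ξ) (fun s => pg s ξ) hm1 hbd
      have hcont : Continuous (fun s : ℝ => gauge K (s • u + (ξ : EE n))) := by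
        have c1 := continuous_gauge hK.convex (mem_interior_iff_mem_nhds.1 hK.zero)
        apply c1.comp
        fun_prop
      have hSm : MeasurableSet {s : ℝ | gauge K (s • u + (ξ : EE n)) ≤ 1} :=
        measurableSet_le hcont.measurable measurable_const
      have e1 : ∫⁻ s : ℝ, F (s • u + (ξ : EE n)) =
          ∫⁻ s in {s : ℝ | gauge K (s • u + (ξ : EE n)) ≤ 1},
            ‖deriv (fun s : ℝ => gauge K (s • u + (ξ : EE n))) s‖ₑ := by
        rw [← lintegral_indicator hSm]
        apply lintegral_congr_ae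
        filter_upwards [hξ] with s hs
        by_cases hs1 : s ∈ {s : ℝ | gauge K (s • u + (ξ : EE n)) ≤ 1}
        · rw [indicator_of_mem hs1, hF, indicator_of_mem ((hset s).2 hs1), deriv_line u ξ s hs]
        · rw [indicator_of_notMem hs1, hF, indicator_of_notMem]
          rw [hset s]
          exact hs1
      rw [e1]
      refine L.trans (le_of_eq ?_)
      rw [ENNReal.ofReal_mul (by norm_num)]
      norm_num
    · rw [indicator_of_notMem hm]
      apply le_of_eq
      have : ∀ s : ℝ, F (s • u + (ξ : EE n)) = 0 := by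
        intro s
        rw [hF, indicator_of_notMem]
        intro hs
        apply hm
        refine ⟨s • u + (ξ : EE n), hs, ?_⟩
        exact proj_add u s ξ
      simp only [this, lintegral_zero]
  have hn1 : Module.finrank ℝ ((ℝ ∙ u)ᗮ : Submodule ℝ (EE n)) = n - 1 := by
    have hu0 : u ≠ 0 := by
      intro h
      rw [h, norm_zero] at hu
      norm_num at hu
    have a := Submodule.finrank_add_finrank_orthogonal (ℝ ∙ u)
    rw [finrank_span_singleton hu0] at a
    have b : Module.finrank ℝ (EE n) = n := by simp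
    rw [b] at a
    omega
  have G := h3 ((ℝ ∙ u)ᗮ : Submodule ℝ (EE n)) (prj K u) pC
  have hcast : (Module.finrank ℝ ((ℝ ∙ u)ᗮ : Submodule ℝ (EE n)) : ℝ) + 1 = n := by
    rw [hn1, Nat.cast_sub (by omega)]
    simp
  rw [hcast] at G
  rw [hI, hJ F hFm, ← G]
  calc ENNReal.ofReal ((n : ℝ) / 2) * ∫⁻ ξ : (ℝ ∙ u)ᗮ, ∫⁻ s : ℝ, F (s • u + (ξ : EE n))
      ≤ ENNReal.ofReal ((n : ℝ) / 2) * ∫⁻ ξ : (ℝ ∙ u)ᗮ,
        (prj K u).indicator (fun ξ => 2 * ENNReal.ofReal (1 - gauge (prj K u) ξ)) ξ := by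
        exact mul_le_mul_right (lintegral_mono_ae key) _
    _ = ENNReal.ofReal ((n : ℝ) / 2) * (2 * ∫⁻ ξ in prj K u,
          ENNReal.ofReal (1 - gauge (prj K u) ξ)) := by
        rw [lintegral_indicator hPm, lintegral_const_mul']
        norm_num
    _ = ENNReal.ofReal n * ∫⁻ ξ in prj K u, ENNReal.ofReal (1 - gauge (prj K u) ξ) := by
        rw [← mul_assoc]
        congr 1
        have : (2 : ℝ≥0∞) = ENNReal.ofReal 2 := by norm_num
        rw [this, ← ENNReal.ofReal_mul (by positivity)]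
        congr 1
        ring

end PET
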