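import Pool.Agent.PET.Stmts

namespace PET

open SBA (EE Body vl kap)
open MeasureTheory Filter Topology Set

namespace PSC_

noncomputable section

lemma hle {n m : ℕ} (h2 : Stmt_MWB) (h3 : Stmt_HSB) {t : ℝ} (hn : 1 ≤ n) (ht : 0 < t)
    {w : Fin m → EE n} (hw : US w) (v : EE n) : hs (MW t w) v ≤ ‖v‖ := by
  obtain ⟨hB, -, hsub, -⟩ := h2 n m t w hn ht hw
  obtain ⟨-, -, -, -, -, -, -, a8, -⟩ := h3 n (MW t w) hB
  have := a8 1 v hsub
  rwa [one_mul] at this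

lemma hlip {n m : ℕ} (h2 : Stmt_MWB) (h3 : Stmt_HSB) {t : ℝ} (hn : 1 ≤ n) (ht : 0 < t)
    {w : Fin m → EE n} (hw : US w) (v v' : EE n) :
    hs (MW t w) v ≤ hs (MW t w) v' + ‖v - v'‖ := by
  obtain ⟨hB, -, hsub, -⟩ := h2 n m t w hn ht hw
  obtain ⟨-, -, -, a4, -, -, -, -, -⟩ := h3 n (MW t w) hB
  have e : v' + (v - v') = v := by abel
  have := a4 v' (v - v')
  rw [e] at this
  exact this.trans (by linarith [hle h2 h3 hn ht hw (v - v')])

lemma ptw {n m : ℕ} (h1 : Stmt_MWC) (h2 : Stmt_MWB) (h3 : Stmt_HSB) {t : ℝ} (hn : 1 ≤ n)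
    (ht : 0 < t) (p₀ : (Fin m → EE n) × (EE n →L[ℝ] EE n)) (hp₀ : US p₀.1) (v : EE n) :
    Tendsto (fun p : (Fin m → EE n) × (EE n →L[ℝ] EE n) => hs (MW t p.1) (p.2 v))
      (𝓝[{p | US p.1}] p₀) (𝓝 (hs (MW t p₀.1) (p₀.2 v))) := by
  set q : (Fin m → EE n) × (EE n →L[ℝ] EE n) → ℝ := fun p =>
    √(1 + 2 * n * ‖p.1 - p₀.1‖ / t ^ 2) with hq
  have hqc : Continuous q := by
    rw [hq]
    apply Real.continuous_sqrt.comp
    fun_prop
  have hq0 : q p₀ = 1 := by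
    rw [hq]
    simp
  have hqpos : ∀ p, 0 < q p := by
    intro p
    rw [hq]
    apply Real.sqrt_pos.mpr
    positivity
  have hdc : Continuous (fun p : (Fin m → EE n) × (EE n →L[ℝ] EE n) => ‖p.2 v - p₀.2 v‖) := by
    fun_prop
  set H : ℝ := hs (MW t p₀.1) (p₀.2 v) with hH
  have c1 : Continuous (fun p : (Fin m → EE n) × (EE n →L[ℝ] EE n) =>
      q p * H + ‖p.2 v - p₀.2 v‖) := (hqc.mul continuous_const).add hdc
  have c2 : Continuous (fun p : (Fin m → EE n) × (EE n →L[ℝ] EE n) =>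
      H / q p - ‖p.2 v - p₀.2 v‖) :=
    (continuous_const.div hqc (fun p => (hqpos p).ne')).sub hdc
  have t1 := (c1.tendsto p₀).mono_left (nhdsWithin_le_nhds (s := {p | US p.1}))
  have t2 := (c2.tendsto p₀).mono_left (nhdsWithin_le_nhds (s := {p | US p.1}))
  rw [hq0] at t1 t2
  simp only [sub_self, norm_zero, add_zero, one_mul, div_one, sub_zero] at t1 t2
  refine tendsto_of_tendsto_of_tendsto_of_le_of_le' t2 t1 ?_ ?_
  · filter_upwards [self_mem_nhdsWithin] with p hp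
    have hp' : US p.1 := hp
    have hδ : ∀ j, ‖p₀.1 j - p.1 j‖ ≤ ‖p.1 - p₀.1‖ := by
      intro j
      rw [norm_sub_rev]
      exact norm_le_pi_norm (p.1 - p₀.1) j
    have b1 := h1 n m t ‖p.1 - p₀.1‖ p₀.1 p.1 (p₀.2 v) hn ht (norm_nonneg _) hp₀ hp' hδ
    have b2 : H / q p ≤ hs (MW t p.1) (p₀.2 v) := by
      rw [div_le_iff₀ (hqpos p)]
      calc H ≤ q p * hs (MW t p.1) (p₀.2 v) := b1
        _ = hs (MW t p.1) (p₀.2 v) * q p := mul_comm _ _
    have b3 := hlip h2 h3 hn ht hp' (p₀.2 v) (p.2 v)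
    rw [norm_sub_rev] at b3
    linarith
  · filter_upwards [self_mem_nhdsWithin] with p hp
    have hp' : US p.1 := hp
    have hδ : ∀ j, ‖p.1 j - p₀.1 j‖ ≤ ‖p.1 - p₀.1‖ := fun j => norm_le_pi_norm (p.1 - p₀.1) j
    have b1 := h1 n m t ‖p.1 - p₀.1‖ p.1 p₀.1 (p₀.2 v) hn ht (norm_nonneg _) hp' hp₀ hδ
    have b2 : hs (MW t p.1) (p₀.2 v) ≤ q p * H := b1
    have b3 := hlip h2 h3 hn ht hp' (p.2 v) (p₀.2 v)
    linarith

end

end PSC_

open PSC_ in
theorem psc_proof (h1 : Stmt_MWC) (h2 : Stmt_MWB) (h3 : Stmt_HSB) : Stmt_PSC := by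
  intro n m μ hμ t β b hn ht hβ hb
  intro p₀ hp₀
  have hp₀' : US p₀.1 := hp₀
  unfold Psi
  apply continuousWithinAt_of_dominated (bound := fun v => (1 + β) * ((‖p₀.2‖ + 1) * ‖v‖))
  · filter_upwards [self_mem_nhdsWithin] with p hp
    have hp' : US p.1 := hp
    obtain ⟨hB, -, -, -⟩ := h2 n m t p.1 hn ht hp'
    obtain ⟨-, -, -, -, -, a6, -, -, -⟩ := h3 n (MW t p.1) hB
    have c1 : Continuous (fun v : EE n => hs (MW t p.1) (p.2 v) + β * ‖p.2 v‖) :=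
      (a6.comp p.2.continuous).add (continuous_const.mul p.2.continuous.norm)
    exact c1.aestronglyMeasurable
  · have hnear : ∀ᶠ p : (Fin m → EE n) × (EE n →L[ℝ] EE n) in 𝓝[{p | US p.1}] p₀,
        ‖p.2‖ < ‖p₀.2‖ + 1 := by
      have hc : Continuous (fun p : (Fin m → EE n) × (EE n →L[ℝ] EE n) => ‖p.2‖) := by fun_prop
      have := (hc.tendsto p₀).eventually (gt_mem_nhds (show ‖p₀.2‖ < ‖p₀.2‖ + 1 by linarith))
      exact this.filter_mono nhdsWithin_le_nhds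
    filter_upwards [self_mem_nhdsWithin, hnear] with p hp hpn
    have hp' : US p.1 := hp
    refine Eventually.of_forall fun v => ?_
    obtain ⟨hB, -, -, -⟩ := h2 n m t p.1 hn ht hp'
    obtain ⟨-, -, -, -, a5, -, -, -, -⟩ := h3 n (MW t p.1) hB
    have b1 := hle h2 h3 hn ht hp' (p.2 v)
    have b2 := a5 (p.2 v)
    have b3 : ‖p.2 v‖ ≤ (‖p₀.2‖ + 1) * ‖v‖ :=
      (p.2.le_opNorm v).trans (mul_le_mul_of_nonneg_right hpn.le (norm_nonneg v))
    rw [Real.norm_eq_abs, abs_of_nonneg (add_nonneg b2 (mul_nonneg hβ (norm_nonneg _)))]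
    nlinarith [norm_nonneg (p.2 v), mul_le_mul_of_nonneg_left b3 hβ]
  · apply Integrable.of_bound (C := (1 + β) * ((‖p₀.2‖ + 1) * b))
    · have : Continuous (fun v : EE n => (1 + β) * ((‖p₀.2‖ + 1) * ‖v‖)) := by fun_prop
      exact this.aestronglyMeasurable
    · filter_upwards [hb] with v hv
      rw [Real.norm_eq_abs, abs_of_nonneg (by positivity)]
      apply mul_le_mul_of_nonneg_left _ (by positivity)
      exact mul_le_mul_of_nonneg_left hv (by positivity)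
  · refine Eventually.of_forall fun v => ?_
    have t1 := ptw h1 h2 h3 hn ht p₀ hp₀' v
    have hc : Continuous (fun p : (Fin m → EE n) × (EE n →L[ℝ] EE n) => β * ‖p.2 v‖) := by
      fun_prop
    have t2 := (hc.tendsto p₀).mono_left (nhdsWithin_le_nhds (s := {p | US p.1}))
    exact t1.add t2

end PET
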