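import Pool.Agent.PET.Stmts

set_option autoImplicit false

/-! MP_0bf616_gt, module PSL: lower bounds for the functional -/

namespace PET

open MeasureTheory Set Filter Topology
open scoped ENNReal Pointwise
open SBA (EE Body vl kap)

theorem psl_proof (h1 : Stmt_ADT) (h2 : Stmt_MWB) (h3 : Stmt_HSB) (h4 : Stmt_HSL)
    (h5 : Stmt_TRM) : Stmt_PSL := by
  intro n m μ _ t β w A hn ht hβ hμ hw hA
  have hn1 : 1 ≤ n := by omega
  have hn0 : (0 : ℝ) < n := by exact_mod_cast hn1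
  obtain ⟨a, b, ha, hab⟩ := hμ.bd
  have hb : ∀ᵐ v ∂μ, ‖v‖ ≤ b := hab.mono fun v hv => hv.2
  obtain ⟨i1, i2, -⟩ := h5 n m μ t β b w A hn1 ht hw hb
  have hν := (h1 n μ A hn hμ hA).1
  obtain ⟨hB, -, hsub, -⟩ := h2 n m t w hn1 ht hw
  obtain ⟨-, hball, hballh, hkap, -, -⟩ := h4 n hn1
  have hc := (h3 n _ hB).2.2.2.2.2.1
  have hnn := (h3 n _ hB).2.2.2.2.1
  have hm1 := hν.mink _ hB
  have hm2 := hν.mink _ hball
  rw [integral_map A.measurable.aemeasurable hc.aestronglyMeasurable] at hm1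
  have hc2 := (h3 n _ hball).2.2.2.2.2.1
  rw [integral_map A.measurable.aemeasurable hc2.aestronglyMeasurable] at hm2
  simp only [hballh] at hm2
  have hvle : vl (MW t w) ≤ kap n := by
    unfold kap vl
    exact ENNReal.toReal_mono (isCompact_closedBall (0 : EE n) 1).measure_lt_top.ne
      (measure_mono hsub)
  have hv0 : 0 ≤ vl (MW t w) := ENNReal.toReal_nonneg
  have hpow : vl (MW t w) ^ (1 / (n : ℝ)) ≤ kap n ^ (1 / (n : ℝ)) :=
    Real.rpow_le_rpow hv0 hvle (by positivity)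
  have hpsi : Psi μ t β w A = ∫ v, hs (MW t w) (A v) ∂μ + β * ∫ v, ‖A v‖ ∂μ := by
    unfold Psi
    rw [integral_add i1 (i2.const_mul β), integral_const_mul]
  have hm2' : n * kap n ^ (1 / (n : ℝ)) ≤ ∫ v, ‖A v‖ ∂μ := hm2
  have e1 : β * (n * kap n ^ (1 / (n : ℝ))) ≤ β * ∫ v, ‖A v‖ ∂μ :=
    mul_le_mul_of_nonneg_left hm2' hβ.le
  have e2 : β * (n * vl (MW t w) ^ (1 / (n : ℝ))) ≤ β * (n * kap n ^ (1 / (n : ℝ))) :=
    mul_le_mul_of_nonneg_left (mul_le_mul_of_nonneg_left hpow hn0.le) hβ.le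
  have e3 : 0 ≤ ∫ v, hs (MW t w) (A v) ∂μ := integral_nonneg fun v => hnn (A v)
  rw [hpsi]
  constructor
  · have e4 : (1 + β) * n * vl (MW t w) ^ (1 / (n : ℝ)) =
        n * vl (MW t w) ^ (1 / (n : ℝ)) + β * (n * vl (MW t w) ^ (1 / (n : ℝ))) := by ring
    linarith
  · have e4 : β * n * kap n ^ (1 / (n : ℝ)) = β * (n * kap n ^ (1 / (n : ℝ))) := by ring
    linarith

end PET
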