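import Pool.Agent.PET.Stmts

set_option autoImplicit false

/-! MP_0bf616_gt, module PSM: the functional has a minimiser -/

namespace PET

open MeasureTheory Set Filter Topology
open scoped ENNReal Pointwise
open SBA (EE Body vl kap)

namespace PSM_

theorem US_iff {n m : ℕ} (w : Fin m → EE n) :
    US w ↔ w ∈ Set.univ.pi (fun _ : Fin m => Metric.sphere (0 : EE n) 1) := by
  simp [US, Set.mem_pi]

end PSM_

open PSM_ in
theorem psm_proof (h1 : Stmt_PSC) (h2 : Stmt_LOW) (h3 : SBA.Stmt_SNG) (h4 : Stmt_MWB)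
    (h5 : Stmt_HSB) (h6 : Stmt_TRM) : Stmt_PSM := by
  intro n m μ _ t β hn ht hβ hμ
  obtain ⟨a, b, ha, hab⟩ := hμ.bd
  have hb : ∀ᵐ v ∂μ, ‖v‖ ≤ b := hab.mono fun v hv => hv.2
  obtain ⟨c, hc, hlow⟩ := h2 n μ hn hμ
  have hn1 : 1 ≤ n := by omega
  -- a unit vector
  obtain ⟨e, he⟩ : ∃ e : EE n, ‖e‖ = 1 :=
    ⟨EuclideanSpace.single ⟨0, by omega⟩ 1, by simp⟩
  have hw1 : US (fun _ : Fin m => e) := fun _ => he
  -- lower bound
  have hge : ∀ (w : Fin m → EE n) (A : EE n →L[ℝ] EE n), US w →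
      β * c * ‖A‖ ≤ Psi μ t β w A := by
    intro w A hw
    obtain ⟨u, hu1, hu⟩ := h3 n A hn1
    obtain ⟨i1, i2, -⟩ := h6 n m μ t β b w A hn1 ht hw hb
    have hB := (h4 n m t w hn1 ht hw).1
    have hnn := (h5 n _ hB).2.2.2.2.1
    have e1 : β * ∫ v, ‖A v‖ ∂μ ≤ Psi μ t β w A := by
      rw [← integral_const_mul]
      unfold Psi
      refine integral_mono (i2.const_mul β) (i1.add (i2.const_mul β)) fun v => ?_
      have := hnn (A v)
      simp only
      linarith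
    have e2 : ‖A‖ * ∫ v, |inner ℝ u v| ∂μ ≤ ∫ v, ‖A v‖ ∂μ := by
      rw [← integral_const_mul]
      by_cases hi : Integrable (fun v => ‖A‖ * |inner ℝ u v|) μ
      · exact integral_mono hi i2 fun v => hu v
      · rw [integral_undef hi]
        exact integral_nonneg fun v => norm_nonneg _
    have e3 := hlow u
    rw [hu1, mul_one] at e3
    have e4 : ‖A‖ * c ≤ ‖A‖ * ∫ v, |inner ℝ u v| ∂μ :=
      mul_le_mul_of_nonneg_left e3 (norm_nonneg _)
    have e5 : β * (‖A‖ * c) ≤ β * ∫ v, ‖A v‖ ∂μ :=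
      mul_le_mul_of_nonneg_left (e4.trans e2) hβ.le
    calc β * c * ‖A‖ = β * (‖A‖ * c) := by ring
      _ ≤ _ := e5.trans e1
  obtain ⟨q, hq⟩ : ∃ q, q = Psi μ t β (fun _ : Fin m => e) (ContinuousLinearMap.id ℝ (EE n)) :=
    ⟨_, rfl⟩
  obtain ⟨R, hR⟩ : ∃ R, R = q / (β * c) := ⟨_, rfl⟩
  have hbig : ∀ (w : Fin m → EE n) (A : EE n →L[ℝ] EE n), US w → R < ‖A‖ →
      q ≤ Psi μ t β w A := by
    intro w A hw hA
    refine le_trans ?_ (hge w A hw)
    rw [hR, div_lt_iff₀ (by positivity)] at hA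
    linarith
  have : ProperSpace (EE n →L[ℝ] EE n) := FiniteDimensional.proper ℝ _
  have hcomp2 : IsCompact ({A : EE n →L[ℝ] EE n | A.det = 1} ∩
      Metric.closedBall 0 (max R ‖ContinuousLinearMap.id ℝ (EE n)‖)) :=
    (isCompact_closedBall _ _).inter_left
      (isClosed_eq ContinuousLinearMap.continuous_det continuous_const)
  have hcomp1 : IsCompact (Set.univ.pi (fun _ : Fin m => Metric.sphere (0 : EE n) 1)) :=
    isCompact_univ_pi fun _ => isCompact_sphere _ _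
  obtain ⟨S, hS⟩ : ∃ S : Set ((Fin m → EE n) × (EE n →L[ℝ] EE n)),
      S = (Set.univ.pi (fun _ : Fin m => Metric.sphere (0 : EE n) 1)) ×ˢ
      ({A : EE n →L[ℝ] EE n | A.det = 1} ∩
      Metric.closedBall 0 (max R ‖ContinuousLinearMap.id ℝ (EE n)‖)) := ⟨_, rfl⟩
  have hcomp : IsCompact S := by rw [hS]; exact hcomp1.prod hcomp2
  have hSm : ∀ (w : Fin m → EE n) (A : EE n →L[ℝ] EE n), US w → A.det = 1 →
      ‖A‖ ≤ max R ‖ContinuousLinearMap.id ℝ (EE n)‖ → (w, A) ∈ S := by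
    intro w A hw hA hA2
    rw [hS]
    exact ⟨(US_iff _).1 hw, hA, by rw [mem_closedBall_zero_iff]; exact hA2⟩
  have hSm' : ∀ p ∈ S, US p.1 ∧ p.2.det = 1 := by
    intro p hp
    rw [hS] at hp
    exact ⟨(US_iff _).2 hp.1, hp.2.1⟩
  have hdet : (ContinuousLinearMap.id ℝ (EE n)).det = 1 := by
    unfold ContinuousLinearMap.det
    rw [ContinuousLinearMap.coe_id]
    exact LinearMap.det_id
  have hid := hSm _ _ hw1 hdet (le_max_right _ _)
  have hcont : ContinuousOn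
      (fun p : (Fin m → EE n) × (EE n →L[ℝ] EE n) => Psi μ t β p.1 p.2) S :=
    (h1 n m μ t β b hn1 ht hβ.le hb).mono fun p hp => (hSm' p hp).1
  obtain ⟨p, hp, hmin⟩ := hcomp.exists_isMinOn ⟨_, hid⟩ hcont
  rw [isMinOn_iff] at hmin
  refine ⟨p.1, p.2, (hSm' p hp).1, (hSm' p hp).2, fun w' B hw' hB => ?_⟩
  by_cases h : ‖B‖ ≤ R
  · exact hmin (w', B) (hSm w' B hw' hB (h.trans (le_max_left _ _)))
  · push Not at h
    have e1 := hbig w' B hw' h
    rw [hq] at e1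
    exact (hmin _ hid).trans e1

end PET
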