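import Pool.Agent.PET.Stmts

set_option autoImplicit false

/-! MP_0bf616_gt, module PTW: pointwise bound -/

namespace PET

open MeasureTheory Set Filter Topology
open scoped ENNReal Pointwise
open SBA (EE Body vl kap)

namespace PTW_

theorem unit_hat {n : ℕ} {v : EE n} (hv : v ≠ 0) : ‖(‖v‖⁻¹ • v)‖ = 1 := by
  rw [norm_smul, norm_inv, norm_norm]
  exact inv_mul_cancel₀ (norm_ne_zero_iff.2 hv)

theorem norm_b {n : ℕ} {x v : EE n} {β : ℝ} (hβ : 0 < β) (hx : ‖x‖ ≤ 1) (hv : v ≠ 0) :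
    ‖(1 + β)⁻¹ • (x + (β / ‖v‖) • v)‖ ≤ 1 := by
  have h1 : (0 : ℝ) < 1 + β := by linarith
  have h2 : (β / ‖v‖) • v = β • (‖v‖⁻¹ • v) := by rw [smul_smul, div_eq_mul_inv]
  rw [norm_smul, norm_inv, Real.norm_eq_abs, abs_of_pos h1, h2]
  have h3 : ‖x + β • (‖v‖⁻¹ • v)‖ ≤ 1 + β := by
    refine (norm_add_le _ _).trans ?_
    rw [norm_smul, unit_hat hv, Real.norm_eq_abs, abs_of_pos hβ, mul_one]
    linarith
  calc (1 + β)⁻¹ * ‖x + β • (‖v‖⁻¹ • v)‖ ≤ (1 + β)⁻¹ * (1 + β) :=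
        mul_le_mul_of_nonneg_left h3 (inv_pos.2 h1).le
    _ = 1 := inv_mul_cancel₀ h1.ne'

theorem cube_add {a b : ℝ} (ha : 0 ≤ a) (hb : 0 ≤ b) : (a + b) ^ 3 ≤ 4 * (a ^ 3 + b ^ 3) := by
  nlinarith [mul_nonneg (add_nonneg ha hb) (sq_nonneg (a - b))]

theorem core {n : ℕ} {x x' u u' : EE n} {β ε : ℝ} (hβ : 0 < β) (hβ1 : β ≤ 1)
    (h1 : |(inner ℝ x x' : ℝ)| ≤ ε) (h2 : |(inner ℝ x u' : ℝ)| ≤ ε)
    (h3 : |(inner ℝ u x' : ℝ)| ≤ ε) :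
    |(inner ℝ ((1 + β)⁻¹ • (x + β • u)) ((1 + β)⁻¹ • (x' + β • u')) : ℝ)| ≤
      3 * ε + β ^ 2 * |(inner ℝ u u' : ℝ)| := by
  have hb : (0 : ℝ) < 1 + β := by linarith
  have hinv : (1 + β)⁻¹ ≤ 1 := inv_le_one_of_one_le₀ (by linarith)
  have hinv0 : 0 < (1 + β)⁻¹ := inv_pos.2 hb
  have e1 : (inner ℝ ((1 + β)⁻¹ • (x + β • u)) ((1 + β)⁻¹ • (x' + β • u')) : ℝ) =
      (1 + β)⁻¹ * (1 + β)⁻¹ * (inner ℝ x x' + β * inner ℝ x u' + β * inner ℝ u x' +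
        β ^ 2 * inner ℝ u u') := by
    rw [real_inner_smul_left, real_inner_smul_right, inner_add_left, inner_add_right,
      inner_add_right, real_inner_smul_left, real_inner_smul_left, real_inner_smul_right,
      real_inner_smul_right]
    ring
  rw [e1, abs_mul, abs_of_pos (by positivity : 0 < (1 + β)⁻¹ * (1 + β)⁻¹)]
  have hε : 0 ≤ ε := (abs_nonneg _).trans h1
  have e2 : |(inner ℝ x x' + β * inner ℝ x u' + β * inner ℝ u x' + β ^ 2 * inner ℝ u u' : ℝ)| ≤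
      3 * ε + β ^ 2 * |(inner ℝ u u' : ℝ)| := by
    have a1 : |β * (inner ℝ x u' : ℝ)| ≤ ε := by
      rw [abs_mul, abs_of_pos hβ]
      calc β * |(inner ℝ x u' : ℝ)| ≤ 1 * ε :=
            mul_le_mul hβ1 h2 (abs_nonneg _) (by norm_num)
        _ = ε := one_mul _
    have a2 : |β * (inner ℝ u x' : ℝ)| ≤ ε := by
      rw [abs_mul, abs_of_pos hβ]
      calc β * |(inner ℝ u x' : ℝ)| ≤ 1 * ε :=
            mul_le_mul hβ1 h3 (abs_nonneg _) (by norm_num)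
        _ = ε := one_mul _
    have a3 : |β ^ 2 * (inner ℝ u u' : ℝ)| = β ^ 2 * |(inner ℝ u u' : ℝ)| := by
      rw [abs_mul, abs_of_pos (by positivity : 0 < β ^ 2)]
    have b1 := abs_add_le (inner ℝ x x' + β * inner ℝ x u' + β * inner ℝ u x' : ℝ)
      (β ^ 2 * inner ℝ u u')
    have b2 := abs_add_le (inner ℝ x x' + β * inner ℝ x u' : ℝ) (β * inner ℝ u x')
    have b3 := abs_add_le (inner ℝ x x' : ℝ) (β * inner ℝ x u')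
    linarith
  have e3 : (1 + β)⁻¹ * (1 + β)⁻¹ ≤ 1 := by
    calc (1 + β)⁻¹ * (1 + β)⁻¹ ≤ 1 * 1 := mul_le_mul hinv hinv hinv0.le (by norm_num)
      _ = 1 := one_mul _
  calc _ ≤ 1 * |(inner ℝ x x' + β * inner ℝ x u' + β * inner ℝ u x' +
        β ^ 2 * inner ℝ u u' : ℝ)| := mul_le_mul_of_nonneg_right e3 (abs_nonneg _)
    _ ≤ _ := by rw [one_mul]; exact e2

end PTW_

open PTW_ in
theorem ptw_proof : Stmt_PTW := by
  intro n x x' v v' β ε hβ hβ1 hε hx hx' hv hv'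
  have hnv : 0 < ‖v‖ := norm_pos_iff.2 hv
  have hnv' : 0 < ‖v'‖ := norm_pos_iff.2 hv'
  have hN : 0 < ‖v‖ * ‖v'‖ := mul_pos hnv hnv'
  have hcs : |(inner ℝ v v' : ℝ)| ≤ ‖v‖ * ‖v'‖ := abs_real_inner_le_norm v v'
  have hbv := norm_b hβ hx hv
  have hbv' := norm_b hβ hx' hv'
  have hbb : |(inner ℝ ((1 + β)⁻¹ • (x + (β / ‖v‖) • v))
      ((1 + β)⁻¹ • (x' + (β / ‖v'‖) • v')) : ℝ)| ≤ 1 := by
    refine (abs_real_inner_le_norm _ _).trans ?_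
    calc _ ≤ (1 : ℝ) * 1 := mul_le_mul hbv hbv' (norm_nonneg _) (by norm_num)
      _ = 1 := one_mul _
  have hlhs : |(inner ℝ ((1 + β)⁻¹ • (x + (β / ‖v‖) • v))
      ((1 + β)⁻¹ • (x' + (β / ‖v'‖) • v')) : ℝ)| ^ 3 * |(inner ℝ v v' : ℝ)| ≤ ‖v‖ * ‖v'‖ := by
    have h1 := pow_le_one₀ (n := 3) (abs_nonneg _) hbb
    calc _ ≤ 1 * |(inner ℝ v v' : ℝ)| := mul_le_mul_of_nonneg_right h1 (abs_nonneg _)
      _ ≤ _ := by rw [one_mul]; exact hcs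
  have hp1 : 0 ≤ 108 * ε ^ 3 * |(inner ℝ v v' : ℝ)| := by positivity
  have hp2 : 0 ≤ 4 * β ^ 6 * ((inner ℝ v v' : ℝ) ^ 2 / (‖v‖ * ‖v'‖)) := by positivity
  by_cases c1 : ε ≤ |(inner ℝ x (‖x'‖⁻¹ • x') : ℝ)|
  · rw [if_pos c1]
    have hp3 : 0 ≤ ((if ε ≤ |(inner ℝ x (‖v'‖⁻¹ • v') : ℝ)| then (1 : ℝ) else 0) +
        (if ε ≤ |(inner ℝ x' (‖v‖⁻¹ • v) : ℝ)| then 1 else 0)) * (‖v‖ * ‖v'‖) := by
      apply mul_nonneg _ hN.le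
      split_ifs <;> norm_num
    nlinarith
  by_cases c2 : ε ≤ |(inner ℝ x (‖v'‖⁻¹ • v') : ℝ)|
  · rw [if_pos c2]
    have hp3 : 0 ≤ ((if ε ≤ |(inner ℝ x (‖x'‖⁻¹ • x') : ℝ)| then (1 : ℝ) else 0) +
        (if ε ≤ |(inner ℝ x' (‖v‖⁻¹ • v) : ℝ)| then 1 else 0)) * (‖v‖ * ‖v'‖) := by
      apply mul_nonneg _ hN.le
      split_ifs <;> norm_num
    nlinarith
  by_cases c3 : ε ≤ |(inner ℝ x' (‖v‖⁻¹ • v) : ℝ)|
  · rw [if_pos c3]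
    have hp3 : 0 ≤ ((if ε ≤ |(inner ℝ x (‖x'‖⁻¹ • x') : ℝ)| then (1 : ℝ) else 0) +
        (if ε ≤ |(inner ℝ x (‖v'‖⁻¹ • v') : ℝ)| then 1 else 0)) * (‖v‖ * ‖v'‖) := by
      apply mul_nonneg _ hN.le
      split_ifs <;> norm_num
    nlinarith
  rw [if_neg c1, if_neg c2, if_neg c3]
  push Not at c1 c2 c3
  have h1 : |(inner ℝ x x' : ℝ)| ≤ ε := by
    by_cases hx0 : x' = 0
    · rw [hx0, inner_zero_right, abs_zero]; exact hε.le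
    · have hnx : 0 < ‖x'‖ := norm_pos_iff.2 hx0
      have e : (inner ℝ x x' : ℝ) = ‖x'‖ * inner ℝ x (‖x'‖⁻¹ • x') := by
        rw [real_inner_smul_right, ← mul_assoc, mul_inv_cancel₀ hnx.ne', one_mul]
      rw [e, abs_mul, abs_of_pos hnx]
      calc ‖x'‖ * |(inner ℝ x (‖x'‖⁻¹ • x') : ℝ)| ≤ 1 * ε :=
            mul_le_mul hx' c1.le (abs_nonneg _) (by norm_num)
        _ = ε := one_mul _
  have h3 : |(inner ℝ (‖v‖⁻¹ • v) x' : ℝ)| ≤ ε := by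
    rw [real_inner_comm]; exact c3.le
  have hcore := core hβ hβ1 h1 c2.le h3
  have r1 : (β / ‖v‖) • v = β • (‖v‖⁻¹ • v) := by rw [smul_smul, div_eq_mul_inv]
  have r2 : (β / ‖v'‖) • v' = β • (‖v'‖⁻¹ • v') := by rw [smul_smul, div_eq_mul_inv]
  rw [r1, r2]
  have e1 : |(inner ℝ (‖v‖⁻¹ • v) (‖v'‖⁻¹ • v') : ℝ)| =
      |(inner ℝ v v' : ℝ)| / (‖v‖ * ‖v'‖) := by
    rw [real_inner_smul_left, real_inner_smul_right, abs_mul, abs_mul, abs_inv, abs_inv,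
      abs_norm, abs_norm]
    field_simp
  rw [e1] at hcore
  obtain ⟨q, hq⟩ : ∃ q, q = |(inner ℝ v v' : ℝ)| / (‖v‖ * ‖v'‖) := ⟨_, rfl⟩
  have hq0 : 0 ≤ q := by rw [hq]; positivity
  have hq1 : q ≤ 1 := by rw [hq, div_le_one hN]; exact hcs
  rw [← hq] at hcore
  have e2 : (inner ℝ v v' : ℝ) ^ 2 / (‖v‖ * ‖v'‖) = q * |(inner ℝ v v' : ℝ)| := by
    rw [hq, ← sq_abs]
    ring
  rw [e2]
  have e3 : |(inner ℝ ((1 + β)⁻¹ • (x + β • (‖v‖⁻¹ • v)))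
      ((1 + β)⁻¹ • (x' + β • (‖v'‖⁻¹ • v'))) : ℝ)| ^ 3 ≤ 108 * ε ^ 3 + 4 * β ^ 6 * q := by
    calc _ ≤ (3 * ε + β ^ 2 * q) ^ 3 := pow_le_pow_left₀ (abs_nonneg _) hcore 3
      _ ≤ 4 * ((3 * ε) ^ 3 + (β ^ 2 * q) ^ 3) := cube_add (by positivity) (by positivity)
      _ = 108 * ε ^ 3 + 4 * β ^ 6 * q ^ 3 := by ring
      _ ≤ 108 * ε ^ 3 + 4 * β ^ 6 * q := by
        have : q ^ 3 ≤ q := by
          have h2 : q ^ 2 ≤ 1 := pow_le_one₀ hq0 hq1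
          calc q ^ 3 = q ^ 2 * q := by ring
            _ ≤ 1 * q := mul_le_mul_of_nonneg_right h2 hq0
            _ = q := one_mul _
        have := mul_le_mul_of_nonneg_left this (by positivity : 0 ≤ 4 * β ^ 6)
        linarith
  calc _ ≤ (108 * ε ^ 3 + 4 * β ^ 6 * q) * |(inner ℝ v v' : ℝ)| :=
        mul_le_mul_of_nonneg_right e3 (abs_nonneg _)
    _ = _ := by ring

end PET
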