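import Pool.Agent.PET.Stmts

/-!
# PET, module RBD: bound for the remainder integral
-/

namespace PET

open MeasureTheory Set
open scoped ENNReal Pointwise
open SBA (EE Body vl kap)

namespace RBD_

variable {n : ℕ}

lemma int_of_bd (μ : Measure (EE n)) [IsFiniteMeasure μ] {a b C : ℝ}
    (hab : ∀ᵐ v ∂μ, a ≤ ‖v‖ ∧ ‖v‖ ≤ b) (f : EE n × EE n → ℝ) (hf : Measurable f)
    (hC : ∀ p : EE n × EE n, a ≤ ‖p.1‖ → ‖p.1‖ ≤ b → a ≤ ‖p.2‖ → ‖p.2‖ ≤ b → |f p| ≤ C) :
    Integrable f (μ.prod μ) := by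
  have e1 : ∀ᵐ p ∂(μ.prod μ), a ≤ ‖p.1‖ ∧ ‖p.1‖ ≤ b :=
    Measure.quasiMeasurePreserving_fst.ae hab
  have e2 : ∀ᵐ p ∂(μ.prod μ), a ≤ ‖p.2‖ ∧ ‖p.2‖ ≤ b :=
    Measure.quasiMeasurePreserving_snd.ae hab
  refine Integrable.of_bound hf.aestronglyMeasurable C ?_
  filter_upwards [e1, e2] with p h1 h2
  rw [Real.norm_eq_abs]
  exact hC p h1.1 h1.2 h2.1 h2.2

lemma ind_le (P : Prop) [Decidable P] : |(if P then (1 : ℝ) else 0)| ≤ 1 := by
  split_ifs <;> simp

end RBD_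

open RBD_ in
theorem rbd_proof (h1 : Stmt_VHS) (h2 : Stmt_PTW) (h3 : Stmt_BAD) (h4 : Stmt_BBM) :
    Stmt_RBD := by
  intro n μ _ x β ε θ lam hn hβ hβ1 hlam hε hθ hGP
  obtain ⟨a, b, ha, hab⟩ := hGP.bd
  obtain ⟨v1, v2, v3⟩ := h1 n μ x β ε θ lam hn hβ hlam hGP
  have hxm : Measurable x := hGP.meas
  obtain ⟨hbm, hbn⟩ := h4 n β x hβ hxm hGP.nrm
  -- the functions
  set z1 : EE n → EE n := fun v => ‖x v‖⁻¹ • x v with hz1
  set z2 : EE n → EE n := fun v => ‖v‖⁻¹ • v with hz2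
  have hz1m : Measurable z1 := (hxm.norm.inv).smul hxm
  have hz2m : Measurable z2 := (measurable_norm.inv).smul measurable_id
  have unit : ∀ w : EE n, ‖‖w‖⁻¹ • w‖ = 1 ∨ ‖w‖⁻¹ • w = 0 := by
    intro w
    by_cases hw : w = 0
    · right; simp [hw]
    · left
      rw [norm_smul, norm_inv, norm_norm]
      exact inv_mul_cancel₀ (norm_ne_zero_iff.mpr hw)
  have b1 := h3 n μ x z1 β ε θ lam hn hβ hlam hε hθ hGP hz1m (fun v => unit _)
  have b2 := h3 n μ x z2 β ε θ lam hn hβ hlam hε hθ hGP hz2m (fun v => unit _)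
  -- abbreviations for functions on the product
  let F1 : EE n × EE n → ℝ := fun p => |inner ℝ p.1 p.2|
  let F2 : EE n × EE n → ℝ := fun p => (inner ℝ p.1 p.2) ^ 2 / (‖p.1‖ * ‖p.2‖)
  let F3 : EE n × EE n → ℝ := fun p =>
    (if ε ≤ |inner ℝ (x p.1) (z1 p.2)| then (1 : ℝ) else 0) * (‖p.1‖ * ‖p.2‖)
  let F4 : EE n × EE n → ℝ := fun p =>
    (if ε ≤ |inner ℝ (x p.1) (z2 p.2)| then (1 : ℝ) else 0) * (‖p.1‖ * ‖p.2‖)
  let F5 : EE n × EE n → ℝ := fun p =>
    (if ε ≤ |inner ℝ (x p.2) (z2 p.1)| then (1 : ℝ) else 0) * (‖p.1‖ * ‖p.2‖)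
  let G : EE n × EE n → ℝ := fun p =>
    |inner ℝ (bb β x p.1) (bb β x p.2)| ^ 3 * |inner ℝ p.1 p.2|
  have m1 : Measurable F1 := by
    have : Measurable fun p : EE n × EE n => inner ℝ p.1 p.2 := measurable_fst.inner measurable_snd
    exact this.abs
  have mi : Measurable fun p : EE n × EE n => inner ℝ p.1 p.2 := measurable_fst.inner measurable_snd
  have m2 : Measurable F2 := by
    exact (mi.pow_const 2).div (measurable_fst.norm.mul measurable_snd.norm)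
  have mnn : Measurable fun p : EE n × EE n => ‖p.1‖ * ‖p.2‖ :=
    measurable_fst.norm.mul measurable_snd.norm
  have m3 : Measurable F3 := by
    refine Measurable.mul (Measurable.ite ?_ measurable_const measurable_const) mnn
    exact measurableSet_le measurable_const
      (((hxm.comp measurable_fst).inner (hz1m.comp measurable_snd)).abs)
  have m4 : Measurable F4 := by
    refine Measurable.mul (Measurable.ite ?_ measurable_const measurable_const) mnn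
    exact measurableSet_le measurable_const
      (((hxm.comp measurable_fst).inner (hz2m.comp measurable_snd)).abs)
  have m5 : Measurable F5 := by
    refine Measurable.mul (Measurable.ite ?_ measurable_const measurable_const) mnn
    exact measurableSet_le measurable_const
      (((hxm.comp measurable_snd).inner (hz2m.comp measurable_fst)).abs)
  have mG : Measurable G := by
    refine Measurable.mul ((Measurable.abs ?_).pow_const 3) mi.abs
    exact (hbm.comp measurable_fst).inner (hbm.comp measurable_snd)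
  have i1 : Integrable F1 (μ.prod μ) := by
    refine int_of_bd μ (C := b * b) hab F1 m1 ?_
    intro p a1 a2 a3 a4
    simp only [F1, abs_abs]
    have hb0 : 0 ≤ b := le_trans (norm_nonneg _) a2
    exact (abs_real_inner_le_norm _ _).trans (mul_le_mul a2 a4 (norm_nonneg _) hb0)
  have key2 : ∀ u v : EE n, (inner ℝ u v) ^ 2 / (‖u‖ * ‖v‖) ≤ ‖u‖ * ‖v‖ := by
    intro u v
    have h := abs_real_inner_le_norm u v
    have h' : (inner ℝ u v) ^ 2 ≤ (‖u‖ * ‖v‖) ^ 2 := by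
      rw [← sq_abs (inner ℝ u v)]
      exact pow_le_pow_left₀ (abs_nonneg _) h 2
    rcases eq_or_lt_of_le (mul_nonneg (norm_nonneg u) (norm_nonneg v)) with h0 | h0
    · rw [← h0]; simp
    · rw [div_le_iff₀ h0]
      calc (inner ℝ u v) ^ 2 ≤ (‖u‖ * ‖v‖) ^ 2 := h'
        _ = _ := by ring
  have i2 : Integrable F2 (μ.prod μ) := by
    refine int_of_bd μ (C := b * b) hab F2 m2 ?_
    intro p a1 a2 a3 a4
    have hb0 : 0 ≤ b := le_trans (norm_nonneg _) a2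
    have h0 : 0 ≤ F2 p := by
      simp only [F2]
      positivity
    rw [abs_of_nonneg h0]
    exact (key2 _ _).trans (mul_le_mul a2 a4 (norm_nonneg _) hb0)
  have bdI : ∀ (P : Prop) [Decidable P] (u v : EE n), ‖u‖ ≤ b → ‖v‖ ≤ b →
      |(if P then (1 : ℝ) else 0) * (‖u‖ * ‖v‖)| ≤ b * b := by
    intro P _ u v hu hv
    have hb0 : 0 ≤ b := le_trans (norm_nonneg _) hu
    rw [abs_mul, abs_of_nonneg (mul_nonneg (norm_nonneg u) (norm_nonneg v))]
    calc |(if P then (1 : ℝ) else 0)| * (‖u‖ * ‖v‖) ≤ 1 * (‖u‖ * ‖v‖) :=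
          mul_le_mul_of_nonneg_right (ind_le P) (by positivity)
      _ = ‖u‖ * ‖v‖ := one_mul _
      _ ≤ b * b := mul_le_mul hu hv (norm_nonneg _) hb0
  have i3 : Integrable F3 (μ.prod μ) :=
    int_of_bd μ (C := b * b) hab F3 m3 (fun p _ a2 _ a4 => bdI _ _ _ a2 a4)
  have i4 : Integrable F4 (μ.prod μ) :=
    int_of_bd μ (C := b * b) hab F4 m4 (fun p _ a2 _ a4 => bdI _ _ _ a2 a4)
  have i5 : Integrable F5 (μ.prod μ) :=
    int_of_bd μ (C := b * b) hab F5 m5 (fun p _ a2 _ a4 => bdI _ _ _ a2 a4)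
  have iG : Integrable G (μ.prod μ) := by
    refine int_of_bd μ (C := b * b) hab G mG ?_
    intro p a1 a2 a3 a4
    have hb0 : 0 ≤ b := le_trans (norm_nonneg _) a2
    have h0 : 0 ≤ G p := by
      simp only [G]
      positivity
    rw [abs_of_nonneg h0]
    have e1 : |inner ℝ (bb β x p.1) (bb β x p.2)| ≤ 1 := by
      calc |inner ℝ (bb β x p.1) (bb β x p.2)| ≤ ‖bb β x p.1‖ * ‖bb β x p.2‖ :=
            abs_real_inner_le_norm _ _
        _ ≤ 1 * 1 := mul_le_mul (hbn _) (hbn _) (norm_nonneg _) zero_le_one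
        _ = 1 := one_mul _
    have e2 : |inner ℝ (bb β x p.1) (bb β x p.2)| ^ 3 ≤ 1 := pow_le_one₀ (abs_nonneg _) e1
    calc G p ≤ 1 * |inner ℝ p.1 p.2| := mul_le_mul_of_nonneg_right e2 (abs_nonneg _)
      _ = |inner ℝ p.1 p.2| := one_mul _
      _ ≤ b * b := (abs_real_inner_le_norm _ _).trans (mul_le_mul a2 a4 (norm_nonneg _) hb0)
  -- iterated integrals
  have r1 : ∫ p, F1 p ∂(μ.prod μ) ≤ n * √n * lam ^ 2 / β ^ 2 := by
    rw [integral_prod F1 i1]; exact v3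
  have r2 : ∫ p, F2 p ∂(μ.prod μ) ≤ n * lam ^ 2 / β ^ 2 := by
    rw [integral_prod F2 i2]; exact v2
  have r3 : ∫ p, F3 p ∂(μ.prod μ) ≤ θ * (n * lam) * (n * lam / β) := by
    rw [integral_prod F3 i3]; exact b1.1
  have r4 : ∫ p, F4 p ∂(μ.prod μ) ≤ θ * (n * lam) * (n * lam / β) := by
    rw [integral_prod F4 i4]; exact b2.1
  have r5 : ∫ p, F5 p ∂(μ.prod μ) ≤ θ * (n * lam) * (n * lam / β) := by
    rw [integral_prod F5 i5]; exact b2.2
  have rG : RR μ β x = ∫ p, G p ∂(μ.prod μ) := by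
    rw [integral_prod G iG]; rfl
  -- comparison
  have hF : Integrable (fun p => 108 * ε ^ 3 * F1 p + 4 * β ^ 6 * F2 p + (F3 p + F4 p + F5 p))
      (μ.prod μ) :=
    ((i1.const_mul _).add (i2.const_mul _)).add ((i3.add i4).add i5)
  have cmp : ∫ p, G p ∂(μ.prod μ) ≤
      ∫ p, (108 * ε ^ 3 * F1 p + 4 * β ^ 6 * F2 p + (F3 p + F4 p + F5 p)) ∂(μ.prod μ) := by
    refine integral_mono_ae iG hF ?_
    have e1 : ∀ᵐ p ∂(μ.prod μ), a ≤ ‖p.1‖ ∧ ‖p.1‖ ≤ b :=
      Measure.quasiMeasurePreserving_fst.ae hab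
    have e2 : ∀ᵐ p ∂(μ.prod μ), a ≤ ‖p.2‖ ∧ ‖p.2‖ ≤ b :=
      Measure.quasiMeasurePreserving_snd.ae hab
    filter_upwards [e1, e2] with p q1 q2
    have n1 : p.1 ≠ 0 := by
      rw [← norm_pos_iff]; exact lt_of_lt_of_le ha q1.1
    have n2 : p.2 ≠ 0 := by
      rw [← norm_pos_iff]; exact lt_of_lt_of_le ha q2.1
    have h := h2 n (x p.1) (x p.2) p.1 p.2 β ε hβ hβ1 hε (hGP.nrm _) (hGP.nrm _) n1 n2
    simp only [G, F1, F2, F3, F4, F5, bb, z1, z2]
    refine h.trans (le_of_eq ?_)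
    ring
  have lin : ∫ p, (108 * ε ^ 3 * F1 p + 4 * β ^ 6 * F2 p + (F3 p + F4 p + F5 p)) ∂(μ.prod μ) =
      108 * ε ^ 3 * (∫ p, F1 p ∂(μ.prod μ)) + 4 * β ^ 6 * (∫ p, F2 p ∂(μ.prod μ)) +
        ((∫ p, F3 p ∂(μ.prod μ)) + (∫ p, F4 p ∂(μ.prod μ)) + (∫ p, F5 p ∂(μ.prod μ))) := by
    have j1 : Integrable (fun p => 108 * ε ^ 3 * F1 p) (μ.prod μ) := i1.const_mul _
    have j2 : Integrable (fun p => 4 * β ^ 6 * F2 p) (μ.prod μ) := i2.const_mul _
    have j12 : Integrable (fun p => 108 * ε ^ 3 * F1 p + 4 * β ^ 6 * F2 p) (μ.prod μ) := j1.add j2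
    have j34 : Integrable (fun p => F3 p + F4 p) (μ.prod μ) := i3.add i4
    have j345 : Integrable (fun p => F3 p + F4 p + F5 p) (μ.prod μ) := j34.add i5
    rw [integral_add (f := fun p => 108 * ε ^ 3 * F1 p + 4 * β ^ 6 * F2 p)
        (g := fun p => F3 p + F4 p + F5 p) j12 j345,
      integral_add (f := fun p => 108 * ε ^ 3 * F1 p) (g := fun p => 4 * β ^ 6 * F2 p) j1 j2,
      integral_add (f := fun p => F3 p + F4 p) (g := F5) j34 i5,
      integral_add (f := F3) (g := F4) i3 i4, integral_const_mul, integral_const_mul]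
  rw [rG]
  refine cmp.trans ?_
  rw [lin]
  have c1 : 108 * ε ^ 3 * (∫ p, F1 p ∂(μ.prod μ)) ≤
      108 * ε ^ 3 * (n * √n * lam ^ 2 / β ^ 2) :=
    mul_le_mul_of_nonneg_left r1 (by positivity)
  have c2 : 4 * β ^ 6 * (∫ p, F2 p ∂(μ.prod μ)) ≤ 4 * β ^ 6 * (n * lam ^ 2 / β ^ 2) :=
    mul_le_mul_of_nonneg_left r2 (by positivity)
  have fin : 108 * ε ^ 3 * (n * √n * lam ^ 2 / β ^ 2) + 4 * β ^ 6 * (n * lam ^ 2 / β ^ 2) +
      (θ * (n * lam) * (n * lam / β) + θ * (n * lam) * (n * lam / β) +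
        θ * (n * lam) * (n * lam / β)) =
      n * lam ^ 2 * (108 * ε ^ 3 * √n / β ^ 2 + 4 * β ^ 4 + 3 * θ * n / β) := by
    field_simp
    ring
  rw [← fin]
  linarith [c1, c2, r3, r4, r5]

end PET
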