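import Pool.Agent.PET.Stmts

/-! # Module RDE: variance bound -/

namespace PET

open MeasureTheory Set Filter Topology
open scoped ENNReal Pointwise
open SBA (EE Body vl kap)

theorem rde_proof (h1 : Stmt_EVA) (h2 : Stmt_RBD) : Stmt_RDE := by
  intro n μ _ x β ε θ lam δ hn hβ hβ1 hlam hε hθ hGP hδ
  obtain ⟨_, hE⟩ := h1 n μ x β ε θ lam hn hβ hlam hGP
  have hR := h2 n μ x β ε θ lam hn hβ hβ1 hlam hε hθ hGP
  have hpi := Real.pi_pos
  refine hE.trans ?_
  have hl0 : l0 β lam ^ 2 = lam ^ 2 / ((1 + β) ^ 2 * (2 * Real.pi)) := by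
    unfold l0
    rw [div_pow, mul_pow, Real.sq_sqrt (by positivity)]
  set T := 108 * ε ^ 3 * √(n : ℝ) / β ^ 2 + 4 * β ^ 4 + 3 * θ * n / β with hT
  have hT0 : 0 ≤ T := by positivity
  have hn0 : (0 : ℝ) ≤ n := Nat.cast_nonneg n
  have h3 : 1 / (2 * Real.pi) * RR μ β x ≤ 1 / (2 * Real.pi) * (n * lam ^ 2 * T) :=
    mul_le_mul_of_nonneg_left hR (by positivity)
  refine h3.trans ?_
  rw [hl0]
  have hb : (1 + β) ^ 2 ≤ 4 := by nlinarith
  have h4 : 1 / (2 * Real.pi) * (n * lam ^ 2 * T) =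
      lam ^ 2 / (4 * (2 * Real.pi)) * n * (4 * T) := by
    field_simp
  rw [h4]
  have h5 : lam ^ 2 / (4 * (2 * Real.pi)) ≤ lam ^ 2 / ((1 + β) ^ 2 * (2 * Real.pi)) := by
    apply div_le_div_of_nonneg_left (by positivity) (by positivity)
    exact mul_le_mul_of_nonneg_right hb (by positivity)
  have h6 : lam ^ 2 / (4 * (2 * Real.pi)) * n ≤ lam ^ 2 / ((1 + β) ^ 2 * (2 * Real.pi)) * n :=
    mul_le_mul_of_nonneg_right h5 hn0
  exact mul_le_mul h6 hδ (by positivity) (by positivity)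

end PET
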