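import Pool.Agent.PET.Stmts

/-!
# SHF: shifts of symmetric sets, Gaussian measure
-/

set_option autoImplicit false

namespace PET

open MeasureTheory Set ProbabilityTheory
open scoped ENNReal Pointwise
open SBA (EE Body vl kap)

namespace SHF_

/-- the density -/
noncomputable def dn (n : ℕ) (y : EE n) : ℝ :=
  (√(2 * Real.pi) ^ n)⁻¹ * Real.exp (-(‖y‖ ^ 2 / 2))

lemma dn_nonneg (n : ℕ) (y : EE n) : 0 ≤ dn n y := by unfold dn; positivity

lemma dn_meas (n : ℕ) : Measurable (fun y => ENNReal.ofReal (dn n y)) := by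
  unfold dn
  fun_prop

/-- the density of the two shifts together -/
lemma dn_two (n : ℕ) (z r : EE n) :
    2 * (Real.exp (-(‖r‖ ^ 2 / 2)) * dn n z) ≤ dn n (z - r) + dn n (-z - r) := by
  have h1 : ‖z - r‖ ^ 2 = ‖z‖ ^ 2 - 2 * inner ℝ z r + ‖r‖ ^ 2 := norm_sub_sq_real z r
  have h2 : ‖-z - r‖ ^ 2 = ‖z‖ ^ 2 + 2 * inner ℝ z r + ‖r‖ ^ 2 := by
    rw [norm_sub_sq_real, norm_neg, inner_neg_left]; ring
  have h3 : Real.exp (-(‖z - r‖ ^ 2 / 2)) =
      Real.exp (-(‖z‖ ^ 2 / 2)) * Real.exp (-(‖r‖ ^ 2 / 2)) * Real.exp (inner ℝ z r) := by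
    rw [← Real.exp_add, ← Real.exp_add, h1]; congr 1; ring
  have h4 : Real.exp (-(‖-z - r‖ ^ 2 / 2)) =
      Real.exp (-(‖z‖ ^ 2 / 2)) * Real.exp (-(‖r‖ ^ 2 / 2)) * Real.exp (-inner ℝ z r) := by
    rw [← Real.exp_add, ← Real.exp_add, h2]; congr 1; ring
  have h5 : 2 ≤ Real.exp (inner ℝ z r) + Real.exp (-inner ℝ z r) := by
    have e1 := Real.add_one_le_exp (inner ℝ z r : ℝ)
    have e2 := Real.add_one_le_exp (-inner ℝ z r : ℝ)
    linarith
  unfold dn
  rw [h3, h4]
  have h6 : 0 ≤ (√(2 * Real.pi) ^ n)⁻¹ * (Real.exp (-(‖z‖ ^ 2 / 2)) * Real.exp (-(‖r‖ ^ 2 / 2))) := by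
    positivity
  nlinarith [mul_le_mul_of_nonneg_left h5 h6]

end SHF_

open SHF_ in
theorem shf_proof (h1 : Stmt_GDS) : Stmt_SHF := by
  intro n C r hn hC hs
  have hg : gS n = (volume : Measure (EE n)).withDensity (fun y => ENNReal.ofReal (dn n y)) :=
    h1 n hn
  have hmC : MeasurableSet {y : EE n | r + y ∈ C} := by
    have : Measurable (fun y : EE n => r + y) := by fun_prop
    exact this hC
  rw [hg, withDensity_apply _ hC, withDensity_apply _ hmC]
  have e1 : ∫⁻ y in {y : EE n | r + y ∈ C}, ENNReal.ofReal (dn n y) =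
      ∫⁻ z in C, ENNReal.ofReal (dn n (z - r)) := by
    rw [← lintegral_indicator hmC, ← lintegral_indicator hC,
      ← lintegral_add_left_eq_self (C.indicator fun z => ENNReal.ofReal (dn n (z - r))) r]
    refine lintegral_congr fun y => ?_
    by_cases hy : r + y ∈ C
    · rw [indicator_of_mem (show y ∈ {y : EE n | r + y ∈ C} from hy), indicator_of_mem hy]
      congr 2; abel
    · rw [indicator_of_notMem (show y ∉ {y : EE n | r + y ∈ C} from hy), indicator_of_notMem hy]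
  have e2 : ∫⁻ z in C, ENNReal.ofReal (dn n (z - r)) =
      ∫⁻ z in C, ENNReal.ofReal (dn n (-z - r)) := by
    rw [← lintegral_indicator hC, ← lintegral_indicator hC, ← lintegral_neg_eq_self]
    refine lintegral_congr fun y => ?_
    by_cases hy : y ∈ C
    · rw [indicator_of_mem (hs y hy), indicator_of_mem hy]
    · have : -y ∉ C := fun h => hy (by simpa using hs _ h)
      rw [indicator_of_notMem this, indicator_of_notMem hy]
  have hm1 : Measurable (fun z : EE n => ENNReal.ofReal (dn n (z - r))) :=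
    (dn_meas n).comp (by fun_prop)
  have e3 : 2 * (ENNReal.ofReal (Real.exp (-(‖r‖ ^ 2 / 2))) * ∫⁻ z in C, ENNReal.ofReal (dn n z)) ≤
      2 * ∫⁻ z in C, ENNReal.ofReal (dn n (z - r)) := by
    rw [two_mul (∫⁻ z in C, ENNReal.ofReal (dn n (z - r)))]
    nth_rewrite 2 [e2]
    rw [← lintegral_add_left hm1, ← lintegral_const_mul _ (dn_meas n),
      ← lintegral_const_mul _ ((dn_meas n).const_mul _)]
    refine lintegral_mono fun z => ?_
    have h2 : (2 : ℝ≥0∞) = ENNReal.ofReal 2 := by norm_num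
    rw [← ENNReal.ofReal_mul (by positivity), ← ENNReal.ofReal_add (dn_nonneg _ _) (dn_nonneg _ _)]
    calc (2 : ℝ≥0∞) * ENNReal.ofReal (Real.exp (-(‖r‖ ^ 2 / 2)) * dn n z) =
        ENNReal.ofReal (2 * (Real.exp (-(‖r‖ ^ 2 / 2)) * dn n z)) := by
          rw [ENNReal.ofReal_mul (p := 2) (by norm_num), ← h2]
      _ ≤ _ := ENNReal.ofReal_le_ofReal (dn_two n z r)
  rw [e1]
  exact (ENNReal.mul_le_mul_iff_right (by norm_num) (by norm_num)).mp e3

end PET
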