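import Pool.Agent.PET.Stmts

open MeasureTheory Set Real
open scoped ENNReal

namespace PET

namespace SHP_

noncomputable section

open ProbabilityTheory

lemma g1_prod_integral (F : ℝ × ℝ → ℝ) :
    ∫ z, F z ∂(g1.prod g1) =
      ∫ z : ℝ × ℝ, ((2 * π)⁻¹ * Real.exp (-(z.1 ^ 2 + z.2 ^ 2) / 2)) * F z := by
  have h1 : g1 = volume.withDensity (gaussianPDF 0 1) := gaussianReal_of_var_ne_zero 0 one_ne_zero
  rw [h1, prod_withDensity (measurable_gaussianPDF 0 1) (measurable_gaussianPDF 0 1)]
  rw [integral_withDensity_eq_integral_toReal_smul]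
  · rw [← Measure.volume_eq_prod]
    congr 1
    ext z
    rw [ENNReal.toReal_mul, toReal_gaussianPDF, toReal_gaussianPDF, gaussianPDFReal,
      gaussianPDFReal, smul_eq_mul]
    congr 1
    have hs : (√(2 * π * (1 : NNReal)))⁻¹ * (√(2 * π * (1 : NNReal)))⁻¹ = (2 * π)⁻¹ := by
      rw [← mul_inv, Real.mul_self_sqrt (by positivity)]
      simp
    have he : Real.exp (-(z.1 - 0) ^ 2 / (2 * (1 : NNReal))) *
        Real.exp (-(z.2 - 0) ^ 2 / (2 * (1 : NNReal))) = Real.exp (-(z.1 ^ 2 + z.2 ^ 2) / 2) := by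
      rw [← Real.exp_add]
      congr 1
      simp
      ring
    rw [← hs, ← he]
    ring
  · exact ((measurable_gaussianPDF 0 1).comp measurable_fst).mul
      ((measurable_gaussianPDF 0 1).comp measurable_snd)
  · refine Filter.Eventually.of_forall fun z => ?_
    exact ENNReal.mul_lt_top gaussianPDF_lt_top gaussianPDF_lt_top

lemma sign_mul_pos {r : ℝ} (hr : 0 < r) (x : ℝ) : Real.sign (r * x) = Real.sign x := by
  rcases lt_trichotomy x 0 with h | h | h
  · rw [Real.sign_of_neg h, Real.sign_of_neg (mul_neg_of_pos_of_neg hr h)]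
  · simp [h]
  · rw [Real.sign_of_pos h, Real.sign_of_pos (mul_pos hr h)]

/-- the angular function -/
def ang (α θ : ℝ) : ℝ := Real.sign (Real.cos θ) * Real.sign (Real.sin (θ + α))

lemma ang_add_pi (α θ : ℝ) : ang α (θ + π) = ang α θ := by
  unfold ang
  rw [Real.cos_add_pi, show θ + π + α = θ + α + π by ring, Real.sin_add_pi, Real.sign_neg,
    Real.sign_neg]
  ring

lemma meas_sign : Measurable Real.sign := by
  unfold Real.sign
  exact Measurable.ite measurableSet_Iio measurable_const
    (Measurable.ite measurableSet_Ioi measurable_const measurable_const)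

lemma abs_sign_le (x : ℝ) : |Real.sign x| ≤ 1 := by
  rcases Real.sign_apply_eq x with h | h | h <;> rw [h] <;> norm_num

lemma meas_ang (α : ℝ) : Measurable (ang α) :=
  (meas_sign.comp Real.measurable_cos).mul
    (meas_sign.comp (Real.measurable_sin.comp (measurable_id.add_const α)))

lemma int_ang (α a b : ℝ) : IntervalIntegrable (ang α) volume a b := by
  rw [intervalIntegrable_iff]
  refine Measure.integrableOn_of_bounded (M := 1) (by simp) (meas_ang α).aestronglyMeasurable ?_
  refine Filter.Eventually.of_forall fun x => ?_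
  rw [Real.norm_eq_abs, ang, abs_mul]
  exact mul_le_one₀ (abs_sign_le _) (abs_nonneg _) (abs_sign_le _)

lemma int_sgsin (a b : ℝ) :
    IntervalIntegrable (fun θ => Real.sign (Real.sin θ)) volume a b := by
  rw [intervalIntegrable_iff]
  refine Measure.integrableOn_of_bounded (M := 1) (by simp)
    (meas_sign.comp Real.measurable_sin).aestronglyMeasurable ?_
  exact Filter.Eventually.of_forall fun x => abs_sign_le _

lemma half_int {α : ℝ} (h1 : -(π / 2) ≤ α) (h2 : α ≤ π / 2) :
    ∫ θ in (-(π / 2))..(π / 2), ang α θ = 2 * α := by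
  have e1 : ∫ θ in (-(π / 2))..(π / 2), ang α θ =
      ∫ θ in (-(π / 2))..(π / 2), Real.sign (Real.sin (θ + α)) := by
    apply intervalIntegral.integral_congr_ae
    have hne : ∀ᵐ θ : ℝ, θ ≠ π / 2 := by
      simp [ae_iff]
    filter_upwards [hne] with θ hθ hmem
    rw [uIoc_of_le (by linarith [Real.pi_pos])] at hmem
    have hc : 0 < Real.cos θ :=
      Real.cos_pos_of_mem_Ioo ⟨hmem.1, lt_of_le_of_ne hmem.2 hθ⟩
    unfold ang
    rw [Real.sign_of_pos hc, one_mul]
  rw [e1, intervalIntegral.integral_comp_add_right (fun x => Real.sign (Real.sin x)) α]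
  rw [← intervalIntegral.integral_add_adjacent_intervals (b := 0) (int_sgsin _ _)
    (int_sgsin _ _)]
  have f1 : ∫ x in (-(π / 2) + α)..0, Real.sign (Real.sin x) =
      ∫ x in (-(π / 2) + α)..0, (-1 : ℝ) := by
    apply intervalIntegral.integral_congr_ae
    have hne : ∀ᵐ θ : ℝ, θ ≠ 0 := by
      simp [ae_iff]
    filter_upwards [hne] with θ hθ hmem
    rw [uIoc_of_le (by linarith [Real.pi_pos])] at hmem
    have hc : Real.sin θ < 0 :=
      Real.sin_neg_of_neg_of_neg_pi_lt (lt_of_le_of_ne hmem.2 hθ)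
        (by linarith [hmem.1, Real.pi_pos])
    rw [Real.sign_of_neg hc]
  have f2 : ∫ x in (0 : ℝ)..(π / 2 + α), Real.sign (Real.sin x) =
      ∫ x in (0 : ℝ)..(π / 2 + α), (1 : ℝ) := by
    apply intervalIntegral.integral_congr_ae
    have hne : ∀ᵐ θ : ℝ, θ ≠ π := by
      simp [ae_iff]
    filter_upwards [hne] with θ hθ hmem
    rw [uIoc_of_le (by linarith [Real.pi_pos])] at hmem
    have hlt : θ < π := lt_of_le_of_ne (by linarith [hmem.2]) hθ
    rw [Real.sign_of_pos (Real.sin_pos_of_pos_of_lt_pi hmem.1 hlt)]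
  rw [f1, f2, intervalIntegral.integral_const, intervalIntegral.integral_const]
  simp only [smul_eq_mul]
  ring

lemma full_int {α : ℝ} (h1 : -(π / 2) ≤ α) (h2 : α ≤ π / 2) :
    ∫ θ in Ioo (-π) π, ang α θ = 4 * α := by
  rw [← integral_Ioc_eq_integral_Ioo, ← intervalIntegral.integral_of_le (by linarith [Real.pi_pos])]
  have hper : Function.Periodic (ang α) (2 * π) := by
    intro θ
    rw [show θ + 2 * π = θ + π + π by ring, ang_add_pi, ang_add_pi]
  have e1 : ∫ θ in (-π)..π, ang α θ = ∫ θ in (-(π / 2))..(-(π / 2) + 2 * π), ang α θ := by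
    have := hper.intervalIntegral_add_eq (-π) (-(π / 2))
    rw [show -π + 2 * π = π by ring] at this
    exact this
  rw [e1, ← intervalIntegral.integral_add_adjacent_intervals (b := π / 2) (int_ang _ _ _)
    (int_ang _ _ _), half_int h1 h2]
  have e2 : ∫ θ in (π / 2)..(-(π / 2) + 2 * π), ang α θ = 2 * α := by
    rw [← half_int h1 h2]
    have := intervalIntegral.integral_comp_add_right (a := -(π / 2)) (b := π / 2) (ang α) π
    rw [show -(π / 2) + π = π / 2 by ring, show π / 2 + π = -(π / 2) + 2 * π by ring] at this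
    rw [← this]
    exact intervalIntegral.integral_congr fun x _ => ang_add_pi α x
  rw [e2]
  ring

lemma radial : ∫ r in Ioi (0 : ℝ), r * Real.exp (-r ^ 2 / 2) = 1 := by
  have hd : ∀ x ∈ Ici (0 : ℝ), HasDerivAt (fun r : ℝ => -Real.exp (-r ^ 2 / 2))
      (x * Real.exp (-x ^ 2 / 2)) x := by
    intro x _
    have h : HasDerivAt (fun r : ℝ => -r ^ 2 / 2) (-x) x := by
      have h0 := ((hasDerivAt_pow 2 x).neg).div_const 2
      refine h0.congr_deriv ?_
      simp
      ring
    refine (h.exp.neg).congr_deriv ?_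
    ring
  have ht : Filter.Tendsto (fun r : ℝ => -Real.exp (-r ^ 2 / 2)) Filter.atTop (nhds 0) := by
    rw [show (0 : ℝ) = -0 by ring]
    refine Filter.Tendsto.neg ?_
    refine Real.tendsto_exp_atBot.comp ?_
    have : Filter.Tendsto (fun r : ℝ => r ^ 2 / 2) Filter.atTop Filter.atTop :=
      (Filter.tendsto_pow_atTop (by norm_num)).atTop_div_const (by norm_num)
    have h2 := Filter.tendsto_neg_atTop_atBot.comp this
    refine h2.congr fun r => ?_
    simp only [Function.comp]
    ring
  have := integral_Ioi_of_hasDerivAt_of_nonneg' hd (fun x hx => by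
    have : (0 : ℝ) < x := hx
    positivity) ht
  rw [this]
  simp

end

end SHP_

open SHP_ in
theorem shp_proof : Stmt_SHP := by
  intro c hc
  rw [abs_le] at hc
  set α := Real.arcsin c with hα
  have hs : Real.sin α = c := Real.sin_arcsin hc.1 hc.2
  have hcos : √(1 - c ^ 2) = Real.cos α := by rw [hα, Real.cos_arcsin]
  have h1 : -(π / 2) ≤ α := Real.neg_pi_div_two_le_arcsin c
  have h2 : α ≤ π / 2 := Real.arcsin_le_pi_div_two c
  rw [g1_prod_integral, ← integral_comp_polarCoord_symm]
  have e : ∀ p ∈ polarCoord.target,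
      p.1 • ((2 * π)⁻¹ * Real.exp (-((polarCoord.symm p).1 ^ 2 + (polarCoord.symm p).2 ^ 2) / 2) *
        (Real.sign (polarCoord.symm p).1 *
          Real.sign (c * (polarCoord.symm p).1 + √(1 - c ^ 2) * (polarCoord.symm p).2))) =
      (p.1 * Real.exp (-p.1 ^ 2 / 2)) * ((2 * π)⁻¹ * ang α p.2) := by
    intro p hp
    have hr : 0 < p.1 := hp.1
    rw [polarCoord_symm_apply]
    simp only [smul_eq_mul]
    rw [hcos, ← hs, sign_mul_pos hr,
      show Real.sin α * (p.1 * Real.cos p.2) + Real.cos α * (p.1 * Real.sin p.2) =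
        p.1 * Real.sin (p.2 + α) by rw [Real.sin_add]; ring, sign_mul_pos hr,
      show (p.1 * Real.cos p.2) ^ 2 + (p.1 * Real.sin p.2) ^ 2 = p.1 ^ 2 by
        have := Real.sin_sq_add_cos_sq p.2
        linear_combination p.1 ^ 2 * this]
    unfold ang
    ring
  rw [setIntegral_congr_fun polarCoord.open_target.measurableSet e]
  rw [show polarCoord.target = Ioi (0 : ℝ) ×ˢ Ioo (-π) π from rfl, Measure.volume_eq_prod]
  rw [setIntegral_prod_mul (fun r : ℝ => r * Real.exp (-r ^ 2 / 2))
    (fun θ : ℝ => (2 * π)⁻¹ * ang α θ), radial, integral_const_mul, full_int h1 h2]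
  field_simp
  ring

end PET
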