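import Pool.Agent.PET.Stmts

/-!
Squad PET, module SLA: diffuseness.
-/

set_option autoImplicit false

namespace PET

open MeasureTheory Set
open scoped ENNReal Pointwise
open SBA (EE Body vl kap)

namespace SLA_

end SLA_

open SLA_ in
theorem sla_proof (h1 : Stmt_ADS) (h2 : Stmt_MWB) (h3 : Stmt_HSB) (h4 : Stmt_TRM) : Stmt_SLA := by
  intro n m μ _ t β c w x hn ht htn hβ hc hA hw hx H w₀ hw₀
  have hn1 : 1 ≤ n := by omega
  have hn0 : (0 : ℝ) < n := by exact_mod_cast hn1
  obtain ⟨a, b, ha, hab⟩ := hA.bd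
  have hb : ∀ᵐ v ∂μ, ‖v‖ ≤ b := hab.mono fun v hv => hv.2
  obtain ⟨hw', hcmp⟩ := h1 n m t w w₀ x hn1 ht hw hw₀ hx
  set w' : Fin (m + 1) → EE n := Fin.cons w₀ w with hw'def
  have H' := H w' hw'
  obtain ⟨iH, iN, -⟩ := h4 n m μ t β b w (ContinuousLinearMap.id ℝ (EE n)) hn1 ht hw hb
  obtain ⟨iH', -, -⟩ := h4 n (m + 1) μ t β b w' (ContinuousLinearMap.id ℝ (EE n)) hn1 ht hw' hb
  simp only [ContinuousLinearMap.coe_id', id_eq] at iH iN iH'
  obtain ⟨hBody, hball, -, -⟩ := h2 n m t w hn1 ht hw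
  obtain ⟨-, -, -, -, hnn, -, hlow, -, -⟩ := h3 n (MW t w) hBody
  set bad : Set (EE n) := {v | 2 * t / √n ≤ |inner ℝ (x v) w₀|} with hbad
  have mbad : MeasurableSet bad := by
    refine measurableSet_le measurable_const ?_
    exact (hx.meas.inner measurable_const).abs
  set Ψ := Psi μ t β w (ContinuousLinearMap.id ℝ (EE n)) with hΨ
  have eΨ : Ψ = (∫ v, hs (MW t w) v ∂μ) + β * ∫ v, ‖v‖ ∂μ := by
    rw [hΨ]
    unfold Psi
    simp only [ContinuousLinearMap.coe_id', id_eq]
    rw [integral_add iH (iN.const_mul β), integral_const_mul]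
  have eΨ' : Psi μ t β w' (ContinuousLinearMap.id ℝ (EE n)) =
      (∫ v, hs (MW t w') v ∂μ) + β * ∫ v, ‖v‖ ∂μ := by
    unfold Psi
    simp only [ContinuousLinearMap.coe_id', id_eq]
    rw [integral_add iH' (iN.const_mul β), integral_const_mul]
  have hΨ0 : 0 ≤ Ψ := by
    rw [eΨ]
    have e1 : 0 ≤ ∫ v, hs (MW t w) v ∂μ := integral_nonneg hnn
    have e2 : 0 ≤ ∫ v : EE n, ‖v‖ ∂μ := integral_nonneg fun v => norm_nonneg v
    positivity
  -- comparison of the integrals
  set d : ℝ := t ^ 2 / (4 * n) with hd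
  have hd0 : 0 < d := by positivity
  have iB : Integrable (bad.indicator (fun v => d * hs (MW t w) v)) μ :=
    (iH.const_mul d).indicator mbad
  have hle : (∫ v, hs (MW t w') v ∂μ) ≤ (∫ v, hs (MW t w) v ∂μ) - d * ∫ v in bad, hs (MW t w) v ∂μ := by
    have e1 : d * ∫ v in bad, hs (MW t w) v ∂μ =
        ∫ v, bad.indicator (fun v => d * hs (MW t w) v) v ∂μ := by
      rw [integral_indicator mbad, integral_const_mul]
    rw [e1, ← integral_sub iH iB]
    apply integral_mono iH' (iH.sub iB)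
    intro v
    show hs (MW t w') v ≤ hs (MW t w) v - bad.indicator (fun v => d * hs (MW t w) v) v
    by_cases hv : v ∈ bad
    · rw [indicator_of_mem hv]
      have := (hcmp v).2 hv
      linarith
    · rw [indicator_of_notMem hv, sub_zero]
      exact (hcmp v).1
  have hk : d * ∫ v in bad, hs (MW t w) v ∂μ ≤ c * Ψ := by
    rw [eΨ'] at H'
    have : (1 - c) * Ψ = Ψ - c * Ψ := by ring
    rw [this] at H'
    linarith [eΨ]
  -- lower bound for the support function
  have hr : ∀ v : EE n, t / √(2 * n) * ‖v‖ ≤ hs (MW t w) v := by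
    intro v
    have e1 := hlow (t / √(n + t ^ 2)) v (by positivity) hball
    refine le_trans ?_ e1
    apply mul_le_mul_of_nonneg_right _ (norm_nonneg v)
    apply div_le_div_of_nonneg_left ht.le (by positivity)
    apply Real.sqrt_le_sqrt
    linarith
  have hint : t / √(2 * n) * ∫ v in bad, ‖v‖ ∂μ ≤ ∫ v in bad, hs (MW t w) v ∂μ := by
    rw [← integral_const_mul]
    apply integral_mono (iN.integrableOn.const_mul _) iH.integrableOn
    intro v
    exact hr v
  have hs2 : √(2 * (n : ℝ)) = √2 * √n := Real.sqrt_mul (by norm_num) _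
  have hsn : √(n : ℝ) * √n = n := Real.mul_self_sqrt hn0.le
  have hsn0 : 0 < √(n : ℝ) := Real.sqrt_pos.mpr hn0
  have hs20 : 0 < √(2 : ℝ) := by positivity
  have hs2le : 4 * √2 ≤ 6 := by
    have : √2 ≤ 3 / 2 := by
      rw [Real.sqrt_le_left (by norm_num)]
      norm_num
    linarith
  set I := ∫ v in bad, ‖v‖ ∂μ with hI
  have k1 : d * (t / √(2 * n) * I) ≤ c * Ψ :=
    (mul_le_mul_of_nonneg_left hint hd0.le).trans hk
  have k2 : I ≤ 4 * √2 * (c * (n * √n) / t ^ 3 * Ψ) := by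
    have e1 : d * (t / √(2 * n) * I) = I * t ^ 3 / (4 * √2 * (n * √n)) := by
      rw [hd, hs2]
      field_simp
    rw [e1, div_le_iff₀ (by positivity)] at k1
    have e2 : 4 * √2 * (c * (n * √n) / t ^ 3 * Ψ) = (c * Ψ * (4 * √2 * (n * √n))) / t ^ 3 := by
      field_simp
    rw [e2, le_div_iff₀ (by positivity)]
    exact k1
  refine k2.trans ?_
  have e3 : 6 * c * (n * √n) / t ^ 3 * Ψ = 6 * (c * (n * √n) / t ^ 3 * Ψ) := by ring
  rw [e3]
  exact mul_le_mul_of_nonneg_right hs2le (by positivity)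

end PET
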