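import Pool.Agent.PET.Stmts

/-!
# Squad PET, module STA: first order condition
-/

namespace PET

open MeasureTheory Set
open scoped ENNReal
open SBA (EE Body vl kap)

namespace STA_

/-- the integrand -/
noncomputable def F {n : ℕ} (β : ℝ) (x : EE n → EE n) (u e v : EE n) : ℝ :=
  inner ℝ (x v + (β / ‖v‖) • v) u * inner ℝ v e

lemma norm_unit {n : ℕ} {β : ℝ} (hβ : 0 < β) (v : EE n) : ‖(β / ‖v‖) • v‖ ≤ β := by
  rw [norm_smul, Real.norm_eq_abs, abs_of_nonneg (by positivity)]
  rcases eq_or_ne ‖v‖ 0 with h | h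
  · rw [h]
    simp [hβ.le]
  · rw [div_mul_cancel₀ _ h]

lemma F_int {n : ℕ} {μ : Measure (EE n)} [IsFiniteMeasure μ] {β b : ℝ} {x : EE n → EE n}
    (hβ : 0 < β) (hb : ∀ᵐ v ∂μ, ‖v‖ ≤ b) (hm : Measurable x) (hx : ∀ v, ‖x v‖ ≤ 1)
    (u e : EE n) : Integrable (F β x u e) μ := by
  have hmeas : Measurable (F β x u e) := by
    unfold F
    apply Measurable.mul
    · apply Measurable.inner _ measurable_const
      exact hm.add ((measurable_const.div measurable_norm).smul measurable_id)
    · exact Measurable.inner measurable_id measurable_const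
  refine Integrable.of_bound hmeas.aestronglyMeasurable ((1 + β) * ‖u‖ * (b * ‖e‖)) ?_
  filter_upwards [hb] with v hv
  unfold F
  rw [norm_mul]
  have h1 : ‖(inner ℝ (x v + (β / ‖v‖) • v) u : ℝ)‖ ≤ (1 + β) * ‖u‖ := by
    refine (norm_inner_le_norm _ _).trans ?_
    apply mul_le_mul_of_nonneg_right _ (norm_nonneg _)
    refine (norm_add_le _ _).trans ?_
    exact add_le_add (hx v) (norm_unit hβ v)
  have h2 : ‖(inner ℝ v e : ℝ)‖ ≤ b * ‖e‖ := by
    refine (norm_inner_le_norm _ _).trans ?_
    exact mul_le_mul_of_nonneg_right hv (norm_nonneg _)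
  exact mul_le_mul h1 h2 (norm_nonneg _) (by positivity)

/-- a bilinear form vanishing on orthogonal pairs is a multiple of the inner product -/
lemma bil {n : ℕ} (L : EE n →ₗ[ℝ] EE n →ₗ[ℝ] ℝ) (h : ∀ u e : EE n, inner ℝ u e = 0 → L u e = 0)
    (i₀ : Fin n) (u e : EE n) :
    L u e = L (EuclideanSpace.basisFun (Fin n) ℝ i₀) (EuclideanSpace.basisFun (Fin n) ℝ i₀) *
      inner ℝ u e := by
  obtain ⟨b, hb⟩ : ∃ b, b = EuclideanSpace.basisFun (Fin n) ℝ := ⟨_, rfl⟩
  rw [← hb]
  have hij : ∀ i j, inner ℝ (b i) (b j) = if i = j then (1 : ℝ) else 0 := fun i j =>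
    b.inner_eq_ite i j
  have hdiag : ∀ i, L (b i) (b i) = L (b i₀) (b i₀) := by
    intro i
    by_cases hi : i = i₀
    · rw [hi]
    · have h1 := h (b i + b i₀) (b i - b i₀) (by
        rw [inner_add_left, inner_sub_right, inner_sub_right, hij, hij, hij, hij]
        simp [hi, Ne.symm hi])
      have h2 := h (b i) (b i₀) (by rw [hij]; simp [hi])
      have h3 := h (b i₀) (b i) (by rw [hij]; simp [Ne.symm hi])
      rw [map_add, LinearMap.add_apply, map_sub, map_sub, h2, h3] at h1
      linarith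
  have hmain : L = (L (b i₀) (b i₀)) • (innerₗ (EE n)) := by
    apply b.toBasis.ext
    intro i
    apply b.toBasis.ext
    intro j
    rw [OrthonormalBasis.coe_toBasis]
    rw [LinearMap.smul_apply, LinearMap.smul_apply, innerₗ_apply_apply, hij, smul_eq_mul]
    by_cases hi : i = j
    · rw [hi]
      simp [hdiag j]
    · rw [if_neg hi, mul_zero]
      apply h
      rw [hij, if_neg hi]
  have h4 : L u e = ((L (b i₀) (b i₀)) • (innerₗ (EE n))) u e := by rw [← hmain]
  rw [h4, LinearMap.smul_apply, LinearMap.smul_apply, innerₗ_apply_apply, smul_eq_mul]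

end STA_

open STA_ in
theorem sta_proof (h1 : Stmt_STO) (h2 : Stmt_MWB) (_h3 : Stmt_TRM) : Stmt_STA := by
  intro n m μ _ t β w x hn ht hβ hμ hw hx hmin u e
  obtain ⟨-, -, hball, -⟩ := h2 n m t w (by omega) ht hw
  have hx1 : ∀ v, ‖x v‖ ≤ 1 := by
    intro v
    have h := hball (hx.mem v)
    rw [Metric.mem_closedBall, dist_zero_right] at h
    exact h
  obtain ⟨a, b, ha, hab⟩ := hμ.bd
  have hb : ∀ᵐ v ∂μ, ‖v‖ ≤ b := by
    filter_upwards [hab] with v hv using hv.2
  have hI : ∀ u e : EE n, Integrable (F β x u e) μ := F_int hβ hb hx.meas hx1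
  have hO := h1 n m μ t β w x hn ht hβ hμ hw hx hmin
  let L : EE n →ₗ[ℝ] EE n →ₗ[ℝ] ℝ := LinearMap.mk₂ ℝ (fun u e => ∫ v, F β x u e v ∂μ)
    (by
      intro u u' e
      rw [← integral_add (hI u e) (hI u' e)]
      apply integral_congr_ae
      filter_upwards with v
      unfold F
      rw [inner_add_right]
      ring)
    (by
      intro c u e
      rw [smul_eq_mul, ← integral_const_mul]
      apply integral_congr_ae
      filter_upwards with v
      unfold F
      rw [inner_smul_right]
      ring)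
    (by
      intro u e e'
      rw [← integral_add (hI u e) (hI u e')]
      apply integral_congr_ae
      filter_upwards with v
      unfold F
      rw [inner_add_right v]
      ring)
    (by
      intro c u e
      rw [smul_eq_mul, ← integral_const_mul]
      apply integral_congr_ae
      filter_upwards with v
      unfold F
      rw [inner_smul_right v]
      ring)
  have hL : ∀ u e, L u e = ∫ v, F β x u e v ∂μ := fun u e => rfl
  have hL0 : ∀ u e : EE n, inner ℝ u e = 0 → L u e = 0 := fun u e hue => hO u e hue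
  have hn0 : (0 : ℝ) < n := by exact_mod_cast (by omega : 0 < n)
  let i₀ : Fin n := ⟨0, by omega⟩
  obtain ⟨c, hc⟩ : ∃ c, c = L (EuclideanSpace.basisFun (Fin n) ℝ i₀)
    (EuclideanSpace.basisFun (Fin n) ℝ i₀) := ⟨_, rfl⟩
  have hbil : ∀ u e : EE n, L u e = c * inner ℝ u e := by
    intro u e
    rw [hc]
    exact bil L hL0 i₀ u e
  -- the trace
  have htr : (n : ℝ) * c = Psi μ t β w (ContinuousLinearMap.id ℝ (EE n)) := by
    have h4 : ∑ i : Fin n, L (EuclideanSpace.basisFun (Fin n) ℝ i)
        (EuclideanSpace.basisFun (Fin n) ℝ i) = n * c := by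
      have h5 : ∀ i ∈ (Finset.univ : Finset (Fin n)), L (EuclideanSpace.basisFun (Fin n) ℝ i)
          (EuclideanSpace.basisFun (Fin n) ℝ i) = c := by
        intro i _
        rw [hbil, OrthonormalBasis.inner_eq_one, mul_one]
      rw [Finset.sum_congr rfl h5, Finset.sum_const, Finset.card_univ, Fintype.card_fin,
        nsmul_eq_mul]
    rw [← h4]
    simp only [hL]
    rw [← integral_finsetSum _ fun i _ => hI _ _]
    unfold Psi
    apply integral_congr_ae
    filter_upwards with v
    unfold F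
    have h6 := (EuclideanSpace.basisFun (Fin n) ℝ).sum_inner_mul_inner
      (x v + (β / ‖v‖) • v) v
    have h7 : ∑ i, inner ℝ (x v + (β / ‖v‖) • v) (EuclideanSpace.basisFun (Fin n) ℝ i) *
        inner ℝ v (EuclideanSpace.basisFun (Fin n) ℝ i) =
        (inner ℝ (x v + (β / ‖v‖) • v) v : ℝ) := by
      rw [← h6]
      apply Finset.sum_congr rfl
      intro i _
      rw [real_inner_comm v]
    rw [h7, inner_add_left, hx.max, real_inner_smul_left, real_inner_self_eq_norm_sq]
    rcases eq_or_ne ‖v‖ 0 with h | h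
    · simp [h]
    · simp only [ContinuousLinearMap.coe_id', id_eq]
      field_simp
  have h8 : ∫ v, inner ℝ (x v + (β / ‖v‖) • v) u * inner ℝ v e ∂μ = L u e := rfl
  rw [h8, hbil u e, ← htr]
  field_simp

end PET
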