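import Pool.Agent.PET.Stmts

/-!
# PET, module STO: first order condition for orthogonal vectors
-/

set_option autoImplicit false

namespace PET

open MeasureTheory Set
open scoped ENNReal Pointwise
open SBA (EE Body vl kap)

namespace STO_

lemma norm_quad {n : ℕ} (v η : EE n) (hv : 0 < ‖v‖) :
    ‖v + η‖ ≤ ‖v‖ + inner ℝ v η / ‖v‖ + ‖η‖ ^ 2 / (2 * ‖v‖) := by
  have h1 : ‖v + η‖ ^ 2 = ‖v‖ ^ 2 + 2 * inner ℝ v η + ‖η‖ ^ 2 := norm_add_sq_real v η
  have h2 : 2 * ‖v‖ * ‖v + η‖ ≤ ‖v‖ ^ 2 + ‖v + η‖ ^ 2 := by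
    nlinarith [sq_nonneg (‖v‖ - ‖v + η‖)]
  have h3 : ‖v‖ + inner ℝ v η / ‖v‖ + ‖η‖ ^ 2 / (2 * ‖v‖)
      = (‖v‖ ^ 2 + ‖v + η‖ ^ 2) / (2 * ‖v‖) := by
    rw [h1]
    field_simp
    ring
  rw [h3, le_div_iff₀ (by positivity)]
  linarith

/-- a quadratic polynomial without constant term which is nonnegative -/
lemma quad_zero (I C : ℝ) (hC : 0 ≤ C) (h : ∀ s : ℝ, 0 ≤ s * I + s ^ 2 * C) : I = 0 := by
  by_contra hI
  have hI2 : 0 < I ^ 2 := by positivity
  have hC1 : 0 < C + 1 := by linarith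
  have h1 := h (-I / (C + 1))
  have h2 : -I / (C + 1) * I + (-I / (C + 1)) ^ 2 * C = -(I ^ 2 * 1 / (C + 1) ^ 2) := by
    field_simp
    ring
  rw [h2] at h1
  have h3 : 0 < I ^ 2 * 1 / (C + 1) ^ 2 := by positivity
  linarith

end STO_

open STO_ in
theorem sto_proof (h1 : Stmt_DTS) (h2 : Stmt_MWB) (h3 : Stmt_HSB) (h4 : Stmt_TRM) :
    Stmt_STO := by
  intro n m μ _ t β w x hn ht hβ hadm hw hsm hmin u e hue
  have hn1 : 1 ≤ n := by omega
  obtain ⟨a, b, ha, hab⟩ := hadm.bd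
  obtain ⟨hbody, hball, hball1, _⟩ := h2 n m t w hn1 ht hw
  obtain ⟨_, hs_ge, _, _, _, hs_cont, hs_low, hs_up, _⟩ := h3 n (MW t w) hbody
  set r0 : ℝ := t / √(n + t ^ 2) with hr0
  have hnr : (0 : ℝ) ≤ n := Nat.cast_nonneg n
  have hr0pos : 0 < r0 := div_pos ht (Real.sqrt_pos.2 (by positivity))
  have hb' : ∀ᵐ v ∂μ, ‖v‖ ≤ b := hab.mono fun v hv => hv.2
  have hxn : ∀ v, ‖x v‖ ≤ 1 := by
    intro v
    have := hball1 (hsm.mem v)
    simpa using this
  -- the integrand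
  set f : EE n → ℝ := fun v => inner ℝ (x v + (β / ‖v‖) • v) u * inner ℝ v e with hf
  have hfm : Measurable f := by
    have e1 : Measurable fun v : EE n => x v + (β / ‖v‖) • v :=
      hsm.meas.add ((measurable_const.div measurable_norm).smul measurable_id)
    exact (e1.inner measurable_const).mul (measurable_id.inner measurable_const)
  have hfb : ∀ᵐ v ∂μ, ‖f v‖ ≤ (1 + β) * ‖u‖ * (b * ‖e‖) := by
    filter_upwards [hab] with v hv
    have hvpos : 0 < ‖v‖ := lt_of_lt_of_le ha hv.1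
    have e1 : ‖x v + (β / ‖v‖) • v‖ ≤ 1 + β := by
      refine (norm_add_le _ _).trans (add_le_add (hxn v) ?_)
      rw [norm_smul, Real.norm_of_nonneg (by positivity), div_mul_cancel₀ _ hvpos.ne']
    simp only [hf]
    rw [norm_mul]
    refine mul_le_mul ((norm_inner_le_norm _ _).trans ?_) ((norm_inner_le_norm _ _).trans ?_)
      (norm_nonneg _) (by positivity)
    · exact mul_le_mul_of_nonneg_right e1 (norm_nonneg _)
    · exact mul_le_mul_of_nonneg_right hv.2 (norm_nonneg _)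
  have hfi : Integrable f μ := Integrable.of_bound hfm.aestronglyMeasurable _ hfb
  -- constants
  set C0 : ℝ := 4 * ((‖e‖ * b) ^ 2 * ‖u‖ ^ 2) / (r0 * a)
    + β * ((‖e‖ * b) ^ 2 * ‖u‖ ^ 2 / (2 * a)) with hC0
  have hC0n : 0 ≤ C0 := by positivity
  refine quad_zero (∫ v, f v ∂μ) (C0 * μ.real univ) (by positivity) ?_
  intro s
  set A : EE n →L[ℝ] EE n := ContinuousLinearMap.id ℝ (EE n) + (innerSL ℝ e).smulRight (s • u)
    with hA
  have hdet : A.det = 1 := by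
    rw [hA, (h1 n hn1).1 e (s • u), inner_smul_right, real_inner_comm, hue]
    ring
  have hAv : ∀ v, A v = v + (s * inner ℝ e v) • u := by
    intro v
    simp only [hA, ContinuousLinearMap.add_apply, ContinuousLinearMap.id_apply,
      ContinuousLinearMap.smulRight_apply, innerSL_apply_apply]
    rw [smul_smul, mul_comm]
  have hm := hmin w A hw hdet
  unfold Psi at hm
  obtain ⟨i1, i2, _⟩ := h4 n m μ t β b w A hn1 ht hw hb'
  obtain ⟨j1, j2, _⟩ := h4 n m μ t β b w (ContinuousLinearMap.id ℝ (EE n)) hn1 ht hw hb'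
  have hpt : ∀ᵐ v ∂μ, hs (MW t w) (A v) + β * ‖A v‖ ≤
      (hs (MW t w) ((ContinuousLinearMap.id ℝ (EE n)) v)
        + β * ‖(ContinuousLinearMap.id ℝ (EE n)) v‖) + (s * f v + s ^ 2 * C0) := by
    filter_upwards [hab] with v hv
    have hvpos : 0 < ‖v‖ := lt_of_lt_of_le ha hv.1
    have hv0 : v ≠ 0 := norm_pos_iff.1 hvpos
    have hhv : r0 * a ≤ hs (MW t w) v :=
      (mul_le_mul_of_nonneg_left hv.1 hr0pos.le).trans (hs_low r0 v hr0pos.le hball)
    have hhpos : 0 < hs (MW t w) v := lt_of_lt_of_le (mul_pos hr0pos ha) hhv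
    rw [hAv v, ContinuousLinearMap.id_apply]
    set η : EE n := (s * inner ℝ e v) • u with hη
    have e1 := hsm.up v η hv0
    have e2 := norm_quad v η hvpos
    have hη2 : ‖η‖ ^ 2 ≤ s ^ 2 * ((‖e‖ * b) ^ 2 * ‖u‖ ^ 2) := by
      rw [hη, norm_smul, mul_pow, Real.norm_eq_abs, sq_abs, mul_pow]
      have e3 : (inner ℝ e v) ^ 2 ≤ (‖e‖ * b) ^ 2 := by
        rw [← sq_abs]
        refine pow_le_pow_left₀ (abs_nonneg _) ?_ 2
        exact (abs_real_inner_le_norm e v).trans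
          (mul_le_mul_of_nonneg_left hv.2 (norm_nonneg _))
      have e4 := mul_le_mul_of_nonneg_left e3 (sq_nonneg s)
      have e5 := mul_le_mul_of_nonneg_right e4 (sq_nonneg ‖u‖)
      linarith
    have e6 : 4 * ‖η‖ ^ 2 / hs (MW t w) v
        ≤ s ^ 2 * (4 * ((‖e‖ * b) ^ 2 * ‖u‖ ^ 2) / (r0 * a)) := by
      calc 4 * ‖η‖ ^ 2 / hs (MW t w) v ≤ 4 * ‖η‖ ^ 2 / (r0 * a) :=
            div_le_div_of_nonneg_left (by positivity) (by positivity) hhv
        _ ≤ (4 * (s ^ 2 * ((‖e‖ * b) ^ 2 * ‖u‖ ^ 2))) / (r0 * a) :=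
            div_le_div_of_nonneg_right (by linarith) (by positivity)
        _ = _ := by ring
    have e7 : ‖η‖ ^ 2 / (2 * ‖v‖) ≤ s ^ 2 * ((‖e‖ * b) ^ 2 * ‖u‖ ^ 2 / (2 * a)) := by
      calc ‖η‖ ^ 2 / (2 * ‖v‖) ≤ ‖η‖ ^ 2 / (2 * a) :=
            div_le_div_of_nonneg_left (by positivity) (by positivity) (by linarith [hv.1])
        _ ≤ (s ^ 2 * ((‖e‖ * b) ^ 2 * ‖u‖ ^ 2)) / (2 * a) :=
            div_le_div_of_nonneg_right hη2 (by positivity)
        _ = _ := by ring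
    have e8 : inner ℝ (x v) η + β * (inner ℝ v η / ‖v‖) = s * f v := by
      simp only [hf, hη]
      rw [inner_smul_right, inner_smul_right, inner_add_left, inner_smul_left,
        real_inner_comm v e]
      simp only [conj_trivial]
      ring
    have e9 : β * ‖v + η‖ ≤ β * (‖v‖ + inner ℝ v η / ‖v‖ + ‖η‖ ^ 2 / (2 * ‖v‖)) :=
      mul_le_mul_of_nonneg_left e2 hβ.le
    have e10 : β * (‖η‖ ^ 2 / (2 * ‖v‖)) ≤ β * (s ^ 2 * ((‖e‖ * b) ^ 2 * ‖u‖ ^ 2 / (2 * a))) :=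
      mul_le_mul_of_nonneg_left e7 hβ.le
    have e11 : s ^ 2 * C0 = s ^ 2 * (4 * ((‖e‖ * b) ^ 2 * ‖u‖ ^ 2) / (r0 * a))
        + β * (s ^ 2 * ((‖e‖ * b) ^ 2 * ‖u‖ ^ 2 / (2 * a))) := by
      rw [hC0]; ring
    rw [e11]
    linarith
  have hi1 : Integrable (fun v => hs (MW t w) (A v) + β * ‖A v‖) μ := i1.add (i2.const_mul β)
  have hi2 : Integrable (fun v => hs (MW t w) ((ContinuousLinearMap.id ℝ (EE n)) v)
        + β * ‖(ContinuousLinearMap.id ℝ (EE n)) v‖) μ := j1.add (j2.const_mul β)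
  have hi3 : Integrable (fun v => s * f v + s ^ 2 * C0) μ :=
    (hfi.const_mul s).add (integrable_const _)
  have hint := integral_mono_ae hi1 (hi2.add hi3) hpt
  have hsplit : ∫ v, ((fun v => hs (MW t w) ((ContinuousLinearMap.id ℝ (EE n)) v)
        + β * ‖(ContinuousLinearMap.id ℝ (EE n)) v‖) + fun v => s * f v + s ^ 2 * C0) v ∂μ
      = ∫ v, (hs (MW t w) ((ContinuousLinearMap.id ℝ (EE n)) v)
        + β * ‖(ContinuousLinearMap.id ℝ (EE n)) v‖) ∂μ
        + (s * ∫ v, f v ∂μ + s ^ 2 * (C0 * μ.real univ)) := by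
    rw [integral_add' hi2 hi3, integral_add (hfi.const_mul s) (integrable_const _),
      integral_const_mul, integral_const, smul_eq_mul]
    ring
  rw [hsplit] at hint
  linarith

end PET
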