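import Pool.Agent.PET.Stmts

set_option autoImplicit false

namespace PET

open MeasureTheory Set Filter Topology
open scoped ENNReal Pointwise
open SBA (EE Body vl kap)

noncomputable section

theorem trm_proof (h1 : Stmt_MWB) (h2 : Stmt_HSB) : Stmt_TRM := by
  intro n m μ _ t β b w A hn ht hw hb
  obtain ⟨hB, -, hsub, -⟩ := h1 n m t w hn ht hw
  obtain ⟨-, -, -, -, hnn, hcont, -, hup, -⟩ := h2 n (MW t w) hB
  have hc1 : Continuous (fun v : EE n => hs (MW t w) (A v)) := hcont.comp A.continuous
  have hc2 : Continuous (fun v : EE n => ‖A v‖) := A.continuous.norm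
  have hI2 : Integrable (fun v => ‖A v‖) μ := by
    refine Integrable.of_bound hc2.aestronglyMeasurable (‖A‖ * b) ?_
    filter_upwards [hb] with v hv
    rw [norm_norm]
    exact (A.le_opNorm v).trans (mul_le_mul_of_nonneg_left hv (norm_nonneg A))
  have hI1 : Integrable (fun v => hs (MW t w) (A v)) μ := by
    refine hI2.mono' hc1.aestronglyMeasurable (Eventually.of_forall fun v => ?_)
    rw [Real.norm_of_nonneg (hnn _)]
    have := hup 1 (A v) hsub
    simpa using this
  refine ⟨hI1, hI2, fun B => ?_⟩
  have hc : Continuous (fun v : EE n => hs (MW t w) (B v) + β * ‖B v‖) :=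
    (hcont.comp B.continuous).add (continuous_const.mul B.continuous.norm)
  unfold Psi
  rw [integral_map A.continuous.measurable.aemeasurable hc.aestronglyMeasurable]
  rfl

end

end PET
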