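import Pool.Agent.PET.Stmts

/-!
# PET, module TRN: translations
-/

namespace PET

open MeasureTheory Set Filter Topology
open scoped ENNReal Pointwise
open SBA (EE Body vl kap)

noncomputable section

namespace TRN_

/-- the projection of a translate is a translate of the projection -/
lemma prj_tr {n : ℕ} (K : Set (EE n)) (z u : EE n) :
    prj ((fun x => z + x) '' K) u =
      (fun y => ((ℝ ∙ u)ᗮ).orthogonalProjectionOnto z + y) '' prj K u := by
  unfold prj
  rw [image_image, image_image]
  simp only [map_add]

lemma vol_tr {n : ℕ} (K : Set (EE n)) (z u : EE n) :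
    volume (prj ((fun x => z + x) '' K) u) = volume (prj K u) := by
  rw [prj_tr, image_add_left, measure_preimage_add]

end TRN_

theorem trn_proof : Stmt_TRN := by
  intro n K hc hk hi
  obtain ⟨z, hz⟩ := hi
  refine ⟨(fun x => -z + x) '' K, ⟨?_, ?_, ?_⟩, ?_, ?_⟩
  · exact hc.translate (-z)
  · exact hk.image (continuous_const.add continuous_id)
  · have h : interior ((fun x => -z + x) '' K) = (fun x => -z + x) '' interior K :=
      ((Homeomorph.addLeft (-z)).image_interior K).symm
    rw [h]
    exact ⟨z, hz, by simp⟩
  · unfold vl
    rw [image_add_left, measure_preimage_add]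
  · unfold PiB
    simp only [TRN_.vol_tr]

end

end PET
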