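import Pool.Agent.PET.Stmts

set_option autoImplicit false

namespace PET

open MeasureTheory Set
open scoped ENNReal Pointwise
open SBA (EE Body vl kap)

theorem ucv_proof (h1 : Stmt_MWB) (h2 : Stmt_HSB) : Stmt_UCV := by
  intro n m t w hn ht hw x hx x' hx' v
  obtain ⟨hB, -, -, -⟩ := h1 n m t w hn ht hw
  have hle := (h2 n _ hB).2.1
  set d := ‖x - x'‖ with hd
  set q : ℝ := 1 - d ^ 2 / 8 with hq
  set z : EE n := (1 / 2 : ℝ) • (x + x') with hz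
  have hd0 : 0 ≤ d := norm_nonneg _
  have hd2 : d ≤ 2 := by
    have := norm_sub_le x x'
    have ha := hx.1
    have hb := hx'.1
    linarith
  have hq1 : 1 / 2 ≤ q := by rw [hq]; nlinarith
  have hq0 : 0 < q := by linarith
  have hq2 : 1 - d ^ 2 / 4 ≤ q ^ 2 := by rw [hq]; nlinarith [sq_nonneg (d ^ 2)]
  have hzn : ‖z‖ ^ 2 = (‖x‖ ^ 2 + ‖x'‖ ^ 2) / 2 - d ^ 2 / 4 := by
    have e1 : ‖z‖ ^ 2 = 1 / 4 * ‖x + x'‖ ^ 2 := by
      rw [hz, norm_smul, mul_pow]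
      norm_num
    have e2 := norm_add_sq_real x x'
    have e3 := norm_sub_sq_real x x'
    rw [e1, e2, hd, e3]
    ring
  have hxs : ‖x‖ ^ 2 ≤ 1 := by
    have := pow_le_pow_left₀ (norm_nonneg x) hx.1 2
    simpa using this
  have hxs' : ‖x'‖ ^ 2 ≤ 1 := by
    have := pow_le_pow_left₀ (norm_nonneg x') hx'.1 2
    simpa using this
  have hz1 : ‖z‖ ^ 2 ≤ q ^ 2 := by rw [hzn]; linarith
  have hz2 : ∀ j, ‖z‖ ^ 2 + n / t ^ 2 * (inner ℝ z (w j)) ^ 2 ≤ q ^ 2 := by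
    intro j
    have e1 : inner ℝ z (w j) = (inner ℝ x (w j) + inner ℝ x' (w j)) / 2 := by
      rw [hz, real_inner_smul_left, inner_add_left]; ring
    have e2 : (inner ℝ z (w j)) ^ 2 ≤
        ((inner ℝ x (w j)) ^ 2 + (inner ℝ x' (w j)) ^ 2) / 2 := by
      rw [e1]
      nlinarith [sq_nonneg ((inner ℝ x (w j) : ℝ) - inner ℝ x' (w j))]
    have e3 : (0 : ℝ) ≤ n / t ^ 2 := by positivity
    have e4 := mul_le_mul_of_nonneg_left e2 e3
    have e5 := hx.2 j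
    have e6 := hx'.2 j
    rw [hzn]
    linarith
  have hmem : q⁻¹ • z ∈ MW t w := by
    have hqi : (q⁻¹) ^ 2 * q ^ 2 = 1 := by
      rw [← mul_pow, inv_mul_cancel₀ hq0.ne', one_pow]
    have hqi0 : 0 ≤ (q⁻¹) ^ 2 := by positivity
    have e0 : ‖q⁻¹ • z‖ ^ 2 = (q⁻¹) ^ 2 * ‖z‖ ^ 2 := by
      rw [norm_smul, mul_pow, Real.norm_eq_abs, sq_abs]
    refine ⟨?_, fun j => ?_⟩
    · have e1 : ‖q⁻¹ • z‖ ^ 2 ≤ 1 := by
        rw [e0, ← hqi]
        exact mul_le_mul_of_nonneg_left hz1 hqi0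
      have := abs_le_of_sq_le_sq (a := ‖q⁻¹ • z‖) (b := 1) (by simpa using e1) (by norm_num)
      exact (le_abs_self _).trans this
    · have e1 : inner ℝ (q⁻¹ • z) (w j) = q⁻¹ * inner ℝ z (w j) := real_inner_smul_left _ _ _
      rw [e0, e1, mul_pow]
      have e2 := mul_le_mul_of_nonneg_left (hz2 j) hqi0
      rw [hqi] at e2
      linarith
  have e1 := hle v _ hmem
  rw [real_inner_smul_left] at e1
  have e2 := mul_le_mul_of_nonneg_left e1 hq0.le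
  rw [← mul_assoc, mul_inv_cancel₀ hq0.ne', one_mul] at e2
  exact e2

end PET
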