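import Pool.Agent.PET.Stmts

set_option autoImplicit false

/-! MP_0bf616_gt, module VFN: volume of the zonoid from below, abstract form -/

namespace PET

open MeasureTheory Set Filter Topology
open scoped ENNReal Pointwise
open SBA (EE Body vl kap)

namespace VFN_

theorem sqrt_e_pow (n : ℕ) : √(Real.exp 1) ^ n = Real.exp ((n : ℝ) / 2) := by
  rw [Real.sqrt_eq_rpow, ← Real.exp_mul, ← Real.exp_nat_mul]
  congr 1
  ring

theorem zero_mem {n : ℕ} {Z : Set (EE n)} (hZ : Body Z) : (0 : EE n) ∈ Z := by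
  obtain ⟨x, hx⟩ := hZ.nonempty_interior
  have h1 := interior_subset hx
  have h2 := hZ.symm x h1
  have h3 := hZ.convex h1 h2 (a := 1 / 2) (b := 1 / 2) (by norm_num) (by norm_num) (by norm_num)
  have h4 : (1 / 2 : ℝ) • x + (1 / 2 : ℝ) • (-x) = 0 := by
    rw [smul_neg]; exact add_neg_cancel _
  rwa [h4] at h3

/-- `l y ∈ (1 + ρ/l) Z` -/
theorem mem_dil {n : ℕ} {Z : Set (EE n)} (hZ : Body Z) {l κ : ℝ} (hl : 0 < l) (hκ : 0 < κ)
    (hball : Metric.closedBall 0 l ⊆ Z) {p y : EE n} (hp : p ∈ Z)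
    (hy : ‖p - l • y‖ ≤ κ * l) : l • y ∈ (1 + κ) • Z := by
  have hq : κ⁻¹ • (l • y - p) ∈ Z := by
    apply hball
    rw [mem_closedBall_zero_iff, norm_smul, norm_sub_rev, Real.norm_eq_abs,
      abs_of_pos (inv_pos.2 hκ)]
    calc κ⁻¹ * ‖p - l • y‖ ≤ κ⁻¹ * (κ * l) :=
          mul_le_mul_of_nonneg_left hy (inv_pos.2 hκ).le
      _ = l := by field_simp
  have h1 : (0 : ℝ) < 1 + κ := by linarith
  have h3 := hZ.convex hp hq (a := 1 / (1 + κ)) (b := κ / (1 + κ)) (by positivity)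
    (by positivity) (by field_simp)
  rw [Set.mem_smul_set]
  refine ⟨_, h3, ?_⟩
  rw [smul_add, smul_smul, smul_smul, smul_smul]
  have e1 : (1 + κ) * (1 / (1 + κ)) = 1 := by field_simp
  have e2 : (1 + κ) * (κ / (1 + κ) * κ⁻¹) = 1 := by field_simp
  have e2' : (1 + κ) * (κ / (1 + κ)) * κ⁻¹ = 1 := by field_simp
  first
    | rw [e1, e2, one_smul, one_smul]
      abel
    | rw [e1, e2', one_smul, one_smul]
      abel

end VFN_

open VFN_ in
theorem vfn_proof (h1 : Stmt_COV) (h2 : Stmt_GVB) : Stmt_VFN := by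
  intro n Z A p l δ s hn hZ hl hδ hs hball hp hA hpA hgA
  have hn0 : (0 : ℝ) < n := by exact_mod_cast hn
  have hsn : 0 < √(n : ℝ) := Real.sqrt_pos.2 hn0
  obtain ⟨κ, hκd⟩ : ∃ κ, κ = 2 * δ * √(n : ℝ) := ⟨_, rfl⟩
  have hκ : 0 < κ := by rw [hκd]; positivity
  obtain ⟨ρ, hρd⟩ : ∃ ρ, ρ = κ * l := ⟨_, rfl⟩
  have hρ : 0 < ρ := by rw [hρd]; positivity
  obtain ⟨σ, hσd⟩ : ∃ σ, σ = s * l / (1 + κ) := ⟨_, rfl⟩
  have hσ : 0 < σ := by rw [hσd]; positivity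
  have hpA' : ∀ y ∈ A, ‖p y - l • y‖ ≤ κ * l := by
    intro y hy
    have := hpA y hy
    have e : κ * l = 2 * l * δ * √(n : ℝ) := by rw [hκd]; ring
    rw [e]; exact this
  -- A is contained in the sets
  have hsub1 : A ⊆ {y | σ • y ∈ s • Z} := by
    intro y hy
    have h := mem_dil hZ hl hκ hball (hp y) (hpA' y hy)
    rw [Set.mem_smul_set] at h
    obtain ⟨z, hz, hzy⟩ := h
    show σ • y ∈ s • Z
    rw [Set.mem_smul_set]
    refine ⟨z, hz, ?_⟩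
    have e1 : σ • y = (s / (1 + κ)) • (l • y) := by
      rw [smul_smul, hσd]
      congr 1
      ring
    rw [e1, ← hzy, smul_smul]
    congr 1
    field_simp
  have hsub2 : l • A ⊆ Z + Metric.closedBall (0 : EE n) ρ := by
    intro q hq
    rw [Set.mem_smul_set] at hq
    obtain ⟨y, hy, rfl⟩ := hq
    rw [Set.mem_add]
    refine ⟨p y, hp y, l • y - p y, ?_, by abel⟩
    rw [mem_closedBall_zero_iff, norm_sub_rev, hρd]
    exact hpA' y hy
  have hcov := h1 n Z s σ ρ hn hZ hs hσ hρ.le (hgA.trans (measure_mono hsub1))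
  have hgvb := h2 n A hn hA hgA
  have hcpt : IsCompact (Z + Metric.closedBall (0 : EE n) ρ) :=
    hZ.compact.add (isCompact_closedBall _ _)
  have hfin : volume (Z + Metric.closedBall (0 : EE n) ρ) ≠ ⊤ := hcpt.measure_lt_top.ne
  -- lower bound of the volume of the sum
  have hvol : 5 / 8 * √(2 * Real.pi) ^ n * Real.exp ((n - 4 * √(n : ℝ)) / 2) * l ^ n ≤
      vl (Z + Metric.closedBall (0 : EE n) ρ) := by
    have e1 : volume (l • A) = ENNReal.ofReal (l ^ n) * volume A := by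
      rw [Measure.addHaar_smul, finrank_euclideanSpace, Fintype.card_fin,
        abs_of_pos (by positivity)]
    have e2 : ENNReal.ofReal (l ^ n) * ENNReal.ofReal (5 / 8 * √(2 * Real.pi) ^ n *
        Real.exp ((n - 4 * √(n : ℝ)) / 2)) ≤ volume (Z + Metric.closedBall (0 : EE n) ρ) := by
      calc _ ≤ ENNReal.ofReal (l ^ n) * volume A := by gcongr
        _ = volume (l • A) := e1.symm
        _ ≤ _ := measure_mono hsub2
    rw [← ENNReal.ofReal_mul (by positivity)] at e2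
    have e3 := (ENNReal.ofReal_le_iff_le_toReal hfin).1 e2
    unfold vl
    calc _ = _ := by ring
      _ ≤ _ := e3
  have hexp : Real.exp ((n - 4 * √(n : ℝ)) / 2) =
      √(Real.exp 1) ^ n * Real.exp (-(2 * √(n : ℝ))) := by
    rw [sqrt_e_pow, ← Real.exp_add]
    congr 1
    ring
  have hρσ : ρ ^ 2 / (2 * σ ^ 2) = 2 * n * δ ^ 2 * (1 + 2 * δ * √(n : ℝ)) ^ 2 / s ^ 2 := by
    have e1 : (√(n : ℝ)) ^ 2 = n := Real.sq_sqrt hn0.le
    rw [hρd, hσd]
    have e2 : (κ * l) ^ 2 / (2 * (s * l / (1 + κ)) ^ 2) = κ ^ 2 * (1 + κ) ^ 2 / (2 * s ^ 2) := by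
      field_simp
    rw [e2, ← hκd]
    have e3 : κ ^ 2 = 4 * δ ^ 2 * n := by
      rw [hκd]
      calc (2 * δ * √(n : ℝ)) ^ 2 = 4 * δ ^ 2 * (√(n : ℝ)) ^ 2 := by ring
        _ = _ := by rw [e1]
    rw [e3]
    field_simp
    ring
  have hfinal : 3 / 4 * Real.exp (-(ρ ^ 2 / (2 * σ ^ 2))) *
      (5 / 8 * √(2 * Real.pi) ^ n * Real.exp ((n - 4 * √(n : ℝ)) / 2) * l ^ n) ≤
      (1 + s) ^ n * vl Z := by
    refine le_trans ?_ hcov
    exact mul_le_mul_of_nonneg_left hvol (by positivity)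
  have hs1 : (0 : ℝ) < (1 + s) ^ n := by positivity
  have hsplit : Real.exp (-(2 * √(n : ℝ)) -
      2 * n * δ ^ 2 * (1 + 2 * δ * √(n : ℝ)) ^ 2 / s ^ 2) =
      Real.exp (-(2 * √(n : ℝ))) * Real.exp (-(ρ ^ 2 / (2 * σ ^ 2))) := by
    rw [hρσ, ← Real.exp_add]
    congr 1
  rw [hsplit]
  rw [hexp] at hfinal
  have e5 : 15 / 32 * (l * √(2 * Real.pi) * √(Real.exp 1)) ^ n * ((1 + s) ^ n)⁻¹ *
      (Real.exp (-(2 * √(n : ℝ))) * Real.exp (-(ρ ^ 2 / (2 * σ ^ 2)))) =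
      ((1 + s) ^ n)⁻¹ * (3 / 4 * Real.exp (-(ρ ^ 2 / (2 * σ ^ 2))) *
      (5 / 8 * √(2 * Real.pi) ^ n * (√(Real.exp 1) ^ n * Real.exp (-(2 * √(n : ℝ)))) * l ^ n)) := by
    rw [mul_pow, mul_pow]
    ring
  rw [e5]
  calc ((1 + s) ^ n)⁻¹ * (3 / 4 * Real.exp (-(ρ ^ 2 / (2 * σ ^ 2))) *
      (5 / 8 * √(2 * Real.pi) ^ n * (√(Real.exp 1) ^ n * Real.exp (-(2 * √(n : ℝ)))) * l ^ n))
      ≤ ((1 + s) ^ n)⁻¹ * ((1 + s) ^ n * vl Z) :=
        mul_le_mul_of_nonneg_left hfinal (inv_pos.2 hs1).le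
    _ = vl Z := by rw [← mul_assoc, inv_mul_cancel₀ hs1.ne', one_mul]

end PET
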