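import Pool.Agent.PET.Stmts

/-!
# VHS: second moment bounds in good position
-/

set_option autoImplicit false

namespace PET

open MeasureTheory Set Filter
open SBA (EE Body vl kap)

namespace VHS_

variable {n : ℕ} {μ : Measure (EE n)}

lemma int_norm [IsFiniteMeasure μ] {b : ℝ} (hb : ∀ᵐ v ∂μ, ‖v‖ ≤ b) :
    Integrable (fun v : EE n => ‖v‖) μ := by
  refine Integrable.of_bound (by fun_prop) b ?_
  filter_upwards [hb] with v hv
  rwa [norm_norm]

lemma pt (v e : EE n) : (inner ℝ v e) ^ 2 / ‖v‖ ≤ ‖v‖ * ‖e‖ ^ 2 := by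
  by_cases hv : v = 0
  · simp [hv]
  have hv0 : 0 < ‖v‖ := norm_pos_iff.2 hv
  rw [div_le_iff₀ hv0]
  have h := abs_real_inner_le_norm v e
  have h2 : (inner ℝ v e) ^ 2 ≤ (‖v‖ * ‖e‖) ^ 2 := by
    rw [← sq_abs]
    exact pow_le_pow_left₀ (abs_nonneg _) h 2
  calc (inner ℝ v e) ^ 2 ≤ (‖v‖ * ‖e‖) ^ 2 := h2
    _ = ‖v‖ * ‖e‖ ^ 2 * ‖v‖ := by ring

lemma int_sq [IsFiniteMeasure μ] {b : ℝ} (hb : ∀ᵐ v ∂μ, ‖v‖ ≤ b) (e : EE n) :
    Integrable (fun v : EE n => (inner ℝ v e) ^ 2 / ‖v‖) μ := by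
  refine Integrable.of_bound ?_ (b * ‖e‖ ^ 2) ?_
  · refine Measurable.aestronglyMeasurable ?_
    fun_prop
  · filter_upwards [hb] with v hv
    rw [Real.norm_of_nonneg (div_nonneg (sq_nonneg _) (norm_nonneg _))]
    exact (pt v e).trans (mul_le_mul_of_nonneg_right hv (sq_nonneg _))

lemma norm_eq (v : EE n) :
    ‖v‖ = ∑ i, (inner ℝ v (EuclideanSpace.basisFun (Fin n) ℝ i)) ^ 2 / ‖v‖ := by
  rw [← Finset.sum_div]
  by_cases hv : v = 0
  · simp [hv]
  have hv0 : 0 < ‖v‖ := norm_pos_iff.2 hv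
  rw [eq_div_iff hv0.ne', ← sq, EuclideanSpace.norm_sq_eq]
  refine Finset.sum_congr rfl fun i _ => ?_
  rw [EuclideanSpace.basisFun_apply, EuclideanSpace.inner_single_right]
  simp

lemma amgm (n : ℕ) (hn : 1 ≤ n) (a c : ℝ) (ha : 0 ≤ a) (hc : |c| ≤ a) :
    |c| ≤ 1 / 2 * (√n * (c ^ 2 / a) + a / √n) := by
  have hn0 : (0 : ℝ) < n := by exact_mod_cast hn
  have hs : 0 < √(n : ℝ) := Real.sqrt_pos.2 hn0
  by_cases h0 : a = 0
  · subst h0
    have : |c| = 0 := le_antisymm hc (abs_nonneg _)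
    rw [this]
    positivity
  have ha0 : 0 < a := lt_of_le_of_ne ha (Ne.symm h0)
  have hkey : 0 ≤ (√n * |c| - a) ^ 2 := sq_nonneg _
  have e1 : 1 / 2 * (√n * (c ^ 2 / a) + a / √n) - |c| =
      (√n * |c| - a) ^ 2 / (2 * √n * a) := by
    have hc2 : c ^ 2 = |c| ^ 2 := (sq_abs c).symm
    rw [hc2]
    field_simp
    ring
  have : 0 ≤ 1 / 2 * (√n * (c ^ 2 / a) + a / √n) - |c| := by
    rw [e1]; positivity
  linarith

end VHS_

theorem vhs_proof : Stmt_VHS := by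
  intro n μ _ x β ε θ lam hn hβ hlam hGP
  obtain ⟨a, b, ha, hab⟩ := hGP.bd
  have hb : ∀ᵐ v ∂μ, ‖v‖ ≤ b := hab.mono fun v hv => hv.2
  have hI := VHS_.int_norm hb
  have hS0 : 0 ≤ ∫ v, ‖v‖ ∂μ := integral_nonneg fun v => norm_nonneg _
  have hlb : 0 < lam / β := div_pos hlam hβ
  have hn0 : (0 : ℝ) < n := by exact_mod_cast hn
  have hsn : 0 < √(n : ℝ) := Real.sqrt_pos.2 hn0
  -- first bound
  have h1 : ∫ v, ‖v‖ ∂μ ≤ n * lam / β := by
    calc ∫ v, ‖v‖ ∂μ = ∫ v, ∑ i, (inner ℝ v (EuclideanSpace.basisFun (Fin n) ℝ i)) ^ 2 / ‖v‖ ∂μ :=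
          integral_congr_ae (Filter.Eventually.of_forall fun v => VHS_.norm_eq v)
      _ = ∑ i, ∫ v, (inner ℝ v (EuclideanSpace.basisFun (Fin n) ℝ i)) ^ 2 / ‖v‖ ∂μ :=
          integral_finsetSum _ fun i _ => VHS_.int_sq hb _
      _ ≤ ∑ _i : Fin n, lam / β := by
          refine Finset.sum_le_sum fun i _ => ?_
          have h := hGP.vbd (EuclideanSpace.basisFun (Fin n) ℝ i)
          simpa using h
      _ = n * lam / β := by
          rw [Finset.sum_const, Finset.card_univ, Fintype.card_fin, nsmul_eq_mul]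
          ring
  -- inner integral
  have hin : ∀ v : EE n, ∫ v', (inner ℝ v v') ^ 2 / (‖v‖ * ‖v'‖) ∂μ ≤ lam / β * ‖v‖ := by
    intro v
    by_cases hv : v = 0
    · simp [hv]
    have hv0 : 0 < ‖v‖ := norm_pos_iff.2 hv
    have e : ∀ v' : EE n, (inner ℝ v v') ^ 2 / (‖v‖ * ‖v'‖) =
        ‖v‖⁻¹ * ((inner ℝ v' v) ^ 2 / ‖v'‖) := by
      intro v'
      rw [real_inner_comm v' v, div_mul_eq_div_div, div_div, mul_comm ‖v‖ ‖v'‖, ← div_div]
      ring
    simp_rw [e]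
    rw [integral_const_mul]
    calc ‖v‖⁻¹ * ∫ v', (inner ℝ v' v) ^ 2 / ‖v'‖ ∂μ ≤ ‖v‖⁻¹ * (lam / β * ‖v‖ ^ 2) :=
          mul_le_mul_of_nonneg_left (hGP.vbd v) (inv_nonneg.2 hv0.le)
      _ = lam / β * ‖v‖ := by field_simp
  have hinI : ∀ v : EE n, Integrable (fun v' : EE n => (inner ℝ v v') ^ 2 / (‖v‖ * ‖v'‖)) μ := by
    intro v
    have e : (fun v' : EE n => (inner ℝ v v') ^ 2 / (‖v‖ * ‖v'‖)) =
        fun v' => ‖v‖⁻¹ * ((inner ℝ v' v) ^ 2 / ‖v'‖) := by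
      funext v'
      rw [real_inner_comm v' v, mul_comm ‖v‖ ‖v'‖, ← div_div]
      ring
    rw [e]
    exact (VHS_.int_sq hb v).const_mul _
  refine ⟨h1, ?_, ?_⟩
  · calc ∫ v, ∫ v', (inner ℝ v v') ^ 2 / (‖v‖ * ‖v'‖) ∂μ ∂μ ≤ ∫ v, lam / β * ‖v‖ ∂μ := by
          refine integral_mono_of_nonneg ?_ (hI.const_mul _) ?_
          · exact Filter.Eventually.of_forall fun v => integral_nonneg fun v' => by positivity
          · exact Filter.Eventually.of_forall hin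
      _ = lam / β * ∫ v, ‖v‖ ∂μ := integral_const_mul _ _
      _ ≤ lam / β * (n * lam / β) := mul_le_mul_of_nonneg_left h1 hlb.le
      _ = n * lam ^ 2 / β ^ 2 := by field_simp
  · have hin2 : ∀ v : EE n, ∫ v', |inner ℝ v v'| ∂μ ≤
        1 / 2 * (√n * (lam / β) + (∫ v', ‖v'‖ ∂μ) / √n) * ‖v‖ := by
      intro v
      have hg : Integrable (fun v' : EE n => 1 / 2 * (√n * ((inner ℝ v v') ^ 2 / (‖v‖ * ‖v'‖)) +
          ‖v‖ * ‖v'‖ / √n)) μ :=
        (((hinI v).const_mul _).add ((hI.const_mul ‖v‖).div_const _)).const_mul _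
      calc ∫ v', |inner ℝ v v'| ∂μ ≤ ∫ v', 1 / 2 * (√n * ((inner ℝ v v') ^ 2 / (‖v‖ * ‖v'‖)) +
            ‖v‖ * ‖v'‖ / √n) ∂μ := by
            refine integral_mono_of_nonneg ?_ hg ?_
            · exact Filter.Eventually.of_forall fun v' => abs_nonneg _
            · exact Filter.Eventually.of_forall fun v' =>
                VHS_.amgm n hn (‖v‖ * ‖v'‖) (inner ℝ v v') (by positivity)
                  (abs_real_inner_le_norm v v')
        _ = 1 / 2 * (√n * ∫ v', (inner ℝ v v') ^ 2 / (‖v‖ * ‖v'‖) ∂μ +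
            ‖v‖ * (∫ v', ‖v'‖ ∂μ) / √n) := by
            rw [integral_const_mul, integral_add ((hinI v).const_mul _)
              ((hI.const_mul ‖v‖).div_const _), integral_const_mul, integral_div,
              integral_const_mul]
        _ ≤ 1 / 2 * (√n * (lam / β * ‖v‖) + ‖v‖ * (∫ v', ‖v'‖ ∂μ) / √n) := by
            have := mul_le_mul_of_nonneg_left (hin v) hsn.le
            linarith
        _ = 1 / 2 * (√n * (lam / β) + (∫ v', ‖v'‖ ∂μ) / √n) * ‖v‖ := by ring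
    calc ∫ v, ∫ v', |inner ℝ v v'| ∂μ ∂μ
        ≤ ∫ v, 1 / 2 * (√n * (lam / β) + (∫ v', ‖v'‖ ∂μ) / √n) * ‖v‖ ∂μ := by
          refine integral_mono_of_nonneg ?_ (hI.const_mul _) ?_
          · exact Filter.Eventually.of_forall fun v => integral_nonneg fun v' => abs_nonneg _
          · exact Filter.Eventually.of_forall hin2
      _ = 1 / 2 * (√n * (lam / β) + (∫ v', ‖v'‖ ∂μ) / √n) * ∫ v, ‖v‖ ∂μ :=
          integral_const_mul _ _
      _ ≤ 1 / 2 * (√n * (lam / β) + (n * lam / β) / √n) * (n * lam / β) := by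
          have hq : (∫ v', ‖v'‖ ∂μ) / √n ≤ (n * lam / β) / √n :=
            div_le_div_of_nonneg_right h1 hsn.le
          refine mul_le_mul ?_ h1 hS0 ?_
          · linarith
          · positivity
      _ = n * √n * lam ^ 2 / β ^ 2 := by
          have hs2 : √(n : ℝ) ^ 2 = n := Real.sq_sqrt hn0.le
          have e3 : (n * lam / β) / √n = √n * (lam / β) := by
            rw [div_eq_iff hsn.ne']
            have : √(n : ℝ) * (lam / β) * √n = √(n : ℝ) ^ 2 * (lam / β) := by ring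
            rw [this, hs2]; ring
          rw [e3]
          field_simp
          ring

end PET
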