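import Pool.Agent.PET.Stmts

/-!
# Squad PET (MP_0bf616_gt): the zonoid contains a ball
-/

namespace PET

open MeasureTheory Set
open scoped ENNReal Pointwise
open SBA (EE Body vl kap)

theorem zin_proof (h1 : Stmt_GPB) (h2 : Stmt_BBM) (h3 : Stmt_ZNB) : Stmt_ZIN := by
  intro n μ _ x β ε θ lam hn hβ hlam hG
  obtain ⟨a, b, ha, hab⟩ := hG.bd
  have hb : ∀ᵐ v ∂μ, ‖v‖ ≤ b := hab.mono fun v hv => hv.2
  obtain ⟨zc, zk, zs, z0⟩ := h3 n μ b hb
  obtain ⟨hbm, hb1⟩ := h2 n β x hβ hG.meas hG.nrm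
  obtain ⟨g1', g2, g3, g4⟩ := h1 n μ x β ε θ lam hn hβ hlam hG
  have hl0 : 0 < l0 β lam := by
    unfold l0
    positivity
  have hsq : (2 : ℝ) ≤ √(2 * Real.pi) := by
    refine Real.le_sqrt_of_sq_le ?_
    nlinarith [Real.pi_gt_three]
  have hl1 : l0 β lam ≤ 1 / 2 * (lam / (1 + β)) := by
    unfold l0
    rw [div_mul_div_comm, one_mul, mul_comm 2 (1 + β)]
    have h1b : 0 < 1 + β := by linarith
    refine div_le_div_of_nonneg_left hlam.le (by positivity) ?_
    exact mul_le_mul_of_nonneg_left hsq h1b.le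
  have key : ∀ u : EE n, l0 β lam * ‖u‖ ≤ 1 / 2 * ∫ v, |inner ℝ u v| ∂μ := by
    intro u
    by_cases hu : u = 0
    · subst hu
      simp
    have hu' : 0 < ‖u‖ := norm_pos_iff.2 hu
    have hint : Integrable (fun v : EE n => |inner ℝ u v|) μ := by
      refine Integrable.of_bound (C := ‖u‖ * b) (by fun_prop) ?_
      filter_upwards [hb] with v hv
      rw [Real.norm_eq_abs, abs_abs]
      exact (abs_real_inner_le_norm u v).trans (mul_le_mul_of_nonneg_left hv hu'.le)
    have e2 : lam / (1 + β) * (‖u‖ * ‖u‖) ≤ ‖u‖ * ∫ v, |inner ℝ u v| ∂μ := by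
      rw [← real_inner_self_eq_norm_mul_norm, ← g2 u u, ← integral_const_mul]
      refine integral_mono (g1' u u) (hint.const_mul _) fun v => ?_
      show inner ℝ (bb β x v) u * inner ℝ v u ≤ ‖u‖ * |inner ℝ u v|
      rw [real_inner_comm u v]
      refine (le_abs_self _).trans ?_
      rw [abs_mul]
      refine mul_le_mul_of_nonneg_right ?_ (abs_nonneg _)
      refine (abs_real_inner_le_norm _ _).trans ?_
      exact mul_le_of_le_one_left hu'.le (hb1 v)
    have e3 : lam / (1 + β) * ‖u‖ ≤ ∫ v, |inner ℝ u v| ∂μ := by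
      refine le_of_mul_le_mul_left ?_ hu'
      linarith
    have e4 : l0 β lam * ‖u‖ ≤ 1 / 2 * (lam / (1 + β)) * ‖u‖ :=
      mul_le_mul_of_nonneg_right hl1 hu'.le
    linarith
  have hball : Metric.closedBall 0 (l0 β lam) ⊆ Zn μ := by
    intro y hy u
    have hy' : ‖y‖ ≤ l0 β lam := by simpa using hy
    refine (real_inner_le_norm y u).trans ?_
    exact (mul_le_mul_of_nonneg_right hy' (norm_nonneg _)).trans (key u)
  refine ⟨⟨zc, zk, zs, ?_⟩, hball⟩
  refine ⟨0, ?_⟩
  rw [mem_interior_iff_mem_nhds]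
  exact Filter.mem_of_superset (Metric.closedBall_mem_nhds 0 hl0) hball

end PET
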