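import Pool.Agent.PET.Stmts

open MeasureTheory Set Filter
open scoped ENNReal Pointwise

namespace PET

open SBA (EE Body vl kap)

namespace ZNB_

lemma bound {n : ℕ} {μ : Measure (EE n)} [IsFiniteMeasure μ] {b : ℝ} (hb : ∀ᵐ v ∂μ, ‖v‖ ≤ b)
    (u : EE n) : ∫ v, |inner ℝ u v| ∂μ ≤ ‖u‖ * |b| * μ.real univ := by
  refine (le_abs_self _).trans ?_
  rw [← Real.norm_eq_abs]
  refine norm_integral_le_of_norm_le_const ?_
  filter_upwards [hb] with v hv
  rw [Real.norm_eq_abs, abs_abs]
  refine (abs_real_inner_le_norm u v).trans ?_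
  exact mul_le_mul_of_nonneg_left (hv.trans (le_abs_self b)) (norm_nonneg u)

lemma nonneg {n : ℕ} {μ : Measure (EE n)} (u : EE n) :
    0 ≤ 1 / 2 * ∫ v, |inner ℝ u v| ∂μ := by
  have : 0 ≤ ∫ v, |inner ℝ u v| ∂μ := integral_nonneg fun v => abs_nonneg _
  positivity

end ZNB_

theorem znb_proof : Stmt_ZNB := by
  intro n μ _ b hb
  refine ⟨?_, ?_, ?_, ?_⟩
  · intro x hx y hy a c ha hc hac u
    have h1 := mul_le_mul_of_nonneg_left (hx u) ha
    have h2 := mul_le_mul_of_nonneg_left (hy u) hc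
    rw [inner_add_left, real_inner_smul_left, real_inner_smul_left]
    have h3 : a * (1 / 2 * ∫ v, |inner ℝ u v| ∂μ) + c * (1 / 2 * ∫ v, |inner ℝ u v| ∂μ) =
        1 / 2 * ∫ v, |inner ℝ u v| ∂μ := by
      rw [← add_mul, hac, one_mul]
    linarith
  · refine Metric.isCompact_of_isClosed_isBounded ?_ ?_
    · have : Zn μ = ⋂ u : EE n, {x | inner ℝ x u ≤ 1 / 2 * ∫ v, |inner ℝ u v| ∂μ} := by
        ext x
        simp [Zn]
      rw [this]
      exact isClosed_iInter fun u => isClosed_le (by fun_prop) continuous_const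
    · rw [isBounded_iff_forall_norm_le]
      refine ⟨1 / 2 * (|b| * μ.real univ), fun x hx => ?_⟩
      have h1 := hx x
      have h2 := ZNB_.bound hb x
      rw [real_inner_self_eq_norm_sq] at h1
      rcases eq_or_lt_of_le (norm_nonneg x) with h0 | h0
      · rw [← h0]
        positivity
      · have : ‖x‖ * ‖x‖ ≤ ‖x‖ * (1 / 2 * (|b| * μ.real univ)) := by nlinarith
        exact le_of_mul_le_mul_left this h0
  · intro x hx u
    have h1 := hx (-u)
    rw [inner_neg_right] at h1
    rw [inner_neg_left]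
    simpa [inner_neg_left] using h1
  · intro u
    rw [inner_zero_left]
    exact ZNB_.nonneg u

end PET
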