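import Pool.Agent.SBA.Final
import Pool.Agent.PET.NUA
import Pool.Agent.PET.NUB
import Pool.Agent.PET.MWB
import Pool.Agent.PET.HSB
import Pool.Agent.PET.MWC
import Pool.Agent.PET.PSC
import Pool.Agent.PET.HSL
import Pool.Agent.PET.DTS
import Pool.Agent.PET.LOW
import Pool.Agent.PET.TRM
import Pool.Agent.PET.PSM
import Pool.Agent.PET.ADT
import Pool.Agent.PET.UCV
import Pool.Agent.PET.MXV
import Pool.Agent.PET.STO
import Pool.Agent.PET.STA
import Pool.Agent.PET.DIO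
import Pool.Agent.PET.DIA
import Pool.Agent.PET.ADS
import Pool.Agent.PET.SLA
import Pool.Agent.PET.PSL
import Pool.Agent.PET.PIG
import Pool.Agent.PET.POS
import Pool.Agent.PET.ZNB
import Pool.Agent.PET.CSA
import Pool.Agent.PET.GDS
import Pool.Agent.PET.SHF
import Pool.Agent.PET.COV
import Pool.Agent.PET.GNS
import Pool.Agent.PET.GVB
import Pool.Agent.PET.VFN
import Pool.Agent.PET.PHM
import Pool.Agent.PET.BBM
import Pool.Agent.PET.PPZ
import Pool.Agent.PET.JLW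
import Pool.Agent.PET.ABZ
import Pool.Agent.PET.GS1
import Pool.Agent.PET.EPY
import Pool.Agent.PET.SHP
import Pool.Agent.PET.GS2
import Pool.Agent.PET.EPP
import Pool.Agent.PET.ASN
import Pool.Agent.PET.GPB
import Pool.Agent.PET.EVA
import Pool.Agent.PET.AEV
import Pool.Agent.PET.VHS
import Pool.Agent.PET.PTW
import Pool.Agent.PET.BAD
import Pool.Agent.PET.RBD
import Pool.Agent.PET.RDE
import Pool.Agent.PET.ZIN
import Pool.Agent.PET.GPZ
import Pool.Agent.PET.CAP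
import Pool.Agent.PET.MWV
import Pool.Agent.PET.MML
import Pool.Agent.PET.MMM
import Pool.Agent.PET.GRK
import Pool.Agent.PET.POK
import Pool.Agent.PET.MIK
import Pool.Agent.PET.ISK
import Pool.Agent.PET.KAD
import Pool.Agent.PET.LIN
import Pool.Agent.PET.GLC
import Pool.Agent.PET.PRC
import Pool.Agent.PET.PRF
import Pool.Agent.PET.PBB
import Pool.Agent.PET.KPI
import Pool.Agent.PET.TRN
import Pool.Agent.PET.PNB
import Pool.Agent.PET.FNL

namespace PET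

theorem t_NUA : Stmt_NUA := nua_proof
theorem t_NUB : Stmt_NUB := nub_proof
theorem t_MWB : Stmt_MWB := mwb_proof
theorem t_HSB : Stmt_HSB := hsb_proof
theorem t_MWC : Stmt_MWC := mwc_proof t_MWB t_HSB
theorem t_PSC : Stmt_PSC := psc_proof t_MWC t_MWB t_HSB
theorem t_HSL : Stmt_HSL := hsl_proof t_HSB
theorem t_DTS : Stmt_DTS := dts_proof
theorem t_LOW : Stmt_LOW := low_proof t_HSB t_HSL t_DTS
theorem t_TRM : Stmt_TRM := trm_proof t_MWB t_HSB
theorem t_PSM : Stmt_PSM := psm_proof t_PSC t_LOW SBA.t_SNG t_MWB t_HSB t_TRM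
theorem t_ADT : Stmt_ADT := adt_proof t_HSB t_HSL
theorem t_UCV : Stmt_UCV := ucv_proof t_MWB t_HSB
theorem t_MXV : Stmt_MXV := mxv_proof t_UCV t_MWB t_HSB
theorem t_STO : Stmt_STO := sto_proof t_DTS t_MWB t_HSB t_TRM
theorem t_STA : Stmt_STA := sta_proof t_STO t_MWB t_TRM
theorem t_DIO : Stmt_DIO := dio_proof t_MWB t_HSB
theorem t_DIA : Stmt_DIA := dia_proof t_DIO t_DTS t_TRM
theorem t_ADS : Stmt_ADS := ads_proof t_MWB t_HSB
theorem t_SLA : Stmt_SLA := sla_proof t_ADS t_MWB t_HSB t_TRM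
theorem t_PSL : Stmt_PSL := psl_proof t_ADT t_MWB t_HSB t_HSL t_TRM
theorem t_PIG : Stmt_PIG := pig_proof
theorem t_POS : Stmt_POS := pos_proof t_PSM t_TRM t_ADT t_MXV t_STA t_DIA t_SLA t_PSL t_PIG t_DTS t_MWB t_HSL
theorem t_ZNB : Stmt_ZNB := znb_proof
theorem t_CSA : Stmt_CSA := csa_proof t_PSM t_TRM t_ADT t_MXV t_STA t_ZNB t_DTS t_MWB t_HSL
theorem t_GDS : Stmt_GDS := gds_proof SBA.t_GDN
theorem t_SHF : Stmt_SHF := shf_proof t_GDS
theorem t_COV : Stmt_COV := cov_proof t_SHF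
theorem t_GNS : Stmt_GNS := gns_proof SBA.t_GNM
theorem t_GVB : Stmt_GVB := gvb_proof t_GDS t_GNS
theorem t_VFN : Stmt_VFN := vfn_proof t_COV t_GVB
theorem t_PHM : Stmt_PHM := phm_proof
theorem t_BBM : Stmt_BBM := bbm_proof
theorem t_PPZ : Stmt_PPZ := ppz_proof t_PHM t_BBM
theorem t_JLW : Stmt_JLW := jlw_proof
theorem t_ABZ : Stmt_ABZ := abz_proof
theorem t_GS1 : Stmt_GS1 := gs1_proof t_JLW t_ABZ t_PHM
theorem t_EPY : Stmt_EPY := epy_proof t_GS1 t_PHM t_BBM t_PPZ t_GNS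
theorem t_SHP : Stmt_SHP := shp_proof
theorem t_GS2 : Stmt_GS2 := gs2_proof t_JLW t_SHP t_PHM
theorem t_EPP : Stmt_EPP := epp_proof t_GS2 t_PHM t_BBM t_PPZ
theorem t_ASN : Stmt_ASN := asn_proof
theorem t_GPB : Stmt_GPB := gpb_proof t_BBM
theorem t_EVA : Stmt_EVA := eva_proof t_EPY t_EPP t_ASN t_GNS t_GPB t_PPZ t_BBM
theorem t_AEV : Stmt_AEV := aev_proof t_PPZ t_EVA
theorem t_VHS : Stmt_VHS := vhs_proof
theorem t_PTW : Stmt_PTW := ptw_proof
theorem t_BAD : Stmt_BAD := bad_proof t_VHS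
theorem t_RBD : Stmt_RBD := rbd_proof t_VHS t_PTW t_BAD t_BBM
theorem t_RDE : Stmt_RDE := rde_proof t_EVA t_RBD
theorem t_ZIN : Stmt_ZIN := zin_proof t_GPB t_BBM t_ZNB
theorem t_GPZ : Stmt_GPZ := gpz_proof t_VFN t_AEV t_RDE t_ZIN t_PPZ
theorem t_CAP : Stmt_CAP := cap_proof
theorem t_MWV : Stmt_MWV := mwv_proof t_CAP t_MWB
theorem t_MML : Stmt_MML := mml_proof t_NUA t_NUB t_POS t_CSA t_GPZ t_MWV t_ADT SBA.t_KAP t_HSL
theorem t_MMM : Stmt_MMM := mmm_proof t_MML t_CSA t_HSL t_ADT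
theorem t_GRK : Stmt_GRK := grk_proof
theorem t_POK : Stmt_POK := pok_proof
theorem t_MIK : Stmt_MIK := mik_proof t_GRK t_POK t_HSB
theorem t_ISK : Stmt_ISK := isk_proof SBA.t_BMF t_MIK t_GRK t_HSB
theorem t_KAD : Stmt_KAD := kad_proof t_GRK t_ISK t_HSB
theorem t_LIN : Stmt_LIN := lin_proof
theorem t_GLC : Stmt_GLC := glc_proof
theorem t_PRC : Stmt_PRC := prc_proof
theorem t_PRF : Stmt_PRF := prf_proof SBA.t_DEC t_LIN t_GLC t_PRC t_GRK
theorem t_PBB : Stmt_PBB := pbb_proof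
theorem t_KPI : Stmt_KPI := kpi_proof t_PRF t_GRK t_PBB
theorem t_TRN : Stmt_TRN := trn_proof
theorem t_PNB : Stmt_PNB := pnb_proof SBA.t_KAP
theorem t_FNL : Stmt_FNL := fnl_proof t_MMM t_KAD t_KPI t_TRN t_PNB

end PET
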