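import Pool.Agent.PET.Stmts

/-!
Squad PET, module JLW: joint law of two noisy coordinates.
-/

set_option autoImplicit false

namespace PET

open MeasureTheory Set ProbabilityTheory
open scoped ENNReal Pointwise
open SBA (EE Body vl kap)

namespace JLW_

lemma lin (L : StrongDual ℝ (ℝ × ℝ)) (z : ℝ × ℝ) : L z = L (1, 0) * z.1 + L (0, 1) * z.2 := by
  have h : z = z.1 • ((1 : ℝ), (0 : ℝ)) + z.2 • ((0 : ℝ), (1 : ℝ)) := by
    ext <;> simp
  conv_lhs => rw [h]
  rw [map_add, map_smul, map_smul]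
  simp only [smul_eq_mul]
  ring

end JLW_

open JLW_ in
theorem jlw_proof : Stmt_JLW := by
  intro n b b' σ σ' s h1 h2
  have hm1 : Measurable (fun p : EE n × (ℝ × ℝ) =>
      ((inner ℝ b p.1 + σ * p.2.1, inner ℝ b' p.1 + σ' * p.2.2) : ℝ × ℝ)) := by fun_prop
  have hm2 : Measurable (fun z : ℝ × ℝ => (z.1, inner ℝ b b' * z.1 + s * z.2)) := by fun_prop
  have hg1 : IsProbabilityMeasure g1 := by unfold g1; infer_instance
  have hgS : IsProbabilityMeasure (gS n) := by unfold gS; infer_instance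
  apply Measure.ext_of_charFunDual
  ext L
  rw [charFunDual_apply, charFunDual_apply, integral_map hm1.aemeasurable (by fun_prop),
    integral_map hm2.aemeasurable (by fun_prop)]
  set t1 := L (1, 0) with ht1
  set t2 := L (0, 1) with ht2
  have hl : ∀ p : EE n × (ℝ × ℝ),
      Complex.exp ((L ((inner ℝ b p.1 + σ * p.2.1, inner ℝ b' p.1 + σ' * p.2.2) : ℝ × ℝ) : ℝ)
        * Complex.I) =
      Complex.exp ((inner ℝ p.1 (t1 • b + t2 • b') : ℝ) * Complex.I) *
        (Complex.exp (((t1 * σ : ℝ) : ℂ) * p.2.1 * Complex.I) *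
          Complex.exp (((t2 * σ' : ℝ) : ℂ) * p.2.2 * Complex.I)) := by
    intro p
    rw [lin, ← ht1, ← ht2, inner_add_right, inner_smul_right, inner_smul_right,
      real_inner_comm b p.1, real_inner_comm b' p.1, ← Complex.exp_add, ← Complex.exp_add]
    congr 1
    push_cast
    ring
  have hr : ∀ z : ℝ × ℝ, Complex.exp ((L (z.1, inner ℝ b b' * z.1 + s * z.2) : ℝ) * Complex.I) =
      Complex.exp (((t1 + t2 * inner ℝ b b' : ℝ) : ℂ) * z.1 * Complex.I) *
        Complex.exp (((t2 * s : ℝ) : ℂ) * z.2 * Complex.I) := by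
    intro z
    rw [lin, ← ht1, ← ht2, ← Complex.exp_add]
    congr 1
    push_cast
    ring
  simp_rw [hl, hr]
  rw [integral_prod_mul (μ := gS n) (ν := g1.prod g1)
      (fun y : EE n => Complex.exp ((inner ℝ y (t1 • b + t2 • b') : ℝ) * Complex.I))
      (fun z : ℝ × ℝ => Complex.exp (((t1 * σ : ℝ) : ℂ) * z.1 * Complex.I) *
          Complex.exp (((t2 * σ' : ℝ) : ℂ) * z.2 * Complex.I)),
    integral_prod_mul (μ := g1) (ν := g1)
      (fun u : ℝ => Complex.exp (((t1 * σ : ℝ) : ℂ) * u * Complex.I))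
      (fun u : ℝ => Complex.exp (((t2 * σ' : ℝ) : ℂ) * u * Complex.I)),
    integral_prod_mul (μ := g1) (ν := g1)
      (fun u : ℝ => Complex.exp (((t1 + t2 * inner ℝ b b' : ℝ) : ℂ) * u * Complex.I))
      (fun u : ℝ => Complex.exp (((t2 * s : ℝ) : ℂ) * u * Complex.I)),
    ← charFun_apply, ← charFun_apply_real, ← charFun_apply_real, ← charFun_apply_real,
    ← charFun_apply_real]
  unfold g1 gS
  rw [charFun_stdGaussian, charFun_gaussianReal, charFun_gaussianReal, charFun_gaussianReal,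
    charFun_gaussianReal, ← Complex.exp_add, ← Complex.exp_add, ← Complex.exp_add]
  congr 1
  have hn : ‖t1 • b + t2 • b'‖ ^ 2 + (t1 * σ) ^ 2 + (t2 * σ') ^ 2 =
      (t1 + t2 * inner ℝ b b') ^ 2 + (t2 * s) ^ 2 := by
    rw [norm_add_sq_real, norm_smul, norm_smul, inner_smul_left, inner_smul_right, mul_pow, mul_pow,
      Real.norm_eq_abs, Real.norm_eq_abs, sq_abs, sq_abs]
    simp only [conj_trivial]
    linear_combination t1 ^ 2 * h1 - t2 ^ 2 * h2
  have hnC : ((‖t1 • b + t2 • b'‖ : ℝ) : ℂ) ^ 2 + ((t1 * σ : ℝ) : ℂ) ^ 2 + ((t2 * σ' : ℝ) : ℂ) ^ 2 =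
      ((t1 + t2 * inner ℝ b b' : ℝ) : ℂ) ^ 2 + ((t2 * s : ℝ) : ℂ) ^ 2 := by
    exact_mod_cast hn
  push_cast at hnC ⊢
  linear_combination (-1 / 2 : ℂ) * hnC

end PET
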