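import Pool.Agent.PET.Stmts
import Pool.Agent.SBA.FUB

set_option autoImplicit false

/-! ### The projection of a body to a hyperplane, measured by the Euclidean Hausdorff measure -/

namespace PET

open MeasureTheory Set
open scoped ENNReal Pointwise
open SBA (EE Body vl kap)

namespace Nrm_

lemma coe_prj {n : ℕ} (K : Set (EE n)) (u : EE n) (hu : ‖u‖ = 1) :
    (Subtype.val : ((ℝ ∙ u)ᗮ : Submodule ℝ (EE n)) → EE n) '' prj K u =
      (fun x : EE n => x - (inner ℝ u x : ℝ) • u) '' K := by
  unfold prj
  rw [image_image]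
  refine image_congr fun x _ => ?_
  have h1 := (ℝ ∙ u).starProjection_add_starProjection_orthogonal x
  have h2 := Submodule.starProjection_unit_singleton ℝ hu x
  rw [h2] at h1
  exact eq_sub_of_add_eq' h1

theorem vol_prj {n : ℕ} (hn : 2 ≤ n) (K : Set (EE n)) (u : EE n) (hu : ‖u‖ = 1) :
    volume (prj K u) = μHE[n - 1] ((fun x : EE n => x - (inner ℝ u x : ℝ) • u) '' K) := by
  rw [← coe_prj K u hu, (isometry_subtype_coe).euclideanHausdorffMeasure_image,
    ← SBA.FUB_.finrank_perp u hu hn, InnerProductSpace.euclideanHausdorffMeasure_eq_volume]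

end Nrm_

end PET
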