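import Pool.Agent.PET.Defs
import Pool.Agent.SBA.Stmts

/-!
# Squad PET (MP_0bf616_gt): all statements
-/

namespace PET

open MeasureTheory Set Filter Topology
open scoped ENNReal Pointwise
open SBA (EE Body vl kap)

noncomputable section

/-! ## A. Convex bodies, gauge, Minkowski's inequality, projections -/

/-- basic properties of support functions of symmetric bodies -/
def Stmt_HSB : Prop :=
  ∀ (n : ℕ) (M : Set (EE n)), Body M →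
    (∀ v, ∃ x ∈ M, inner ℝ x v = hs M v) ∧ (∀ v, ∀ x ∈ M, inner ℝ x v ≤ hs M v) ∧
    (∀ (s : ℝ) (v : EE n), 0 ≤ s → hs M (s • v) = s * hs M v) ∧
    (∀ v v' : EE n, hs M (v + v') ≤ hs M v + hs M v') ∧ (∀ v, 0 ≤ hs M v) ∧
    Continuous (hs M) ∧
    (∀ (r : ℝ) (v : EE n), 0 ≤ r → Metric.closedBall 0 r ⊆ M → r * ‖v‖ ≤ hs M v) ∧
    (∀ (R : ℝ) (v : EE n), M ⊆ Metric.closedBall 0 R → hs M v ≤ R * ‖v‖) ∧
    (∃ r R : ℝ, 0 < r ∧ 0 < R ∧ Metric.closedBall 0 r ⊆ M ∧ M ⊆ Metric.closedBall 0 R)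

/-- linear images of symmetric bodies, the unit ball. Uses HSB -/
def Stmt_HSL : Prop :=
  ∀ (n : ℕ), 1 ≤ n →
    (∀ (M : Set (EE n)) (A : EE n →L[ℝ] EE n), Body M → A.det ≠ 0 →
      Body (A '' M) ∧ vl (A '' M) = |A.det| * vl M ∧
      ∀ v, hs (A '' M) v = hs M (ContinuousLinearMap.adjoint A v)) ∧
    Body (Metric.closedBall (0 : EE n) 1) ∧
    (∀ v : EE n, hs (Metric.closedBall (0 : EE n) 1) v = ‖v‖) ∧ 0 < kap n ∧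
    (∀ M : Set (EE n), Body M → 0 < vl M) ∧
    (∀ (A : EE n →L[ℝ] EE n), A.det = 1 → ∃ a : ℝ, 0 < a ∧ ∀ v, a * ‖v‖ ≤ ‖A v‖)

/-- the gauge function and its gradient -/
def Stmt_GRK : Prop :=
  ∀ (n : ℕ) (K : Set (EE n)), CB K →
    (∀ᵐ x : EE n, DifferentiableAt ℝ (gauge K) x) ∧
    Measurable (fun x => gradient (gauge K) x) ∧
    (∀ x, DifferentiableAt ℝ (gauge K) x → ∀ y, inner ℝ (gradient (gauge K) x) y ≤ gauge K y) ∧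
    (∀ x, DifferentiableAt ℝ (gauge K) x → inner ℝ (gradient (gauge K) x) x = gauge K x) ∧
    (∀ (s : ℝ) (x : EE n), 0 < s → gradient (gauge K) (s • x) = gradient (gauge K) x) ∧
    (∀ x, x ∈ K ↔ gauge K x ≤ 1) ∧
    ∃ r R : ℝ, 0 < r ∧ 0 < R ∧ Metric.closedBall 0 r ⊆ K ∧ K ⊆ Metric.closedBall 0 R ∧
      (∀ x, ‖gradient (gauge K) x‖ ≤ r⁻¹) ∧ (∀ x y, |gauge K x - gauge K y| ≤ r⁻¹ * ‖x - y‖) ∧
      ∀ x, x ≠ 0 → DifferentiableAt ℝ (gauge K) x → R⁻¹ ≤ ‖gradient (gauge K) x‖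

/-- volume of a star-shaped set given by a 0-homogeneous function -/
def Stmt_POK : Prop :=
  ∀ (n : ℕ) (K : Set (EE n)) (lam : EE n → ℝ), 1 ≤ n → CB K → Measurable lam → (∀ x, 0 ≤ lam x) →
    (∀ (s : ℝ) (x : EE n), 0 < s → lam (s • x) = lam x) →
    volume {x | gauge K x ≤ lam x} = ∫⁻ x in K, ENNReal.ofReal (lam x ^ n)

/-- volume of `K + t M`. Uses GRK, POK, HSB -/
def Stmt_MIK : Prop :=
  ∀ (n : ℕ) (K M : Set (EE n)) (t : ℝ), 1 ≤ n → CB K → Body M → 0 < t →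
    volume (K + t • M) ≤ ∫⁻ x in K, ENNReal.ofReal ((1 + t * hs M (gradient (gauge K) x)) ^ n)

/-- Minkowski's first inequality. Uses SBA.BMF, MIK, GRK, HSB -/
def Stmt_ISK : Prop :=
  ∀ (n : ℕ) (K M : Set (EE n)), 2 ≤ n → CB K → Body M →
    Integrable (fun x => hs M (gradient (gauge K) x)) ((volume : Measure (EE n)).restrict K) ∧
    vl K ^ (((n : ℝ) - 1) / n) * vl M ^ (1 / (n : ℝ)) ≤ ∫ x in K, hs M (gradient (gauge K) x)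

/-- variation of a convex function on a sublevel set -/
def Stmt_LIN : Prop :=
  ∀ (f : ℝ → ℝ) (m : ℝ), ConvexOn ℝ univ f → (∀ s, m ≤ f s) → m ≤ 1 →
    Bornology.IsBounded {s | f s ≤ 1} →
    ∫⁻ s in {s | f s ≤ 1}, ‖deriv f s‖ₑ ≤ ENNReal.ofReal (2 * (1 - m))

/-- volume of a cone -/
def Stmt_GLC : Prop :=
  ∀ (V : Type) [NormedAddCommGroup V] [InnerProductSpace ℝ V] [FiniteDimensional ℝ V]
    [MeasurableSpace V] [BorelSpace V] (C : Set V), CB C →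
    ENNReal.ofReal (Module.finrank ℝ V + 1) * ∫⁻ x in C, ENNReal.ofReal (1 - gauge C x) =
      volume C

/-- projections of `K` -/
def Stmt_PRC : Prop :=
  ∀ (n : ℕ) (K : Set (EE n)) (u : EE n), CB K → ‖u‖ = 1 →
    CB (prj K u) ∧ ∀ (s : ℝ) (ξ : (ℝ ∙ u)ᗮ), gauge (prj K u) ξ ≤ gauge K (s • u + (ξ : EE n))

/-- Cauchy's projection formula, one inequality. Uses SBA.DEC, LIN, GLC, PRC, GRK -/
def Stmt_PRF : Prop :=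
  ∀ (n : ℕ) (K : Set (EE n)) (u : EE n), 2 ≤ n → CB K → ‖u‖ = 1 →
    ENNReal.ofReal (n / 2) * ∫⁻ x in K, ‖(inner ℝ u (gradient (gauge K) x) : ℝ)‖ₑ ≤
      volume (prj K u)

/-- the normalised measure of a body is admissible. Uses GRK, ISK, HSB -/
def Stmt_KAD : Prop :=
  ∀ (n : ℕ) (K : Set (EE n)), 2 ≤ n → CB K → IsFiniteMeasure (muK K) ∧ Adm (muK K)

/-- the projection body is bounded -/
def Stmt_PBB : Prop :=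
  ∀ (n : ℕ) (K : Set (EE n)), 2 ≤ n → IsCompact K → Bornology.IsBounded (PiB K)

/-- the projection body contains a multiple of the zonoid. Uses PRF, GRK, PBB -/
def Stmt_KPI : Prop :=
  ∀ (n : ℕ) (K : Set (EE n)), 2 ≤ n → CB K → vl K ^ (n - 1) * vl (Zn (muK K)) ≤ vl (PiB K)

/-- translations -/
def Stmt_TRN : Prop :=
  ∀ (n : ℕ) (K : Set (EE n)), Convex ℝ K → IsCompact K → (interior K).Nonempty →
    ∃ K' : Set (EE n), CB K' ∧ vl K' = vl K ∧ PiB K' = PiB K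

/-! ## B. Admissible measures -/

/-- the measure is not concentrated near a hyperplane. Uses HSB, HSL, DTS -/
def Stmt_LOW : Prop :=
  ∀ (n : ℕ) (μ : Measure (EE n)) [IsFiniteMeasure μ], 2 ≤ n → Adm μ →
    ∃ c : ℝ, 0 < c ∧ ∀ u : EE n, c * ‖u‖ ≤ ∫ v, |inner ℝ u v| ∂μ

/-- `SL(n)` invariance. Uses HSB, HSL -/
def Stmt_ADT : Prop :=
  ∀ (n : ℕ) (μ : Measure (EE n)) [IsFiniteMeasure μ] (A : EE n →L[ℝ] EE n), 2 ≤ n → Adm μ →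
    A.det = 1 → Adm (μ.map A) ∧ vl (Zn (μ.map A)) = vl (Zn μ)

/-- the zonoid is compact, convex and symmetric -/
def Stmt_ZNB : Prop :=
  ∀ (n : ℕ) (μ : Measure (EE n)) [IsFiniteMeasure μ] (b : ℝ), (∀ᵐ v ∂μ, ‖v‖ ≤ b) →
    Convex ℝ (Zn μ) ∧ IsCompact (Zn μ) ∧ (∀ x ∈ Zn μ, -x ∈ Zn μ) ∧ (0 : EE n) ∈ Zn μ

/-- determinants of transvections, `As` -/
def Stmt_DTS : Prop :=
  ∀ (n : ℕ), 1 ≤ n → (∀ e u : EE n,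
    (ContinuousLinearMap.id ℝ (EE n) + (innerSL ℝ e).smulRight u).det = 1 + inner ℝ e u) ∧
    (∀ (s : ℝ) (e : EE n), ‖e‖ = 1 → (As s e).det = 1) ∧
    (∀ A B : EE n →L[ℝ] EE n, (A.comp B).det = A.det * B.det)

/-! ## C. The bodies `MW` -/

/-- basic properties -/
def Stmt_MWB : Prop :=
  ∀ (n m : ℕ) (t : ℝ) (w : Fin m → EE n), 1 ≤ n → 0 < t → US w →
    Body (MW t w) ∧ Metric.closedBall 0 (t / √(n + t ^ 2)) ⊆ MW t w ∧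
    MW t w ⊆ Metric.closedBall 0 1 ∧ ∀ x ∈ MW t w, ∀ j, |inner ℝ x (w j)| ≤ t / √n

/-- uniform convexity. Uses MWB, HSB -/
def Stmt_UCV : Prop :=
  ∀ (n m : ℕ) (t : ℝ) (w : Fin m → EE n), 1 ≤ n → 0 < t → US w →
    ∀ x ∈ MW t w, ∀ x' ∈ MW t w, ∀ v : EE n,
      inner ℝ ((1 / 2 : ℝ) • (x + x')) v ≤ (1 - ‖x - x'‖ ^ 2 / 8) * hs (MW t w) v

/-- the support map. Uses UCV, MWB, HSB -/
def Stmt_MXV : Prop :=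
  ∀ (n m : ℕ) (t : ℝ) (w : Fin m → EE n), 1 ≤ n → 0 < t → US w →
    ∃ x : EE n → EE n, SM (MW t w) x

/-- volume of a cap -/
def Stmt_CAP : Prop :=
  ∀ (n : ℕ) (w : EE n) (a : ℝ), 1 ≤ n → ‖w‖ = 1 → 0 ≤ a →
    vl (Metric.closedBall 0 1 ∩ {x | a < |inner ℝ x w|}) ≤
      2 * (kap n * Real.exp (-(n * a ^ 2 / 2)))

/-- volume of `MW`. Uses CAP, MWB -/
def Stmt_MWV : Prop :=
  ∀ (n m : ℕ) (t τ : ℝ) (w : Fin m → EE n), 1 ≤ n → 0 < τ → τ < t → US w →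
    (1 - 2 * m * Real.exp (-(τ ^ 2 / 2))) * (√(1 - τ ^ 2 / t ^ 2) ^ n * kap n) ≤ vl (MW t w)

/-- continuity in `w`. Uses MWB, HSB -/
def Stmt_MWC : Prop :=
  ∀ (n m : ℕ) (t δ : ℝ) (w w' : Fin m → EE n) (v : EE n), 1 ≤ n → 0 < t → 0 ≤ δ → US w → US w' →
    (∀ j, ‖w j - w' j‖ ≤ δ) → hs (MW t w) v ≤ √(1 + 2 * n * δ / t ^ 2) * hs (MW t w') v

/-- comparison of `MW t w` and the image under `As`. Uses MWB, HSB -/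
def Stmt_DIO : Prop :=
  ∀ (n m : ℕ) (t s : ℝ) (w : Fin m → EE n) (e : EE n), 1 ≤ n → 0 < t → 0 ≤ s → US w → ‖e‖ = 1 →
    ∃ w' : Fin m → EE n, US w' ∧
      (∀ v, hs (MW t w') (As s e v) ≤ Real.exp (s / n) * hs (MW t w) v) ∧
      ∀ v, v ≠ 0 → ‖As s e v‖ ≤ Real.exp (s / n) *
        (‖v‖ - (1 - Real.exp (-(2 * s))) / 2 * ((inner ℝ v e) ^ 2 / ‖v‖))

/-- adding one slab. Uses MWB, HSB -/
def Stmt_ADS : Prop :=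
  ∀ (n m : ℕ) (t : ℝ) (w : Fin m → EE n) (w₀ : EE n) (x : EE n → EE n), 1 ≤ n → 0 < t → US w →
    ‖w₀‖ = 1 → SM (MW t w) x → US (Fin.cons w₀ w : Fin (m + 1) → EE n) ∧
    ∀ v, hs (MW t (Fin.cons w₀ w : Fin (m + 1) → EE n)) v ≤ hs (MW t w) v ∧
      (2 * t / √n ≤ |inner ℝ (x v) w₀| →
        hs (MW t (Fin.cons w₀ w : Fin (m + 1) → EE n)) v ≤
          (1 - t ^ 2 / (4 * n)) * hs (MW t w) v)

/-! ## D. The functional -/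

/-- integrability and change of variables. Uses MWB, HSB -/
def Stmt_TRM : Prop :=
  ∀ (n m : ℕ) (μ : Measure (EE n)) [IsFiniteMeasure μ] (t β b : ℝ) (w : Fin m → EE n)
    (A : EE n →L[ℝ] EE n), 1 ≤ n → 0 < t → US w → (∀ᵐ v ∂μ, ‖v‖ ≤ b) →
    Integrable (fun v => hs (MW t w) (A v)) μ ∧ Integrable (fun v => ‖A v‖) μ ∧
    ∀ B : EE n →L[ℝ] EE n, Psi (μ.map A) t β w B = Psi μ t β w (B.comp A)

/-- continuity of the functional. Uses MWC, MWB, HSB -/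
def Stmt_PSC : Prop :=
  ∀ (n m : ℕ) (μ : Measure (EE n)) [IsFiniteMeasure μ] (t β b : ℝ), 1 ≤ n → 0 < t → 0 ≤ β →
    (∀ᵐ v ∂μ, ‖v‖ ≤ b) →
    ContinuousOn (fun p : (Fin m → EE n) × (EE n →L[ℝ] EE n) => Psi μ t β p.1 p.2) {p | US p.1}

/-- existence of a minimiser. Uses PSC, LOW, SBA.SNG, MWB, HSB, TRM -/
def Stmt_PSM : Prop :=
  ∀ (n m : ℕ) (μ : Measure (EE n)) [IsFiniteMeasure μ] (t β : ℝ), 2 ≤ n → 0 < t → 0 < β → Adm μ →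
    ∃ (w : Fin m → EE n) (A : EE n →L[ℝ] EE n), US w ∧ A.det = 1 ∧
      ∀ (w' : Fin m → EE n) (A' : EE n →L[ℝ] EE n), US w' → A'.det = 1 →
        Psi μ t β w A ≤ Psi μ t β w' A'

/-- lower bounds. Uses ADT, MWB, HSB, HSL, TRM -/
def Stmt_PSL : Prop :=
  ∀ (n m : ℕ) (μ : Measure (EE n)) [IsFiniteMeasure μ] (t β : ℝ) (w : Fin m → EE n)
    (A : EE n →L[ℝ] EE n), 2 ≤ n → 0 < t → 0 < β → Adm μ → US w → A.det = 1 →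
    (1 + β) * n * vl (MW t w) ^ (1 / (n : ℝ)) ≤ Psi μ t β w A ∧
    β * n * kap n ^ (1 / (n : ℝ)) ≤ Psi μ t β w A

/-- first order condition for orthogonal vectors. Uses DTS, MWB, HSB, TRM -/
def Stmt_STO : Prop :=
  ∀ (n m : ℕ) (μ : Measure (EE n)) [IsFiniteMeasure μ] (t β : ℝ) (w : Fin m → EE n)
    (x : EE n → EE n), 2 ≤ n → 0 < t → 0 < β → Adm μ → US w → SM (MW t w) x → IsMin μ t β w →
    ∀ u e : EE n, inner ℝ u e = 0 →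
      ∫ v, inner ℝ (x v + (β / ‖v‖) • v) u * inner ℝ v e ∂μ = 0

/-- first order condition. Uses STO, MWB, TRM -/
def Stmt_STA : Prop :=
  ∀ (n m : ℕ) (μ : Measure (EE n)) [IsFiniteMeasure μ] (t β : ℝ) (w : Fin m → EE n)
    (x : EE n → EE n), 2 ≤ n → 0 < t → 0 < β → Adm μ → US w → SM (MW t w) x → IsMin μ t β w →
    ∀ u e : EE n, ∫ v, inner ℝ (x v + (β / ‖v‖) • v) u * inner ℝ v e ∂μ =
      Psi μ t β w (ContinuousLinearMap.id ℝ (EE n)) / n * inner ℝ u e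

/-- second moments. Uses DIO, DTS, TRM -/
def Stmt_DIA : Prop :=
  ∀ (n m : ℕ) (μ : Measure (EE n)) [IsFiniteMeasure μ] (t β : ℝ) (w : Fin m → EE n), 2 ≤ n →
    0 < t → 0 < β → Adm μ → US w → IsMin μ t β w →
    ∀ e : EE n, ∫ v, (inner ℝ v e) ^ 2 / ‖v‖ ∂μ ≤
      Psi μ t β w (ContinuousLinearMap.id ℝ (EE n)) / n / β * ‖e‖ ^ 2

/-- diffuseness. Uses ADS, MWB, HSB, TRM -/
def Stmt_SLA : Prop :=
  ∀ (n m : ℕ) (μ : Measure (EE n)) [IsFiniteMeasure μ] (t β c : ℝ) (w : Fin m → EE n)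
    (x : EE n → EE n), 2 ≤ n → 0 < t → t ^ 2 ≤ n → 0 < β → 0 < c → Adm μ → US w →
    SM (MW t w) x →
    (∀ w' : Fin (m + 1) → EE n, US w' → (1 - c) * Psi μ t β w (ContinuousLinearMap.id ℝ (EE n)) ≤
      Psi μ t β w' (ContinuousLinearMap.id ℝ (EE n))) →
    ∀ w₀ : EE n, ‖w₀‖ = 1 → ∫ v in {v | 2 * t / √n ≤ |inner ℝ (x v) w₀|}, ‖v‖ ∂μ ≤
      6 * c * (n * √n) / t ^ 3 * Psi μ t β w (ContinuousLinearMap.id ℝ (EE n))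

/-- pigeonhole -/
def Stmt_PIG : Prop :=
  ∀ (a : ℕ → ℝ) (c L : ℝ) (N : ℕ), 0 < c → c < 1 → (∀ m, L ≤ a m) → (1 - c) ^ N * a 0 < L →
    ∃ m < N, (1 - c) * a m ≤ a (m + 1)

/-- good position. Uses PSM, TRM, ADT, MXV, STA, DIA, SLA, PSL, PIG, DTS, MWB, HSL -/
def Stmt_POS : Prop :=
  ∀ (n N : ℕ) (μ : Measure (EE n)) [IsFiniteMeasure μ] (t β c : ℝ) (A₀ : EE n →L[ℝ] EE n), 2 ≤ n →
    Adm μ → 0 < t → t ^ 2 ≤ n → 0 < β → β ≤ 1 → 0 < c → c < 1 →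
    (1 - c) ^ N * (8 * n) < β * n * kap n ^ (1 / (n : ℝ)) →
    A₀.det = 1 → ∫ v, ‖A₀ v‖ ∂μ ≤ 4 * n →
    ∃ (A : EE n →L[ℝ] EE n) (m : ℕ) (w : Fin m → EE n) (x : EE n → EE n) (lam : ℝ),
      A.det = 1 ∧ m ≤ N ∧ US w ∧ 0 < lam ∧ (1 + β) * vl (MW t w) ^ (1 / (n : ℝ)) ≤ lam ∧
      GP (μ.map A) x β (2 * t / √n) (6 * c * (n * √n) / t ^ 3) lam

/-- the other case. Uses PSM, TRM, ADT, MXV, STA, ZNB, DTS, MWB, HSL -/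
def Stmt_CSA : Prop :=
  ∀ (n : ℕ) (μ : Measure (EE n)) [IsFiniteMeasure μ] (S : ℝ), 2 ≤ n → Adm μ → 0 ≤ S →
    (∀ A : EE n →L[ℝ] EE n, A.det = 1 → S ≤ ∫ v, ‖A v‖ ∂μ) →
    (S / (2 * n)) ^ n * kap n ≤ vl (Zn μ)

/-! ## E. Gaussian computations -/

/-- joint law of two noisy coordinates -/
def Stmt_JLW : Prop :=
  ∀ (n : ℕ) (b b' : EE n) (σ σ' s : ℝ), ‖b‖ ^ 2 + σ ^ 2 = 1 →
    (inner ℝ b b') ^ 2 + s ^ 2 = ‖b'‖ ^ 2 + σ' ^ 2 →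
    ((gS n).prod (g1.prod g1)).map
      (fun p => ((inner ℝ b p.1 + σ * p.2.1, inner ℝ b' p.1 + σ' * p.2.2) : ℝ × ℝ)) =
    (g1.prod g1).map (fun z => (z.1, inner ℝ b b' * z.1 + s * z.2))

/-- Sheppard's formula -/
def Stmt_SHP : Prop :=
  ∀ c : ℝ, |c| ≤ 1 →
    ∫ z, Real.sign z.1 * Real.sign (c * z.1 + √(1 - c ^ 2) * z.2) ∂(g1.prod g1) =
      2 / Real.pi * Real.arcsin c

/-- first absolute moment -/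
def Stmt_ABZ : Prop :=
  ∀ c s : ℝ, ∫ z, Real.sign z.1 * (c * z.1 + s * z.2) ∂(g1.prod g1) = √(2 / Real.pi) * c

/-- measurability and bounds of `ph` -/
def Stmt_PHM : Prop :=
  ∀ n : ℕ, Measurable (fun p : EE n × EE n => ph p.1 p.2) ∧ Measurable Real.sign ∧
    ∀ b y : EE n, |ph b y| ≤ 1

/-- smoothed sign against a coordinate. Uses JLW, ABZ, PHM -/
def Stmt_GS1 : Prop :=
  ∀ (n : ℕ) (b z : EE n), ‖b‖ ≤ 1 →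
    ∫ y, ph b y * inner ℝ z y ∂(gS n) = √(2 / Real.pi) * inner ℝ b z

/-- correlation of two smoothed signs. Uses JLW, SHP, PHM -/
def Stmt_GS2 : Prop :=
  ∀ (n : ℕ) (b b' : EE n), ‖b‖ ≤ 1 → ‖b'‖ ≤ 1 →
    ∫ y, ph b y * ph b' y ∂(gS n) = 2 / Real.pi * Real.arcsin (inner ℝ b b')

/-- elementary bound for arcsin -/
def Stmt_ASN : Prop :=
  ∀ s : ℝ, |s| ≤ 1 → |Real.arcsin s - s| ≤ |s| ^ 3

/-- properties of `bb` -/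
def Stmt_BBM : Prop :=
  ∀ (n : ℕ) (β : ℝ) (x : EE n → EE n), 0 < β → Measurable x → (∀ v, ‖x v‖ ≤ 1) →
    Measurable (bb β x) ∧ ∀ v, ‖bb β x v‖ ≤ 1

/-- the points `pp` are in the zonoid. Uses PHM, BBM -/
def Stmt_PPZ : Prop :=
  ∀ (n : ℕ) (μ : Measure (EE n)) [IsFiniteMeasure μ] (β b : ℝ) (x : EE n → EE n), 0 < β →
    Measurable x → (∀ v, ‖x v‖ ≤ 1) → (∀ᵐ v ∂μ, ‖v‖ ≤ b) →
    Measurable (pp μ β x) ∧ (∀ y, pp μ β x y ∈ Zn μ) ∧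
    ∃ R : ℝ, ∀ y, ‖pp μ β x y‖ ≤ R

/-- first Fubini. Uses GS1, PHM, BBM, PPZ, GNS -/
def Stmt_EPY : Prop :=
  ∀ (n : ℕ) (μ : Measure (EE n)) [IsFiniteMeasure μ] (β b : ℝ) (x : EE n → EE n), 1 ≤ n → 0 < β →
    Measurable x → (∀ v, ‖x v‖ ≤ 1) → (∀ᵐ v ∂μ, ‖v‖ ≤ b) →
    Integrable (fun y => (inner ℝ (pp μ β x y) y : ℝ)) (gS n) ∧
    ∫ y, inner ℝ (pp μ β x y) y ∂(gS n) =
      1 / 2 * √(2 / Real.pi) * ∫ v, inner ℝ (bb β x v) v ∂μ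

/-- second Fubini. Uses GS2, PHM, BBM, PPZ -/
def Stmt_EPP : Prop :=
  ∀ (n : ℕ) (μ : Measure (EE n)) [IsFiniteMeasure μ] (β b : ℝ) (x : EE n → EE n), 1 ≤ n → 0 < β →
    Measurable x → (∀ v, ‖x v‖ ≤ 1) → (∀ᵐ v ∂μ, ‖v‖ ≤ b) →
    Integrable (fun y => ‖pp μ β x y‖ ^ 2) (gS n) ∧
    ∫ y, ‖pp μ β x y‖ ^ 2 ∂(gS n) =
      1 / (2 * Real.pi) *
        ∫ v, ∫ v', Real.arcsin (inner ℝ (bb β x v) (bb β x v')) * inner ℝ v v' ∂μ ∂μ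

/-- norms of Gaussian vectors. Uses SBA.GNM -/
def Stmt_GNS : Prop :=
  ∀ (n : ℕ), 1 ≤ n →
    Integrable (fun y : EE n => ‖y‖ ^ 4) (gS n) ∧ Integrable (fun y : EE n => ‖y‖ ^ 2) (gS n) ∧
    ∫ y : EE n, ‖y‖ ^ 2 ∂(gS n) = n ∧ ∫ y : EE n, (‖y‖ ^ 2 - n) ^ 2 ∂(gS n) = 2 * n

/-- density of the Gaussian measure. Uses SBA.GDN -/
def Stmt_GDS : Prop :=
  ∀ (n : ℕ), 1 ≤ n → gS n = (volume : Measure (EE n)).withDensity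
    (fun y => ENNReal.ofReal ((√(2 * Real.pi) ^ n)⁻¹ * Real.exp (-(‖y‖ ^ 2 / 2))))

/-- consequences of good position. Uses BBM -/
def Stmt_GPB : Prop :=
  ∀ (n : ℕ) (μ : Measure (EE n)) [IsFiniteMeasure μ] (x : EE n → EE n) (β ε θ lam : ℝ), 1 ≤ n →
    0 < β → 0 < lam → GP μ x β ε θ lam →
    (∀ u e : EE n, Integrable (fun v => (inner ℝ (bb β x v) u * inner ℝ v e : ℝ)) μ) ∧
    (∀ u e : EE n, ∫ v, inner ℝ (bb β x v) u * inner ℝ v e ∂μ = lam / (1 + β) * inner ℝ u e) ∧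
    ∫ v, inner ℝ (bb β x v) v ∂μ = n * (lam / (1 + β)) ∧
    ∫ v, ∫ v', inner ℝ (bb β x v) (bb β x v') * inner ℝ v v' ∂μ ∂μ = n * (lam / (1 + β)) ^ 2

/-- variance of `pp - l0 y`. Uses EPY, EPP, ASN, GNS, GPB, PPZ, BBM -/
def Stmt_EVA : Prop :=
  ∀ (n : ℕ) (μ : Measure (EE n)) [IsFiniteMeasure μ] (x : EE n → EE n) (β ε θ lam : ℝ), 1 ≤ n →
    0 < β → 0 < lam → GP μ x β ε θ lam →
    Integrable (fun y => ‖pp μ β x y - l0 β lam • y‖ ^ 2) (gS n) ∧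
    ∫ y, ‖pp μ β x y - l0 β lam • y‖ ^ 2 ∂(gS n) ≤ 1 / (2 * Real.pi) * RR μ β x

/-- second moment bounds -/
def Stmt_VHS : Prop :=
  ∀ (n : ℕ) (μ : Measure (EE n)) [IsFiniteMeasure μ] (x : EE n → EE n) (β ε θ lam : ℝ), 1 ≤ n →
    0 < β → 0 < lam → GP μ x β ε θ lam →
    ∫ v, ‖v‖ ∂μ ≤ n * lam / β ∧
    ∫ v, ∫ v', (inner ℝ v v') ^ 2 / (‖v‖ * ‖v'‖) ∂μ ∂μ ≤ n * lam ^ 2 / β ^ 2 ∧
    ∫ v, ∫ v', |inner ℝ v v'| ∂μ ∂μ ≤ n * √n * lam ^ 2 / β ^ 2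

/-- pointwise bound -/
def Stmt_PTW : Prop :=
  ∀ (n : ℕ) (x x' v v' : EE n) (β ε : ℝ), 0 < β → β ≤ 1 → 0 < ε → ‖x‖ ≤ 1 → ‖x'‖ ≤ 1 →
    v ≠ 0 → v' ≠ 0 →
    |inner ℝ ((1 + β)⁻¹ • (x + (β / ‖v‖) • v)) ((1 + β)⁻¹ • (x' + (β / ‖v'‖) • v'))| ^ 3 *
      |inner ℝ v v'| ≤
      108 * ε ^ 3 * |inner ℝ v v'| + 4 * β ^ 6 * ((inner ℝ v v') ^ 2 / (‖v‖ * ‖v'‖)) +
      ((if ε ≤ |inner ℝ x (‖x'‖⁻¹ • x')| then 1 else 0) +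
        (if ε ≤ |inner ℝ x (‖v'‖⁻¹ • v')| then 1 else 0) +
        (if ε ≤ |inner ℝ x' (‖v‖⁻¹ • v)| then 1 else 0)) * (‖v‖ * ‖v'‖)

/-- the three bad events. Uses VHS -/
def Stmt_BAD : Prop :=
  ∀ (n : ℕ) (μ : Measure (EE n)) [IsFiniteMeasure μ] (x z : EE n → EE n) (β ε θ lam : ℝ), 1 ≤ n →
    0 < β → 0 < lam → 0 < ε → 0 ≤ θ → GP μ x β ε θ lam → Measurable z →
    (∀ v, ‖z v‖ = 1 ∨ z v = 0) →
    ∫ v, ∫ v', (if ε ≤ |inner ℝ (x v) (z v')| then (1 : ℝ) else 0) * (‖v‖ * ‖v'‖) ∂μ ∂μ ≤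
      θ * (n * lam) * (n * lam / β) ∧
    ∫ v, ∫ v', (if ε ≤ |inner ℝ (x v') (z v)| then (1 : ℝ) else 0) * (‖v‖ * ‖v'‖) ∂μ ∂μ ≤
      θ * (n * lam) * (n * lam / β)

/-- bound for the remainder integral. Uses VHS, PTW, BAD, BBM -/
def Stmt_RBD : Prop :=
  ∀ (n : ℕ) (μ : Measure (EE n)) [IsFiniteMeasure μ] (x : EE n → EE n) (β ε θ lam : ℝ), 1 ≤ n →
    0 < β → β ≤ 1 → 0 < lam → 0 < ε → 0 ≤ θ → GP μ x β ε θ lam →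
    RR μ β x ≤ n * lam ^ 2 * (108 * ε ^ 3 * √n / β ^ 2 + 4 * β ^ 4 + 3 * θ * n / β)

/-- variance bound. Uses EVA, RBD -/
def Stmt_RDE : Prop :=
  ∀ (n : ℕ) (μ : Measure (EE n)) [IsFiniteMeasure μ] (x : EE n → EE n) (β ε θ lam δ : ℝ), 1 ≤ n →
    0 < β → β ≤ 1 → 0 < lam → 0 < ε → 0 ≤ θ → GP μ x β ε θ lam →
    4 * (108 * ε ^ 3 * √n / β ^ 2 + 4 * β ^ 4 + 3 * θ * n / β) ≤ δ ^ 2 →
    ∫ y, ‖pp μ β x y - l0 β lam • y‖ ^ 2 ∂(gS n) ≤ l0 β lam ^ 2 * n * δ ^ 2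

/-- the zonoid contains a ball. Uses GPB, BBM, ZNB -/
def Stmt_ZIN : Prop :=
  ∀ (n : ℕ) (μ : Measure (EE n)) [IsFiniteMeasure μ] (x : EE n → EE n) (β ε θ lam : ℝ), 1 ≤ n →
    0 < β → 0 < lam → GP μ x β ε θ lam →
    Body (Zn μ) ∧ Metric.closedBall 0 (l0 β lam) ⊆ Zn μ

/-- shifts of symmetric sets. Uses GDS -/
def Stmt_SHF : Prop :=
  ∀ (n : ℕ) (C : Set (EE n)) (r : EE n), 1 ≤ n → MeasurableSet C → (∀ x ∈ C, -x ∈ C) →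
    ENNReal.ofReal (Real.exp (-(‖r‖ ^ 2 / 2))) * gS n C ≤ gS n {y | r + y ∈ C}

/-- covering. Uses SHF -/
def Stmt_COV : Prop :=
  ∀ (n : ℕ) (Z : Set (EE n)) (s σ ρ : ℝ), 1 ≤ n → Body Z → 0 < s → 0 < σ → 0 ≤ ρ →
    ENNReal.ofReal (3 / 4) ≤ gS n {y | σ • y ∈ s • Z} →
    3 / 4 * Real.exp (-(ρ ^ 2 / (2 * σ ^ 2))) * vl (Z + Metric.closedBall (0 : EE n) ρ) ≤
      (1 + s) ^ n * vl Z

/-- volume of sets of large Gaussian measure. Uses GDS, GNS -/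
def Stmt_GVB : Prop :=
  ∀ (n : ℕ) (A : Set (EE n)), 1 ≤ n → MeasurableSet A → ENNReal.ofReal (3 / 4) ≤ gS n A →
    ENNReal.ofReal (5 / 8 * √(2 * Real.pi) ^ n * Real.exp ((n - 4 * √n) / 2)) ≤ volume A

/-- the good event. Uses PPZ, EVA -/
def Stmt_AEV : Prop :=
  ∀ (n : ℕ) (μ : Measure (EE n)) [IsFiniteMeasure μ] (x : EE n → EE n) (β ε θ lam δ : ℝ), 1 ≤ n →
    0 < β → 0 < lam → 0 < δ → GP μ x β ε θ lam →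
    ∫ y, ‖pp μ β x y - l0 β lam • y‖ ^ 2 ∂(gS n) ≤ l0 β lam ^ 2 * n * δ ^ 2 →
    MeasurableSet {y | ‖pp μ β x y - l0 β lam • y‖ ≤ 2 * l0 β lam * δ * √n} ∧
    ENNReal.ofReal (3 / 4) ≤ gS n {y | ‖pp μ β x y - l0 β lam • y‖ ≤ 2 * l0 β lam * δ * √n}

/-- volume of the zonoid from below, abstract form. Uses COV, GVB -/
def Stmt_VFN : Prop :=
  ∀ (n : ℕ) (Z A : Set (EE n)) (p : EE n → EE n) (l δ s : ℝ), 1 ≤ n → Body Z → 0 < l → 0 < δ →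
    0 < s → Metric.closedBall 0 l ⊆ Z → (∀ y, p y ∈ Z) → MeasurableSet A →
    (∀ y ∈ A, ‖p y - l • y‖ ≤ 2 * l * δ * √n) → ENNReal.ofReal (3 / 4) ≤ gS n A →
    15 / 32 * (l * √(2 * Real.pi) * √(Real.exp 1)) ^ n * ((1 + s) ^ n)⁻¹ *
      Real.exp (-(2 * √n) - 2 * n * δ ^ 2 * (1 + 2 * δ * √n) ^ 2 / s ^ 2) ≤ vl Z

/-- volume of the zonoid in good position. Uses VFN, AEV, RDE, ZIN, PPZ -/
def Stmt_GPZ : Prop :=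
  ∀ (n : ℕ) (μ : Measure (EE n)) [IsFiniteMeasure μ] (x : EE n → EE n) (β ε θ lam δ s : ℝ),
    1 ≤ n → 0 < β → β ≤ 1 → 0 < lam → 0 < ε → 0 ≤ θ → 0 < δ → 0 < s → GP μ x β ε θ lam →
    4 * (108 * ε ^ 3 * √n / β ^ 2 + 4 * β ^ 4 + 3 * θ * n / β) ≤ δ ^ 2 →
    15 / 32 * (lam / (1 + β) * √(Real.exp 1)) ^ n * ((1 + s) ^ n)⁻¹ *
      Real.exp (-(2 * √n) - 2 * n * δ ^ 2 * (1 + 2 * δ * √n) ^ 2 / s ^ 2) ≤ vl (Zn μ)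

/-! ## F. Numbers and the end -/

/-- the parameters are admissible for large `n` -/
def Stmt_NUA : Prop :=
  ∃ n₀ : ℕ, 2 ≤ n₀ ∧ ∀ (n : ℕ) (r t β c τ δ : ℝ), n₀ ≤ n → r = n → t = r ^ (1 / 30 : ℝ) →
    β = r ^ (-(3 / 20) : ℝ) → c = (r ^ 5)⁻¹ → τ = √(2 * Real.log (4 * r ^ 6)) →
    δ = 60 * r ^ (-(3 / 10) : ℝ) →
    0 < t ∧ t ^ 2 ≤ r ∧ 0 < β ∧ β ≤ 1 ∧ 0 < c ∧ c < 1 ∧
    (1 - c) ^ (n ^ 6) * (8 * r) < β * r * (2 / √r) ∧ 0 < τ ∧ τ < t ∧ τ ^ 2 / t ^ 2 ≤ 1 / 2 ∧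
    2 * r ^ 6 * Real.exp (-(τ ^ 2 / 2)) ≤ 1 / 2 ∧ 0 < δ ∧
    4 * (108 * (2 * t / √r) ^ 3 * √r / β ^ 2 + 4 * β ^ 4 + 3 * (6 * c * (r * √r) / t ^ 3) * r / β)
      ≤ δ ^ 2

/-- the final estimate -/
def Stmt_NUB : Prop :=
  ∃ (n₀ : ℕ) (C : ℝ), 0 < C ∧ ∀ (n : ℕ) (r t τ δ s : ℝ), n₀ ≤ n → r = n →
    t = r ^ (1 / 30 : ℝ) → τ = √(2 * Real.log (4 * r ^ 6)) → δ = 60 * r ^ (-(3 / 10) : ℝ) →
    s = r ^ (-(1 / 15) : ℝ) →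
    Real.exp (-(C * r ^ (15 / 16 : ℝ))) ≤ 15 / 64 * √(1 - τ ^ 2 / t ^ 2) ^ n * ((1 + s) ^ n)⁻¹ *
      Real.exp (-(2 * √r) - 2 * r * δ ^ 2 * (1 + 2 * δ * √r) ^ 2 / s ^ 2)

/-- large dimensions. Uses NUA, NUB, POS, CSA, GPZ, MWV, ADT, SBA.KAP, HSL -/
def Stmt_MML : Prop :=
  ∃ (n₀ : ℕ) (C : ℝ), 0 < C ∧ ∀ (n : ℕ) (μ : Measure (EE n)) [IsFiniteMeasure μ], n₀ ≤ n →
    2 ≤ n → Adm μ →
    Real.exp (-(C * (n : ℝ) ^ (15 / 16 : ℝ))) * (Real.exp (n / 2) * kap n) ≤ vl (Zn μ)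

/-- all dimensions. Uses MML, CSA, HSL, ADT -/
def Stmt_MMM : Prop :=
  ∃ C : ℝ, 0 < C ∧ ∀ (n : ℕ) (μ : Measure (EE n)) [IsFiniteMeasure μ], 2 ≤ n → Adm μ →
    Real.exp (-(C * (n : ℝ) ^ (15 / 16 : ℝ))) * (Real.exp (n / 2) * kap n) ≤ vl (Zn μ)

/-- Petty's constant. Uses SBA.KAP -/
def Stmt_PNB : Prop :=
  ∀ n : ℕ, 2 ≤ n → 0 < kap n ∧
    kap (n - 1) ^ n / kap n ^ (n - 2) ≤ √(Real.exp 1) * (Real.exp (n / 2) * kap n)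

/-- the theorem. Uses MMM, KAD, KPI, TRN, PNB -/
def Stmt_FNL : Prop :=
  ∃ C : ℝ, 0 < C ∧ ∀ (n : ℕ) (K : Set (EE n)), 2 ≤ n → Convex ℝ K → IsCompact K →
    (interior K).Nonempty →
    Real.exp (-(C * (n : ℝ) ^ (15 / 16 : ℝ))) *
      (kap (n - 1) ^ n / kap n ^ (n - 2) * vl K ^ (n - 1)) ≤ vl (PiB K)

end

end PET
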